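import Pool.Agent.Lib.MP_216314_pr.Sp.SOrb
import Pool.Agent.Lib.MP_216314_pr.P.PSymB

/-!
# JOB SSym: translations and rotations

* `pr_map`: `IPC.EE_image` (`A/Bas.lean`) with the injective map `σ` (`Finset.map` = `Finset.image`: `Finset.map_eq_image`).
* `dconn_map`: `DConn F ω f g` is reachability in `gr ((F \ ω).image dE)`; adjacency of `a`, `b`: there is `e ∈ F`, `e ∉ ω`, with `{fa e, fb e} = {a, b}` (`ea_dE`, `eb_dE`); under `σ`, `τ` as in
  `reach_map` of `P/PSymA.lean`: a graph isomorphism with vertex bijection `τ`. (Or: two applications of `dconn_rec`, for `σ` and `σ.symm`.)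
* `cp_rot`, `cpd_rot`, `cpd_sh`: cases on the bool. `cp_rE`, `cpd_rE`: induction on `k`, composition.
* `edgeOf_rot1` etc. for one rotation: `corner_cases` and `edgeOf_SE`, ...: SE `(2x+1, 2y)` ↦ NE corner `(-2y+1, 2x+1)` of `(-y, x)`; NE `(2x+1, 2y+1)` ↦ NW `(-2y, 2x+1)`;
  NW `(2x, 2y+1)` ↦ SW `(-2y, 2x)`; SW `(2x, 2y)` ↦ SE `(-2y+1, 2x)` of `(-y, x)`. `next`: open and closed case for each type (`rotE e ∈ ω.map rotE ↔ e ∈ ω`: `Finset.mem_map_equiv` or `mem_map'`).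
  Then induction on `k`.
* `box_rot`: `rotE e ∈ box (-n) n (-n) n ↔ e ∈ box (-n) n (-n) n` (`mem_box`), then induction.
-/

set_option autoImplicit false

noncomputable section

namespace FKS

open Finset FKI FKP
open scoped Classical

theorem pr_map (q : ℝ) (σ : Edge ≃ Edge) (E : Finset Edge) (A : Finset Edge → Prop) :
    IPC.Pr q (E.map σ.toEmbedding) A = IPC.Pr q E (fun ω => A (ω.map σ.toEmbedding)) := by
  have h1 := IPC.EE_image q E (fun e => σ e) (fun a _ b _ hab => σ.injective hab) (fun ω => IPC.ind (A ω))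
  have h2 : ∀ F : Finset Edge, F.map σ.toEmbedding = F.image (fun e => σ e) := by
    intro F
    rw [Finset.map_eq_image]
    rfl
  unfold IPC.Pr
  rw [h2 E, h1]
  refine IPC.EE_congr q E fun ω _ => ?_
  show IPC.ind (A (ω.image fun e => σ e)) = IPC.ind (A (ω.map σ.toEmbedding))
  rw [h2 ω]

private theorem SSym_dedge {F ω : Finset Edge} {a b : V}
    (h : ∃ e ∈ F, e ∉ ω ∧ ((fa e = a ∧ fb e = b) ∨ (fa e = b ∧ fb e = a))) : DConn F ω a b := by
  obtain ⟨e, he, heω, ⟨h1, h2⟩ | ⟨h1, h2⟩⟩ := h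
  · rw [← h1, ← h2]
    exact dconn_step he heω
  · rw [← h1, ← h2]
    exact (dconn_step he heω).symm

theorem dconn_map {σ : Edge ≃ Edge} {τ : V ≃ V} (hc : Cpd σ τ) (F ω : Finset Edge) (f g : V) :
    DConn (F.map σ.toEmbedding) (ω.map σ.toEmbedding) (τ f) (τ g) ↔ DConn F ω f g := by
  constructor
  · intro h
    have h' : DConn F ω f (τ.symm (τ g)) := by
      refine dconn_rec (F := F.map σ.toEmbedding) (ω := ω.map σ.toEmbedding) (f := τ f) (g := τ g)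
        (P := fun x => DConn F ω f (τ.symm x)) ?_ ?_ h
      · show DConn F ω f (τ.symm (τ f))
        rw [Equiv.symm_apply_apply]
        exact DConn.refl _ _ _
      · rintro a b hP ⟨e', he', heω', hends⟩
        obtain ⟨e, rfl⟩ := σ.surjective e'
        have he : e ∈ F := (Finset.mem_map' σ.toEmbedding).1 he'
        have heω : e ∉ ω := fun h => heω' ((Finset.mem_map' σ.toEmbedding).2 h)
        refine DConn.trans hP (SSym_dedge ⟨e, he, heω, ?_⟩)
        rcases hc e with ⟨h1, h2⟩ | ⟨h1, h2⟩ <;> rcases hends with ⟨h3, h4⟩ | ⟨h3, h4⟩ <;>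
          rw [h1] at h3 <;> rw [h2] at h4 <;> rw [← h3, ← h4, Equiv.symm_apply_apply, Equiv.symm_apply_apply]
        · exact Or.inl ⟨rfl, rfl⟩
        · exact Or.inr ⟨rfl, rfl⟩
        · exact Or.inr ⟨rfl, rfl⟩
        · exact Or.inl ⟨rfl, rfl⟩
    rwa [Equiv.symm_apply_apply] at h'
  · intro h
    refine dconn_rec (P := fun x => DConn (F.map σ.toEmbedding) (ω.map σ.toEmbedding) (τ f) (τ x)) (DConn.refl _ _ _) ?_ h
    rintro a b hP ⟨e, he, heω, hends⟩
    have he' : σ e ∈ F.map σ.toEmbedding := (Finset.mem_map' σ.toEmbedding).2 he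
    have heω' : σ e ∉ ω.map σ.toEmbedding := fun h => heω ((Finset.mem_map' σ.toEmbedding).1 h)
    refine DConn.trans hP (SSym_dedge ⟨σ e, he', heω', ?_⟩)
    rcases hc e with ⟨h1, h2⟩ | ⟨h1, h2⟩ <;> rcases hends with ⟨h3, h4⟩ | ⟨h3, h4⟩ <;>
      rw [h1, h2, h3, h4]
    · exact Or.inl ⟨rfl, rfl⟩
    · exact Or.inr ⟨rfl, rfl⟩
    · exact Or.inr ⟨rfl, rfl⟩
    · exact Or.inl ⟨rfl, rfl⟩

theorem cpd_sh (a b : ℤ) : Cpd (shE a b) (shV a b) := by
  rintro ⟨x, y, t⟩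
  left
  cases t
  · refine ⟨?_, rfl⟩
    show ((x + a, y + b - 1) : V) = (x + a, y - 1 + b)
    exact Prod.ext rfl (by show y + b - 1 = y - 1 + b; ring)
  · refine ⟨?_, rfl⟩
    show ((x + a - 1, y + b) : V) = (x - 1 + a, y + b)
    exact Prod.ext (by show x + a - 1 = x - 1 + a; ring) rfl

private theorem SSym_cp1 : Cp rotE rotV := by
  rintro ⟨x, y, t⟩
  cases t
  · exact Or.inl ⟨rfl, rfl⟩
  · right
    refine ⟨?_, ?_⟩
    · show ((-y - 1, x) : V) = (-(y + 1), x)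
      exact Prod.ext (by show -y - 1 = -(y + 1); ring) rfl
    · show ((-y - 1 + 1, x) : V) = (-y, x)
      exact Prod.ext (by show -y - 1 + 1 = -y; ring) rfl

private theorem SSym_cpd1 : Cpd rotE rotF := by
  rintro ⟨x, y, t⟩
  cases t
  · right
    refine ⟨rfl, ?_⟩
    show ((-y, x) : V) = (-(y - 1) - 1, x)
    exact Prod.ext (by show -y = -(y - 1) - 1; ring) rfl
  · exact Or.inl ⟨rfl, rfl⟩

theorem cp_rE (k : ℕ) : Cp (rE k) (rV k) := by
  induction k with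
  | zero => exact fun e => Or.inl ⟨rfl, rfl⟩
  | succ k ih =>
    intro e
    show (ea (rotE (rE k e)) = rotV (rV k (ea e)) ∧ eb (rotE (rE k e)) = rotV (rV k (eb e))) ∨
      (ea (rotE (rE k e)) = rotV (rV k (eb e)) ∧ eb (rotE (rE k e)) = rotV (rV k (ea e)))
    rcases ih e with ⟨h1, h2⟩ | ⟨h1, h2⟩ <;> rcases SSym_cp1 (rE k e) with ⟨h3, h4⟩ | ⟨h3, h4⟩ <;>
      rw [h3, h4, h1, h2]
    · exact Or.inl ⟨rfl, rfl⟩
    · exact Or.inr ⟨rfl, rfl⟩
    · exact Or.inr ⟨rfl, rfl⟩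
    · exact Or.inl ⟨rfl, rfl⟩

theorem cpd_rE (k : ℕ) : Cpd (rE k) (rF k) := by
  induction k with
  | zero => exact fun e => Or.inl ⟨rfl, rfl⟩
  | succ k ih =>
    intro e
    show (fa (rotE (rE k e)) = rotF (rF k (fa e)) ∧ fb (rotE (rE k e)) = rotF (rF k (fb e))) ∨
      (fa (rotE (rE k e)) = rotF (rF k (fb e)) ∧ fb (rotE (rE k e)) = rotF (rF k (fa e)))
    rcases ih e with ⟨h1, h2⟩ | ⟨h1, h2⟩ <;> rcases SSym_cpd1 (rE k e) with ⟨h3, h4⟩ | ⟨h3, h4⟩ <;>
      rw [h3, h4, h1, h2]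
    · exact Or.inl ⟨rfl, rfl⟩
    · exact Or.inr ⟨rfl, rfl⟩
    · exact Or.inr ⟨rfl, rfl⟩
    · exact Or.inl ⟨rfl, rfl⟩

private theorem SSym_SE (x y : ℤ) : rotC (2 * x + 1, 2 * y) = (2 * (-y) + 1, 2 * x + 1) :=
  Prod.ext (by show 1 - 2 * y = 2 * (-y) + 1; ring) rfl
private theorem SSym_NE (x y : ℤ) : rotC (2 * x + 1, 2 * y + 1) = (2 * (-y), 2 * x + 1) :=
  Prod.ext (by show 1 - (2 * y + 1) = 2 * (-y); ring) rfl
private theorem SSym_NW (x y : ℤ) : rotC (2 * x, 2 * y + 1) = (2 * (-y), 2 * x) :=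
  Prod.ext (by show 1 - (2 * y + 1) = 2 * (-y); ring) rfl
private theorem SSym_SW (x y : ℤ) : rotC (2 * x, 2 * y) = (2 * (-y) + 1, 2 * x) :=
  Prod.ext (by show 1 - 2 * y = 2 * (-y) + 1; ring) rfl

private theorem SSym_edgeOf (p : V) : edgeOf (rotC p) = rotE (edgeOf p) := by
  rcases corner_cases p with ⟨x, y, rfl⟩ | ⟨x, y, rfl⟩ | ⟨x, y, rfl⟩ | ⟨x, y, rfl⟩
  · rw [SSym_SE, edgeOf_NE, edgeOf_SE]; rfl
  · rw [SSym_NE, edgeOf_NW, edgeOf_NE]; rfl
  · rw [SSym_NW, edgeOf_SW, edgeOf_NW]; rfl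
  · rw [SSym_SW, edgeOf_SE, edgeOf_SW]
    show ((-y, x, false) : Edge) = (-(y - 1) - 1, x, false)
    exact Prod.ext (by show -y = -(y - 1) - 1; ring) rfl

private theorem SSym_edgeIn (p : V) : edgeIn (rotC p) = rotE (edgeIn p) := by
  rcases corner_cases p with ⟨x, y, rfl⟩ | ⟨x, y, rfl⟩ | ⟨x, y, rfl⟩ | ⟨x, y, rfl⟩
  · rw [SSym_SE, edgeIn_NE, edgeIn_SE]
    show ((-y, x, false) : Edge) = (-(y - 1) - 1, x, false)
    exact Prod.ext (by show -y = -(y - 1) - 1; ring) rfl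
  · rw [SSym_NE, edgeIn_NW, edgeIn_NE]; rfl
  · rw [SSym_NW, edgeIn_SW, edgeIn_NW]; rfl
  · rw [SSym_SW, edgeIn_SE, edgeIn_SW]; rfl

private theorem SSym_ostep (p : V) : ostep (rotC p) = (-(ostep p).2, (ostep p).1) := by
  rcases corner_cases p with ⟨x, y, rfl⟩ | ⟨x, y, rfl⟩ | ⟨x, y, rfl⟩ | ⟨x, y, rfl⟩
  · rw [SSym_SE, ostep_NE, ostep_SE]; try rfl
  · rw [SSym_NE, ostep_NW, ostep_NE]
  · rw [SSym_NW, ostep_SW, ostep_NW]; rfl
  · rw [SSym_SW, ostep_SE, ostep_SW]; rfl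

private theorem SSym_cstep (p : V) : cstep (rotC p) = (-(cstep p).2, (cstep p).1) := by
  rcases corner_cases p with ⟨x, y, rfl⟩ | ⟨x, y, rfl⟩ | ⟨x, y, rfl⟩ | ⟨x, y, rfl⟩
  · rw [SSym_SE, cstep_NE, cstep_SE]; try rfl
  · rw [SSym_NE, cstep_NW, cstep_NE]; try rfl
  · rw [SSym_NW, cstep_SW, cstep_NW]; rfl
  · rw [SSym_SW, cstep_SE, cstep_SW]; rfl

private theorem SSym_add (p s : V) : rotC (p + s) = rotC p + (-s.2, s.1) := by
  refine Prod.ext ?_ ?_
  · show 1 - (p.2 + s.2) = 1 - p.2 + -s.2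
    ring
  · rfl

private theorem SSym_next (ω : Finset Edge) (p : V) :
    next (ω.map rotE.toEmbedding) (rotC p) = rotC (next ω p) := by
  unfold next
  rw [SSym_add, SSym_edgeOf]
  by_cases h : edgeOf p ∈ ω
  · have h' : rotE (edgeOf p) ∈ ω.map rotE.toEmbedding := (Finset.mem_map' rotE.toEmbedding).2 h
    rw [if_pos h, if_pos h', SSym_ostep]
  · have h' : rotE (edgeOf p) ∉ ω.map rotE.toEmbedding := fun h1 => h ((Finset.mem_map' rotE.toEmbedding).1 h1)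
    rw [if_neg h, if_neg h', SSym_cstep]

private theorem SSym_vtx (p : V) : vtx (rotC p) = rotV (vtx p) := by
  refine Prod.ext ?_ rfl
  show (1 - p.2) / 2 = -(p.2 / 2)
  omega

private theorem SSym_fce (p : V) : fce (rotC p) = rotF (fce p) := by
  refine Prod.ext ?_ rfl
  show (1 - p.2 - 1) / 2 = -((p.2 - 1) / 2) - 1
  omega

private theorem SSym_rot_succ (k : ℕ) (ω : Finset Edge) : rot (k + 1) ω = (rot k ω).map rotE.toEmbedding := by
  unfold rot
  rw [Finset.map_map]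
  rfl

private theorem SSym_rot_zero (ω : Finset Edge) : rot 0 ω = ω := by
  unfold rot
  exact Finset.map_refl

theorem edgeOf_rot (k : ℕ) (p : V) : edgeOf (rC k p) = rE k (edgeOf p) := by
  induction k with
  | zero => rfl
  | succ k ih =>
    show edgeOf (rotC (rC k p)) = rotE (rE k (edgeOf p))
    rw [SSym_edgeOf, ih]

theorem edgeIn_rot (k : ℕ) (p : V) : edgeIn (rC k p) = rE k (edgeIn p) := by
  induction k with
  | zero => rfl
  | succ k ih =>
    show edgeIn (rotC (rC k p)) = rotE (rE k (edgeIn p))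
    rw [SSym_edgeIn, ih]

theorem vtx_rot (k : ℕ) (p : V) : vtx (rC k p) = rV k (vtx p) := by
  induction k with
  | zero => rfl
  | succ k ih =>
    show vtx (rotC (rC k p)) = rotV (rV k (vtx p))
    rw [SSym_vtx, ih]

theorem fce_rot (k : ℕ) (p : V) : fce (rC k p) = rF k (fce p) := by
  induction k with
  | zero => rfl
  | succ k ih =>
    show fce (rotC (rC k p)) = rotF (rF k (fce p))
    rw [SSym_fce, ih]

theorem mem_rot (k : ℕ) (ω : Finset Edge) (e : Edge) : rE k e ∈ rot k ω ↔ e ∈ ω :=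
  Finset.mem_map' (rE k).toEmbedding

theorem next_rot (k : ℕ) (ω : Finset Edge) (p : V) : next (rot k ω) (rC k p) = rC k (next ω p) := by
  induction k with
  | zero => rw [SSym_rot_zero]; rfl
  | succ k ih =>
    rw [SSym_rot_succ]
    show next ((rot k ω).map rotE.toEmbedding) (rotC (rC k p)) = rotC (rC k (next ω p))
    rw [SSym_next, ih]

theorem orb_rot (k : ℕ) (ω : Finset Edge) (s : V) (j : ℕ) :
    orb (rot k ω) (rC k s) j = rC k (orb ω s j) := by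
  induction j with
  | zero => rfl
  | succ j ih => rw [orb_succ, orb_succ, ih, next_rot]

theorem run_rot (k : ℕ) (D ω : Finset Edge) (s : V) (j : ℕ) :
    Run (rot k D) (rot k ω) (rC k s) j ↔ Run D ω s j := by
  unfold Run
  refine forall_congr' fun i => forall_congr' fun _ => ?_
  rw [orb_rot, edgeOf_rot, mem_rot]

theorem exit_rot (k : ℕ) (D ω : Finset Edge) (s a : V) :
    Exit (rot k D) (rot k ω) (rC k s) (rC k a) ↔ Exit D ω s a := by
  unfold Exit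
  refine exists_congr fun i => ?_
  rw [run_rot, orb_rot, edgeOf_rot, mem_rot, (rC k).injective.eq_iff]

theorem seen_rot (k : ℕ) (D : Finset Edge) (S : Set V) (ω : Finset Edge) (p : V) :
    Seen (rot k D) (rC k '' S) (rot k ω) (rC k p) ↔ Seen D S ω p := by
  unfold Seen
  constructor
  · rintro ⟨s', ⟨s, hs, rfl⟩, j, h1, h2⟩
    rw [run_rot] at h1
    rw [orb_rot, (rC k).injective.eq_iff] at h2
    exact ⟨s, hs, j, h1, h2⟩
  · rintro ⟨s, hs, j, h1, h2⟩
    exact ⟨rC k s, ⟨s, hs, rfl⟩, j, (run_rot k D ω s j).2 h1, by rw [orb_rot, h2]⟩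

theorem xs_rot (k : ℕ) (D : Finset Edge) (S : Set V) (ω : Finset Edge) :
    Xs (rot k D) (rC k '' S) (rot k ω) = rot k (Xs D S ω) := by
  ext e'
  obtain ⟨e, rfl⟩ := (rE k).surjective e'
  rw [mem_rot, mem_Xs, mem_Xs, mem_rot]
  refine and_congr_right fun _ => ?_
  constructor
  · rintro ⟨p', hp, he⟩
    obtain ⟨p, rfl⟩ := (rC k).surjective p'
    rw [seen_rot] at hp
    rw [edgeOf_rot, (rE k).injective.eq_iff] at he
    exact ⟨p, hp, he⟩
  · rintro ⟨p, hp, he⟩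
    exact ⟨rC k p, (seen_rot k D S ω p).2 hp, by rw [edgeOf_rot, he]⟩

theorem conn_rot (k : ℕ) (F ω : Finset Edge) (u v : V) :
    Conn (rot k F) (rot k ω) (rV k u) (rV k v) ↔ Conn F ω u v :=
  conn_map (cp_rE k) F ω u v

theorem dconn_rot (k : ℕ) (F ω : Finset Edge) (f g : V) :
    DConn (rot k F) (rot k ω) (rF k f) (rF k g) ↔ DConn F ω f g :=
  dconn_map (cpd_rE k) F ω f g

theorem pr_rot (q : ℝ) (k : ℕ) (E : Finset Edge) (A : Finset Edge → Prop) :
    IPC.Pr q (rot k E) A = IPC.Pr q E (fun ω => A (rot k ω)) :=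
  pr_map q (rE k) E A

theorem rot_inter (k : ℕ) (F G : Finset Edge) : rot k (F ∩ G) = rot k F ∩ rot k G := by
  ext e'
  obtain ⟨e, rfl⟩ := (rE k).surjective e'
  rw [mem_rot, Finset.mem_inter, Finset.mem_inter, mem_rot, mem_rot]

theorem rot_union (k : ℕ) (F G : Finset Edge) : rot k (F ∪ G) = rot k F ∪ rot k G := by
  ext e'
  obtain ⟨e, rfl⟩ := (rE k).surjective e'
  rw [mem_rot, Finset.mem_union, Finset.mem_union, mem_rot, mem_rot]

theorem rot_sdiff (k : ℕ) (F G : Finset Edge) : rot k (F \ G) = rot k F \ rot k G := by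
  ext e'
  obtain ⟨e, rfl⟩ := (rE k).surjective e'
  rw [mem_rot, Finset.mem_sdiff, Finset.mem_sdiff, mem_rot, mem_rot]

theorem rot_subset {k : ℕ} {F G : Finset Edge} : rot k F ⊆ rot k G ↔ F ⊆ G :=
  Finset.map_subset_map

private theorem SSym_box (n : ℤ) : (box (-n) n (-n) n).map rotE.toEmbedding = box (-n) n (-n) n := by
  ext e'
  obtain ⟨e, rfl⟩ := rotE.surjective e'
  have h1 : rotE e ∈ (box (-n) n (-n) n).map rotE.toEmbedding ↔ e ∈ box (-n) n (-n) n :=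
    Finset.mem_map' rotE.toEmbedding
  rw [h1, mem_box, mem_box]
  obtain ⟨x, y, t⟩ := e
  cases t
  · show (false = false ∧ -n ≤ x ∧ x < n ∧ -n ≤ y ∧ y ≤ n ∨ false = true ∧ -n ≤ x ∧ x ≤ n ∧ -n ≤ y ∧ y < n) ↔
      (true = false ∧ -n ≤ -y ∧ -y < n ∧ -n ≤ x ∧ x ≤ n ∨ true = true ∧ -n ≤ -y ∧ -y ≤ n ∧ -n ≤ x ∧ x < n)
    simp only [reduceCtorEq, false_and, or_false, false_or, true_and]
    omega
  · show (true = false ∧ -n ≤ x ∧ x < n ∧ -n ≤ y ∧ y ≤ n ∨ true = true ∧ -n ≤ x ∧ x ≤ n ∧ -n ≤ y ∧ y < n) ↔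
      (false = false ∧ -n ≤ -y - 1 ∧ -y - 1 < n ∧ -n ≤ x ∧ x ≤ n ∨ false = true ∧ -n ≤ -y - 1 ∧ -y - 1 ≤ n ∧ -n ≤ x ∧ x < n)
    simp only [reduceCtorEq, false_and, or_false, false_or, true_and]
    omega

theorem box_rot (k : ℕ) (n : ℤ) : rot k (box (-n) n (-n) n) = box (-n) n (-n) n := by
  induction k with
  | zero => exact SSym_rot_zero _
  | succ k ih => rw [SSym_rot_succ, ih, SSym_box]

end FKS
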