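import Pool.Agent.Lib.MP_216314_pr.Sp.SDc

/-!
# JOB SOrb: strands, explored edges

`orb ω s k = (next ω)^[k] s`, `next ω p` depends only on the state of `edgeOf p` (`next` in `Defs.lean`); `next_inj`, `edgeIn_next` in `NextB.lean`.
* `orb_succ`: `Function.iterate_succ_apply'`.
* `orb_inj`: if `orb i = orb j` with `i < j ≤ T`, then by injectivity (`Function.Injective.iterate`) `orb (T - (j - i)) = orb T`, but `edgeOf (orb (T - (j-i))) ∈ D` by `Run`.
* `orb_back`: `next ω q = orb ω p k`, `k ≠ 0`: `orb ω p k = next ω (orb ω p (k-1))`, injectivity.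
* `orb_agree`: induction on `k`.
* `seen_agree`: let `h : ∀ e ∈ Xs D S ω, (e ∈ ω' ↔ e ∈ ω)`. For `s ∈ S` and `k` with `Run D ω s k`: all `edgeOf (orb ω s j)`, `j < k`, are in `Xs D S ω`, so by `orb_agree`
  `orb ω' s j = orb ω s j` for `j ≤ k` and `Run D ω' s k`. Conversely, `Run D ω' s k → Run D ω s k` by induction on `k` (if `Run D ω s k` and `orb` agree up to `k`, then
  `edgeOf (orb ω s k) = edgeOf (orb ω' s k) ∈ D`).
* `xs_agree`, `exit_agree`: from `seen_agree` / the same argument.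
* `orb_conn`: induction on `k`: `vtx (orb 0) ~ vtx (orb k)` by `step_closed`, `step_open`, `conn_step` with `F = XF ω s T`. The same for `orb_dconn` with faces.
-/

set_option autoImplicit false

noncomputable section

namespace FKS

open Finset FKI FKP
open scoped Classical

theorem SOrb_run_mono {D ω : Finset Edge} {s : V} {j k : ℕ} (hjk : j ≤ k) (h : Run D ω s k) :
    Run D ω s j := fun i hi => h i (lt_of_lt_of_le hi hjk)

theorem orb_zero (ω : Finset Edge) (s : V) : orb ω s 0 = s := rfl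

theorem orb_succ (ω : Finset Edge) (s : V) (k : ℕ) : orb ω s (k + 1) = next ω (orb ω s k) := by
  exact Function.iterate_succ_apply' _ _ _

theorem orb_add (ω : Finset Edge) (s : V) (k l : ℕ) : orb ω s (k + l) = orb ω (orb ω s k) l := by
  unfold orb
  rw [add_comm k l, Function.iterate_add_apply]

/-- no corner is visited twice before the exit -/
theorem orb_inj {D ω : Finset Edge} {s : V} {T : ℕ} (h : Run D ω s T) (hT : edgeOf (orb ω s T) ∉ D)
    {i j : ℕ} (hi : i ≤ T) (hj : j ≤ T) (hij : orb ω s i = orb ω s j) : i = j := by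
  have key : ∀ a b : ℕ, a < b → b ≤ T → orb ω s a = orb ω s b → False := by
    intro a b hab hb he
    have h1 : orb ω s (a + (T - b)) = orb ω s (b + (T - b)) := by
      rw [orb_add, orb_add, he]
    have h2 : b + (T - b) = T := by omega
    rw [h2] at h1
    have h3 := h (a + (T - b)) (by omega)
    rw [h1] at h3
    exact hT h3
  rcases lt_trichotomy i j with h1 | h1 | h1
  · exact (key i j h1 hj hij).elim
  · exact h1
  · exact (key j i h1 hi hij.symm).elim

theorem orb_back {ω : Finset Edge} {p q : V} {k : ℕ} (hk : k ≠ 0) (h : next ω q = orb ω p k) :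
    q = orb ω p (k - 1) := by
  obtain ⟨m, rfl⟩ := Nat.exists_eq_succ_of_ne_zero hk
  rw [Nat.succ_eq_add_one, orb_succ] at h
  have h1 := next_inj ω h
  rw [Nat.succ_eq_add_one, Nat.add_sub_cancel]
  exact h1

theorem orb_agree {ω ω' : Finset Edge} {s : V} {T : ℕ}
    (h : ∀ j < T, (edgeOf (orb ω s j) ∈ ω' ↔ edgeOf (orb ω s j) ∈ ω)) :
    ∀ k ≤ T, orb ω' s k = orb ω s k := by
  intro k
  induction k with
  | zero =>
    intro _
    rfl
  | succ k ih =>
    intro hk
    rw [orb_succ, orb_succ, ih (by omega)]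
    have h1 := h k (by omega)
    unfold next
    by_cases he : edgeOf (orb ω s k) ∈ ω
    · rw [if_pos he, if_pos (h1.2 he)]
    · rw [if_neg he, if_neg (fun h2 => he (h1.1 h2))]

theorem mem_XF {ω : Finset Edge} {p : V} {T : ℕ} {e : Edge} :
    e ∈ XF ω p T ↔ ∃ k < T, edgeOf (orb ω p k) = e := by
  unfold XF
  rw [Finset.mem_image]
  constructor
  · rintro ⟨k, hk, h⟩
    exact ⟨k, Finset.mem_range.1 hk, h⟩
  · rintro ⟨k, hk, h⟩
    exact ⟨k, Finset.mem_range.2 hk, h⟩

theorem mem_Xs {D : Finset Edge} {S : Set V} {ω : Finset Edge} {e : Edge} :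
    e ∈ Xs D S ω ↔ e ∈ D ∧ ∃ p, Seen D S ω p ∧ edgeOf p = e := by
  unfold Xs
  rw [Finset.mem_filter]

theorem SOrb_agree {D : Finset Edge} {S : Set V} {ω ω' : Finset Edge}
    (h : ∀ e ∈ Xs D S ω, (e ∈ ω' ↔ e ∈ ω)) {s : V} (hs : s ∈ S) (k : ℕ) (hk : Run D ω s k) :
    ∀ j ≤ k, orb ω' s j = orb ω s j := by
  refine orb_agree fun j hj => h _ ?_
  exact mem_Xs.2 ⟨hk j hj, orb ω s j, ⟨s, hs, j, SOrb_run_mono hj.le hk, rfl⟩, rfl⟩

theorem SOrb_conn {ω : Finset Edge} {s : V} {T : ℕ} : ∀ k ≤ T,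
    Conn (XF ω s T) ω (vtx (orb ω s 0)) (vtx (orb ω s k)) := by
  intro k
  induction k with
  | zero =>
    intro _
    exact Conn.refl _ _ _
  | succ k ih =>
    intro hk
    have h1 := ih (by omega)
    rw [orb_succ]
    by_cases he : edgeOf (orb ω s k) ∈ ω
    · have hF : edgeOf (orb ω s k) ∈ XF ω s T := mem_XF.2 ⟨k, by omega, rfl⟩
      have h2 := conn_step hF he
      obtain ⟨-, ⟨h3, h4⟩ | ⟨h3, h4⟩⟩ := step_open he
      · rw [← h3, ← h4] at h2
        exact h1.trans h2
      · rw [← h3, ← h4] at h2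
        exact h1.trans h2.symm
    · rw [(step_closed he).1]
      exact h1

theorem SOrb_dconn {ω : Finset Edge} {s : V} {T : ℕ} : ∀ k ≤ T,
    DConn (XF ω s T) ω (fce (orb ω s 0)) (fce (orb ω s k)) := by
  intro k
  induction k with
  | zero =>
    intro _
    exact DConn.refl _ _ _
  | succ k ih =>
    intro hk
    have h1 := ih (by omega)
    rw [orb_succ]
    by_cases he : edgeOf (orb ω s k) ∈ ω
    · rw [(step_open he).1]
      exact h1
    · have hF : edgeOf (orb ω s k) ∈ XF ω s T := mem_XF.2 ⟨k, by omega, rfl⟩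
      have h2 := dconn_step hF he
      obtain ⟨-, ⟨h3, h4⟩ | ⟨h3, h4⟩⟩ := step_closed he
      · rw [← h3, ← h4] at h2
        exact h1.trans h2
      · rw [← h3, ← h4] at h2
        exact h1.trans h2.symm

/-- the explored part of a strand depends only on the explored edges -/
theorem seen_agree {D : Finset Edge} {S : Set V} {ω ω' : Finset Edge}
    (h : ∀ e ∈ Xs D S ω, (e ∈ ω' ↔ e ∈ ω)) {s : V} (hs : s ∈ S) (k : ℕ) :
    (Run D ω' s k ↔ Run D ω s k) ∧ (Run D ω s k → orb ω' s k = orb ω s k) := by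
  have h1 : ∀ k, Run D ω s k → Run D ω' s k := by
    intro k hk j hj
    rw [SOrb_agree h hs k hk j hj.le]
    exact hk j hj
  have h2 : ∀ k, Run D ω' s k → Run D ω s k := by
    intro k
    induction k with
    | zero =>
      intro _ j hj
      exact absurd hj (Nat.not_lt_zero j)
    | succ k ih =>
      intro hk
      have h3 := ih (SOrb_run_mono (Nat.le_succ k) hk)
      intro j hj
      rcases Nat.lt_succ_iff_lt_or_eq.1 hj with h4 | h4
      · exact h3 j h4
      · rw [h4, ← SOrb_agree h hs k h3 k le_rfl]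
        exact hk k (Nat.lt_succ_self k)
  exact ⟨⟨h2 k, h1 k⟩, fun hk => SOrb_agree h hs k hk k le_rfl⟩

theorem xs_agree {D : Finset Edge} {S : Set V} {ω ω' : Finset Edge}
    (h : ∀ e ∈ Xs D S ω, (e ∈ ω' ↔ e ∈ ω)) :
    (∀ p, Seen D S ω' p ↔ Seen D S ω p) ∧ Xs D S ω' = Xs D S ω := by
  have h1 : ∀ p, Seen D S ω' p ↔ Seen D S ω p := by
    intro p
    constructor
    · rintro ⟨s, hs, k, hk, h2⟩
      have h3 := seen_agree h hs k
      have h4 := h3.1.1 hk
      exact ⟨s, hs, k, h4, (h3.2 h4).symm.trans h2⟩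
    · rintro ⟨s, hs, k, hk, h2⟩
      have h3 := seen_agree h hs k
      exact ⟨s, hs, k, h3.1.2 hk, (h3.2 hk).trans h2⟩
  refine ⟨h1, ?_⟩
  ext e
  rw [mem_Xs, mem_Xs]
  constructor
  · rintro ⟨he, p, hp, h2⟩
    exact ⟨he, p, (h1 p).1 hp, h2⟩
  · rintro ⟨he, p, hp, h2⟩
    exact ⟨he, p, (h1 p).2 hp, h2⟩

theorem exit_agree {D : Finset Edge} {S : Set V} {ω ω' : Finset Edge}
    (h : ∀ e ∈ Xs D S ω, (e ∈ ω' ↔ e ∈ ω)) {s : V} (hs : s ∈ S) (a : V) :
    Exit D ω' s a ↔ Exit D ω s a := by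
  constructor
  · rintro ⟨k, hk, h2, h5⟩
    have h3 := seen_agree h hs k
    have h4 := h3.1.1 hk
    exact ⟨k, h4, (h3.2 h4).symm.trans h2, h5⟩
  · rintro ⟨k, hk, h2, h5⟩
    have h3 := seen_agree h hs k
    exact ⟨k, h3.1.2 hk, (h3.2 hk).trans h2, h5⟩

/-- the vertices on the left of a strand are connected by the open edges that it meets -/
theorem orb_conn {ω : Finset Edge} {s : V} {T i j : ℕ} (hi : i ≤ T) (hj : j ≤ T) :
    Conn (XF ω s T) ω (vtx (orb ω s i)) (vtx (orb ω s j)) := by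
  exact (SOrb_conn i hi).symm.trans (SOrb_conn j hj)

/-- the faces on the right of a strand are connected by crossing the closed edges that it meets -/
theorem orb_dconn {ω : Finset Edge} {s : V} {T i j : ℕ} (hi : i ≤ T) (hj : j ≤ T) :
    DConn (XF ω s T) ω (fce (orb ω s i)) (fce (orb ω s j)) := by
  exact (SOrb_dconn i hi).symm.trans (SOrb_dconn j hj)

end FKS
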