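import Pool.Agent.Lib.MP_216314_pr.Sp.SZn
import Pool.Agent.Lib.MP_216314_pr.Sp.SOrb

/-!
# JOB SZc: the potential of a set of corners invariant under the strands

`O` is a set of corners such that, at every edge of the box, a corner `p` (with `edgeOf p` in the box) is in `O` iff `next ω p` is.
* `zed_exists`: `zn` with `g p = if O p then 1 else 0`. For the edge `e = (x, y, false)`: `c1 e = (2x+1, 2y)`, `c2 e = (2x+2, 2y+1)`; if `e ∈ ω` then `next` of them are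
  `(2x+2, 2y)`, `(2x+1, 2y+1)`, if `e ∉ ω`: `(2x+1, 2y+1)`, `(2x+2, 2y)`; so the sum of the four values is `2 (..) = 0`. For `e = (x, y, true)`: `c1 e = (2x+1, 2y+1)`,
  `c2 e = (2x, 2y+2)`; `next`: `(2x+1, 2y+2)`, `(2x, 2y+1)` (open) or `(2x, 2y+1)`, `(2x+1, 2y+2)` (closed).
* `zed_open`: `e` in the box, open. Take the corner `c1 e` (vertex `ea e`) with face `f = fce (c1 e) = fce (next ω (c1 e))` and `vtx (next ω (c1 e)) = eb e` (`step_open`, `vtx_c1`):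
  `zv (ea e) + zf f = [O (c1 e)] = [O (next ω (c1 e))] = zv (eb e) + zf f`.
* `zed_closed`: `p = c1 e`, `vtx (next ω p) = vtx p`, faces `fa e`, `fb e` (`step_closed`).
* `zed_free_v`: `u, u'` the endpoints of `e` (in the box), no corner of `O` at `u` or `u'`: use the face `f = fb e` and the corners of `(u, f)`, `(u', f)` (`ar_of_edge`, `corner_of`): both values
  of `g` are `0`. `zed_free_f`: the same with the vertex `ea e`.
* `zed_orbit`: along a strand which meets edges of the box, from `zed_open`, `zed_closed` and `step_open`, `step_closed` (induction).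
* `seg_closed`: `O = {orb ω p k : k ≤ T}` for a strand with `Run B ω p T`, `edgeOf (orb ω p T) ∉ B`, `edgeIn p ∉ B`. (→) `q = orb ω p k` with `edgeOf q ∈ B` gives `k ≠ T`, so `k < T`,
  `next ω q = orb ω p (k+1)`. (←) `next ω q = orb ω p k`: if `k = 0` then `edgeIn p = edgeIn (next ω q) = edgeOf q ∈ B`, contradiction; else `orb_back`.
-/

set_option autoImplicit false

noncomputable section

namespace FKS

open Finset FKI FKP
open scoped Classical

/-- potentials of the set of corners `O` in a rectangle -/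
def Zed (X1 X2 Y1 Y2 : ℤ) (O : V → Prop) (zv zf : V → ZMod 2) : Prop :=
  ∀ p, InB X1 X2 Y1 Y2 (vtx p) → zv (vtx p) + zf (fce p) = if O p then 1 else 0

private theorem SZc_mem {X1 X2 Y1 Y2 : ℤ} {x y : ℤ} {t : Bool} : (x, y, t) ∈ box X1 X2 Y1 Y2 ↔
    (t = false ∧ X1 ≤ x ∧ x < X2 ∧ Y1 ≤ y ∧ y ≤ Y2) ∨ (t = true ∧ X1 ≤ x ∧ x ≤ X2 ∧ Y1 ≤ y ∧ y < Y2) := by
  rw [mem_box]

private theorem SZc_sum {P1 P2 P3 P4 : Prop} (h : ((P1 ↔ P3) ∧ (P4 ↔ P2)) ∨ ((P1 ↔ P2) ∧ (P4 ↔ P3))) :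
    (if P1 then (1 : ZMod 2) else 0) + (if P2 then 1 else 0) + (if P3 then 1 else 0) + (if P4 then 1 else 0) = 0 := by
  by_cases h1 : P1 <;> by_cases h2 : P2 <;> by_cases h3 : P3 <;> by_cases h4 : P4 <;>
    simp only [h1, h2, h3, h4, if_true, if_false, iff_true, iff_false, not_true_eq_false,
      and_true, and_false, or_false, or_true] at h ⊢ <;> decide


theorem zed_exists {X1 X2 Y1 Y2 : ℤ} (ω : Finset Edge) (O : V → Prop)
    (hO : ∀ p, edgeOf p ∈ box X1 X2 Y1 Y2 → (O p ↔ O (next ω p))) :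
    ∃ zv zf : V → ZMod 2, Zed X1 X2 Y1 Y2 O zv zf := by
  refine zn (fun p => if O p then 1 else 0) ?_ ?_
  · intro x y hx1 hx2 hy1 hy2
    have hb : (x, y, false) ∈ box X1 X2 Y1 Y2 := SZc_mem.2 (Or.inl ⟨rfl, hx1, hx2, hy1, hy2⟩)
    have a1 := hO (2 * x + 1, 2 * y) (by rw [edgeOf_SE]; exact hb)
    have e2 : edgeOf (2 * (x + 1), 2 * y + 1) = (x, y, false) := by
      rw [edgeOf_NW]
      congr 1
      ring
    have a2 := hO (2 * (x + 1), 2 * y + 1) (by rw [e2]; exact hb)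
    have e3 : (2 * (x + 1) : ℤ) = 2 * x + 2 := by ring
    refine SZc_sum ?_
    by_cases h : (x, y, false) ∈ ω
    · left
      rw [next_SE_open h] at a1
      rw [next_NW_open (by rw [show x + 1 - 1 = x by ring]; exact h), show (2 * (x + 1) - 1 : ℤ) = 2 * x + 1 by ring, e3] at a2
      exact ⟨a1, a2⟩
    · right
      rw [next_SE_closed h] at a1
      rw [next_NW_closed (by rw [show x + 1 - 1 = x by ring]; exact h), e3] at a2
      exact ⟨a1, a2⟩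
  · intro x y hx1 hx2 hy1 hy2
    have hb : (x, y, true) ∈ box X1 X2 Y1 Y2 := SZc_mem.2 (Or.inr ⟨rfl, hx1, hx2, hy1, hy2⟩)
    have a1 := hO (2 * x + 1, 2 * y + 1) (by rw [edgeOf_NE]; exact hb)
    have e2 : edgeOf (2 * x, 2 * (y + 1)) = (x, y, true) := by
      rw [edgeOf_SW, show y + 1 - 1 = y by ring]
    have a2 := hO (2 * x, 2 * (y + 1)) (by rw [e2]; exact hb)
    have e3 : (2 * (y + 1) : ℤ) = 2 * y + 2 := by ring
    have key : ((O (2 * x, 2 * y + 1) ↔ O (2 * x, 2 * y + 2)) ∧ (O (2 * x + 1, 2 * y + 2) ↔ O (2 * x + 1, 2 * y + 1))) ∨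
        ((O (2 * x, 2 * y + 1) ↔ O (2 * x + 1, 2 * y + 1)) ∧ (O (2 * x + 1, 2 * y + 2) ↔ O (2 * x, 2 * y + 2))) := by
      by_cases h : (x, y, true) ∈ ω
      · left
        rw [next_NE_open h] at a1
        rw [next_SW_open (by rw [show y + 1 - 1 = y by ring]; exact h), show (2 * (y + 1) - 1 : ℤ) = 2 * y + 1 by ring, e3] at a2
        exact ⟨a2.symm, a1.symm⟩
      · right
        rw [next_NE_closed h] at a1
        rw [next_SW_closed (by rw [show y + 1 - 1 = y by ring]; exact h), e3] at a2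
        exact ⟨a1.symm, a2.symm⟩
    exact SZc_sum key

theorem inB_of_box {X1 X2 Y1 Y2 : ℤ} {e : Edge} (he : e ∈ box X1 X2 Y1 Y2) :
    InB X1 X2 Y1 Y2 (ea e) ∧ InB X1 X2 Y1 Y2 (eb e) := by
  obtain ⟨x, y, t⟩ := e
  rcases SZc_mem.1 he with ⟨rfl, h1, h2, h3, h4⟩ | ⟨rfl, h1, h2, h3, h4⟩
  · have e1 : ea (x, y, false) = (x, y) := rfl
    have e2 : eb (x, y, false) = (x + 1, y) := by simp [eb]
    rw [e1, e2]
    exact ⟨⟨h1, h2.le, h3, h4⟩, ⟨by show X1 ≤ x + 1; omega, by show x + 1 ≤ X2; omega, h3, h4⟩⟩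
  · have e1 : ea (x, y, true) = (x, y) := rfl
    have e2 : eb (x, y, true) = (x, y + 1) := by simp [eb]
    rw [e1, e2]
    exact ⟨⟨h1, h2, h3, h4.le⟩, ⟨h1, h2, by show Y1 ≤ y + 1; omega, by show y + 1 ≤ Y2; omega⟩⟩

private theorem SZc_step {X1 X2 Y1 Y2 : ℤ} {ω : Finset Edge} {O : V → Prop} {zv zf : V → ZMod 2}
    (hO : ∀ p, edgeOf p ∈ box X1 X2 Y1 Y2 → (O p ↔ O (next ω p))) (hz : Zed X1 X2 Y1 Y2 O zv zf)
    {p : V} (he : edgeOf p ∈ box X1 X2 Y1 Y2) :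
    zv (vtx (next ω p)) = zv (vtx p) ∧ zf (fce (next ω p)) = zf (fce p) := by
  obtain ⟨ha, hb⟩ := inB_of_box he
  have h1 : InB X1 X2 Y1 Y2 (vtx p) := by
    rcases vtx_mem p with h | h
    · rw [h]
      exact ha
    · rw [h]
      exact hb
  have hp := hz p h1
  have hiff := hO p he
  by_cases h : edgeOf p ∈ ω
  · obtain ⟨h2, h3⟩ := step_open h
    have h4 : InB X1 X2 Y1 Y2 (vtx (next ω p)) := by
      rcases h3 with ⟨_, h3⟩ | ⟨_, h3⟩
      · rw [h3]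
        exact hb
      · rw [h3]
        exact ha
    have hn := hz (next ω p) h4
    rw [h2, ← if_congr hiff rfl rfl, ← hp] at hn
    exact ⟨add_right_cancel hn, by rw [h2]⟩
  · obtain ⟨h2, h3⟩ := step_closed h
    have h4 : InB X1 X2 Y1 Y2 (vtx (next ω p)) := by
      rw [h2]
      exact h1
    have hn := hz (next ω p) h4
    rw [h2, ← if_congr hiff rfl rfl, ← hp] at hn
    exact ⟨by rw [h2], add_left_cancel hn⟩


theorem zed_open {X1 X2 Y1 Y2 : ℤ} {ω : Finset Edge} {O : V → Prop} {zv zf : V → ZMod 2}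
    (hO : ∀ p, edgeOf p ∈ box X1 X2 Y1 Y2 → (O p ↔ O (next ω p))) (hz : Zed X1 X2 Y1 Y2 O zv zf)
    {e : Edge} (he : e ∈ box X1 X2 Y1 Y2) (h : e ∈ ω) : zv (ea e) = zv (eb e) := by
  have he' : edgeOf (c1 e) ∈ box X1 X2 Y1 Y2 := by
    rw [edgeOf_c1]
    exact he
  obtain ⟨k1, _⟩ := SZc_step hO hz he'
  obtain ⟨_, h3⟩ := step_open (p := c1 e) (ω := ω) (by rw [edgeOf_c1]; exact h)
  rw [edgeOf_c1] at h3
  rcases h3 with ⟨h3, h4⟩ | ⟨h3, h4⟩
  · rw [h3, h4] at k1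
    exact k1.symm
  · rw [h3, h4] at k1
    exact k1

theorem zed_closed {X1 X2 Y1 Y2 : ℤ} {ω : Finset Edge} {O : V → Prop} {zv zf : V → ZMod 2}
    (hO : ∀ p, edgeOf p ∈ box X1 X2 Y1 Y2 → (O p ↔ O (next ω p))) (hz : Zed X1 X2 Y1 Y2 O zv zf)
    {e : Edge} (he : e ∈ box X1 X2 Y1 Y2) (h : e ∉ ω) : zf (fa e) = zf (fb e) := by
  have he' : edgeOf (c1 e) ∈ box X1 X2 Y1 Y2 := by
    rw [edgeOf_c1]
    exact he
  obtain ⟨_, k1⟩ := SZc_step hO hz he'
  obtain ⟨_, h3⟩ := step_closed (p := c1 e) (ω := ω) (by rw [edgeOf_c1]; exact h)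
  rw [edgeOf_c1] at h3
  rcases h3 with ⟨h3, h4⟩ | ⟨h3, h4⟩
  · rw [h3, h4] at k1
    exact k1.symm
  · rw [h3, h4] at k1
    exact k1

theorem zed_free_v {X1 X2 Y1 Y2 : ℤ} {O : V → Prop} {zv zf : V → ZMod 2} (hz : Zed X1 X2 Y1 Y2 O zv zf)
    {e : Edge} (he : e ∈ box X1 X2 Y1 Y2) (h1 : ∀ p, O p → vtx p ≠ ea e) (h2 : ∀ p, O p → vtx p ≠ eb e) :
    zv (ea e) = zv (eb e) := by
  obtain ⟨ha, hb⟩ := inB_of_box he
  obtain ⟨p, hp1, hp2⟩ := corner_of (ar_of_edge (e := e) (u := ea e) (h := fb e) (Or.inl rfl) (Or.inr rfl))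
  obtain ⟨p', hp1', hp2'⟩ := corner_of (ar_of_edge (e := e) (u := eb e) (h := fb e) (Or.inr rfl) (Or.inr rfl))
  have k1 := hz p (by rw [hp1]; exact ha)
  have k2 := hz p' (by rw [hp1']; exact hb)
  rw [if_neg (fun h => h1 p h hp1), hp1, hp2] at k1
  rw [if_neg (fun h => h2 p' h hp1'), hp1', hp2', ← k1] at k2
  exact (add_right_cancel k2).symm

theorem zed_free_f {X1 X2 Y1 Y2 : ℤ} {O : V → Prop} {zv zf : V → ZMod 2} (hz : Zed X1 X2 Y1 Y2 O zv zf)
    {e : Edge} (he : e ∈ box X1 X2 Y1 Y2) (h1 : ∀ p, O p → fce p ≠ fa e) (h2 : ∀ p, O p → fce p ≠ fb e) :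
    zf (fa e) = zf (fb e) := by
  obtain ⟨ha, _⟩ := inB_of_box he
  obtain ⟨p, hp1, hp2⟩ := corner_of (ar_of_edge (e := e) (u := ea e) (h := fa e) (Or.inl rfl) (Or.inl rfl))
  obtain ⟨p', hp1', hp2'⟩ := corner_of (ar_of_edge (e := e) (u := ea e) (h := fb e) (Or.inl rfl) (Or.inr rfl))
  have k1 := hz p (by rw [hp1]; exact ha)
  have k2 := hz p' (by rw [hp1']; exact ha)
  rw [if_neg (fun h => h1 p h hp2), hp1, hp2] at k1
  rw [if_neg (fun h => h2 p' h hp2'), hp1', hp2', ← k1] at k2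
  exact (add_left_cancel k2).symm

theorem zed_orbit {X1 X2 Y1 Y2 : ℤ} {ω : Finset Edge} {O : V → Prop} {zv zf : V → ZMod 2}
    (hO : ∀ p, edgeOf p ∈ box X1 X2 Y1 Y2 → (O p ↔ O (next ω p))) (hz : Zed X1 X2 Y1 Y2 O zv zf)
    {p : V} {T : ℕ} (hr : Run (box X1 X2 Y1 Y2) ω p T) :
    ∀ k ≤ T, zv (vtx (orb ω p k)) = zv (vtx p) ∧ zf (fce (orb ω p k)) = zf (fce p) := by
  intro k
  induction k with
  | zero => exact fun _ => ⟨rfl, rfl⟩
  | succ k ih =>
    intro hk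
    obtain ⟨i1, i2⟩ := ih (by omega)
    obtain ⟨k1, k2⟩ := SZc_step hO hz (hr k (by omega))
    rw [orb_succ]
    exact ⟨k1.trans i1, k2.trans i2⟩

theorem seg_closed {B ω : Finset Edge} {p : V} {T : ℕ} (hr : Run B ω p T) (hT : edgeOf (orb ω p T) ∉ B)
    (hp : edgeIn p ∉ B) (q : V) (hq : edgeOf q ∈ B) :
    (∃ k ≤ T, orb ω p k = q) ↔ (∃ k ≤ T, orb ω p k = next ω q) := by
  constructor
  · rintro ⟨k, hk, rfl⟩
    have hne : k ≠ T := by
      rintro rfl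
      exact hT hq
    exact ⟨k + 1, by omega, orb_succ ω p k⟩
  · rintro ⟨k, hk, h⟩
    by_cases h0 : k = 0
    · exfalso
      apply hp
      rw [h0, orb_zero] at h
      rw [h, edgeIn_next]
      exact hq
    · exact ⟨k - 1, by omega, (orb_back h0 h.symm).symm⟩

end FKS
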