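import Pool.Agent.Lib.MP_216314_pr.Sp.SFe

/-!
# JOB SCa: tidy exits exist, and they are determined by the explored edges

* `tx_of`: `ExitN` gives `a i`, `s i ∈ St i`; `Dom.side` gives `k i`, `x i`; `|x i| ≤ h - R` because `Near` fails; `tidy_exit`, `sep_exit` (choice: `choose`).
* `tx_agree`: if `ω' ∩ X = ω ∩ X`, `X = Xs D (⋃ i, St i) ω`, then `e ∈ ω' ↔ e ∈ ω` for `e ∈ X`; `xs_agree`: `Xs D (⋃ i, St i) ω' = X`; `exit_agree` for the exits (`s ∈ St i` is in the union); in the rotated pictures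
  `foot_agree` with `XF (rot k ω) p T ⊆ rot k X`: every `e' ∈ rot k X` is `rE k e`, `e ∈ X`, and `rE k e ∈ rot k ω' ↔ e ∈ ω' ↔ e ∈ ω ↔ rE k e ∈ rot k ω` (`mem_rot`); it gives the same `XF`, `VZ`, `FZ`.
-/

set_option autoImplicit false

noncomputable section

namespace FKS

open Finset FKI FKP
open scoped Classical

theorem tx_of {l : ℕ} {E D : Finset Edge} {Ex : Set V} {St : Fin l → Set V} {y h R m : ℤ}
    (hd : Dom E D Ex St y h R m) {Sc : Finset ℤ} (hSc : ∀ s ∈ Sc, 30 * m ≤ s ∧ 3 * s ≤ R) {ω : Finset Edge}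
    (h1 : ExitN D Ex St ω) (h2 : ¬ Near D Ex St y h R ω) (h3 : ¬ Bad y h R Sc ω) :
    ∃ a k x p T, TX D St y h R m ω a k x p T := by
  obtain ⟨a, hinj, ha⟩ := h1
  choose haEx s hs hex using ha
  have hside : ∀ i, ∃ k, k < 4 ∧ ∃ x : ℤ, rC k (a i) = (2 * x, 2 * y) := by
    intro i
    obtain ⟨k, hk, x, hx⟩ := hd.side (a i) (haEx i)
    exact ⟨k, hk, x, hx⟩
  choose k hk x hx using hside
  have hxR : ∀ i, |x i| ≤ h - R := by
    intro i
    by_contra hc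
    exact h2 ⟨a i, haEx i, ⟨i, s i, hs i, hex i⟩, k i, hk i, x i, hx i, not_le.1 hc⟩
  have hfoot : ∀ i, ∃ p T, Foot (rot (k i) ω) (x i) y R p T ∧
      XF (rot (k i) ω) p T ⊆ rot (k i) (Xs D (⋃ i, St i) ω) ∧
      Tidy (rot (k i) (Xs D (⋃ i, St i) ω)) (VZ (rot (k i) ω) p T) (FZ (rot (k i) ω) p T) (x i) y
        (4 * m) :=
    fun i => tidy_exit hd hSc h3 (hs i) (hex i) (hk i) (hx i) (hxR i)
  choose p T hf hXF hT using hfoot
  refine ⟨a, k, x, p, T,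
    { inj := hinj
      hk := hk
      hx := hxR
      ex := fun i => ⟨s i, hs i, hex i⟩
      pos := hx
      foot := hf
      xf := hXF
      tidy := hT
      sep := ?_ }⟩
  intro i j hij hkk
  exact sep_exit hd hSc h3 (hs i) (hs j) (hex i) (hex j) (fun he => hij (hinj he)) (hk i) (hx i)
    (by rw [hkk]; exact hx j) (hxR i) (hxR j)

theorem tx_agree {l : ℕ} {D : Finset Edge} {St : Fin l → Set V} {y h R m : ℤ} {ω ω' : Finset Edge}
    {a : Fin l → V} {k : Fin l → ℕ} {x : Fin l → ℤ} {p : Fin l → V} {T : Fin l → ℕ}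
    (ht : TX D St y h R m ω a k x p T)
    (hω : ω' ∩ Xs D (⋃ i, St i) ω = ω ∩ Xs D (⋃ i, St i) ω) :
    TX D St y h R m ω' a k x p T ∧ Xs D (⋃ i, St i) ω' = Xs D (⋃ i, St i) ω := by
  have hag : ∀ e ∈ Xs D (⋃ i, St i) ω, (e ∈ ω' ↔ e ∈ ω) := by
    intro e he
    have h1 : e ∈ ω' ∩ Xs D (⋃ i, St i) ω ↔ e ∈ ω ∩ Xs D (⋃ i, St i) ω := by rw [hω]
    rw [mem_inter, mem_inter] at h1
    exact ⟨fun h2 => (h1.1 ⟨h2, he⟩).1, fun h2 => (h1.2 ⟨h2, he⟩).1⟩
  have hX := (xs_agree hag).2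
  refine ⟨?_, hX⟩
  have hrot : ∀ i, ∀ e ∈ XF (rot (k i) ω) (p i) (T i), (e ∈ rot (k i) ω' ↔ e ∈ rot (k i) ω) := by
    intro i e he
    have h1 := ht.xf i he
    unfold rot at h1
    rw [mem_map] at h1
    obtain ⟨e0, he0, rfl⟩ := h1
    show rE (k i) e0 ∈ rot (k i) ω' ↔ rE (k i) e0 ∈ rot (k i) ω
    rw [mem_rot, mem_rot]
    exact hag e0 he0
  have hfa := fun i => foot_agree (ht.foot i) (hrot i)
  exact
    { inj := ht.inj
      hk := ht.hk
      hx := ht.hx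
      ex := fun i => by
        obtain ⟨s, hs, he⟩ := ht.ex i
        exact ⟨s, hs, (exit_agree hag (Set.mem_iUnion.2 ⟨i, hs⟩) (a i)).2 he⟩
      pos := ht.pos
      foot := fun i => (hfa i).1
      xf := fun i => by
        rw [hX, (hfa i).2.2.1]
        exact ht.xf i
      tidy := fun i => by
        rw [hX, (hfa i).2.2.2.1, (hfa i).2.2.2.2]
        exact ht.tidy i
      sep := ht.sep }

end FKS
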