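import Pool.Agent.Lib.MP_216314_pr.Sp.SSym

/-!
# JOB SCb: the extension regions of different cells are disjoint

`reg t = GOr (m t) y m ∪ GDr (m t) y m ⊆` edges with `m t - 2m ≤ e.1 ≤ m t + 3m`, `y - 5m ≤ e.2.1 ≤ y + 3m` (`mem_box`).
* same side `k = k'`: `rot k (S ∩ S')` is in both regions, but `|m t - m t'| ≥ 20 m > 5 m`.
* different sides: let `e ∈ S ∩ S'`, `e1 = rE k e`, `e2 = rE k' e`. Say `k < k' < 4`. One rotation maps an edge with coordinates `(a, b)` to an edge with coordinates `(-b, a)` or `(-b - 1, a)` (`rotE`); `e2` is obtained from `e1`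
  by `k' - k ∈ {1, 2, 3}` rotations (`rE (k + 1) = (rE k).trans rotE`). We know `|e1.1| ≤ h - R + 4m`, `y - 5m ≤ e1.2.1 ≤ y + 3m`, the same for `e2`, `|y| ≥ h ≥ R ≥ 100 m` (`h ≥ R` because `|m t| ≤ h - R + m` and `R ≥ 100m`.. if
  `h < R` then `h - R + m ≥ 0` forces `h ≥ R - m ≥ 99 m`: in all cases `|y| ≥ h ≥ R - m ≥ 99 m`).
  1 rotation: `e2.1 ∈ {-b, -b-1}` with `b = e1.2.1`, `|e2.1| ≥ |y| - 5m - 1 ≥ h - 5m - 1 > h - R + 4m`. 2 rotations: `e2.2.1 ∈ {-b, -b-1}`, but `|(-b) - y| ≥ 2|y| - 5m`. 3 rotations: `e2.1 ∈ {b, b+1, b - 1}` up to `1`: as for 1.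
  (All by cases on the four values of `k, k'` and the bool, `simp [rE, rotE]`, `omega` after the absolute values are resolved with `abs_le`, `le_abs`.)
-/

set_option autoImplicit false

noncomputable section

namespace FKS

open Finset FKI FKP
open scoped Classical

theorem SCb_bd {k y m : ℤ} (_hm : 1 ≤ m) {e : Edge} (he : e ∈ GOr k y m ∪ GDr k y m) :
    (k - 2 * m ≤ e.1 ∧ e.1 ≤ k + 3 * m) ∧ (y - 5 * m ≤ e.2.1 ∧ e.2.1 ≤ y + 3 * m) := by
  unfold GOr GDr at he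
  simp only [mem_union, mem_box] at he
  omega

theorem SCb_rot (e : Edge) : (-1 ≤ (rotE e).1 + e.2.1 ∧ (rotE e).1 + e.2.1 ≤ 0) ∧
    (rotE e).2.1 = e.1 := by
  obtain ⟨a, b, t⟩ := e
  cases t
  · show (-1 ≤ -b + b ∧ -b + b ≤ 0) ∧ a = a
    omega
  · show (-1 ≤ -b - 1 + b ∧ -b - 1 + b ≤ 0) ∧ a = a
    omega

/-- three rotations or less change the side -/
theorem SCb_core {y h R m M M' : ℤ} (hm : 1 ≤ m) (hR : 100 * m ≤ R)
    (hy : h ≤ |y|) (ht : |M| ≤ h - R + m) (ht' : |M'| ≤ h - R + m) {e e' : Edge}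
    (he : (M - 2 * m ≤ e.1 ∧ e.1 ≤ M + 3 * m) ∧ (y - 5 * m ≤ e.2.1 ∧ e.2.1 ≤ y + 3 * m))
    (he' : (M' - 2 * m ≤ e'.1 ∧ e'.1 ≤ M' + 3 * m) ∧ (y - 5 * m ≤ e'.2.1 ∧ e'.2.1 ≤ y + 3 * m))
    (hr : e' = rotE e ∨ e' = rotE (rotE e) ∨ e' = rotE (rotE (rotE e))) : False := by
  rw [le_abs] at hy
  rw [abs_le] at ht ht'
  have h1 := SCb_rot e
  have h2 := SCb_rot (rotE e)
  have h3 := SCb_rot (rotE (rotE e))
  rcases hr with rfl | rfl | rfl
  · rcases hy with hy | hy <;> omega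
  · rcases hy with hy | hy <;> omega
  · rcases hy with hy | hy <;> omega

theorem SCb_same {m t t' a : ℤ} (hm : 1 ≤ m) (h : 20 ≤ |t - t'|)
    (h1 : m * t - 2 * m ≤ a ∧ a ≤ m * t + 3 * m) (h2 : m * t' - 2 * m ≤ a ∧ a ≤ m * t' + 3 * m) :
    False := by
  rw [le_abs] at h
  rcases h with h | h
  · have h3 : m * 20 ≤ m * (t - t') := mul_le_mul_of_nonneg_left h (by omega)
    rw [mul_sub] at h3
    omega
  · have h3 : m * 20 ≤ m * (-(t - t')) := mul_le_mul_of_nonneg_left h (by omega)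
    rw [mul_neg, mul_sub] at h3
    omega

theorem SCb_le {S S' : Finset Edge} {k k' : ℕ} {t t' y h R m : ℤ} (hm : 1 ≤ m) (hR : 100 * m ≤ R)
    (hy : h ≤ |y|) (hkk' : k ≤ k') (hk' : k' < 4) (ht : |m * t| ≤ h - R + m) (ht' : |m * t'| ≤ h - R + m)
    (hS : rot k S ⊆ GOr (m * t) y m ∪ GDr (m * t) y m) (hS' : rot k' S' ⊆ GOr (m * t') y m ∪ GDr (m * t') y m)
    (hkk : k = k' → 20 ≤ |t - t'|) : Disjoint S S' := by
  rw [Finset.disjoint_left]
  intro e he he'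
  have h1 := SCb_bd hm (hS ((mem_rot k S e).2 he))
  have h2 := SCb_bd hm (hS' ((mem_rot k' S' e).2 he'))
  obtain ⟨j, rfl⟩ := Nat.exists_eq_add_of_le hkk'
  have hj : j < 4 := by omega
  interval_cases j
  · exact SCb_same hm (hkk rfl) h1.1 h2.1
  · exact SCb_core hm hR hy ht ht' h1 h2 (Or.inl rfl)
  · exact SCb_core hm hR hy ht ht' h1 h2 (Or.inr (Or.inl rfl))
  · exact SCb_core hm hR hy ht ht' h1 h2 (Or.inr (Or.inr rfl))

theorem reg_disj {S S' : Finset Edge} {k k' : ℕ} {t t' y h R m : ℤ} (hm : 1 ≤ m) (hR : 100 * m ≤ R)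
    (hy : h ≤ |y|) (hk : k < 4) (hk' : k' < 4) (ht : |m * t| ≤ h - R + m) (ht' : |m * t'| ≤ h - R + m)
    (hS : rot k S ⊆ GOr (m * t) y m ∪ GDr (m * t) y m) (hS' : rot k' S' ⊆ GOr (m * t') y m ∪ GDr (m * t') y m)
    (hkk : k = k' → 20 ≤ |t - t'|) : Disjoint S S' := by
  rcases le_total k k' with h1 | h1
  · exact SCb_le hm hR hy h1 hk' ht ht' hS hS' hkk
  · refine (SCb_le hm hR hy h1 hk ht' ht hS' hS ?_).symm
    intro h2
    rw [abs_sub_comm]
    exact hkk h2.symm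

/-- the extension regions are in the big box around the foot -/
theorem reg_sub {x k y R m : ℤ} (hm : 1 ≤ m) (hR : 5 * m ≤ R) (hk : k ≤ x) (hk' : x ≤ k + m) :
    GOr k y m ∪ GDr k y m ⊆ box (x - R) (x + R) (y - R) (y + R) := by
  intro e he
  unfold GOr GDr at he
  simp only [mem_union, mem_box] at he
  rw [mem_box]
  cases hb : e.2.2
  · left
    simp only [hb, Bool.false_eq_true, false_and, or_false, true_and] at he
    refine ⟨rfl, ?_⟩
    omega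
  · right
    simp only [hb, Bool.true_eq_false, false_and, false_or, true_and] at he
    refine ⟨rfl, ?_⟩
    omega

end FKS
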