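import Pool.Agent.Lib.MP_216314_pr.Sp.SEz
import Pool.Agent.Lib.MP_216314_pr.Sp.SCa
import Pool.Agent.Lib.MP_216314_pr.Sp.SCb

/-!
# JOB SCo: the core of the separation: tidy exits can be extended

`S = ⋃ i, St i`, `X ω = Xs D S ω`, `A ω = ∃ a k x p T, TX D St y h R m ω a k x p T`.
* (1) `ExitN ∧ ¬ Near ∧ ¬ Bad → A` (`tx_of`). (2) `A`, `X` satisfy the hypothesis `hX` of `markov_ge` (`tx_agree`).
* (3) `land_ext`: fix `ω` with `TX ..`. `t i = x i / m` (integer division), `m t i ≤ x i ≤ m t i + m`, `κ i = (k i, t i) ∈ Cells l m h R`: `|m t i| ≤ h - R + m`; `|t i| ≤ |h| + |m|`; for `i ≠ j` with `k i = k j`: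
  `m |t i - t j| ≥ 30 m - m`, so `|t i - t j| ≥ 20`. `ext_rot` with `k = m t i` for every `i` (`choose`): sets `S1 i, S2 i`, events `G1 i, G2 i` (`reg_sub`, `Dom.sub`). The `2 l` sets are pairwise disjoint: for the same `i` by `ext_rot`, for
  `i ≠ j` by `reg_disj`. `G ω' = ∀ i, G1 i ω' ∧ G2 i ω'`; `Pr G = ∏ i, Pr (G1 i) Pr (G2 i) ≥ (c^3 c^3)^l = c^(6l)`: `indep_all` for the index set `univ : Finset (Fin l × Bool)` (the sets `S1 i ∩ E`... if `S1 i ⊆ E` is needed: `rot k (S1 i) ⊆ GOr ⊆ rot k E`,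
  `rot_subset`). `G` depends on the complement of `X ω` only.
  `Land κ ω'` holds if `ω' ∩ X ω = ω ∩ X ω` and `G ω'`: with the `s ∈ St i` of the exit: `Exit D ω' s (a i)` (`exit_agree`), so `vtx s` and `vtx (a i)` are connected in `D` (`orb_conn`; `XF ω' s T0 ⊆ D` by `Run`; `conn_mono'`), rotate:
  `Conn D (rot k ω') (x, y) (rV k (vtx s))` (`conn_rot`, `rotD`, `vtx_rot`, `vtx (2x, 2y) = (x, y)`); the same for faces (`orb_dconn`, `dconn_rot`, `fce_rot`, `fce (2x, 2y) = (x-1, y-1)`).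
* (4) `core`: `markov_ge` with `B ω = ∃ κ ∈ Cells l m h R, Land D St y m κ ω`: `c^(6l) Pr (ExitN ..) ≤ c^(6l) Pr A ≤ Pr (A ∧ B) ≤ Pr B ≤ ∑ Pr (Land κ)` (`IPC.Pr_mono`, `IPC.Pr_exists_le`).
-/

set_option autoImplicit false

noncomputable section

namespace FKS

open Finset FKI FKP
open scoped Classical

theorem SCo_agree {X ω ω' : Finset Edge} (h : ω' ∩ X = ω ∩ X) : ∀ e ∈ X, (e ∈ ω' ↔ e ∈ ω) := by
  intro e he
  constructor
  · intro h1
    have h2 : e ∈ ω' ∩ X := Finset.mem_inter.2 ⟨h1, he⟩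
    rw [h] at h2
    exact (Finset.mem_inter.1 h2).1
  · intro h1
    have h2 : e ∈ ω ∩ X := Finset.mem_inter.2 ⟨h1, he⟩
    rw [← h] at h2
    exact (Finset.mem_inter.1 h2).1

theorem SCo_xf {D ω : Finset Edge} {s : V} {T : ℕ} (h : Run D ω s T) : XF ω s T ⊆ D := by
  intro e he
  rw [mem_XF] at he
  obtain ⟨k, hk, rfl⟩ := he
  exact h k hk

theorem SCo_div {x m : ℤ} (hm : 1 ≤ m) : m * (x / m) ≤ x ∧ x ≤ m * (x / m) + m := by
  have h1 := Int.emod_add_mul_ediv x m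
  have h2 := Int.emod_nonneg x (show m ≠ 0 by omega)
  have h3 := Int.emod_lt_of_pos x (show 0 < m by omega)
  constructor <;> linarith

theorem SCo_ab {m t h R x : ℤ} (h1 : m * t ≤ x) (h2 : x ≤ m * t + m) (hx : |x| ≤ h - R) :
    |m * t| ≤ h - R + m := by
  rw [abs_le] at hx ⊢
  constructor <;> omega

theorem SCo_t {m t h R : ℤ} (hm : 1 ≤ m) (hR : 100 * m ≤ R) (h1 : |m * t| ≤ h - R + m) :
    -(|h| + |m|) ≤ t ∧ t ≤ |h| + |m| := by
  have h2 : |t| ≤ |m * t| := by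
    rw [abs_mul]
    have h3 : 1 ≤ |m| := by
      rw [abs_of_pos (by omega)]
      exact hm
    have h4 := abs_nonneg t
    nlinarith
  have h3 : |t| ≤ |h| + |m| := by
    have h4 := le_abs_self h
    have h5 := le_abs_self m
    omega
  exact abs_le.1 h3

theorem SCo_sep {m t t' x x' : ℤ} (hm : 1 ≤ m) (h1 : m * t ≤ x) (h2 : x ≤ m * t + m) (h1' : m * t' ≤ x')
    (h2' : x' ≤ m * t' + m) (hs : 30 * m ≤ |x - x'|) : 20 ≤ |t - t'| := by
  by_contra hc
  rw [not_le, abs_lt] at hc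
  obtain ⟨h3, h4⟩ := hc
  have h5 : m * (t - t') ≤ m * 19 := mul_le_mul_of_nonneg_left (by omega) (by omega)
  have h6 : m * (-19) ≤ m * (t - t') := mul_le_mul_of_nonneg_left (by omega) (by omega)
  have h7 : m * (t - t') = m * t - m * t' := by ring
  rw [h7] at h5 h6
  rw [le_abs] at hs
  rcases hs with hs | hs <;> omega

theorem land_ext {c q : ℝ} {N : ℤ} (hq0 : 0 ≤ q) (hq1 : q ≤ 1) (hc : 0 ≤ c) (hRB : RB c q N) {l : ℕ}
    {E D : Finset Edge} {Ex : Set V} {St : Fin l → Set V} {y h R m : ℤ} (hd : Dom E D Ex St y h R m)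
    (hN : 8 * m ≤ N) {ω : Finset Edge} {a : Fin l → V} {k : Fin l → ℕ} {x : Fin l → ℤ} {p : Fin l → V}
    {T : Fin l → ℕ} (ht : TX D St y h R m ω a k x p T) :
    ∃ G : Finset Edge → Prop, (∀ ω', G ω' ↔ G (ω' \ Xs D (⋃ i, St i) ω)) ∧ c ^ (6 * l) ≤ IPC.Pr q E G ∧
      ∀ ω', ω' ∩ Xs D (⋃ i, St i) ω = ω ∩ Xs D (⋃ i, St i) ω → G ω' →
        ∃ κ ∈ Cells l m h R, Land D St y m κ ω' := by
  have hm := hd.hm
  have hR := hd.hR
  have hdiv : ∀ i, m * (x i / m) ≤ x i ∧ x i ≤ m * (x i / m) + m := fun i => SCo_div hm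
  have hab : ∀ i, |m * (x i / m)| ≤ h - R + m := fun i => SCo_ab (hdiv i).1 (hdiv i).2 (ht.hx i)
  have hXD : Xs D (⋃ i, St i) ω ⊆ D := Finset.filter_subset _ _
  have hsub : ∀ i, GOr (m * (x i / m)) y m ∪ GDr (m * (x i / m)) y m ⊆ rot (k i) E := fun i =>
    (reg_sub hm (by omega) (hdiv i).1 (hdiv i).2).trans (hd.sub (k i) (ht.hk i) (x i) (ht.hx i))
  have hext := fun i => ext_rot hq0 hq1 hc hRB (hd.rotD (k i)) (hd.lh (x i) (ht.hx i)) hXD (ht.foot i)
    (ht.xf i) (ht.tidy i) hm (by omega) (hdiv i).1 (hdiv i).2 hN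
    (Finset.subset_union_left.trans (hsub i)) (Finset.subset_union_right.trans (hsub i))
  choose S1 S2 G1 G2 e1 e2 e3 e4 e5 e6 e7 e8 e9 e10 using hext
  obtain ⟨F, hF⟩ : ∃ F : Fin l × Bool → Finset Edge, F = fun z => if z.2 then S1 z.1 else S2 z.1 := ⟨_, rfl⟩
  obtain ⟨A, hA⟩ : ∃ A : Fin l × Bool → Finset Edge → Prop,
      A = fun z => if z.2 then G1 z.1 else G2 z.1 := ⟨_, rfl⟩
  have hF1 : ∀ i, F (i, true) = S1 i := fun i => by rw [hF]; rfl
  have hF2 : ∀ i, F (i, false) = S2 i := fun i => by rw [hF]; rfl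
  have hA1 : ∀ i, A (i, true) = G1 i := fun i => by rw [hA]; rfl
  have hA2 : ∀ i, A (i, false) = G2 i := fun i => by rw [hA]; rfl
  have hreg : ∀ z : Fin l × Bool, rot (k z.1) (F z) ⊆
      GOr (m * (x z.1 / m)) y m ∪ GDr (m * (x z.1 / m)) y m := by
    rintro ⟨i, b⟩
    cases b
    · rw [hF2]
      exact (e2 i).trans Finset.subset_union_right
    · rw [hF1]
      exact (e1 i).trans Finset.subset_union_left
  have hFE : ∀ z ∈ (Finset.univ : Finset (Fin l × Bool)), F z ⊆ E := by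
    intro z _
    exact rot_subset.1 ((hreg z).trans (hsub z.1))
  have hdis : ∀ z ∈ (Finset.univ : Finset (Fin l × Bool)), ∀ z' ∈ (Finset.univ : Finset (Fin l × Bool)),
      z ≠ z' → Disjoint (F z) (F z') := by
    rintro ⟨i, b⟩ _ ⟨j, b'⟩ _ hne
    by_cases hij : i = j
    · subst hij
      cases b <;> cases b'
      · exact absurd rfl hne
      · rw [hF1, hF2]
        exact (e3 i).symm
      · rw [hF1, hF2]
        exact e3 i
      · exact absurd rfl hne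
    · refine reg_disj hm hR hd.hy (ht.hk i) (ht.hk j) (hab i) (hab j) (hreg (i, b)) (hreg (j, b')) ?_
      intro hkk
      exact SCo_sep hm (hdiv i).1 (hdiv i).2 (hdiv j).1 (hdiv j).2 (ht.sep i j hij hkk)
  have hdep : ∀ z ∈ (Finset.univ : Finset (Fin l × Bool)), ∀ ω', A z ω' ↔ A z (ω' ∩ F z) := by
    rintro ⟨i, b⟩ _ ω'
    cases b
    · rw [hA2, hF2]
      exact e7 i ω'
    · rw [hA1, hF1]
      exact e6 i ω'
  have hdX : ∀ z, Disjoint (F z) (Xs D (⋃ i, St i) ω) := by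
    rintro ⟨i, b⟩
    cases b
    · rw [hF2]
      exact e5 i
    · rw [hF1]
      exact e4 i
  have hpr : ∀ z, c ^ 3 ≤ IPC.Pr q E (A z) := by
    rintro ⟨i, b⟩
    cases b
    · rw [hA2]
      exact e9 i
    · rw [hA1]
      exact e8 i
  refine ⟨fun ω' => ∀ z ∈ (Finset.univ : Finset (Fin l × Bool)), A z ω', ?_, ?_, ?_⟩
  · intro ω'
    have h1 : ∀ z, (ω' \ Xs D (⋃ i, St i) ω) ∩ F z = ω' ∩ F z := by
      intro z
      ext e
      have h2 : e ∈ F z → e ∉ Xs D (⋃ i, St i) ω := fun h3 => Finset.disjoint_left.1 (hdX z) h3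
      simp only [Finset.mem_inter, Finset.mem_sdiff]
      tauto
    constructor
    · intro h2 z hz
      rw [hdep z hz, h1, ← hdep z hz]
      exact h2 z hz
    · intro h2 z hz
      have h3 := h2 z hz
      rw [hdep z hz, h1, ← hdep z hz] at h3
      exact h3
  · rw [indep_all q E Finset.univ F A hFE hdis hdep]
    have h1 : c ^ (6 * l) = ∏ _z : Fin l × Bool, c ^ 3 := by
      rw [Finset.prod_const, Finset.card_univ, Fintype.card_prod, Fintype.card_fin, Fintype.card_bool,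
        ← pow_mul]
      congr 1
      ring
    rw [h1]
    exact Finset.prod_le_prod (fun z _ => by positivity) (fun z _ => hpr z)
  · intro ω' hω' hG
    refine ⟨fun i => (k i, x i / m), ?_, ?_⟩
    · unfold Cells
      rw [Finset.mem_filter, Fintype.mem_piFinset]
      refine ⟨fun i => ?_, fun i => hab i, fun i j hij hkk => ?_⟩
      · rw [Finset.mem_product, Finset.mem_range, Finset.mem_Icc]
        exact ⟨ht.hk i, SCo_t hm hR (hab i)⟩
      · exact SCo_sep hm (hdiv i).1 (hdiv i).2 (hdiv j).1 (hdiv j).2 (ht.sep i j hij hkk)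
    · intro i
      obtain ⟨s, hs, hex⟩ := ht.ex i
      have hs' : s ∈ ⋃ i, St i := Set.mem_iUnion.2 ⟨i, hs⟩
      have hex' : Exit D ω' s (a i) := (exit_agree (SCo_agree hω') hs' (a i)).2 hex
      obtain ⟨T0, hrun, horb, _⟩ := hex'
      have hc1 : Conn D ω' (vtx (a i)) (vtx s) := by
        have h1 := orb_conn (ω := ω') (s := s) (T := T0) (i := T0) (j := 0) le_rfl (Nat.zero_le _)
        rw [horb, orb_zero] at h1
        exact Conn.mono (SCo_xf hrun) (Finset.Subset.refl _) h1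
      have hc2 : DConn D ω' (fce (a i)) (fce s) := by
        have h1 := orb_dconn (ω := ω') (s := s) (T := T0) (i := T0) (j := 0) le_rfl (Nat.zero_le _)
        rw [horb, orb_zero] at h1
        exact DConn.mono (fun e he h2 => ⟨SCo_xf hrun he, h2⟩) h1
      have hv : rV (k i) (vtx (a i)) = (x i, y) := by
        rw [← vtx_rot, ht.pos i]
        unfold vtx
        ext
        · show 2 * x i / 2 = x i
          omega
        · show 2 * y / 2 = y
          omega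
      have hf : rF (k i) (fce (a i)) = (x i - 1, y - 1) := by
        rw [← fce_rot, ht.pos i]
        unfold fce
        ext
        · show (2 * x i - 1) / 2 = x i - 1
          omega
        · show (2 * y - 1) / 2 = y - 1
          omega
      have hc1' : Conn D (rot (k i) ω') (x i, y) (rV (k i) (vtx s)) := by
        have h1 := (conn_rot (k i) D ω' (vtx (a i)) (vtx s)).2 hc1
        rw [hd.rotD, hv] at h1
        exact h1
      have hc2' : DConn D (rot (k i) ω') (x i - 1, y - 1) (rF (k i) (fce s)) := by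
        have h1 := (dconn_rot (k i) D ω' (fce (a i)) (fce s)).2 hc2
        rw [hd.rotD, hf] at h1
        exact h1
      have g1 : G1 i ω' := by
        have h1 := hG (i, true) (Finset.mem_univ _)
        rw [hA1] at h1
        exact h1
      have g2 : G2 i ω' := by
        have h1 := hG (i, false) (Finset.mem_univ _)
        rw [hA2] at h1
        exact h1
      exact ⟨⟨s, hs, (e10 i ω' hω').1 g1 _ hc1'⟩, ⟨s, hs, (e10 i ω' hω').2 g2 _ hc2'⟩⟩

theorem core {c q : ℝ} {N : ℤ} (hq0 : 0 ≤ q) (hq1 : q ≤ 1) (hc : 0 ≤ c) (hRB : RB c q N) {l : ℕ}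
    {E D : Finset Edge} {Ex : Set V} {St : Fin l → Set V} {y h R m : ℤ} (hd : Dom E D Ex St y h R m)
    {Sc : Finset ℤ} (hSc : ∀ s ∈ Sc, 30 * m ≤ s ∧ 3 * s ≤ R) (hN : 8 * m ≤ N) :
    c ^ (6 * l) * IPC.Pr q E (fun ω => ExitN D Ex St ω ∧ ¬ Near D Ex St y h R ω ∧ ¬ Bad y h R Sc ω) ≤
      ∑ κ ∈ Cells l m h R, IPC.Pr q E (Land D St y m κ) := by
  have h1 : IPC.Pr q E (fun ω => ExitN D Ex St ω ∧ ¬ Near D Ex St y h R ω ∧ ¬ Bad y h R Sc ω) ≤
      IPC.Pr q E (fun ω => ∃ a k x p T, TX D St y h R m ω a k x p T) :=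
    IPC.Pr_mono hq0 hq1 E (fun ω _ hω => tx_of hd hSc hω.1 hω.2.1 hω.2.2)
  have h2 : c ^ (6 * l) * IPC.Pr q E (fun ω => ∃ a k x p T, TX D St y h R m ω a k x p T) ≤
      IPC.Pr q E (fun ω => (∃ a k x p T, TX D St y h R m ω a k x p T) ∧
        ∃ κ ∈ Cells l m h R, Land D St y m κ ω) := by
    refine markov_ge hq0 hq1 E _ _ (fun ω => Xs D (⋃ i, St i) ω) ?_ (by positivity) ?_
    · rintro ω _ ⟨a, k, x, p, T, ht⟩ ω' _ hω'
      obtain ⟨h3, h4⟩ := tx_agree ht hω'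
      exact ⟨⟨a, k, x, p, T, h3⟩, h4⟩
    · rintro ω _ ⟨a, k, x, p, T, ht⟩
      obtain ⟨G, hG1, hG2, hG3⟩ := land_ext hq0 hq1 hc hRB hd hN ht
      exact ⟨G, hG1, hG2, fun ω' _ h3 h4 => hG3 ω' h3 h4⟩
  have h3 : IPC.Pr q E (fun ω => (∃ a k x p T, TX D St y h R m ω a k x p T) ∧
        ∃ κ ∈ Cells l m h R, Land D St y m κ ω) ≤
      IPC.Pr q E (fun ω => ∃ κ ∈ Cells l m h R, Land D St y m κ ω) :=
    IPC.Pr_mono hq0 hq1 E (fun ω _ hω => hω.2)
  have h4 := IPC.Pr_exists_le hq0 hq1 E (Cells l m h R) (fun κ ω => Land D St y m κ ω)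
  have h5 : 0 ≤ c ^ (6 * l) := by positivity
  calc c ^ (6 * l) * IPC.Pr q E (fun ω => ExitN D Ex St ω ∧ ¬ Near D Ex St y h R ω ∧ ¬ Bad y h R Sc ω)
      ≤ c ^ (6 * l) * IPC.Pr q E (fun ω => ∃ a k x p T, TX D St y h R m ω a k x p T) :=
        mul_le_mul_of_nonneg_left h1 h5
    _ ≤ _ := h2
    _ ≤ _ := h3
    _ ≤ _ := h4

end FKS
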