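import Pool.Agent.Lib.MP_25e40f_pr.A.Prb
import Pool.Agent.Lib.MP_25e40f_pr.A.Har

/-!
# JOB SPrA: strong Markov property of a stopping set, independent families, FKG for decreasing events

General product measure `IPC.Pr q E` (`A/Prb.lean`, `A/Bas.lean`, `A/Har.lean`), `ε` any type of edges with decidable equality.
* `markov_ge`. On the event `A` there is an explored set `X ω` such that `A` and `X` are determined by the state of `X ω` (`hX`). Given the explored state, the event `B` contains an event `G` which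
  depends only on the unexplored edges and has probability at least `c`. Then `c Pr A ≤ Pr (A ∧ B)`.
  PROOF. Index set `Tt = (E.powerset.filter A).image (fun ω => (X ω, ω ∩ X ω))` (a `Finset (Finset ε × Finset ε)`), events `C t ω = (ω ∩ t.1 = t.2)`. For `ω ⊆ E`: `A ω ↔ ∃ t ∈ Tt, C t ω` (→ take
  `t = (X ω, ω ∩ X ω)`; ← `t = (X ω0, ω0 ∩ X ω0)` with `A ω0`, `ω ∩ X ω0 = ω0 ∩ X ω0`: `hX`). The events are exclusive: if `C t ω`, `C t' ω` with `t = (X ω0, ..)`, `t' = (X ω1, ..)` then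
  `X ω0 = X ω = X ω1` by `hX`, and `t.2 = ω ∩ X ω = t'.2`. By `Pr_exists_eq`: `Pr A = ∑ Pr (C t)`, `Pr (A ∧ B) = ∑ Pr (C t ∧ B)`. For `t = (X ω0, ω0 ∩ X ω0)` and the `G` of `ω0`:
  `Pr (C t ∧ B) ≥ Pr (C t ∧ G) = Pr (C t) Pr G` by `Pr_indep` with `E₁ = E ∩ X ω0`, `E₂ = E \ X ω0` (`C t ω ↔ C t (ω ∩ (E ∩ X ω0))` for `ω ⊆ E`; `G ω ↔ G (ω \ X ω0)`, `ω ∩ (E \ X ω0) = ω \ X ω0`).
* `markov_le`: the same with `Pr (C t ∧ B) ≤ Pr (C t ∧ G) = Pr (C t) Pr G ≤ δ Pr (C t)`.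
* `indep_all`: induction on `s` (`Finset.induction_on`), `Pr_indep` with `E₁ = F i`, `E₂ = s.biUnion F` (both contained in `E`; disjoint by `hd`; the conjunction over `s` depends on the union).
* `harris_dec`: `Pr (A ∧ B) = 1 - Pr (¬A) - Pr (¬B) + Pr (¬A ∧ ¬B)` and `harris` for the increasing events `¬A`, `¬B` (`Pr_not`, `Pr_split`): so `Pr (A ∧ B) ≥ (1 - Pr ¬A)(1 - Pr ¬B)`.
* `harris_dec3`, `harris_inc3`: three events. `harris_mix`: `A`, `C` increasing and decreasing on disjoint edge sets: independence.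
-/

set_option autoImplicit false

noncomputable section

namespace FKS

open Finset IPC
open scoped Classical

variable {ε : Type} [DecidableEq ε]

private theorem SPrA_dec (q : ℝ) (E : Finset ε) (A B : Finset ε → Prop) (X : Finset ε → Finset ε)
    (hX : ∀ ω ⊆ E, A ω → ∀ ω' ⊆ E, ω' ∩ X ω = ω ∩ X ω → A ω' ∧ X ω' = X ω) :
    Pr q E (fun ω => A ω ∧ B ω) = ∑ t ∈ (E.powerset.filter A).image (fun ω => (X ω, ω ∩ X ω)),
      Pr q E (fun ω => ω ∩ t.1 = t.2 ∧ B ω) := by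
  rw [← Pr_exists_eq q E _ (fun (t : Finset ε × Finset ε) ω => ω ∩ t.1 = t.2 ∧ B ω)]
  · refine Pr_congr q E fun ω hω => ⟨?_, ?_⟩
    · rintro ⟨h1, h2⟩
      exact ⟨(X ω, ω ∩ X ω), mem_image.2 ⟨ω, mem_filter.2 ⟨mem_powerset.2 hω, h1⟩, rfl⟩, rfl, h2⟩
    · rintro ⟨t, ht, h1, h2⟩
      obtain ⟨ω0, h3, rfl⟩ := mem_image.1 ht
      rw [mem_filter, mem_powerset] at h3
      exact ⟨(hX ω0 h3.1 h3.2 ω hω h1).1, h2⟩
  · intro ω hω t ht t' ht' h1 h1'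
    obtain ⟨ω0, h3, rfl⟩ := mem_image.1 ht
    obtain ⟨ω1, h4, rfl⟩ := mem_image.1 ht'
    rw [mem_filter, mem_powerset] at h3 h4
    have e0 := (hX ω0 h3.1 h3.2 ω hω h1.1).2
    have e1 := (hX ω1 h4.1 h4.2 ω hω h1'.1).2
    have h5 : ω ∩ X ω0 = ω0 ∩ X ω0 := h1.1
    have h6 : ω ∩ X ω1 = ω1 ∩ X ω1 := h1'.1
    have h7 : X ω0 = X ω1 := e0.symm.trans e1
    show (X ω0, ω0 ∩ X ω0) = (X ω1, ω1 ∩ X ω1)
    rw [← h5, ← h6, h7]

private theorem SPrA_sum (q : ℝ) (E : Finset ε) (A : Finset ε → Prop) (X : Finset ε → Finset ε)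
    (hX : ∀ ω ⊆ E, A ω → ∀ ω' ⊆ E, ω' ∩ X ω = ω ∩ X ω → A ω' ∧ X ω' = X ω) :
    Pr q E A = ∑ t ∈ (E.powerset.filter A).image (fun ω => (X ω, ω ∩ X ω)),
      Pr q E (fun ω => ω ∩ t.1 = t.2) := by
  have h1 := SPrA_dec q E A (fun _ => True) X hX
  have h2 : Pr q E (fun ω => A ω ∧ True) = Pr q E A := Pr_congr q E fun ω _ => and_iff_left trivial
  rw [h2] at h1
  rw [h1]
  refine Finset.sum_congr rfl fun t _ => ?_
  exact Pr_congr q E fun ω _ => and_iff_left trivial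

private theorem SPrA_ind (q : ℝ) (E : Finset ε) (G : Finset ε → Prop) (S T : Finset ε)
    (hG : ∀ ω', G ω' ↔ G (ω' \ S)) :
    Pr q E (fun ω => ω ∩ S = T ∧ G ω) = Pr q E (fun ω => ω ∩ S = T) * Pr q E G := by
  refine Pr_indep q (E₁ := E ∩ S) (E₂ := E \ S) inter_subset_left sdiff_subset ?_ _ _ ?_ ?_
  · rw [Finset.disjoint_left]
    intro x hx hx'
    exact (mem_sdiff.1 hx').2 (mem_inter.1 hx).2
  · intro ω hω
    have h1 : ω ∩ (E ∩ S) ∩ S = ω ∩ S := by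
      ext x
      simp only [mem_inter]
      exact ⟨fun h => ⟨h.1.1, h.2⟩, fun h => ⟨⟨h.1, hω h.1, h.2⟩, h.2⟩⟩
    rw [h1]
  · intro ω hω
    have h1 : ω ∩ (E \ S) = ω \ S := by
      ext x
      simp only [mem_inter, mem_sdiff]
      exact ⟨fun h => ⟨h.1, h.2.2⟩, fun h => ⟨h.1, hω h.1, h.2⟩⟩
    rw [h1]
    exact hG ω

theorem markov_ge {q : ℝ} (hq0 : 0 ≤ q) (hq1 : q ≤ 1) (E : Finset ε) (A B : Finset ε → Prop)
    (X : Finset ε → Finset ε)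
    (hX : ∀ ω ⊆ E, A ω → ∀ ω' ⊆ E, ω' ∩ X ω = ω ∩ X ω → A ω' ∧ X ω' = X ω) {c : ℝ} (hc : 0 ≤ c)
    (h : ∀ ω ⊆ E, A ω → ∃ G : Finset ε → Prop, (∀ ω', G ω' ↔ G (ω' \ X ω)) ∧ c ≤ Pr q E G ∧
      ∀ ω' ⊆ E, ω' ∩ X ω = ω ∩ X ω → G ω' → B ω') :
    c * Pr q E A ≤ Pr q E (fun ω => A ω ∧ B ω) := by
  rw [SPrA_sum q E A X hX, SPrA_dec q E A B X hX, Finset.mul_sum]
  refine Finset.sum_le_sum fun t ht => ?_
  obtain ⟨ω0, h3, rfl⟩ := mem_image.1 ht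
  rw [mem_filter, mem_powerset] at h3
  obtain ⟨G, hG, hcG, hGB⟩ := h ω0 h3.1 h3.2
  have h4 := SPrA_ind q E G (X ω0) (ω0 ∩ X ω0) hG
  have h5 : Pr q E (fun ω => ω ∩ X ω0 = ω0 ∩ X ω0 ∧ G ω) ≤ Pr q E (fun ω => ω ∩ X ω0 = ω0 ∩ X ω0 ∧ B ω) :=
    Pr_mono hq0 hq1 E fun ω hω h6 => ⟨h6.1, hGB ω hω h6.1 h6.2⟩
  have h6 := Pr_nonneg hq0 hq1 E (fun ω => ω ∩ X ω0 = ω0 ∩ X ω0)
  show c * Pr q E (fun ω => ω ∩ X ω0 = ω0 ∩ X ω0) ≤ Pr q E (fun ω => ω ∩ X ω0 = ω0 ∩ X ω0 ∧ B ω)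
  calc c * Pr q E (fun ω => ω ∩ X ω0 = ω0 ∩ X ω0) ≤ Pr q E G * Pr q E (fun ω => ω ∩ X ω0 = ω0 ∩ X ω0) :=
        mul_le_mul_of_nonneg_right hcG h6
    _ = Pr q E (fun ω => ω ∩ X ω0 = ω0 ∩ X ω0 ∧ G ω) := by rw [h4, mul_comm]
    _ ≤ _ := h5

theorem markov_le {q : ℝ} (hq0 : 0 ≤ q) (hq1 : q ≤ 1) (E : Finset ε) (A B : Finset ε → Prop)
    (X : Finset ε → Finset ε)
    (hX : ∀ ω ⊆ E, A ω → ∀ ω' ⊆ E, ω' ∩ X ω = ω ∩ X ω → A ω' ∧ X ω' = X ω) {δ : ℝ}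
    (h : ∀ ω ⊆ E, A ω → ∃ G : Finset ε → Prop, (∀ ω', G ω' ↔ G (ω' \ X ω)) ∧ Pr q E G ≤ δ ∧
      ∀ ω' ⊆ E, ω' ∩ X ω = ω ∩ X ω → B ω' → G ω') :
    Pr q E (fun ω => A ω ∧ B ω) ≤ δ * Pr q E A := by
  rw [SPrA_sum q E A X hX, SPrA_dec q E A B X hX, Finset.mul_sum]
  refine Finset.sum_le_sum fun t ht => ?_
  obtain ⟨ω0, h3, rfl⟩ := mem_image.1 ht
  rw [mem_filter, mem_powerset] at h3
  obtain ⟨G, hG, hcG, hGB⟩ := h ω0 h3.1 h3.2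
  have h4 := SPrA_ind q E G (X ω0) (ω0 ∩ X ω0) hG
  have h5 : Pr q E (fun ω => ω ∩ X ω0 = ω0 ∩ X ω0 ∧ B ω) ≤ Pr q E (fun ω => ω ∩ X ω0 = ω0 ∩ X ω0 ∧ G ω) :=
    Pr_mono hq0 hq1 E fun ω hω h6 => ⟨h6.1, hGB ω hω h6.1 h6.2⟩
  have h6 := Pr_nonneg hq0 hq1 E (fun ω => ω ∩ X ω0 = ω0 ∩ X ω0)
  show Pr q E (fun ω => ω ∩ X ω0 = ω0 ∩ X ω0 ∧ B ω) ≤ δ * Pr q E (fun ω => ω ∩ X ω0 = ω0 ∩ X ω0)
  calc Pr q E (fun ω => ω ∩ X ω0 = ω0 ∩ X ω0 ∧ B ω) ≤ Pr q E (fun ω => ω ∩ X ω0 = ω0 ∩ X ω0 ∧ G ω) := h5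
    _ = Pr q E G * Pr q E (fun ω => ω ∩ X ω0 = ω0 ∩ X ω0) := by rw [h4, mul_comm]
    _ ≤ _ := mul_le_mul_of_nonneg_right hcG h6

/-- events depending on pairwise disjoint sets of edges are independent -/
theorem indep_all {κ : Type} (q : ℝ) (E : Finset ε) (s : Finset κ) (F : κ → Finset ε)
    (A : κ → Finset ε → Prop) (hF : ∀ i ∈ s, F i ⊆ E) (hd : ∀ i ∈ s, ∀ j ∈ s, i ≠ j → Disjoint (F i) (F j))
    (hA : ∀ i ∈ s, ∀ ω, A i ω ↔ A i (ω ∩ F i)) :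
    Pr q E (fun ω => ∀ i ∈ s, A i ω) = ∏ i ∈ s, Pr q E (A i) := by
  induction s using Finset.induction_on with
  | empty =>
    rw [Finset.prod_empty]
    exact Pr_true q E fun ω _ i hi => absurd hi (Finset.notMem_empty i)
  | insert a s ha ih =>
    have ih' := ih (fun i hi => hF i (mem_insert_of_mem hi))
      (fun i hi j hj hij => hd i (mem_insert_of_mem hi) j (mem_insert_of_mem hj) hij)
      (fun i hi => hA i (mem_insert_of_mem hi))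
    rw [Finset.prod_insert ha, ← ih']
    have h1 : Pr q E (fun ω => ∀ i ∈ insert a s, A i ω) = Pr q E (fun ω => A a ω ∧ ∀ i ∈ s, A i ω) :=
      Pr_congr q E fun ω _ => Finset.forall_mem_insert _ _ _
    rw [h1]
    refine Pr_indep q (E₁ := F a) (E₂ := s.biUnion F) (hF a (mem_insert_self a s)) ?_ ?_ _ _ ?_ ?_
    · intro x hx
      obtain ⟨i, hi, hxi⟩ := mem_biUnion.1 hx
      exact hF i (mem_insert_of_mem hi) hxi
    · rw [Finset.disjoint_biUnion_right]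
      intro i hi
      refine hd a (mem_insert_self a s) i (mem_insert_of_mem hi) ?_
      rintro rfl
      exact ha hi
    · intro ω _
      exact hA a (mem_insert_self a s) ω
    · intro ω _
      refine forall₂_congr fun i hi => ?_
      rw [hA i (mem_insert_of_mem hi) ω, hA i (mem_insert_of_mem hi) (ω ∩ s.biUnion F)]
      have h2 : ω ∩ s.biUnion F ∩ F i = ω ∩ F i := by
        rw [Finset.inter_assoc, Finset.inter_eq_right.2 (Finset.subset_biUnion_of_mem F hi)]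
      rw [h2]

/-- decreasing event -/
def Dec (A : Finset ε → Prop) : Prop := ∀ ω ω', ω ⊆ ω' → A ω' → A ω

theorem harris_dec {q : ℝ} (hq0 : 0 ≤ q) (hq1 : q ≤ 1) (E : Finset ε) (A B : Finset ε → Prop)
    (hA : Dec A) (hB : Dec B) : Pr q E A * Pr q E B ≤ Pr q E (fun ω => A ω ∧ B ω) := by
  have hA' : Inc (fun ω => ¬ A ω) := fun ω ω' hs h h' => h (hA ω ω' hs h')
  have hB' : Inc (fun ω => ¬ B ω) := fun ω ω' hs h h' => h (hB ω ω' hs h')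
  have h1 := harris hq0 hq1 E (fun ω => ¬ A ω) (fun ω => ¬ B ω) hA' hB'
  rw [Pr_not, Pr_not] at h1
  have h2 := Pr_split q E (fun ω => ¬ A ω) B
  rw [Pr_not] at h2
  have h3 := Pr_split q E B A
  have h4 : Pr q E (fun ω => B ω ∧ A ω) = Pr q E (fun ω => A ω ∧ B ω) := Pr_congr q E fun ω _ => and_comm
  have h5 : Pr q E (fun ω => B ω ∧ ¬ A ω) = Pr q E (fun ω => ¬ A ω ∧ B ω) := Pr_congr q E fun ω _ => and_comm
  rw [h4, h5] at h3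
  nlinarith [h1, h2, h3]

theorem harris_inc3 {q : ℝ} (hq0 : 0 ≤ q) (hq1 : q ≤ 1) (E : Finset ε) (A B C : Finset ε → Prop)
    (hA : Inc A) (hB : Inc B) (hC : Inc C) {c : ℝ} (hc : 0 ≤ c) (h1 : c ≤ Pr q E A) (h2 : c ≤ Pr q E B)
    (h3 : c ≤ Pr q E C) : c ^ 3 ≤ Pr q E (fun ω => A ω ∧ B ω ∧ C ω) := by
  have hBC : Inc (fun ω => B ω ∧ C ω) := fun ω ω' hs h => ⟨hB ω ω' hs h.1, hC ω ω' hs h.2⟩
  have h4 := harris hq0 hq1 E B C hB hC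
  have h5 := harris hq0 hq1 E A (fun ω => B ω ∧ C ω) hA hBC
  have h6 : c * c ≤ Pr q E B * Pr q E C := mul_le_mul h2 h3 hc (hc.trans h2)
  calc c ^ 3 = c * (c * c) := by ring
    _ ≤ Pr q E A * Pr q E (fun ω => B ω ∧ C ω) := mul_le_mul h1 (h6.trans h4) (mul_nonneg hc hc) (hc.trans h1)
    _ ≤ _ := h5

theorem harris_dec3 {q : ℝ} (hq0 : 0 ≤ q) (hq1 : q ≤ 1) (E : Finset ε) (A B C : Finset ε → Prop)
    (hA : Dec A) (hB : Dec B) (hC : Dec C) {c : ℝ} (hc : 0 ≤ c) (h1 : c ≤ Pr q E A) (h2 : c ≤ Pr q E B)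
    (h3 : c ≤ Pr q E C) : c ^ 3 ≤ Pr q E (fun ω => A ω ∧ B ω ∧ C ω) := by
  have hBC : Dec (fun ω => B ω ∧ C ω) := fun ω ω' hs h => ⟨hB ω ω' hs h.1, hC ω ω' hs h.2⟩
  have h4 := harris_dec hq0 hq1 E B C hB hC
  have h5 := harris_dec hq0 hq1 E A (fun ω => B ω ∧ C ω) hA hBC
  have h6 : c * c ≤ Pr q E B * Pr q E C := mul_le_mul h2 h3 hc (hc.trans h2)
  calc c ^ 3 = c * (c * c) := by ring
    _ ≤ Pr q E A * Pr q E (fun ω => B ω ∧ C ω) := mul_le_mul h1 (h6.trans h4) (mul_nonneg hc hc) (hc.trans h1)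
    _ ≤ _ := h5

end FKS
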