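import Pool.Agent.Lib.MP_216314_pr.Sp.SDc
import Pool.Agent.Lib.MP_216314_pr.Sp.SPrA
import Pool.Agent.Lib.MP_216314_pr.P.PCross

/-!
# JOB SGad: the gadgets (open part): half annulus, extension path

* `cross_in`: `cross` (`P/PCross.lean`) for the configuration `ω ∩ F`: `Conn (box ..) ω = Conn (box ..) (ω ∩ F)` when the box is contained in `F` (`ω ∩ F ∩ box = ω ∩ box`), and
  `(gr (ω ∩ F)).Reachable` is `Conn F ω`.
* `ho_prob`: the rectangles `R1 = box (x+s+1) (x+3s) y (y+3s)` (vertical crossing), `R2 = box (x-3s) (x+3s) (y+s+1) (y+3s)` (horizontal crossing), `R3 = box (x-3s) (x-s-1) y (y+3s)` (vertical crossing) are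
  contained in `HA x y s` (`mem_box`, `omega`). If all three are crossed then `HO x y s`: `cross_in` with `F = HA x y s` for `(R2, R1)` and `(R2, R3)`: the bottom point `(w, y)` of the crossing of
  `R1`, the left point of the crossing of `R2` and the bottom point `(w', y)` of the crossing of `R3` are connected in `HA`. `harris_inc3` (`inc_HC`, `inc_VC`, `FKP.Inc` and `IPC.Inc` are the same by
  definition), `RB` for each rectangle (sides `2s - 1 ≥ 1`, `3s`, `6s ≤ N`; ratios at most `6`).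
* `go_prob`: the rectangles `box (k+2m) (k+3m) (y-5m) (y+3m)` (vertical), `box (k-2m) (k+3m) (y+2m) (y+3m)` (horizontal), `box (k-2m) (k-m) y (y+3m)` (vertical), ratios at most `8`.
-/

set_option autoImplicit false

noncomputable section

namespace FKS

open Finset FKI FKP
open scoped Classical

theorem cross_in {F ω : Finset Edge} {x1 x2 y1 y2 x3 x4 y3 y4 : ℤ} (hF1 : box x1 x2 y1 y2 ⊆ F)
    (hF2 : box x3 x4 y3 y4 ⊆ F) (h1 : x1 ≤ x3) (h2 : x4 ≤ x2) (h3 : y3 ≤ y1) (h4 : y2 ≤ y4)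
    {yu yu' xv xv' : ℤ} (hu : y1 ≤ yu ∧ yu ≤ y2) (hu' : y1 ≤ yu' ∧ yu' ≤ y2) (hv : x3 ≤ xv ∧ xv ≤ x4)
    (hv' : x3 ≤ xv' ∧ xv' ≤ x4) (hc : Conn (box x1 x2 y1 y2) ω (x1, yu) (x2, yu'))
    (hd : Conn (box x3 x4 y3 y4) ω (xv, y3) (xv', y4)) : Conn F ω (x1, yu) (xv, y3) := by
  have e1 : ω ∩ F ∩ box x1 x2 y1 y2 = ω ∩ box x1 x2 y1 y2 := by
    rw [Finset.inter_assoc, Finset.inter_eq_right.2 hF1]
  have e2 : ω ∩ F ∩ box x3 x4 y3 y4 = ω ∩ box x3 x4 y3 y4 := by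
    rw [Finset.inter_assoc, Finset.inter_eq_right.2 hF2]
  refine cross (ω := ω ∩ F) h1 h2 h3 h4 hu hu' hv hv' ?_ ?_
  · unfold Conn at hc ⊢
    rw [e1]
    exact hc
  · unfold Conn at hd ⊢
    rw [e2]
    exact hd

theorem SGad_R1 {x y s : ℤ} (hs : 1 ≤ s) : box (x + s + 1) (x + 3 * s) y (y + 3 * s) ⊆ HA x y s := by
  rintro ⟨a, b, t⟩ he
  unfold HA Bx
  rw [Finset.mem_sdiff, mem_box, mem_box]
  rw [mem_box] at he
  cases t <;> simp at he ⊢ <;> omega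

theorem SGad_R2 {x y s : ℤ} (hs : 1 ≤ s) : box (x - 3 * s) (x + 3 * s) (y + s + 1) (y + 3 * s) ⊆ HA x y s := by
  rintro ⟨a, b, t⟩ he
  unfold HA Bx
  rw [Finset.mem_sdiff, mem_box, mem_box]
  rw [mem_box] at he
  cases t <;> simp at he ⊢ <;> omega

theorem SGad_R3 {x y s : ℤ} (hs : 1 ≤ s) : box (x - 3 * s) (x - s - 1) y (y + 3 * s) ⊆ HA x y s := by
  rintro ⟨a, b, t⟩ he
  unfold HA Bx
  rw [Finset.mem_sdiff, mem_box, mem_box]
  rw [mem_box] at he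
  cases t <;> simp at he ⊢ <;> omega

theorem ho_prob {c q : ℝ} {N : ℤ} (hq0 : 0 ≤ q) (hq1 : q ≤ 1) (hc : 0 ≤ c) (hR : RB c q N) {x y s : ℤ}
    (hs : 1 ≤ s) (hN : 6 * s ≤ N) {E : Finset Edge} (hE : HA x y s ⊆ E) :
    c ^ 3 ≤ IPC.Pr q E (HO x y s) := by
  have b1 : c ≤ IPC.Pr q E (VC (x + s + 1) (x + 3 * s) y (y + 3 * s)) :=
    (hR (x + s + 1) (x + 3 * s) y (y + 3 * s) (by omega) (by omega) (by omega) (by omega) (by omega) (by omega) E
      ((SGad_R1 hs).trans hE)).2.1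
  have b2 : c ≤ IPC.Pr q E (HC (x - 3 * s) (x + 3 * s) (y + s + 1) (y + 3 * s)) :=
    (hR (x - 3 * s) (x + 3 * s) (y + s + 1) (y + 3 * s) (by omega) (by omega) (by omega) (by omega) (by omega)
      (by omega) E ((SGad_R2 hs).trans hE)).1
  have b3 : c ≤ IPC.Pr q E (VC (x - 3 * s) (x - s - 1) y (y + 3 * s)) :=
    (hR (x - 3 * s) (x - s - 1) y (y + 3 * s) (by omega) (by omega) (by omega) (by omega) (by omega) (by omega) E
      ((SGad_R3 hs).trans hE)).2.1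
  refine (harris_inc3 hq0 hq1 E _ _ _ (inc_VC _ _ _ _) (inc_HC _ _ _ _) (inc_VC _ _ _ _) hc b1 b2 b3).trans ?_
  refine IPC.Pr_mono hq0 hq1 E ?_
  rintro ω - ⟨⟨w, w1, k1, k2, k3, k4, hv1⟩, ⟨u, u', l1, l2, l3, l4, hh⟩, ⟨w', w1', m1, m2, m3, m4, hv3⟩⟩
  have c1 : Conn (HA x y s) ω (x - 3 * s, u) (w, y) :=
    cross_in (SGad_R2 hs) (SGad_R1 hs) (by omega) (by omega) (by omega) (by omega) ⟨l1, l2⟩ ⟨l3, l4⟩ ⟨k1, k2⟩
      ⟨k3, k4⟩ hh hv1
  have c3 : Conn (HA x y s) ω (x - 3 * s, u) (w', y) :=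
    cross_in (SGad_R2 hs) (SGad_R3 hs) (by omega) (by omega) (by omega) (by omega) ⟨l1, l2⟩ ⟨l3, l4⟩ ⟨m1, m2⟩
      ⟨m3, m4⟩ hh hv3
  exact ⟨w, w', by omega, by omega, by omega, by omega, c1.symm.trans c3⟩

theorem go_prob {c q : ℝ} {N : ℤ} (hq0 : 0 ≤ q) (hq1 : q ≤ 1) (hc : 0 ≤ c) (hR : RB c q N) {k y m : ℤ}
    (hm : 1 ≤ m) (hN : 8 * m ≤ N) {E : Finset Edge} (hE : GOr k y m ⊆ E) :
    c ^ 3 ≤ IPC.Pr q E (GO k y m) := by
  have f1 : box (k + 2 * m) (k + 3 * m) (y - 5 * m) (y + 3 * m) ⊆ GOr k y m := by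
    unfold GOr
    exact Finset.subset_union_left
  have f2 : box (k - 2 * m) (k + 3 * m) (y + 2 * m) (y + 3 * m) ⊆ GOr k y m := by
    unfold GOr
    exact Finset.subset_union_left.trans Finset.subset_union_right
  have f3 : box (k - 2 * m) (k - m) y (y + 3 * m) ⊆ GOr k y m := by
    unfold GOr
    exact Finset.subset_union_right.trans Finset.subset_union_right
  have b1 : c ≤ IPC.Pr q E (VC (k + 2 * m) (k + 3 * m) (y - 5 * m) (y + 3 * m)) :=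
    (hR (k + 2 * m) (k + 3 * m) (y - 5 * m) (y + 3 * m) (by omega) (by omega) (by omega) (by omega) (by omega)
      (by omega) E (f1.trans hE)).2.1
  have b2 : c ≤ IPC.Pr q E (HC (k - 2 * m) (k + 3 * m) (y + 2 * m) (y + 3 * m)) :=
    (hR (k - 2 * m) (k + 3 * m) (y + 2 * m) (y + 3 * m) (by omega) (by omega) (by omega) (by omega) (by omega)
      (by omega) E (f2.trans hE)).1
  have b3 : c ≤ IPC.Pr q E (VC (k - 2 * m) (k - m) y (y + 3 * m)) :=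
    (hR (k - 2 * m) (k - m) y (y + 3 * m) (by omega) (by omega) (by omega) (by omega) (by omega) (by omega) E
      (f3.trans hE)).2.1
  refine (harris_inc3 hq0 hq1 E _ _ _ (inc_VC _ _ _ _) (inc_HC _ _ _ _) (inc_VC _ _ _ _) hc b1 b2 b3).trans ?_
  refine IPC.Pr_mono hq0 hq1 E ?_
  rintro ω - ⟨⟨w, w1, k1, k2, k3, k4, hv1⟩, ⟨u, u', l1, l2, l3, l4, hh⟩, ⟨w', w1', m1, m2, m3, m4, hv3⟩⟩
  have c1 : Conn (GOr k y m) ω (k - 2 * m, u) (w, y - 5 * m) :=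
    cross_in f2 f1 (by omega) (by omega) (by omega) (by omega) ⟨l1, l2⟩ ⟨l3, l4⟩ ⟨k1, k2⟩ ⟨k3, k4⟩ hh hv1
  have c3 : Conn (GOr k y m) ω (k - 2 * m, u) (w', y) :=
    cross_in f2 f3 (by omega) (by omega) (by omega) (by omega) ⟨l1, l2⟩ ⟨l3, l4⟩ ⟨m1, m2⟩ ⟨m3, m4⟩ hh hv3
  exact ⟨w, w', by omega, by omega, by omega, by omega, c1.symm.trans c3⟩

end FKS
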