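import Pool.Agent.Lib.MP_216314_pr.Sp.SDc
import Pool.Agent.Lib.MP_216314_pr.Sp.SPrA
import Pool.Agent.Lib.MP_216314_pr.P.PCross

/-!
# JOB SGadd: the gadgets (dual part)

* `dcross`: `cross` (`P/PCross.lean`) for the configuration `ω' = (F \ ω).image dE` of dual edges and the rectangles `[x1-1, x2] × [y1-1, y2]`, `[x3-1, x4] × [y3-1, y4]` of faces:
  `DConn (box x1 x2 y1 y2) ω f g` is reachability in `gr ((box \ ω).image dE)`, and `(box x1 x2 y1 y2 \ ω).image dE ⊆ ω' ∩ box (x1-1) x2 (y1-1) y2`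
  (`dE (a, b, false) = (a, b-1, true)`, `dE (a, b, true) = (a-1, b, false)`; `mem_box`), so it gives `Conn (box (x1-1) x2 (y1-1) y2) ω' f g` (`gr_mono`).
* `hd_prob`: dual crossings of the rectangles of `ho_prob`: `R1 = box (x+s+1) (x+3s) y (y+3s)` (`DVC`), `R2 = box (x-3s) (x+3s) (y+s+1) (y+3s)` (`DHC`), `R3 = box (x-3s) (x-s-1) y (y+3s)` (`DVC`), all in `HA x y s`.
  The bottom faces `(i', y-1)`, `x+s+1 ≤ i' < x+3s`, and `(i, y-1)`, `x-3s ≤ i < x-s-1`, are connected through the crossing of `R2` by `dcross` (twice). `DHC`, `DVC` are decreasing (`DConn.mono`):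
  `harris_dec3`.
* `gd_prob`: `DVC` of `box (k-2m) (k-m) (y-5m) (y+3m)`, `DHC` of `box (k-2m) (k+3m) (y+2m) (y+3m)`, `DVC` of `box (k+2m) (k+3m) y (y+3m)`.
-/

set_option autoImplicit false

noncomputable section

namespace FKS

open Finset FKI FKP
open scoped Classical

theorem SGadd_dbox {F ω : Finset Edge} {x1 x2 y1 y2 : ℤ} (hF : box x1 x2 y1 y2 ⊆ F) {f g : V}
    (hc : DConn (box x1 x2 y1 y2) ω f g) :
    Conn (box (x1 - 1) x2 (y1 - 1) y2) ((F \ ω).image dE) f g := by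
  unfold DConn at hc
  unfold Conn
  refine SimpleGraph.Reachable.mono (gr_mono ?_) hc
  intro e he
  obtain ⟨e', he', rfl⟩ := Finset.mem_image.1 he
  rw [Finset.mem_sdiff] at he'
  rw [Finset.mem_inter]
  refine ⟨Finset.mem_image_of_mem _ (Finset.mem_sdiff.2 ⟨hF he'.1, he'.2⟩), ?_⟩
  have h := mem_box.1 he'.1
  rw [mem_box]
  obtain ⟨a, b, t⟩ := e'
  cases t
  · have h1 : dE (a, b, false) = (a, b - 1, true) := rfl
    rw [h1]
    simp only [Bool.false_eq_true, false_and, or_false, true_and, Bool.true_eq_false,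
      false_or] at h ⊢
    omega
  · have h1 : dE (a, b, true) = (a - 1, b, false) := rfl
    rw [h1]
    simp only [Bool.false_eq_true, false_and, or_false, true_and, Bool.true_eq_false,
      false_or] at h ⊢
    omega

theorem dcross {F ω : Finset Edge} {x1 x2 y1 y2 x3 x4 y3 y4 : ℤ} (hF1 : box x1 x2 y1 y2 ⊆ F)
    (hF2 : box x3 x4 y3 y4 ⊆ F) (h1 : x1 ≤ x3) (h2 : x4 ≤ x2) (h3 : y3 ≤ y1) (h4 : y2 ≤ y4)
    {j j' i i' : ℤ} (hj : y1 ≤ j ∧ j < y2) (hj' : y1 ≤ j' ∧ j' < y2) (hi : x3 ≤ i ∧ i < x4)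
    (hi' : x3 ≤ i' ∧ i' < x4) (hc : DConn (box x1 x2 y1 y2) ω (x1 - 1, j) (x2, j'))
    (hd : DConn (box x3 x4 y3 y4) ω (i, y3 - 1) (i', y4)) : DConn F ω (x1 - 1, j) (i, y3 - 1) :=
  cross (by omega) h2 (by omega) h4 (by omega) (by omega) (by omega) (by omega)
    (SGadd_dbox hF1 hc) (SGadd_dbox hF2 hd)

theorem dec_DHC (x1 x2 y1 y2 : ℤ) : Dec (DHC x1 x2 y1 y2) := by
  rintro ω ω' hs ⟨j, j', h1, h2, h3, h4, hc⟩
  exact ⟨j, j', h1, h2, h3, h4, hc.mono fun e he hn => ⟨he, fun h => hn (hs h)⟩⟩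

theorem dec_DVC (x1 x2 y1 y2 : ℤ) : Dec (DVC x1 x2 y1 y2) := by
  rintro ω ω' hs ⟨j, j', h1, h2, h3, h4, hc⟩
  exact ⟨j, j', h1, h2, h3, h4, hc.mono fun e he hn => ⟨he, fun h => hn (hs h)⟩⟩

theorem SGadd_ha {x y s x1 x2 y1 y2 : ℤ} (h1 : x - 3 * s ≤ x1) (h2 : x2 ≤ x + 3 * s) (h3 : y ≤ y1)
    (h4 : y2 ≤ y + 3 * s) (h : x + s < x1 ∨ x2 < x - s ∨ y + s < y1) :
    box x1 x2 y1 y2 ⊆ HA x y s := by
  intro e he
  unfold HA Bx
  rw [Finset.mem_sdiff]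
  refine ⟨box_mono h1 h2 h3 h4 he, fun hb => ?_⟩
  have g1 := mem_box.1 he
  have g2 := mem_box.1 hb
  rcases g1 with g1 | g1 <;> rcases g2 with g2 | g2
  · omega
  · exact absurd (g1.1.symm.trans g2.1) (by decide)
  · exact absurd (g1.1.symm.trans g2.1) (by decide)
  · omega

theorem hd_prob {c q : ℝ} {N : ℤ} (hq0 : 0 ≤ q) (hq1 : q ≤ 1) (hc : 0 ≤ c) (hR : RB c q N) {x y s : ℤ}
    (hs : 1 ≤ s) (hN : 6 * s ≤ N) {E : Finset Edge} (hE : HA x y s ⊆ E) :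
    c ^ 3 ≤ IPC.Pr q E (HD x y s) := by
  have b1 : box (x + s + 1) (x + 3 * s) y (y + 3 * s) ⊆ HA x y s :=
    SGadd_ha (by omega) le_rfl le_rfl le_rfl (by omega)
  have b2 : box (x - 3 * s) (x + 3 * s) (y + s + 1) (y + 3 * s) ⊆ HA x y s :=
    SGadd_ha le_rfl le_rfl (by omega) le_rfl (by omega)
  have b3 : box (x - 3 * s) (x - s - 1) y (y + 3 * s) ⊆ HA x y s :=
    SGadd_ha le_rfl (by omega) le_rfl le_rfl (by omega)
  have r1 := (hR (x + s + 1) (x + 3 * s) y (y + 3 * s) (by omega) (by omega) (by omega) (by omega)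
    (by omega) (by omega) E (b1.trans hE)).2.2.2.1
  have r2 := (hR (x - 3 * s) (x + 3 * s) (y + s + 1) (y + 3 * s) (by omega) (by omega) (by omega)
    (by omega) (by omega) (by omega) E (b2.trans hE)).2.2.1
  have r3 := (hR (x - 3 * s) (x - s - 1) y (y + 3 * s) (by omega) (by omega) (by omega) (by omega)
    (by omega) (by omega) E (b3.trans hE)).2.2.2.1
  refine (harris_dec3 hq0 hq1 E _ _ _ (dec_DVC _ _ _ _) (dec_DHC _ _ _ _) (dec_DVC _ _ _ _) hc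
    r1 r2 r3).trans (IPC.Pr_mono hq0 hq1 E ?_)
  rintro ω - ⟨⟨i1, i1', p1, p2, p3, p4, c1⟩, ⟨j, j', q1, q2, q3, q4, c2⟩,
    ⟨i3, i3', t1, t2, t3, t4, c3⟩⟩
  refine ⟨i3, i1, by omega, by omega, by omega, by omega, ?_⟩
  have d1 := dcross b2 b1 (by omega) le_rfl (by omega) le_rfl ⟨q1, q2⟩ ⟨q3, q4⟩ ⟨p1, p2⟩ ⟨p3, p4⟩ c2 c1
  have d3 := dcross b2 b3 le_rfl (by omega) (by omega) le_rfl ⟨q1, q2⟩ ⟨q3, q4⟩ ⟨t1, t2⟩ ⟨t3, t4⟩ c2 c3
  exact d3.symm.trans d1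

theorem gd_prob {c q : ℝ} {N : ℤ} (hq0 : 0 ≤ q) (hq1 : q ≤ 1) (hc : 0 ≤ c) (hR : RB c q N) {k y m : ℤ}
    (hm : 1 ≤ m) (hN : 8 * m ≤ N) {E : Finset Edge} (hE : GDr k y m ⊆ E) :
    c ^ 3 ≤ IPC.Pr q E (GD k y m) := by
  have b1 : box (k - 2 * m) (k - m) (y - 5 * m) (y + 3 * m) ⊆ GDr k y m := Finset.subset_union_left
  have b2 : box (k - 2 * m) (k + 3 * m) (y + 2 * m) (y + 3 * m) ⊆ GDr k y m :=
    Finset.subset_union_left.trans Finset.subset_union_right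
  have b3 : box (k + 2 * m) (k + 3 * m) y (y + 3 * m) ⊆ GDr k y m :=
    Finset.subset_union_right.trans Finset.subset_union_right
  have r1 := (hR (k - 2 * m) (k - m) (y - 5 * m) (y + 3 * m) (by omega) (by omega) (by omega)
    (by omega) (by omega) (by omega) E (b1.trans hE)).2.2.2.1
  have r2 := (hR (k - 2 * m) (k + 3 * m) (y + 2 * m) (y + 3 * m) (by omega) (by omega) (by omega)
    (by omega) (by omega) (by omega) E (b2.trans hE)).2.2.1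
  have r3 := (hR (k + 2 * m) (k + 3 * m) y (y + 3 * m) (by omega) (by omega) (by omega) (by omega)
    (by omega) (by omega) E (b3.trans hE)).2.2.2.1
  refine (harris_dec3 hq0 hq1 E _ _ _ (dec_DVC _ _ _ _) (dec_DHC _ _ _ _) (dec_DVC _ _ _ _) hc
    r1 r2 r3).trans (IPC.Pr_mono hq0 hq1 E ?_)
  rintro ω - ⟨⟨i1, i1', p1, p2, p3, p4, c1⟩, ⟨j, j', q1, q2, q3, q4, c2⟩,
    ⟨i3, i3', t1, t2, t3, t4, c3⟩⟩
  refine ⟨i1, i3, by omega, by omega, by omega, by omega, ?_⟩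
  have d1 := dcross b2 b1 le_rfl (by omega) (by omega) le_rfl ⟨q1, q2⟩ ⟨q3, q4⟩ ⟨p1, p2⟩ ⟨p3, p4⟩ c2 c1
  have d3 := dcross b2 b3 (by omega) le_rfl (by omega) le_rfl ⟨q1, q2⟩ ⟨q3, q4⟩ ⟨t1, t2⟩ ⟨t3, t4⟩ c2 c3
  exact d1.symm.trans d3

end FKS
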