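import Pool.Agent.Lib.MP_216314_pr.Sp.SFr
import Pool.Agent.Lib.MP_216314_pr.Sp.SGad
import Pool.Agent.Lib.MP_216314_pr.Sp.SGadd

/-!
# JOB SBp: the probability of an unclean foot (open side), and of a foot

`markov_le`, `markov_ge` (`SPrA.lean`) with `A = FootE x y R`, `X ω = XF ω p T` for the (unique) foot `(p, T)` of `ω` (`if h : ∃ p T, Foot ω x y R p T then XF ω .. else ∅`, choice).
`hX`: if `ω' ∩ XF = ω ∩ XF` then `e ∈ ω' ↔ e ∈ ω` for `e ∈ XF`; `foot_agree`: `Foot ω' x y R p T`, `foot_unique`: it is the foot of `ω'`, `XF ω' p T = XF ω p T`.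
Fix `ω` with its foot `(p, T)` and potentials `zv, zf` (`foot_z`). `Hit s ω' := ∃ w, x + s < w ∧ w ≤ x + 3 s ∧ ∃ k ≤ T, Conn (HA x y s ∩ E0 ω x y R p T zv) ω' (w, y) (vtx (orb ω p k))`.
* `HO x y s ω' → Hit s ω'`: `hit_open` with `F = HA x y s ⊆ Bx x y R` (`3 s ≤ R`), `u0 = (w, y)`, `zv = 0` (`ve`), `u1 = (w', y)`, `zv = 1` (`vw`). So `c ^ 3 ≤ Pr (Hit s)` (`ho_prob`).
* `Hit s` depends only on `HA x y s ∩ E0`, which is disjoint from `XF` (`e0_fresh`); for different `s ∈ Sc` the sets `HA x y s` are disjoint (`3 s ≤ s'`, so `HA x y s ⊆ Bx x y (3 s) ⊆ Bx x y s'`).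
* if `ω' ∩ XF = ω ∩ XF` and `Hit s ω'` then `CleanO ω' p T x y s`: `(x, y) = vtx (orb ω' p T)` is connected to `vtx (orb ω' p k)` by `orb_conn` (in `XF ω' p T`), and then to `(w, y)`.
`badO_prob`: `markov_le` with B = the foot is unclean at all scales, `G = ∀ s ∈ Sc, ¬ Hit s`: `Pr G = ∏ (1 - Pr (Hit s)) ≤ (1 - c^3)^(card Sc)` (`indep_all`, `Pr_not`). (`BadO ω ↔ FootE ω ∧ B ω` by uniqueness.)
`foot_prob`: `markov_ge` with `B = WE x y R s`, `G = Hit s ∧ HitD s`, `HitD s ω' := ∃ w, x - 3 s ≤ w ∧ w < x - s ∧ ∃ k ≤ T, DConn (HA x y s ∩ E1 ω x y R p T zf) ω' (w, y-1) (fce (orb ω p k))` (`hit_dual`, `hd_prob`;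
`fw`, `fe`: the path of `HD` starts on the left where `zf = 1` and ends on the right where `zf = 0`), independent because `E0`, `E1` are disjoint (`e01_disj`, `Pr_indep`): probability at least `c^3 * c^3`. `G` gives `WE`:
`(x, y)` is connected to `(w, y)` in `Bx x y R` (`foot_XF`), `(x-1, y-1) = fce (2x, 2y)` to `(w', y-1)` (`orb_dconn`).
-/

set_option autoImplicit false

noncomputable section

namespace FKS

open Finset FKI FKP
open scoped Classical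

theorem SBp_bx {x y r R : ℤ} (h : r ≤ R) : Bx x y r ⊆ Bx x y R :=
  box_mono (by omega) (by omega) le_rfl (by omega)

theorem SBp_ha {x y s R : ℤ} (h : 3 * s ≤ R) : HA x y s ⊆ Bx x y R :=
  Finset.sdiff_subset.trans (SBp_bx h)

theorem SBp_hadisj {x y s s' : ℤ} (h : 3 * s ≤ s') : Disjoint (HA x y s) (HA x y s') := by
  rw [Finset.disjoint_left]
  intro e he he'
  exact (Finset.mem_sdiff.1 he').2 (SBp_ha h he)

/-- the connection depends on the edges of `F` only -/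
theorem SBp_conn {F ω ω' : Finset Edge} {u v : V} (h : ∀ e ∈ F, (e ∈ ω ↔ e ∈ ω')) :
    Conn F ω u v ↔ Conn F ω' u v := by
  have h1 : ω ∩ F = ω' ∩ F := by
    ext e
    rw [Finset.mem_inter, Finset.mem_inter]
    constructor
    · rintro ⟨h2, h3⟩
      exact ⟨(h e h3).1 h2, h3⟩
    · rintro ⟨h2, h3⟩
      exact ⟨(h e h3).2 h2, h3⟩
  unfold Conn
  rw [h1]

/-- the dual connection depends on the edges of `F` only -/
theorem SBp_dconn {F ω ω' : Finset Edge} {u v : V} (h : ∀ e ∈ F, (e ∈ ω ↔ e ∈ ω')) :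
    DConn F ω u v ↔ DConn F ω' u v := by
  have h1 : F \ ω = F \ ω' := by
    ext e
    rw [Finset.mem_sdiff, Finset.mem_sdiff]
    constructor
    · rintro ⟨h2, h3⟩
      exact ⟨h2, fun h4 => h3 ((h e h2).2 h4)⟩
    · rintro ⟨h2, h3⟩
      exact ⟨h2, fun h4 => h3 ((h e h2).1 h4)⟩
  unfold DConn
  rw [h1]

/-- the half annulus path hits the foot (open side) -/
def SBpHit (F ω : Finset Edge) (x y s : ℤ) (p : V) (T : ℕ) (ω' : Finset Edge) : Prop :=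
  ∃ w : ℤ, x + s < w ∧ w ≤ x + 3 * s ∧ ∃ k ≤ T, Conn F ω' (w, y) (vtx (orb ω p k))

/-- the half annulus dual path hits the foot (closed side) -/
def SBpHitD (F ω : Finset Edge) (x y s : ℤ) (p : V) (T : ℕ) (ω' : Finset Edge) : Prop :=
  ∃ w : ℤ, x - 3 * s ≤ w ∧ w < x - s ∧ ∃ k ≤ T, DConn F ω' (w, y - 1) (fce (orb ω p k))

theorem SBpHit_congr {F ω : Finset Edge} {x y s : ℤ} {p : V} {T : ℕ} {ω' ω'' : Finset Edge}
    (h : ∀ e ∈ F, (e ∈ ω' ↔ e ∈ ω'')) : SBpHit F ω x y s p T ω' ↔ SBpHit F ω x y s p T ω'' := by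
  unfold SBpHit
  constructor
  · rintro ⟨w, h1, h2, k, hk, hc⟩
    exact ⟨w, h1, h2, k, hk, (SBp_conn h).1 hc⟩
  · rintro ⟨w, h1, h2, k, hk, hc⟩
    exact ⟨w, h1, h2, k, hk, (SBp_conn h).2 hc⟩

theorem SBpHitD_congr {F ω : Finset Edge} {x y s : ℤ} {p : V} {T : ℕ} {ω' ω'' : Finset Edge}
    (h : ∀ e ∈ F, (e ∈ ω' ↔ e ∈ ω'')) : SBpHitD F ω x y s p T ω' ↔ SBpHitD F ω x y s p T ω'' := by
  unfold SBpHitD
  constructor
  · rintro ⟨w, h1, h2, k, hk, hc⟩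
    exact ⟨w, h1, h2, k, hk, (SBp_dconn h).1 hc⟩
  · rintro ⟨w, h1, h2, k, hk, hc⟩
    exact ⟨w, h1, h2, k, hk, (SBp_dconn h).2 hc⟩

theorem SBp_inter {F G ω : Finset Edge} (h : F ⊆ G) : ∀ e ∈ F, (e ∈ ω ↔ e ∈ ω ∩ G) := by
  intro e he
  rw [Finset.mem_inter]
  exact ⟨fun h1 => ⟨h1, h he⟩, fun h1 => h1.1⟩

theorem SBp_sdiff {F X ω : Finset Edge} (h : Disjoint F X) : ∀ e ∈ F, (e ∈ ω ↔ e ∈ ω \ X) := by
  intro e he
  rw [Finset.mem_sdiff]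
  exact ⟨fun h1 => ⟨h1, fun h2 => (Finset.disjoint_left.1 h) he h2⟩, fun h1 => h1.1⟩

theorem SBpHit_of_HO {ω ω' : Finset Edge} {x y R s : ℤ} {p : V} {T : ℕ} {zv zf : V → ZMod 2}
    (hR : 1 ≤ R) (hs : 1 ≤ s) (hsR : 3 * s ≤ R)
    (h : Foot ω x y R p T) (hz : FZed ω x y R p T zv zf) (hho : HO x y s ω') :
    SBpHit (HA x y s ∩ E0 ω x y R p T zv) ω x y s p T ω' := by
  obtain ⟨w, w', h1, h2, h3, h4, hc⟩ := hho
  obtain ⟨k, hk, hk'⟩ := hit_open hR h hz (SBp_ha hsR) (hz.ve w (by omega) (by omega))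
    (hz.vw w' (by omega) (by omega)) hc
  exact ⟨w, h1, h2, k, hk, hk'⟩

theorem SBpHitD_of_HD {ω ω' : Finset Edge} {x y R s : ℤ} {p : V} {T : ℕ} {zv zf : V → ZMod 2}
    (hR : 1 ≤ R) (hs : 1 ≤ s) (hsR : 3 * s ≤ R)
    (h : Foot ω x y R p T) (hz : FZed ω x y R p T zv zf) (hhd : HD x y s ω') :
    SBpHitD (HA x y s ∩ E1 ω x y R p T zf) ω x y s p T ω' := by
  obtain ⟨w, w', h1, h2, h3, h4, hc⟩ := hhd
  obtain ⟨k, hk, hk'⟩ := hit_dual hR h hz (SBp_ha hsR) (hz.fw w (by omega) (by omega))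
    (hz.fe w' (by omega) (by omega)) hc
  exact ⟨w, h1, h2, k, hk, hk'⟩

/-- the explored edges of the foot -/
def SBpX (x y R : ℤ) (ω : Finset Edge) : Finset Edge :=
  if h : ∃ p T, Foot ω x y R p T then XF ω h.choose h.choose_spec.choose else ∅

theorem SBpX_eq {ω : Finset Edge} {x y R : ℤ} {p : V} {T : ℕ} (h : Foot ω x y R p T) :
    SBpX x y R ω = XF ω p T := by
  have h1 : ∃ p T, Foot ω x y R p T := ⟨p, T, h⟩
  unfold SBpX
  rw [dif_pos h1]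
  obtain ⟨h2, h3⟩ := foot_unique h1.choose_spec.choose_spec h
  exact congrArg₂ (XF ω) h2 h3

theorem SBp_agree {X ω ω' : Finset Edge} (h : ω' ∩ X = ω ∩ X) : ∀ e ∈ X, (e ∈ ω' ↔ e ∈ ω) := by
  intro e he
  have h1 : e ∈ ω' ∩ X ↔ e ∈ ω ∩ X := by rw [h]
  rw [Finset.mem_inter, Finset.mem_inter] at h1
  constructor
  · intro h2
    exact (h1.1 ⟨h2, he⟩).1
  · intro h2
    exact (h1.2 ⟨h2, he⟩).1

theorem SBp_hX (x y R : ℤ) (E : Finset Edge) : ∀ ω ⊆ E, FootE x y R ω → ∀ ω' ⊆ E,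
    ω' ∩ SBpX x y R ω = ω ∩ SBpX x y R ω → FootE x y R ω' ∧ SBpX x y R ω' = SBpX x y R ω := by
  rintro ω _ ⟨p, T, h⟩ ω' _ h1
  rw [SBpX_eq h] at h1 ⊢
  obtain ⟨h2, _, h3, _, _⟩ := foot_agree h (SBp_agree h1)
  refine ⟨⟨p, T, h2⟩, ?_⟩
  rw [SBpX_eq h2, h3]

theorem SBp_vtx (x y : ℤ) : vtx (2 * x, 2 * y) = (x, y) :=
  vtx_eq.2 ⟨Or.inl rfl, Or.inl rfl⟩

theorem SBp_fce (x y : ℤ) : fce (2 * x, 2 * y) = (x - 1, y - 1) := by
  refine fce_eq.2 ⟨Or.inr ?_, Or.inr ?_⟩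
  · show 2 * x = 2 * (x - 1) + 2
    ring
  · show 2 * y = 2 * (y - 1) + 2
    ring

theorem SBp_open {F ω ω' : Finset Edge} {x y R s : ℤ} {p : V} {T : ℕ} 
    (h : Foot ω x y R p T) (ha : ∀ e ∈ XF ω p T, (e ∈ ω' ↔ e ∈ ω))
    (hh : SBpHit F ω x y s p T ω') :
    ∃ w : ℤ, x + s < w ∧ w ≤ x + 3 * s ∧ Conn (XF ω' p T ∪ F) ω' (x, y) (w, y) := by
  obtain ⟨h2, h3, _, _, _⟩ := foot_agree h ha
  obtain ⟨w, h4, h5, k, hk, hc⟩ := hh
  refine ⟨w, h4, h5, ?_⟩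
  have h6 : Conn (XF ω' p T) ω' (vtx (orb ω' p T)) (vtx (orb ω' p k)) := orb_conn le_rfl hk
  rw [h2.2.1, SBp_vtx, h3 k hk] at h6
  exact (h6.mono Finset.subset_union_left (Finset.Subset.refl _)).trans
    (hc.symm.mono Finset.subset_union_right (Finset.Subset.refl _))

theorem SBp_closed {F ω ω' : Finset Edge} {x y R s : ℤ} {p : V} {T : ℕ} 
    (h : Foot ω x y R p T) (ha : ∀ e ∈ XF ω p T, (e ∈ ω' ↔ e ∈ ω))
    (hh : SBpHitD F ω x y s p T ω') :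
    ∃ w : ℤ, x - 3 * s ≤ w ∧ w < x - s ∧ DConn (XF ω' p T ∪ F) ω' (x - 1, y - 1) (w, y - 1) := by
  obtain ⟨h2, h3, _, _, _⟩ := foot_agree h ha
  obtain ⟨w, h4, h5, k, hk, hc⟩ := hh
  refine ⟨w, h4, h5, ?_⟩
  have h6 : DConn (XF ω' p T) ω' (fce (orb ω' p T)) (fce (orb ω' p k)) := orb_dconn le_rfl hk
  rw [h2.2.1, SBp_fce, h3 k hk] at h6
  exact (h6.mono (fun e he he' => ⟨Finset.mem_union_left _ he, he'⟩)).trans
    (hc.symm.mono (fun e he he' => ⟨Finset.mem_union_right _ he, he'⟩))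

theorem SBp_hitprob {c q : ℝ} {N : ℤ} (hq0 : 0 ≤ q) (hq1 : q ≤ 1) (hc : 0 ≤ c) (hRB : RB c q N) {x y R s : ℤ}
    (hR : 1 ≤ R) (hs : 1 ≤ s) (hsR : 3 * s ≤ R) (hN : 6 * s ≤ N) {E : Finset Edge} (hE : Bx x y R ⊆ E)
    {ω : Finset Edge} {p : V} {T : ℕ} {zv zf : V → ZMod 2}
    (h : Foot ω x y R p T) (hz : FZed ω x y R p T zv zf) :
    c ^ 3 ≤ IPC.Pr q E (SBpHit (HA x y s ∩ E0 ω x y R p T zv) ω x y s p T) := by
  refine (ho_prob hq0 hq1 hc hRB hs hN ((SBp_ha hsR).trans hE)).trans ?_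
  exact IPC.Pr_mono hq0 hq1 E fun ω' _ hω' => SBpHit_of_HO hR hs hsR h hz hω'

theorem SBp_hitDprob {c q : ℝ} {N : ℤ} (hq0 : 0 ≤ q) (hq1 : q ≤ 1) (hc : 0 ≤ c) (hRB : RB c q N) {x y R s : ℤ}
    (hR : 1 ≤ R) (hs : 1 ≤ s) (hsR : 3 * s ≤ R) (hN : 6 * s ≤ N) {E : Finset Edge} (hE : Bx x y R ⊆ E)
    {ω : Finset Edge} {p : V} {T : ℕ} {zv zf : V → ZMod 2}
    (h : Foot ω x y R p T) (hz : FZed ω x y R p T zv zf) :
    c ^ 3 ≤ IPC.Pr q E (SBpHitD (HA x y s ∩ E1 ω x y R p T zf) ω x y s p T) := by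
  refine (hd_prob hq0 hq1 hc hRB hs hN ((SBp_ha hsR).trans hE)).trans ?_
  exact IPC.Pr_mono hq0 hq1 E fun ω' _ hω' => SBpHitD_of_HD hR hs hsR h hz hω'

theorem badO_prob {c q : ℝ} {N : ℤ} (hq0 : 0 ≤ q) (hq1 : q ≤ 1) (hc : 0 ≤ c) (hRB : RB c q N) {x y R : ℤ}
    (hR : 1 ≤ R) {E : Finset Edge} (hE : Bx x y R ⊆ E) (Sc : Finset ℤ)
    (h1 : ∀ s ∈ Sc, 1 ≤ s ∧ 3 * s ≤ R ∧ 6 * s ≤ N) (h2 : ∀ s ∈ Sc, ∀ s' ∈ Sc, s < s' → 3 * s ≤ s') :
    IPC.Pr q E (BadO x y R Sc) ≤ (1 - c ^ 3) ^ Sc.card * IPC.Pr q E (FootE x y R) := by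
  have hA : IPC.Pr q E (BadO x y R Sc) ≤ IPC.Pr q E (fun ω => FootE x y R ω ∧ BadO x y R Sc ω) :=
    IPC.Pr_mono hq0 hq1 E fun ω _ hω => ⟨⟨hω.choose, hω.choose_spec.choose, hω.choose_spec.choose_spec.1⟩, hω⟩
  refine hA.trans ?_
  refine markov_le hq0 hq1 E (FootE x y R) (BadO x y R Sc) (SBpX x y R) (SBp_hX x y R E) ?_
  rintro ω hω ⟨p, T, h⟩
  obtain ⟨zv, zf, hz⟩ := foot_z hR h
  have hX := SBpX_eq h
  have hfr : ∀ s, Disjoint (HA x y s ∩ E0 ω x y R p T zv) (XF ω p T) := fun s =>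
    (e0_fresh hR h hz).mono_left Finset.inter_subset_right
  refine ⟨fun ω' => ∀ s ∈ Sc, ¬ SBpHit (HA x y s ∩ E0 ω x y R p T zv) ω x y s p T ω', ?_, ?_, ?_⟩
  · intro ω'
    rw [hX]
    constructor
    · intro h3 s hs h4
      exact h3 s hs ((SBpHit_congr (SBp_sdiff (hfr s))).2 h4)
    · intro h3 s hs h4
      exact h3 s hs ((SBpHit_congr (SBp_sdiff (hfr s))).1 h4)
  · rw [indep_all q E Sc (fun s => HA x y s ∩ E0 ω x y R p T zv)
      (fun s ω' => ¬ SBpHit (HA x y s ∩ E0 ω x y R p T zv) ω x y s p T ω')]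
    · calc ∏ s ∈ Sc, IPC.Pr q E (fun ω' => ¬ SBpHit (HA x y s ∩ E0 ω x y R p T zv) ω x y s p T ω')
          ≤ ∏ _s ∈ Sc, (1 - c ^ 3) := by
            refine Finset.prod_le_prod (fun s _ => IPC.Pr_nonneg hq0 hq1 E _) (fun s hs => ?_)
            rw [IPC.Pr_not]
            have h3 := SBp_hitprob hq0 hq1 hc hRB hR (h1 s hs).1 (h1 s hs).2.1 (h1 s hs).2.2 hE h hz
            linarith
        _ = (1 - c ^ 3) ^ Sc.card := Finset.prod_const _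
    · intro s hs
      exact Finset.inter_subset_left.trans ((SBp_ha (h1 s hs).2.1).trans hE)
    · intro s hs s' hs' hne
      have h3 : Disjoint (HA x y s) (HA x y s') := by
        rcases lt_or_gt_of_ne hne with h4 | h4
        · exact SBp_hadisj (h2 s hs s' hs' h4)
        · exact (SBp_hadisj (h2 s' hs' s hs h4)).symm
      exact h3.mono Finset.inter_subset_left Finset.inter_subset_left
    · intro s _ ω'
      exact not_congr (SBpHit_congr (SBp_inter (Finset.Subset.refl _)))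
  · rintro ω' _ hag ⟨p', T', hf', hb⟩ s hs hhit
    rw [hX] at hag
    have hag' := SBp_agree hag
    obtain ⟨h3, h4, h5, _, _⟩ := foot_agree h hag'
    obtain ⟨h6, h7⟩ := foot_unique hf' h3
    subst h6
    subst h7
    refine hb s hs ?_
    obtain ⟨w, hw1, hw2, hw3⟩ := SBp_open h hag' hhit
    exact ⟨w, hw1, hw2, hw3.mono (Finset.union_subset_union (Finset.Subset.refl _) Finset.inter_subset_left)
      (Finset.Subset.refl _)⟩

theorem foot_we {c q : ℝ} {N : ℤ} (hq0 : 0 ≤ q) (hq1 : q ≤ 1) (hc : 0 ≤ c) (hRB : RB c q N) {x y R s : ℤ}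
    (hs : 1 ≤ s) (hsR : 3 * s ≤ R) (hN : 6 * s ≤ N) {E : Finset Edge} (hE : Bx x y R ⊆ E) :
    c ^ 6 * IPC.Pr q E (FootE x y R) ≤ IPC.Pr q E (WE x y R s) := by
  have hR : 1 ≤ R := by omega
  have hA : IPC.Pr q E (fun ω => FootE x y R ω ∧ WE x y R s ω) ≤ IPC.Pr q E (WE x y R s) :=
    IPC.Pr_mono hq0 hq1 E fun ω _ hω => hω.2
  refine le_trans ?_ hA
  refine markov_ge hq0 hq1 E (FootE x y R) (WE x y R s) (SBpX x y R) (SBp_hX x y R E) (pow_nonneg hc 6) ?_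
  rintro ω hω ⟨p, T, h⟩
  obtain ⟨zv, zf, hz⟩ := foot_z hR h
  have hX := SBpX_eq h
  have hfr : Disjoint (HA x y s ∩ E0 ω x y R p T zv) (XF ω p T) :=
    (e0_fresh hR h hz).mono_left Finset.inter_subset_right
  have hfr1 : Disjoint (HA x y s ∩ E1 ω x y R p T zf) (XF ω p T) :=
    (e1_fresh hR h hz).mono_left Finset.inter_subset_right
  refine ⟨fun ω' => SBpHit (HA x y s ∩ E0 ω x y R p T zv) ω x y s p T ω' ∧
    SBpHitD (HA x y s ∩ E1 ω x y R p T zf) ω x y s p T ω', ?_, ?_, ?_⟩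
  · intro ω'
    rw [hX]
    exact and_congr (SBpHit_congr (SBp_sdiff hfr)) (SBpHitD_congr (SBp_sdiff hfr1))
  · have h3 := SBp_hitprob hq0 hq1 hc hRB hR hs hsR hN hE h hz
    have h4 := SBp_hitDprob hq0 hq1 hc hRB hR hs hsR hN hE h hz
    rw [IPC.Pr_indep q (E₁ := HA x y s ∩ E0 ω x y R p T zv) (E₂ := HA x y s ∩ E1 ω x y R p T zf)
      (Finset.inter_subset_left.trans ((SBp_ha hsR).trans hE))
      (Finset.inter_subset_left.trans ((SBp_ha hsR).trans hE))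
      ((e01_disj hR h hz).mono Finset.inter_subset_right Finset.inter_subset_right)
      _ _ (fun ω' _ => SBpHit_congr (SBp_inter (Finset.Subset.refl _)))
      (fun ω' _ => SBpHitD_congr (SBp_inter (Finset.Subset.refl _)))]
    calc c ^ 6 = c ^ 3 * c ^ 3 := by ring
      _ ≤ _ := mul_le_mul h3 h4 (pow_nonneg hc 3) ((pow_nonneg hc 3).trans h3)
  · rintro ω' _ hag ⟨hh1, hh2⟩
    rw [hX] at hag
    have hag' := SBp_agree hag
    obtain ⟨h3, _, h5, _, _⟩ := foot_agree h hag'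
    obtain ⟨w, hw1, hw2, hw3⟩ := SBp_open h hag' hh1
    obtain ⟨w', hw1', hw2', hw3'⟩ := SBp_closed h hag' hh2
    have h6 : XF ω' p T ⊆ Bx x y R := foot_XF h3
    refine ⟨⟨w, hw1, by omega, hw3.mono ?_ (Finset.Subset.refl _)⟩,
      ⟨w', by omega, hw2', hw3'.mono ?_⟩⟩
    · exact Finset.union_subset h6 (Finset.inter_subset_left.trans (SBp_ha hsR))
    · intro e he he'
      exact ⟨Finset.union_subset h6 (Finset.inter_subset_left.trans (SBp_ha hsR)) he, he'⟩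

end FKS
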