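import Pool.Agent.Lib.MP_216314_pr.Sp.SFr
import Pool.Agent.Lib.MP_216314_pr.Sp.SGad
import Pool.Agent.Lib.MP_216314_pr.Sp.SGadd

/-!
# JOB SBpd: the probability of an unclean foot (dual side)

`markov_le` (`SPrA.lean`) with `A = FootE x y R`, `X ω = XF ω p T` for the (unique) foot `(p, T)` of `ω` (`if h : ∃ p T, Foot ω x y R p T then XF ω .. else ∅`, choice).
`hX`: if `ω' ∩ XF = ω ∩ XF` then `e ∈ ω' ↔ e ∈ ω` for `e ∈ XF`; `foot_agree`: `Foot ω' x y R p T`, `foot_unique`: it is the foot of `ω'`, `XF ω' p T = XF ω p T`.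
Fix `ω` with its foot `(p, T)` and potentials `zv, zf` (`foot_z`). `HitD s ω' := ∃ w, x - 3 s ≤ w ∧ w < x - s ∧ ∃ k ≤ T, DConn (HA x y s ∩ E1 ω x y R p T zf) ω' (w, y-1) (fce (orb ω p k))`.
* `HD x y s ω' → HitD s ω'`: `hit_dual` with `F = HA x y s ⊆ Bx x y R` (`3 s ≤ R`), start `(i, y-1)`, `zf = 1` (`fw`), end `(i', y-1)`, `zf = 0` (`fe`). So `c ^ 3 ≤ Pr (HitD s)` (`hd_prob`).
* `HitD s` depends only on `HA x y s ∩ E1`, which is disjoint from `XF` (`e1_fresh`); for different `s ∈ Sc` the sets `HA x y s` are disjoint (`3 s ≤ s'`, so `HA x y s ⊆ Bx x y (3 s) ⊆ Bx x y s'`).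
* if `ω' ∩ XF = ω ∩ XF` and `HitD s ω'` then `CleanD ω' p T x y s`: `(x-1, y-1) = fce (2x, 2y) = fce (orb ω' p T)` is dual connected to `fce (orb ω' p k)` by `orb_dconn` (in `XF ω' p T`), and then to `(w, y-1)`.
`badD_prob`: `markov_le` with `B`: the foot is unclean (dual side) at all scales, `G = ∀ s ∈ Sc, ¬ HitD s`: `Pr G = ∏ (1 - Pr (HitD s)) ≤ (1 - c^3)^(card Sc)` (`indep_all`, `Pr_not`).
(`BadD ω ↔ FootE ω ∧ B ω` by uniqueness.)
-/

set_option autoImplicit false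

noncomputable section

namespace FKS

open Finset FKI FKP
open scoped Classical

/-- the explored set of the foot (if there is one) -/
def SBpd_X (x y R : ℤ) (ω : Finset Edge) : Finset Edge :=
  if h : ∃ r : V × ℕ, Foot ω x y R r.1 r.2 then XF ω h.choose.1 h.choose.2 else ∅

theorem SBpd_X_eq {ω : Finset Edge} {x y R : ℤ} {p : V} {T : ℕ} (h : Foot ω x y R p T) :
    SBpd_X x y R ω = XF ω p T := by
  have h1 : ∃ r : V × ℕ, Foot ω x y R r.1 r.2 := ⟨(p, T), h⟩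
  unfold SBpd_X
  rw [dif_pos h1]
  obtain ⟨h2, h3⟩ := foot_unique h1.choose_spec h
  rw [h2, h3]

/-- the left part of the bottom side is connected to the foot in the half annulus, by free edges -/
def SBpd_Hit (ω : Finset Edge) (x y R : ℤ) (p : V) (T : ℕ) (zf : V → ZMod 2) (s : ℤ)
    (ω' : Finset Edge) : Prop :=
  ∃ w : ℤ, x - 3 * s ≤ w ∧ w < x - s ∧ ∃ k ≤ T,
    DConn (HA x y s ∩ E1 ω x y R p T zf) ω' (w, y - 1) (fce (orb ω p k))

theorem SBpd_HA_sub {x y s R : ℤ} (h : 3 * s ≤ R) : HA x y s ⊆ Bx x y R := by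
  refine (Finset.sdiff_subset).trans ?_
  unfold Bx
  exact box_mono (by omega) (by omega) (by omega) (by omega)

theorem SBpd_hit {ω ω' : Finset Edge} {x y R : ℤ} {p : V} {T : ℕ} {zv zf : V → ZMod 2} (hR : 1 ≤ R)
    (h : Foot ω x y R p T) (hz : FZed ω x y R p T zv zf) {s : ℤ} (hs : 1 ≤ s) (hsR : 3 * s ≤ R)
    (hd : HD x y s ω') : SBpd_Hit ω x y R p T zf s ω' := by
  obtain ⟨i, i', h1, h2, h3, h4, h5⟩ := hd
  have h6 : zf (i, y - 1) = 1 := hz.fw i (by omega) (by omega)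
  have h7 : zf (i', y - 1) = 0 := hz.fe i' (by omega) (by omega)
  exact ⟨i, h1, h2, hit_dual hR h hz (SBpd_HA_sub hsR) h6 h7 h5⟩

theorem SBpd_dconn_congr {F ω ω' : Finset Edge} (h : ∀ e ∈ F, (e ∈ ω ↔ e ∈ ω')) (f g : V) :
    DConn F ω f g ↔ DConn F ω' f g := by
  have h1 : F \ ω = F \ ω' := by
    ext e
    simp only [mem_sdiff]
    constructor
    · rintro ⟨h2, h3⟩
      exact ⟨h2, fun h4 => h3 ((h e h2).2 h4)⟩
    · rintro ⟨h2, h3⟩
      exact ⟨h2, fun h4 => h3 ((h e h2).1 h4)⟩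
  unfold DConn
  rw [h1]

theorem SBpd_hit_congr {ω ω1 ω2 : Finset Edge} {x y R : ℤ} {p : V} {T : ℕ} {zf : V → ZMod 2} {s : ℤ}
    (h : ∀ e ∈ HA x y s ∩ E1 ω x y R p T zf, (e ∈ ω1 ↔ e ∈ ω2)) :
    SBpd_Hit ω x y R p T zf s ω1 ↔ SBpd_Hit ω x y R p T zf s ω2 := by
  unfold SBpd_Hit
  constructor
  · rintro ⟨w, h1, h2, k, hk, h3⟩
    exact ⟨w, h1, h2, k, hk, (SBpd_dconn_congr h _ _).1 h3⟩
  · rintro ⟨w, h1, h2, k, hk, h3⟩
    exact ⟨w, h1, h2, k, hk, (SBpd_dconn_congr h _ _).2 h3⟩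

theorem SBpd_HA_disj {x y s s' : ℤ} (h : 3 * s ≤ s') : Disjoint (HA x y s) (HA x y s') := by
  rw [Finset.disjoint_left]
  intro e h1 h2
  have h3 : e ∈ Bx x y s' := SBpd_HA_sub h h1
  exact (mem_sdiff.1 h2).2 h3

theorem SBpd_clean {ω ω' : Finset Edge} {x y R : ℤ} {p : V} {T : ℕ} {zf : V → ZMod 2} {s : ℤ}
    (h : Foot ω x y R p T) (ha : ∀ e ∈ XF ω p T, (e ∈ ω' ↔ e ∈ ω))
    (hh : SBpd_Hit ω x y R p T zf s ω') : CleanD ω' p T x y s := by
  obtain ⟨hf, ho, -, -, -⟩ := foot_agree h ha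
  obtain ⟨w, h1, h2, k, hk, h3⟩ := hh
  refine ⟨w, h1, h2, ?_⟩
  have h4 : DConn (XF ω' p T) ω' (fce (orb ω' p T)) (fce (orb ω' p k)) := orb_dconn le_rfl hk
  have h5 : fce (orb ω' p T) = (x - 1, y - 1) := by
    rw [hf.2.1, fce_eq]
    constructor
    · right
      show 2 * x = 2 * (x - 1) + 2
      ring
    · right
      show 2 * y = 2 * (y - 1) + 2
      ring
  rw [h5, ho k hk] at h4
  have h6 : DConn (XF ω' p T ∪ HA x y s) ω' (x - 1, y - 1) (fce (orb ω p k)) :=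
    h4.mono (fun e he hc => ⟨mem_union_left _ he, hc⟩)
  have h7 : DConn (XF ω' p T ∪ HA x y s) ω' (w, y - 1) (fce (orb ω p k)) :=
    h3.mono (fun e he hc => ⟨mem_union_right _ (mem_inter.1 he).1, hc⟩)
  exact h6.trans h7.symm

theorem badD_prob {c q : ℝ} {N : ℤ} (hq0 : 0 ≤ q) (hq1 : q ≤ 1) (hc : 0 ≤ c) (hRB : RB c q N) {x y R : ℤ}
    (hR : 1 ≤ R) {E : Finset Edge} (hE : Bx x y R ⊆ E) (Sc : Finset ℤ)
    (h1 : ∀ s ∈ Sc, 1 ≤ s ∧ 3 * s ≤ R ∧ 6 * s ≤ N) (h2 : ∀ s ∈ Sc, ∀ s' ∈ Sc, s < s' → 3 * s ≤ s') :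
    IPC.Pr q E (BadD x y R Sc) ≤ (1 - c ^ 3) ^ Sc.card * IPC.Pr q E (FootE x y R) := by
  have hBF : ∀ ω, BadD x y R Sc ω ↔ (FootE x y R ω ∧
      ∀ p T, Foot ω x y R p T → ∀ s ∈ Sc, ¬ CleanD ω p T x y s) := by
    intro ω
    constructor
    · rintro ⟨p, T, h3, h4⟩
      refine ⟨⟨p, T, h3⟩, ?_⟩
      intro p' T' h5
      obtain ⟨h6, h7⟩ := foot_unique h3 h5
      rw [← h6, ← h7]
      exact h4
    · rintro ⟨⟨p, T, h3⟩, h4⟩
      exact ⟨p, T, h3, h4 p T h3⟩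
  rw [IPC.Pr_congr q E (A := BadD x y R Sc) (B := fun ω => FootE x y R ω ∧
      ∀ p T, Foot ω x y R p T → ∀ s ∈ Sc, ¬ CleanD ω p T x y s) (fun ω _ => hBF ω)]
  have hag : ∀ {ω ω' : Finset Edge} {p : V} {T : ℕ}, ω' ∩ XF ω p T = ω ∩ XF ω p T →
      ∀ e ∈ XF ω p T, (e ∈ ω' ↔ e ∈ ω) := by
    intro ω ω' p T h3 e he
    have h4 : e ∈ ω' ∩ XF ω p T ↔ e ∈ ω ∩ XF ω p T := by rw [h3]
    rw [mem_inter, mem_inter] at h4
    constructor
    · intro h5
      exact (h4.1 ⟨h5, he⟩).1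
    · intro h5
      exact (h4.2 ⟨h5, he⟩).1
  refine markov_le hq0 hq1 E (FootE x y R) (fun ω => ∀ p T, Foot ω x y R p T → ∀ s ∈ Sc,
    ¬ CleanD ω p T x y s) (SBpd_X x y R) ?_ ?_
  · rintro ω - ⟨p, T, hf⟩ ω' - h3
    rw [SBpd_X_eq hf] at h3 ⊢
    obtain ⟨h4, -, h5, -, -⟩ := foot_agree hf (hag h3)
    exact ⟨⟨p, T, h4⟩, by rw [SBpd_X_eq h4, h5]⟩
  · rintro ω - ⟨p, T, hf⟩
    obtain ⟨zv, zf, hz⟩ := foot_z hR hf
    rw [SBpd_X_eq hf]
    have hfresh := Finset.disjoint_left.1 (e1_fresh hR hf hz)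
    refine ⟨fun ω' => ∀ s ∈ Sc, ¬ SBpd_Hit ω x y R p T zf s ω', ?_, ?_, ?_⟩
    · intro ω'
      have h3 : ∀ s, (SBpd_Hit ω x y R p T zf s ω' ↔
          SBpd_Hit ω x y R p T zf s (ω' \ XF ω p T)) := by
        intro s
        apply SBpd_hit_congr
        intro e he
        have h4 := hfresh (mem_inter.1 he).2
        rw [mem_sdiff]
        constructor
        · intro h5
          exact ⟨h5, h4⟩
        · intro h5
          exact h5.1
      constructor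
      · intro h4 s hs h5
        exact h4 s hs ((h3 s).2 h5)
      · intro h4 s hs h5
        exact h4 s hs ((h3 s).1 h5)
    · have h3 := indep_all q E Sc (fun s => HA x y s ∩ E1 ω x y R p T zf)
        (fun s ω' => ¬ SBpd_Hit ω x y R p T zf s ω')
        (by
          intro s hs
          exact (inter_subset_left.trans (SBpd_HA_sub (h1 s hs).2.1)).trans hE)
        (by
          intro s hs s' hs' hne
          rcases lt_or_gt_of_ne hne with h4 | h4
          · exact Disjoint.mono inter_subset_left inter_subset_left (SBpd_HA_disj (h2 s hs s' hs' h4))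
          · exact (Disjoint.mono inter_subset_left inter_subset_left
              (SBpd_HA_disj (h2 s' hs' s hs h4))).symm)
        (by
          intro s hs ω'
          apply not_congr
          apply SBpd_hit_congr
          intro e he
          rw [mem_inter]
          constructor
          · intro h5
            exact ⟨h5, he⟩
          · intro h5
            exact h5.1)
      rw [h3, ← Finset.prod_const]
      apply Finset.prod_le_prod
      · intro s _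
        exact IPC.Pr_nonneg hq0 hq1 E _
      · intro s hs
        rw [IPC.Pr_not]
        obtain ⟨h4, h5, h6⟩ := h1 s hs
        have h7 := hd_prob hq0 hq1 hc hRB (x := x) (y := y) h4 h6 ((SBpd_HA_sub h5).trans hE)
        have h8 : IPC.Pr q E (HD x y s) ≤ IPC.Pr q E (SBpd_Hit ω x y R p T zf s) :=
          IPC.Pr_mono hq0 hq1 E (fun ω' _ h9 => SBpd_hit hR hf hz h4 h5 h9)
        have h9 : c ^ 3 ≤ IPC.Pr q E (SBpd_Hit ω x y R p T zf s) := h7.trans h8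
        have h10 : IPC.Pr q E (fun ω' => SBpd_Hit ω x y R p T zf s ω') =
          IPC.Pr q E (SBpd_Hit ω x y R p T zf s) := rfl
        rw [h10]
        linarith
    · intro ω' _ h3 h4 s hs h5
      have h6 := hag h3
      exact h4 p T (foot_agree hf h6).1 s hs (SBpd_clean hf h6 h5)

end FKS
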