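import Pool.Agent.Lib.MP_216314_pr.Sp.SPar
import Pool.Agent.Lib.MP_216314_pr.Sp.SSym

/-!
# JOB SWe: the foot connected to both sides has probability at most `1 / (s + 1)`

* `we_excl`: `WE x y R s`, `WE x' y R s`, `x < x' ≤ x + s` exclude each other. `cpth` for the open connection of `WE x`: a chain `c` in `ω ∩ Bx x y R`, `OCh c x y R w`, `w > x + s ≥ x'`. The dual path of `WE x'` goes
  from the face `(x'-1, y-1)` (`par' = 1` by `par_bot`: `x ≤ x'-1 < w`) to `(w', y-1)`, `w' < x' - s ≤ x` (`par' = 0`), crossing closed edges `e ∈ Bx x' y R`: `c e = 0` and `par_edge` with `D = Bx x' y R`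
  (`Out`: all rows are at least `y`). `dconn_ind` with `P h = (par' h = 1)`: contradiction.
* `we_dep`: `Conn F (ω ∩ F) = Conn F ω`, `DConn F (ω ∩ F) = DConn F ω`.
* `we_shift`: `pr_map` with `shE a 0`, `conn_map (cp_sh a 0)`, `dconn_map (cpd_sh a 0)`, `box_sh` (`P/PSymB.lean`): `(Bx x y R).map = Bx (x + a) y R`.
* `we_prob`: `E' = E ∪ (Icc 0 s).biUnion (fun t => Bx (x + t) y R)`. The probabilities of `WE (x + t) y R s` in `E'` are all equal to `Pr q E (WE x y R s)` (`IPC.Pr_restrict` to `Bx (x + t) y R`, `we_shift`), the events are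
  exclusive for `0 ≤ t ≤ s`, so `∑_{t=0}^{s} = (s + 1) Pr ≤ 1` (`IPC.sum_Pr_le`, `Pr_true`).
-/

set_option autoImplicit false

noncomputable section

namespace FKS

open Finset FKI FKP
open scoped Classical

theorem conn_inter {F ω : Finset Edge} {u v : V} : Conn F (ω ∩ F) u v ↔ Conn F ω u v := by
  unfold Conn
  rw [Finset.inter_assoc, Finset.inter_self]

theorem dconn_inter {F ω : Finset Edge} {u v : V} : DConn F (ω ∩ F) u v ↔ DConn F ω u v := by
  unfold DConn
  have h : F \ (ω ∩ F) = F \ ω := by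
    ext e
    simp only [Finset.mem_sdiff, Finset.mem_inter]
    tauto
  rw [h]

theorem SWe_out (x x' y R : ℤ) : Out (Bx x' y R) x y R := by
  intro e he _ _ _
  have h := mem_box.1 he
  rcases h with h | h
  · exact h.2.2.2.1
  · exact h.2.2.2.1

theorem we_excl {ω : Finset Edge} {x x' y R s : ℤ} (hs : 1 ≤ s) (hR : s ≤ R) (h : WE x y R s ω)
    (h' : WE x' y R s ω) (h1 : x < x') (h2 : x' ≤ x + s) : False := by
  obtain ⟨w, hw1, hw2, hc⟩ := h.1
  obtain ⟨w', hw3, hw4, hd⟩ := h'.2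
  obtain ⟨c, hcs, hcb⟩ := cpth hc
  have hO : OCh c x y R w := ⟨fun e he => (hcs e he).1, hcb, by omega, hw2⟩
  have hR1 : 1 ≤ R := le_trans hs hR
  have key : par' c y R (w', y - 1) = 1 := by
    refine dconn_ind (P := fun f => par' c y R f = 1) ?_ ?_ hd
    · show par' c y R (x' - 1, y - 1) = 1
      rw [par_bot hR1 hO, if_pos ⟨by omega, by omega⟩]
    · intro e he hn
      have h0 : c e = 0 := by
        by_contra hne
        exact hn (hcs e hne).2
      have h3 := par_edge hR1 hO (SWe_out x x' y R) he h0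
      show par' c y R (fa e) = 1 ↔ par' c y R (fb e) = 1
      rw [h3]
  rw [par_bot hR1 hO, if_neg (by omega)] at key
  exact absurd key (by decide)

theorem we_dep (x y R s : ℤ) (ω : Finset Edge) : WE x y R s ω ↔ WE x y R s (ω ∩ Bx x y R) := by
  unfold WE
  simp only [conn_inter, dconn_inter]

theorem we_shift (q : ℝ) (x y R s a : ℤ) :
    IPC.Pr q (Bx (x + a) y R) (WE (x + a) y R s) = IPC.Pr q (Bx x y R) (WE x y R s) := by
  have hB : (Bx x y R).map (shE a 0).toEmbedding = Bx (x + a) y R := by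
    unfold Bx
    rw [box_sh]
    congr 1 <;> ring
  rw [← hB, pr_map]
  refine IPC.Pr_congr q _ fun ω _ => ?_
  have hC : ∀ u v : V, Conn (Bx (x + a) y R) (ω.map (shE a 0).toEmbedding) (shV a 0 u) (shV a 0 v) ↔
      Conn (Bx x y R) ω u v := by
    intro u v
    rw [← hB]
    exact conn_map (cp_sh a 0) _ _ _ _
  have hD : ∀ u v : V, DConn (Bx (x + a) y R) (ω.map (shE a 0).toEmbedding) (shV a 0 u) (shV a 0 v) ↔
      DConn (Bx x y R) ω u v := by
    intro u v
    rw [← hB]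
    exact dconn_map (cpd_sh a 0) _ _ _ _
  have hv : ∀ i j : ℤ, shV a 0 (i, j) = (i + a, j) := by
    intro i j
    show ((i + a, j + 0) : V) = (i + a, j)
    rw [add_zero]
  constructor
  · rintro ⟨⟨w, h1, h2, h3⟩, ⟨w', h4, h5, h6⟩⟩
    refine ⟨⟨w - a, by omega, by omega, (hC _ _).1 ?_⟩, ⟨w' - a, by omega, by omega, (hD _ _).1 ?_⟩⟩
    · rw [hv, hv, sub_add_cancel]
      exact h3
    · rw [hv, hv, sub_add_cancel]
      have e1 : x - 1 + a = x + a - 1 := by ring
      rw [e1]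
      exact h6
  · rintro ⟨⟨w, h1, h2, h3⟩, ⟨w', h4, h5, h6⟩⟩
    refine ⟨⟨w + a, by omega, by omega, ?_⟩, ⟨w' + a, by omega, by omega, ?_⟩⟩
    · have h7 := (hC _ _).2 h3
      rw [hv, hv] at h7
      exact h7
    · have h7 := (hD _ _).2 h6
      rw [hv, hv] at h7
      have e1 : x - 1 + a = x + a - 1 := by ring
      rw [e1] at h7
      exact h7

theorem we_prob {q : ℝ} (hq0 : 0 ≤ q) (hq1 : q ≤ 1) {x y R s : ℤ} (hs : 1 ≤ s) (hR : s ≤ R)
    {E : Finset Edge} (hE : Bx x y R ⊆ E) : (s + 1) * IPC.Pr q E (WE x y R s) ≤ 1 := by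
  have h0 : IPC.Pr q E (WE x y R s) = IPC.Pr q (Bx x y R) (WE x y R s) :=
    IPC.Pr_restrict q hE _ fun ω _ => we_dep x y R s ω
  have h1 : ∀ t ∈ Icc (0 : ℤ) s, IPC.Pr q ((Icc (0 : ℤ) s).biUnion fun t => Bx (x + t) y R)
      (WE (x + t) y R s) = IPC.Pr q E (WE x y R s) := by
    intro t ht
    rw [h0, ← we_shift q x y R s t]
    refine IPC.Pr_restrict q ?_ _ fun ω _ => we_dep (x + t) y R s ω
    exact Finset.subset_biUnion_of_mem (fun t => Bx (x + t) y R) ht
  have h2 := IPC.sum_Pr_le hq0 hq1 ((Icc (0 : ℤ) s).biUnion fun t => Bx (x + t) y R) (Icc (0 : ℤ) s)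
    (fun t => WE (x + t) y R s) (fun _ => True) ?_ (fun _ _ _ _ _ => trivial)
  · rw [Finset.sum_congr rfl h1, Finset.sum_const, Int.card_Icc, nsmul_eq_mul,
      IPC.Pr_true q _ (fun _ _ => trivial)] at h2
    have h3 : (((s + 1 - 0).toNat : ℕ) : ℝ) = (s : ℝ) + 1 := by
      have h4 : (((s + 1 - 0).toNat : ℕ) : ℤ) = s + 1 := by
        rw [Int.toNat_of_nonneg (by omega)]
        ring
      calc (((s + 1 - 0).toNat : ℕ) : ℝ) = ((((s + 1 - 0).toNat : ℕ) : ℤ) : ℝ) := by push_cast; rfl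
        _ = ((s + 1 : ℤ) : ℝ) := by rw [h4]
        _ = (s : ℝ) + 1 := by push_cast; rfl
    rw [h3] at h2
    exact h2
  · intro ω _ k hk l hl hk1 hl1
    rw [Finset.mem_Icc] at hk hl
    rcases lt_trichotomy k l with h | h | h
    · exact (we_excl hs hR hk1 hl1 (by omega) (by omega)).elim
    · exact h
    · exact (we_excl hs hR hl1 hk1 (by omega) (by omega)).elim

end FKS
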