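import Pool.Agent.Lib.MP_216314_pr.Chain
import Pool.Agent.Lib.MP_216314_pr.P.PBase
import Pool.Agent.Lib.MP_216314_pr.P.PExit
import Pool.Agent.Lib.MP_25e40f_pr.A.Prb
import Pool.Agent.Lib.MP_25e40f_pr.A.Har

/-!
# Arm separation: definitions

Conventions: `FKI.next ω` is the strand (loop) map on the corners, `edgeOf p` the edge met at the corner `p`, `edgeIn p` the edge behind it, `vtx p` the
vertex on the left of the corner, `fce p` the face on its right; the face `(i, j)` is the unit square with lower left vertex `(i, j)`. The edge `e` has the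
endpoints `ea e`, `eb e` and the faces `fa e`, `fb e`; `dE e` is the dual edge as an edge of the lattice of the faces. `DConn F ω f g`: the faces `f`, `g`
are connected by crossing closed edges of `F`.

* `orb ω s k`: the strand from the corner `s`; `Run D ω s k`: it meets only edges of `D` before time `k`; `Exit D ω s a`: it leaves `D` at the corner `a`;
* `Seen D S ω p`: the corner `p` is visited (inside `D` or at the exit) by a strand from a corner of `S`; `Xs D S ω`: the edges of `D` explored by them;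
* `Bx x y R`: edges of the half square `[x-R, x+R] × [y, y+R]`; `HA x y s`: edges of `Bx x y (3 s)` which are not in `Bx x y s`;
* `Foot ω x y R p T`: the strand from the corner `p` enters `Bx x y R` at `p` (not from below) and leaves it after `T` steps at the bottom corner
  `(2 x, 2 y)` (south west corner of the vertex `(x, y)`); `VZ`, `FZ`, `XF`: its vertices, faces, explored edges;
* `CleanO`, `CleanD`: the foot is connected, by open explored edges and the half annulus `HA x y s`, to the bottom side to the right; the same for the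
  dual side to the left;
* `KE Z x y r`: vertices of `Bx x y r` reachable from the bottom side to the right of `x`, by paths (open or closed) without vertex in `Z`; `KW`: the same for
  faces, from the left;
* `Tidy`: the explored edges `X` do not touch `KE`, `KW`, and these are separated.
-/

set_option autoImplicit false

noncomputable section

namespace FKS

open Finset FKI FKP
open scoped Classical

/-- the face to the right of a corner -/
def fce (p : V) : V := ((p.1 - 1) / 2, (p.2 - 1) / 2)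

/-- the left or lower face of an edge -/
def fa (e : Edge) : V := if e.2.2 then (e.1 - 1, e.2.1) else (e.1, e.2.1 - 1)

/-- the right or upper face of an edge -/
def fb (e : Edge) : V := (e.1, e.2.1)

/-- the dual edge, an edge of the lattice of the faces from `fa e` to `fb e` -/
def dE (e : Edge) : Edge := if e.2.2 then (e.1 - 1, e.2.1, false) else (e.1, e.2.1 - 1, true)

/-- dual connection: crossing closed edges of `F` -/
def DConn (F ω : Finset Edge) (f g : V) : Prop := (gr ((F \ ω).image dE)).Reachable f g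

/-- `h` is one of the four faces around the vertex `u` -/
def Ar (u h : V) : Prop := (h.1 = u.1 ∨ h.1 = u.1 - 1) ∧ (h.2 = u.2 ∨ h.2 = u.2 - 1)

/-- the boundary of a dual chain (a chain of edges) at a face -/
def dbd (c : Edge → ZMod 2) (h : V) : ZMod 2 :=
  c (h.1, h.2, true) + c (h.1 + 1, h.2, true) + c (h.1, h.2, false) + c (h.1, h.2 + 1, false)

/-- the strand from the corner `s` -/
def orb (ω : Finset Edge) (s : V) (k : ℕ) : V := (next ω)^[k] s

/-- the strand meets only edges of `D` before time `k` -/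
def Run (D ω : Finset Edge) (s : V) (k : ℕ) : Prop := ∀ j < k, edgeOf (orb ω s j) ∈ D

/-- the strand from `s` leaves `D` at the corner `a` -/
def Exit (D ω : Finset Edge) (s a : V) : Prop :=
  ∃ k, Run D ω s k ∧ orb ω s k = a ∧ edgeOf a ∉ D

/-- the corner `p` is visited by a strand from `S`, before it leaves `D` or when it leaves `D` -/
def Seen (D : Finset Edge) (S : Set V) (ω : Finset Edge) (p : V) : Prop :=
  ∃ s ∈ S, ∃ k, Run D ω s k ∧ orb ω s k = p

/-- the edges of `D` explored by the strands from `S` -/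
def Xs (D : Finset Edge) (S : Set V) (ω : Finset Edge) : Finset Edge :=
  D.filter (fun e => ∃ p, Seen D S ω p ∧ edgeOf p = e)

/-- edges of the half square -/
def Bx (x y R : ℤ) : Finset Edge := box (x - R) (x + R) y (y + R)

/-- half annulus -/
def HA (x y s : ℤ) : Finset Edge := Bx x y (3 * s) \ Bx x y s

/-- the strand from `p` enters the half square at `p`, not from below, and leaves it at the foot `(2x, 2y)` -/
def Foot (ω : Finset Edge) (x y R : ℤ) (p : V) (T : ℕ) : Prop :=
  Run (Bx x y R) ω p T ∧ orb ω p T = (2 * x, 2 * y) ∧ edgeIn p ∉ Bx x y R ∧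
    ∀ i : ℤ, edgeIn p ≠ (i, y - 1, true)

/-- vertices of a piece of a strand -/
def VZ (ω : Finset Edge) (p : V) (T : ℕ) : Set V := {u | ∃ k ≤ T, vtx (orb ω p k) = u}

/-- faces of a piece of a strand -/
def FZ (ω : Finset Edge) (p : V) (T : ℕ) : Set V := {h | ∃ k ≤ T, fce (orb ω p k) = h}

/-- edges met by a piece of a strand -/
def XF (ω : Finset Edge) (p : V) (T : ℕ) : Finset Edge :=
  (range T).image (fun k => edgeOf (orb ω p k))

/-- the open side of the foot is connected to the bottom side on the right, at distance between `s` and `3 s` -/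
def CleanO (ω : Finset Edge) (p : V) (T : ℕ) (x y s : ℤ) : Prop :=
  ∃ w : ℤ, x + s < w ∧ w ≤ x + 3 * s ∧ Conn (XF ω p T ∪ HA x y s) ω (x, y) (w, y)

/-- the closed side of the foot is connected to the bottom side on the left, at distance between `s` and `3 s` -/
def CleanD (ω : Finset Edge) (p : V) (T : ℕ) (x y s : ℤ) : Prop :=
  ∃ w : ℤ, x - 3 * s ≤ w ∧ w < x - s ∧ DConn (XF ω p T ∪ HA x y s) ω (x - 1, y - 1) (w, y - 1)

/-- there is a foot -/
def FootE (x y R : ℤ) (ω : Finset Edge) : Prop := ∃ p T, Foot ω x y R p T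

/-- there is a foot which is not clean (open side) at the scales of `Sc` -/
def BadO (x y R : ℤ) (Sc : Finset ℤ) (ω : Finset Edge) : Prop :=
  ∃ p T, Foot ω x y R p T ∧ ∀ s ∈ Sc, ¬ CleanO ω p T x y s

/-- there is a foot which is not clean (closed side) at the scales of `Sc` -/
def BadD (x y R : ℤ) (Sc : Finset ℤ) (ω : Finset Edge) : Prop :=
  ∃ p T, Foot ω x y R p T ∧ ∀ s ∈ Sc, ¬ CleanD ω p T x y s

/-- the bottom vertex `(x, y)` is connected to the right, the bottom face `(x-1, y-1)` to the left -/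
def WE (x y R s : ℤ) (ω : Finset Edge) : Prop :=
  (∃ w : ℤ, x + s < w ∧ w ≤ x + R ∧ Conn (Bx x y R) ω (x, y) (w, y)) ∧
  (∃ w : ℤ, x - R ≤ w ∧ w < x - s ∧ DConn (Bx x y R) ω (x - 1, y - 1) (w, y - 1))

/-- edges of the half square with both endpoints outside of `Z` -/
def FrE (Z : Set V) (x y r : ℤ) : Finset Edge := (Bx x y r).filter (fun e => ea e ∉ Z ∧ eb e ∉ Z)

/-- edges of the half square with both faces outside of `Z` -/
def FrF (Z : Set V) (x y r : ℤ) : Finset Edge := (Bx x y r).filter (fun e => fa e ∉ Z ∧ fb e ∉ Z)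

/-- vertices reachable from the bottom side to the right of `x` without meeting `Z` -/
def KE (Z : Set V) (x y r : ℤ) (u : V) : Prop :=
  ∃ x0 : ℤ, x < x0 ∧ x0 ≤ x + r ∧ (x0, y) ∉ Z ∧ (gr (FrE Z x y r)).Reachable (x0, y) u

/-- faces reachable from the bottom side to the left of `x` without meeting `Z` -/
def KW (Z : Set V) (x y r : ℤ) (h : V) : Prop :=
  ∃ i0 : ℤ, x - r ≤ i0 ∧ i0 < x ∧ (i0, y - 1) ∉ Z ∧
    (gr ((FrF Z x y r).image dE)).Reachable (i0, y - 1) h

/-- the explored edges `X` are separated from the free regions at the foot -/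
structure Tidy (X : Finset Edge) (ZV ZF : Set V) (x y r : ℤ) : Prop where
  t0 : ∀ w : ℤ, x - r ≤ w → w < x → ¬ KE ZV x y r (w, y)
  t1 : ∀ e ∈ X, ¬ KE ZV x y r (ea e) ∧ ¬ KE ZV x y r (eb e)
  d0 : ∀ i : ℤ, x ≤ i → i < x + r → ¬ KW ZF x y r (i, y - 1)
  d1 : ∀ e ∈ X, ¬ KW ZF x y r (fa e) ∧ ¬ KW ZF x y r (fb e)
  t4 : ∀ e : Edge, (KE ZV x y r (ea e) ∨ KE ZV x y r (eb e)) →
    ¬ (KW ZF x y r (fa e) ∨ KW ZF x y r (fb e))

/-- there are no edges of `D` just below the bottom point `(x, y)` -/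
def Out (D : Finset Edge) (x y R : ℤ) : Prop :=
  ∀ e ∈ D, x - R ≤ e.1 → e.1 ≤ x + R → y - R ≤ e.2.1 → y ≤ e.2.1

/-- the domain `D` is a half plane near the bottom point `(x, y)` -/
structure LH (D : Finset Edge) (x y R : ℤ) : Prop where
  inn : Bx x y R ⊆ D
  out : Out D x y R

/-- the starting corners are far from the half square -/
def SF (S : Set V) (x y R : ℤ) : Prop :=
  ∀ s ∈ S, s.1 ≤ 2 * (x - R) - 2 ∨ 2 * (x + R) + 3 ≤ s.1 ∨ 2 * (y + R) + 3 ≤ s.2 ∨ s.2 ≤ 2 * y - 2

/-- region of the open path of the extension -/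
def GOr (k y m : ℤ) : Finset Edge :=
  box (k + 2 * m) (k + 3 * m) (y - 5 * m) (y + 3 * m) ∪
    (box (k - 2 * m) (k + 3 * m) (y + 2 * m) (y + 3 * m) ∪ box (k - 2 * m) (k - m) y (y + 3 * m))

/-- region of the dual path of the extension -/
def GDr (k y m : ℤ) : Finset Edge :=
  box (k - 2 * m) (k - m) (y - 5 * m) (y + 3 * m) ∪
    (box (k - 2 * m) (k + 3 * m) (y + 2 * m) (y + 3 * m) ∪ box (k + 2 * m) (k + 3 * m) y (y + 3 * m))

/-- the open path of the extension: from the bottom of the right column, around the cell `[k, k + m]`, to the bottom side on the left -/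
def GO (k y m : ℤ) (ω : Finset Edge) : Prop :=
  ∃ u w : ℤ, k + 2 * m ≤ u ∧ u ≤ k + 3 * m ∧ k - 2 * m ≤ w ∧ w ≤ k - m ∧
    Conn (GOr k y m) ω (u, y - 5 * m) (w, y)

/-- the dual path of the extension -/
def GD (k y m : ℤ) (ω : Finset Edge) : Prop :=
  ∃ i j : ℤ, k - 2 * m ≤ i ∧ i < k - m ∧ k + 2 * m ≤ j ∧ j < k + 3 * m ∧
    DConn (GDr k y m) ω (i, y - 5 * m - 1) (j, y - 1)

/-- landing of the open arm of the vertex `v`: it is connected to a long vertical crossing of the right column -/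
def LO (D : Finset Edge) (k y m : ℤ) (v : V) (ω : Finset Edge) : Prop :=
  ∃ u u' : ℤ, k + 2 * m ≤ u ∧ u ≤ k + 3 * m ∧ k + 2 * m ≤ u' ∧ u' ≤ k + 3 * m ∧
    Conn (box (k + 2 * m) (k + 3 * m) (y - 5 * m) (y - 1)) ω (u, y - 5 * m) (u', y - 1) ∧
    Conn (D ∪ box (k + 2 * m) (k + 3 * m) (y - 5 * m) y) ω (u', y - 1) v

/-- landing of the dual arm of the face `f`: it is connected to a long vertical dual crossing of the left column -/
def LD (D : Finset Edge) (k y m : ℤ) (f : V) (ω : Finset Edge) : Prop :=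
  ∃ i i' : ℤ, k - 2 * m ≤ i ∧ i < k - m ∧ k - 2 * m ≤ i' ∧ i' < k - m ∧
    DConn (box (k - 2 * m) (k - m) (y - 5 * m) (y - 1)) ω (i, y - 5 * m - 1) (i', y - 1) ∧
    DConn (D ∪ box (k - 2 * m) (k - m) (y - 5 * m) y) ω (i', y - 1) f

/-- dual horizontal crossing of a rectangle -/
def DHC (x1 x2 y1 y2 : ℤ) (ω : Finset Edge) : Prop :=
  ∃ j j' : ℤ, y1 ≤ j ∧ j < y2 ∧ y1 ≤ j' ∧ j' < y2 ∧ DConn (box x1 x2 y1 y2) ω (x1 - 1, j) (x2, j')

/-- dual vertical crossing of a rectangle -/
def DVC (x1 x2 y1 y2 : ℤ) (ω : Finset Edge) : Prop :=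
  ∃ i i' : ℤ, x1 ≤ i ∧ i < x2 ∧ x1 ≤ i' ∧ i' < x2 ∧ DConn (box x1 x2 y1 y2) ω (i, y1 - 1) (i', y2)

/-- crossing bounds (Russo-Seymour-Welsh) at the parameter `q` for all rectangles of sides at most `N` and aspect ratio at
most `20` -/
def RB (c q : ℝ) (N : ℤ) : Prop :=
  ∀ x1 x2 y1 y2 : ℤ, x1 < x2 → y1 < y2 → x2 - x1 ≤ N → y2 - y1 ≤ N → x2 - x1 ≤ 20 * (y2 - y1) →
    y2 - y1 ≤ 20 * (x2 - x1) → ∀ E : Finset Edge, box x1 x2 y1 y2 ⊆ E →
      c ≤ IPC.Pr q E (HC x1 x2 y1 y2) ∧ c ≤ IPC.Pr q E (VC x1 x2 y1 y2) ∧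
      c ≤ IPC.Pr q E (DHC x1 x2 y1 y2) ∧ c ≤ IPC.Pr q E (DVC x1 x2 y1 y2) ∧
      IPC.Pr q E (HC x1 x2 y1 y2) ≤ 1 - c ∧ IPC.Pr q E (VC x1 x2 y1 y2) ≤ 1 - c

/-- parity of the chain `c` above a face, cut below the row `y - 1` and above the row `y + R` -/
def par' (c : Edge → ZMod 2) (y R : ℤ) (f : V) : ZMod 2 :=
  if y - 1 ≤ f.2 then ∑ j ∈ Ioc f.2 (y + R), c (f.1, j, false) else 0

/-- parity of the dual chain `c` above a vertex, cut below the row `y` and above the row `y + R` -/
def parv (c : Edge → ZMod 2) (y R : ℤ) (v : V) : ZMod 2 :=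
  if y ≤ v.2 then ∑ j ∈ Icc v.2 (y + R), c (v.1, j, true) else 0

/-- `l` different exits (in the set `Ex` of corners) of strands from `St 0, ..., St (l-1)` -/
def ExitN {l : ℕ} (D : Finset Edge) (Ex : Set V) (St : Fin l → Set V) (ω : Finset Edge) : Prop :=
  ∃ a : Fin l → V, Function.Injective a ∧ ∀ i, a i ∈ Ex ∧ ∃ s ∈ St i, Exit D ω s (a i)

/-- open path around the foot in the half annulus -/
def HO (x y s : ℤ) (ω : Finset Edge) : Prop :=
  ∃ w w' : ℤ, x + s < w ∧ w ≤ x + 3 * s ∧ x - 3 * s ≤ w' ∧ w' < x - s ∧ Conn (HA x y s) ω (w, y) (w', y)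

/-- dual path around the foot in the half annulus -/
def HD (x y s : ℤ) (ω : Finset Edge) : Prop :=
  ∃ i i' : ℤ, x - 3 * s ≤ i ∧ i < x - s ∧ x + s ≤ i' ∧ i' < x + 3 * s ∧
    DConn (HA x y s) ω (i, y - 1) (i', y - 1)

/-- rotation of the vertices by 90 degrees -/
def rotV : V ≃ V where
  toFun v := (-v.2, v.1)
  invFun v := (v.2, -v.1)
  left_inv v := by ext <;> simp
  right_inv v := by ext <;> simp

/-- rotation of the faces by 90 degrees -/
def rotF : V ≃ V where
  toFun v := (-v.2 - 1, v.1)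
  invFun v := (v.2, -v.1 - 1)
  left_inv v := by ext <;> simp
  right_inv v := by ext <;> simp

/-- rotation of the corners by 90 degrees -/
def rotC : V ≃ V where
  toFun p := (1 - p.2, p.1)
  invFun p := (p.2, 1 - p.1)
  left_inv p := by ext <;> simp
  right_inv p := by ext <;> simp

/-- rotation of the edges by 90 degrees -/
def rotE : Edge ≃ Edge where
  toFun e := if e.2.2 then (-e.2.1 - 1, e.1, false) else (-e.2.1, e.1, true)
  invFun e := if e.2.2 then (e.2.1, -e.1, false) else (e.2.1, -e.1 - 1, true)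
  left_inv e := by
    obtain ⟨x, y, t⟩ := e
    cases t <;> simp
  right_inv e := by
    obtain ⟨x, y, t⟩ := e
    cases t <;> simp

/-- iterated rotations -/
def rV : ℕ → (V ≃ V)
  | 0 => Equiv.refl V
  | k + 1 => (rV k).trans rotV

/-- iterated rotations -/
def rF : ℕ → (V ≃ V)
  | 0 => Equiv.refl V
  | k + 1 => (rF k).trans rotF

/-- iterated rotations -/
def rC : ℕ → (V ≃ V)
  | 0 => Equiv.refl V
  | k + 1 => (rC k).trans rotC

/-- iterated rotations -/
def rE : ℕ → (Edge ≃ Edge)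
  | 0 => Equiv.refl Edge
  | k + 1 => (rE k).trans rotE

/-- the bijection `σ` of the edges is induced by the bijection `τ` of the faces -/
def Cpd (σ : Edge ≃ Edge) (τ : V ≃ V) : Prop :=
  ∀ e, (fa (σ e) = τ (fa e) ∧ fb (σ e) = τ (fb e)) ∨ (fa (σ e) = τ (fb e) ∧ fb (σ e) = τ (fa e))

/-- the rotated set of edges -/
def rot (k : ℕ) (ω : Finset Edge) : Finset Edge := ω.map (rE k).toEmbedding

/-- an exit near a corner of the domain (half side `h`, bottom side at the height `y`) -/
def Near {l : ℕ} (D : Finset Edge) (Ex : Set V) (St : Fin l → Set V) (y h R : ℤ) (ω : Finset Edge) : Prop :=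
  ∃ a ∈ Ex, (∃ i, ∃ s ∈ St i, Exit D ω s a) ∧ ∃ k < 4, ∃ x : ℤ, rC k a = (2 * x, 2 * y) ∧ h - R < |x|

/-- an unclean foot on one of the four sides -/
def Bad (y h R : ℤ) (Sc : Finset ℤ) (ω : Finset Edge) : Prop :=
  ∃ k < 4, ∃ x : ℤ, |x| ≤ h - R ∧ (BadO x y R Sc (rot k ω) ∨ BadD x y R Sc (rot k ω))

/-- the landing state: the arms of `St i` land at the cell `κ i = (side, position)` -/
def Land {l : ℕ} (D : Finset Edge) (St : Fin l → Set V) (y m : ℤ) (κ : Fin l → ℕ × ℤ) (ω : Finset Edge) : Prop :=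
  ∀ i, (∃ s ∈ St i, LO D (m * (κ i).2) y m (rV (κ i).1 (vtx s)) (rot (κ i).1 ω)) ∧
    (∃ s ∈ St i, LD D (m * (κ i).2) y m (rF (κ i).1 (fce s)) (rot (κ i).1 ω))

/-- the cells: far from the corners and far from each other -/
def Cells (l : ℕ) (m h R : ℤ) : Finset (Fin l → ℕ × ℤ) :=
  (Fintype.piFinset (fun _ => range 4 ×ˢ Icc (-(|h| + |m|)) (|h| + |m|))).filter (fun κ =>
    (∀ i, |m * (κ i).2| ≤ h - R + m) ∧ ∀ i j, i ≠ j → (κ i).1 = (κ j).1 → 20 ≤ |(κ i).2 - (κ j).2|)

/-- a domain invariant under rotations, which is a half plane near the points of its bottom side (height `y`, half side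
`h`) at distance at least `R` from the corners; `Ex`: the exits that are considered; the starting corners are far away -/
structure Dom {l : ℕ} (E D : Finset Edge) (Ex : Set V) (St : Fin l → Set V) (y h R m : ℤ) : Prop where
  hm : 1 ≤ m
  hR : 100 * m ≤ R
  hy : h ≤ |y|
  rotD : ∀ k, rot k D = D
  side : ∀ a ∈ Ex, ∃ k < 4, ∃ x : ℤ, rC k a = (2 * x, 2 * y)
  lh : ∀ x : ℤ, |x| ≤ h - R → LH D x y R
  far : ∀ i, ∀ k < 4, ∀ x : ℤ, |x| ≤ h - R → SF (rC k '' St i) x y R
  sub : ∀ k < 4, ∀ x : ℤ, |x| ≤ h - R → box (x - R) (x + R) (y - R) (y + R) ⊆ rot k E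

/-- tidy exits: `l` exits with their sides `k i`, positions `x i`, feet `(p i, T i)` -/
structure TX {l : ℕ} (D : Finset Edge) (St : Fin l → Set V) (y h R m : ℤ) (ω : Finset Edge) (a : Fin l → V)
    (k : Fin l → ℕ) (x : Fin l → ℤ) (p : Fin l → V) (T : Fin l → ℕ) : Prop where
  inj : Function.Injective a
  hk : ∀ i, k i < 4
  hx : ∀ i, |x i| ≤ h - R
  ex : ∀ i, ∃ s ∈ St i, Exit D ω s (a i)
  pos : ∀ i, rC (k i) (a i) = (2 * x i, 2 * y)
  foot : ∀ i, Foot (rot (k i) ω) (x i) y R (p i) (T i)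
  xf : ∀ i, XF (rot (k i) ω) (p i) (T i) ⊆ rot (k i) (Xs D (⋃ i, St i) ω)
  tidy : ∀ i, Tidy (rot (k i) (Xs D (⋃ i, St i) ω)) (VZ (rot (k i) ω) (p i) (T i))
    (FZ (rot (k i) ω) (p i) (T i)) (x i) y (4 * m)
  sep : ∀ i j, i ≠ j → k i = k j → 30 * m ≤ |x i - x j|

end FKS
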