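import Pool.Agent.Lib.MP_216314_pr.Sp.ADef

/-!
# JOB SBas: local facts on corners, faces and dual edges

Everything is a case analysis on the four types of corners (`corner_cases`, `edgeOf_SE` ..., `edgeIn_SE` ..., `next_SE_open`, `next_SE_closed`, ... of
`NextB.lean`) and `omega` for the integer divisions (`(2 * x + 1 - 1) / 2 = x`, `(2 * x - 1) / 2 = x - 1`, ...). E.g. the SE corner `p = (2x+1, 2y)`:
`edgeOf p = (x, y, false) =: e`, `vtx p = (x, y) = ea e`, `fce p = (x, y-1) = fa e`; closed: `next = (2x+1, 2y+1)`, same vertex, face `(x, y) = fb e`; open: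
`next = (2x+2, 2y)`, same face, vertex `(x+1, y) = eb e`. NE: `e = (x, y, true)`, `fce p = (x, y) = fb e`, closed → face `(x-1, y) = fa e`.
NW `(2x, 2y+1)`: `e = (x-1, y, false)`, `fce p = (x-1, y) = fb e`, `vtx p = eb e`. SW `(2x, 2y)`: `e = (x, y-1, true)`, `fce p = (x-1, y-1) = fa e`, `vtx p = eb e`.
* `corner_of`: the corner with vertex `u` and face `h` is `(2 u.1 + a, 2 u.2 + b)`, `a = 1` if `h.1 = u.1`, `a = 0` if `h.1 = u.1 - 1`; the same for `b`.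
* `ar_of_edge`: `corner_of` is the converse direction; here by cases on the bool and on the four combinations, `omega`.
* `edgeIn_cases`: by `corner_cases`: for each type of `p` the two corners `c1 e`, `c2 e` of the edge `e = edgeIn p` and both states of `e`
  (e.g. `p = (2x+1, 2y)`: `e = (x, y-1, true)`, `c1 e = (2x+1, 2y-1)`, NE corner of `(x, y-1)`, open → `(2x+1, 2y)`; `c2 e = (2x, 2y)`, SW corner, closed → `(2x+1, 2y)`).
-/

set_option autoImplicit false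

noncomputable section

namespace FKS

open Finset FKI FKP
open scoped Classical

theorem SBas_vSE (x y : ℤ) : vtx (2 * x + 1, 2 * y) = (x, y) := by
  simp only [vtx, Prod.mk.injEq]; omega

theorem SBas_vNE (x y : ℤ) : vtx (2 * x + 1, 2 * y + 1) = (x, y) := by
  simp only [vtx, Prod.mk.injEq]; omega

theorem SBas_vNW (x y : ℤ) : vtx (2 * x, 2 * y + 1) = (x, y) := by
  simp only [vtx, Prod.mk.injEq]; omega

theorem SBas_vSW (x y : ℤ) : vtx (2 * x, 2 * y) = (x, y) := by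
  simp only [vtx, Prod.mk.injEq]; omega

theorem SBas_fSE (x y : ℤ) : fce (2 * x + 1, 2 * y) = (x, y - 1) := by
  simp only [fce, Prod.mk.injEq]; omega

theorem SBas_fNE (x y : ℤ) : fce (2 * x + 1, 2 * y + 1) = (x, y) := by
  simp only [fce, Prod.mk.injEq]; omega

theorem SBas_fNW (x y : ℤ) : fce (2 * x, 2 * y + 1) = (x - 1, y) := by
  simp only [fce, Prod.mk.injEq]; omega

theorem SBas_fSW (x y : ℤ) : fce (2 * x, 2 * y) = (x - 1, y - 1) := by
  simp only [fce, Prod.mk.injEq]; omega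

theorem vtx_mem (p : V) : vtx p = ea (edgeOf p) ∨ vtx p = eb (edgeOf p) := by
  rcases corner_cases p with ⟨x, y, rfl⟩ | ⟨x, y, rfl⟩ | ⟨x, y, rfl⟩ | ⟨x, y, rfl⟩
  · left; rw [SBas_vSE, edgeOf_SE]; rfl
  · left; rw [SBas_vNE, edgeOf_NE]; rfl
  · right; rw [SBas_vNW, edgeOf_NW]; simp [eb]
  · right; rw [SBas_vSW, edgeOf_SW]; simp [eb]

theorem fce_mem (p : V) : fce p = fa (edgeOf p) ∨ fce p = fb (edgeOf p) := by
  rcases corner_cases p with ⟨x, y, rfl⟩ | ⟨x, y, rfl⟩ | ⟨x, y, rfl⟩ | ⟨x, y, rfl⟩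
  · left; rw [SBas_fSE, edgeOf_SE]; simp [fa]
  · right; rw [SBas_fNE, edgeOf_NE]; simp [fb]
  · right; rw [SBas_fNW, edgeOf_NW]; simp [fb]
  · left; rw [SBas_fSW, edgeOf_SW]; simp [fa]

theorem vtx_mem_in (p : V) : vtx p = ea (edgeIn p) ∨ vtx p = eb (edgeIn p) := by
  rcases corner_cases p with ⟨x, y, rfl⟩ | ⟨x, y, rfl⟩ | ⟨x, y, rfl⟩ | ⟨x, y, rfl⟩
  · right; rw [SBas_vSE, edgeIn_SE]; simp [eb]
  · left; rw [SBas_vNE, edgeIn_NE]; simp [ea]
  · left; rw [SBas_vNW, edgeIn_NW]; simp [ea]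
  · right; rw [SBas_vSW, edgeIn_SW]; simp [eb]

theorem fce_mem_in (p : V) : fce p = fa (edgeIn p) ∨ fce p = fb (edgeIn p) := by
  rcases corner_cases p with ⟨x, y, rfl⟩ | ⟨x, y, rfl⟩ | ⟨x, y, rfl⟩ | ⟨x, y, rfl⟩
  · right; rw [SBas_fSE, edgeIn_SE]; simp [fb]
  · right; rw [SBas_fNE, edgeIn_NE]; simp [fb]
  · left; rw [SBas_fNW, edgeIn_NW]; simp [fa]
  · left; rw [SBas_fSW, edgeIn_SW]; simp [fa]

/-- closed edge: the strand turns around the vertex and goes to the other face -/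
theorem step_closed {ω : Finset Edge} {p : V} (h : edgeOf p ∉ ω) : vtx (next ω p) = vtx p ∧
    ((fce p = fa (edgeOf p) ∧ fce (next ω p) = fb (edgeOf p)) ∨
      (fce p = fb (edgeOf p) ∧ fce (next ω p) = fa (edgeOf p))) := by
  rcases corner_cases p with ⟨x, y, rfl⟩ | ⟨x, y, rfl⟩ | ⟨x, y, rfl⟩ | ⟨x, y, rfl⟩
  · rw [edgeOf_SE] at h
    rw [next_SE_closed h, edgeOf_SE, SBas_vSE, SBas_vNE, SBas_fSE, SBas_fNE]
    exact ⟨rfl, Or.inl ⟨by simp [fa], by simp [fb]⟩⟩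
  · rw [edgeOf_NE] at h
    rw [next_NE_closed h, edgeOf_NE, SBas_vNE, SBas_vNW, SBas_fNE, SBas_fNW]
    exact ⟨rfl, Or.inr ⟨by simp [fb], by simp [fa]⟩⟩
  · rw [edgeOf_NW] at h
    rw [next_NW_closed h, edgeOf_NW, SBas_vNW, SBas_vSW, SBas_fNW, SBas_fSW]
    exact ⟨rfl, Or.inr ⟨by simp [fb], by simp [fa]⟩⟩
  · rw [edgeOf_SW] at h
    rw [next_SW_closed h, edgeOf_SW, SBas_vSW, SBas_vSE, SBas_fSW, SBas_fSE]
    exact ⟨rfl, Or.inl ⟨by simp [fa], by simp [fb]⟩⟩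

/-- open edge: the strand goes along the edge, the face is the same -/
theorem step_open {ω : Finset Edge} {p : V} (h : edgeOf p ∈ ω) : fce (next ω p) = fce p ∧
    ((vtx p = ea (edgeOf p) ∧ vtx (next ω p) = eb (edgeOf p)) ∨
      (vtx p = eb (edgeOf p) ∧ vtx (next ω p) = ea (edgeOf p))) := by
  rcases corner_cases p with ⟨x, y, rfl⟩ | ⟨x, y, rfl⟩ | ⟨x, y, rfl⟩ | ⟨x, y, rfl⟩
  · rw [edgeOf_SE] at h
    rw [next_SE_open h, edgeOf_SE, show (2 * x + 2 : ℤ) = 2 * (x + 1) by ring, SBas_vSE,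
      SBas_vSW, SBas_fSE, SBas_fSW]
    exact ⟨by simp, Or.inl ⟨by simp [ea], by simp [eb]⟩⟩
  · rw [edgeOf_NE] at h
    rw [next_NE_open h, edgeOf_NE, show (2 * y + 2 : ℤ) = 2 * (y + 1) by ring, SBas_vNE,
      SBas_vSE, SBas_fNE, SBas_fSE]
    exact ⟨by simp, Or.inl ⟨by simp [ea], by simp [eb]⟩⟩
  · rw [edgeOf_NW] at h
    rw [next_NW_open h, edgeOf_NW, show (2 * x - 1 : ℤ) = 2 * (x - 1) + 1 by ring, SBas_vNW,
      SBas_vNE, SBas_fNW, SBas_fNE]
    exact ⟨by simp, Or.inr ⟨by simp [eb], by simp [ea]⟩⟩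
  · rw [edgeOf_SW] at h
    rw [next_SW_open h, edgeOf_SW, show (2 * y - 1 : ℤ) = 2 * (y - 1) + 1 by ring, SBas_vSW,
      SBas_vNW, SBas_fSW, SBas_fNW]
    exact ⟨by simp, Or.inr ⟨by simp [eb], by simp [ea]⟩⟩

/-- the corner of a vertex and a face around it -/
theorem corner_of {u h : V} (ha : Ar u h) : ∃ p, vtx p = u ∧ fce p = h := by
  obtain ⟨u1, u2⟩ := u
  obtain ⟨h1, h2⟩ := h
  obtain ⟨ha1, ha2⟩ := ha
  simp only at ha1 ha2
  rcases ha1 with rfl | rfl <;> rcases ha2 with rfl | rfl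
  · exact ⟨_, SBas_vNE _ _, SBas_fNE _ _⟩
  · exact ⟨_, SBas_vSE _ _, SBas_fSE _ _⟩
  · exact ⟨_, SBas_vNW _ _, SBas_fNW _ _⟩
  · exact ⟨_, SBas_vSW _ _, SBas_fSW _ _⟩

theorem ar_corner (p : V) : Ar (vtx p) (fce p) := by
  rcases corner_cases p with ⟨x, y, rfl⟩ | ⟨x, y, rfl⟩ | ⟨x, y, rfl⟩ | ⟨x, y, rfl⟩
  · rw [SBas_vSE, SBas_fSE]; simp [Ar]
  · rw [SBas_vNE, SBas_fNE]; simp [Ar]
  · rw [SBas_vNW, SBas_fNW]; simp [Ar]
  · rw [SBas_vSW, SBas_fSW]; simp [Ar]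

theorem corner_ext {p p' : V} (h1 : vtx p = vtx p') (h2 : fce p = fce p') : p = p' := by
  obtain ⟨a, b⟩ := p
  obtain ⟨c, d⟩ := p'
  simp only [vtx, fce, Prod.mk.injEq] at h1 h2 ⊢
  omega

/-- an endpoint and a face of the same edge -/
theorem ar_of_edge {e : Edge} {u h : V} (hu : u = ea e ∨ u = eb e) (hh : h = fa e ∨ h = fb e) :
    Ar u h := by
  obtain ⟨x, y, t⟩ := e
  cases t <;> rcases hu with rfl | rfl <;> rcases hh with rfl | rfl <;> simp [Ar, ea, eb, fa, fb]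

/-- a corner behind which the edge is `e` is the image of one of the two corners of `e` -/
theorem edgeIn_cases (ω : Finset Edge) {p : V} {e : Edge} (h : edgeIn p = e) :
    p = next ω (c1 e) ∨ p = next ω (c2 e) := by
  subst h
  rcases corner_cases p with ⟨x, y, rfl⟩ | ⟨x, y, rfl⟩ | ⟨x, y, rfl⟩ | ⟨x, y, rfl⟩
  · rw [edgeIn_SE]
    by_cases ho : (x, y - 1, true) ∈ ω
    · left
      have e1 : c1 (x, y - 1, true) = (2 * x + 1, 2 * (y - 1) + 1) := by simp [c1]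
      rw [e1, next_NE_open ho]
      ext <;> simp
      ring
    · right
      have e2 : c2 (x, y - 1, true) = (2 * x, 2 * y) := by simp [c2, Prod.ext_iff]; ring
      rw [e2, next_SW_closed ho]
  · rw [edgeIn_NE]
    by_cases ho : (x, y, false) ∈ ω
    · right
      have e2 : c2 (x, y, false) = (2 * (x + 1), 2 * y + 1) := by simp [c2, Prod.ext_iff]; ring
      rw [e2, next_NW_open (by simpa using ho)]
      ext <;> simp
      ring
    · left
      have e1 : c1 (x, y, false) = (2 * x + 1, 2 * y) := by simp [c1]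
      rw [e1, next_SE_closed ho]
  · rw [edgeIn_NW]
    by_cases ho : (x, y, true) ∈ ω
    · right
      have e2 : c2 (x, y, true) = (2 * x, 2 * (y + 1)) := by simp [c2, Prod.ext_iff]; ring
      rw [e2, next_SW_open (by simpa using ho)]
      ext <;> simp
      ring
    · left
      have e1 : c1 (x, y, true) = (2 * x + 1, 2 * y + 1) := by simp [c1]
      rw [e1, next_NE_closed ho]
  · rw [edgeIn_SW]
    by_cases ho : (x - 1, y, false) ∈ ω
    · left
      have e1 : c1 (x - 1, y, false) = (2 * (x - 1) + 1, 2 * y) := by simp [c1]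
      rw [e1, next_SE_open ho]
      ext <;> simp
      ring
    · right
      have e2 : c2 (x - 1, y, false) = (2 * x, 2 * y + 1) := by simp [c2, Prod.ext_iff]; ring
      rw [e2, next_NW_closed ho]

theorem ea_dE (e : Edge) : ea (dE e) = fa e := by
  obtain ⟨x, y, t⟩ := e
  cases t <;> simp [dE, ea, fa]

theorem eb_dE (e : Edge) : eb (dE e) = fb e := by
  obtain ⟨x, y, t⟩ := e
  cases t <;> simp [dE, eb, fb]

theorem dE_inj : Function.Injective dE := by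
  rintro ⟨x, y, t⟩ ⟨x', y', t'⟩ h
  cases t <;> cases t' <;> simp [dE] at h ⊢ <;> exact h

theorem fa_ne_fb (e : Edge) : fa e ≠ fb e := by
  obtain ⟨x, y, t⟩ := e
  cases t <;> simp [fa, fb]

theorem ea_ne_eb (e : Edge) : ea e ≠ eb e := by
  obtain ⟨x, y, t⟩ := e
  cases t <;> simp [ea, eb]

/-- coordinates of the vertex of a corner -/
theorem vtx_eq {p u : V} : vtx p = u ↔ (p.1 = 2 * u.1 ∨ p.1 = 2 * u.1 + 1) ∧ (p.2 = 2 * u.2 ∨ p.2 = 2 * u.2 + 1) := by
  obtain ⟨a, b⟩ := p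
  obtain ⟨c, d⟩ := u
  simp only [vtx, Prod.mk.injEq]
  omega

/-- coordinates of the face of a corner -/
theorem fce_eq {p h : V} : fce p = h ↔ (p.1 = 2 * h.1 + 1 ∨ p.1 = 2 * h.1 + 2) ∧ (p.2 = 2 * h.2 + 1 ∨ p.2 = 2 * h.2 + 2) := by
  obtain ⟨a, b⟩ := p
  obtain ⟨c, d⟩ := h
  simp only [fce, Prod.mk.injEq]
  omega

end FKS
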