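import Pool.Agent.Lib.MP_216314_pr.Sp.SBas

/-!
# JOB SDc: connections and dual connections (basic lemmas)

`Conn F ω u v = (gr (ω ∩ F)).Reachable u v`, `DConn F ω f g = (gr ((F \ ω).image dE)).Reachable f g`; adjacency: `gr`, `SimpleGraph.fromRel_adj`,
`pexit_adj`, `pexit_edge` of `P/PExit.lean`; `ea (dE e) = fa e`, `eb (dE e) = fb e`.
* `conn_rec`, `dconn_rec`: induction on the walk from its start: `SimpleGraph.reachable_iff_reflTransGen`, `Relation.ReflTransGen` induction (`head` fixed, last step added;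
  `refl`, `tail`), or induction on the walk with the start generalised. `conn_ind`, `dconn_ind`: special cases (`P` invariant).
* `cpth`: `pth` of `Chain.lean` for the configuration `ω ∩ F`.
* `dpth`: `pth` for `(F \ ω).image dE` gives a chain `c0` on the dual lattice, take `c e = c0 (dE e)`. If `c e ≠ 0` then `dE e ∈ (F \ ω).image dE`, so `e ∈ F \ ω` (`dE_inj`).
  `dbd c h = bd c0 h`: `dE (h.1, h.2, true) = (h.1 - 1, h.2, false)`, `dE (h.1 + 1, h.2, true) = (h.1, h.2, false)`, `dE (h.1, h.2, false) = (h.1, h.2 - 1, true)`,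
  `dE (h.1, h.2 + 1, false) = (h.1, h.2, true)`.
-/

set_option autoImplicit false

noncomputable section

namespace FKS

open Finset FKI FKP
open scoped Classical

theorem SDc_edge {ω : Finset Edge} {e : Edge} (he : e ∈ ω) {u v : V}
    (h : (ea e = u ∧ eb e = v) ∨ (ea e = v ∧ eb e = u)) : (gr ω).Reachable u v := by
  have h1 : Conn ω ω u v := pexit_edge he he h
  unfold Conn at h1
  rw [Finset.inter_self] at h1
  exact h1

theorem SDc_rec {ω : Finset Edge} {u v : V} {P : V → Prop} (h0 : P u)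
    (hs : ∀ a b, P a → (∃ e ∈ ω, (ea e = a ∧ eb e = b) ∨ (ea e = b ∧ eb e = a)) → P b)
    (hc : (gr ω).Reachable u v) : P v := by
  obtain ⟨p⟩ := hc
  induction p with
  | nil => exact h0
  | cons hadj p ih => exact ih (hs _ _ h0 (pexit_adj hadj))

theorem SDc_dmem {F : Finset Edge} {a b : V}
    (h : ∃ e ∈ F.image dE, (ea e = a ∧ eb e = b) ∨ (ea e = b ∧ eb e = a)) :
    ∃ e ∈ F, (fa e = a ∧ fb e = b) ∨ (fa e = b ∧ fb e = a) := by
  obtain ⟨e', he', h'⟩ := h
  obtain ⟨e, he, rfl⟩ := Finset.mem_image.1 he'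
  rw [ea_dE, eb_dE] at h'
  exact ⟨e, he, h'⟩

theorem SDc_dedge {F : Finset Edge} {e : Edge} (he : e ∈ F) {f g : V}
    (h : (fa e = f ∧ fb e = g) ∨ (fa e = g ∧ fb e = f)) : (gr (F.image dE)).Reachable f g := by
  refine SDc_edge (Finset.mem_image_of_mem dE he) ?_
  rw [ea_dE, eb_dE]
  exact h

theorem conn_step {F ω : Finset Edge} {e : Edge} (h1 : e ∈ F) (h2 : e ∈ ω) : Conn F ω (ea e) (eb e) := by
  exact SDc_edge (Finset.mem_inter.2 ⟨h2, h1⟩) (Or.inl ⟨rfl, rfl⟩)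

theorem dconn_step {F ω : Finset Edge} {e : Edge} (h1 : e ∈ F) (h2 : e ∉ ω) : DConn F ω (fa e) (fb e) := by
  exact SDc_dedge (Finset.mem_sdiff.2 ⟨h1, h2⟩) (Or.inl ⟨rfl, rfl⟩)

/-- induction along an open path -/
theorem conn_rec {F ω : Finset Edge} {u v : V} {P : V → Prop} (h0 : P u)
    (hs : ∀ a b, P a → (∃ e ∈ F, e ∈ ω ∧ ((ea e = a ∧ eb e = b) ∨ (ea e = b ∧ eb e = a))) → P b)
    (hc : Conn F ω u v) : P v := by
  refine SDc_rec (P := P) h0 (fun a b ha hab => hs a b ha ?_) hc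
  obtain ⟨e, he, h⟩ := hab
  exact ⟨e, (Finset.mem_inter.1 he).2, (Finset.mem_inter.1 he).1, h⟩

/-- induction along a dual path -/
theorem dconn_rec {F ω : Finset Edge} {f g : V} {P : V → Prop} (h0 : P f)
    (hs : ∀ a b, P a → (∃ e ∈ F, e ∉ ω ∧ ((fa e = a ∧ fb e = b) ∨ (fa e = b ∧ fb e = a))) → P b)
    (hc : DConn F ω f g) : P g := by
  refine SDc_rec (P := P) h0 (fun a b ha hab => hs a b ha ?_) hc
  obtain ⟨e, he, h⟩ := SDc_dmem hab
  exact ⟨e, (Finset.mem_sdiff.1 he).1, (Finset.mem_sdiff.1 he).2, h⟩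

theorem conn_ind {F ω : Finset Edge} {u v : V} {P : V → Prop} (h0 : P u)
    (hs : ∀ e ∈ F, e ∈ ω → (P (ea e) ↔ P (eb e))) (hc : Conn F ω u v) : P v := by
  refine conn_rec (P := P) h0 (fun a b ha hab => ?_) hc
  obtain ⟨e, he, he2, h | h⟩ := hab
  · have h1 := hs e he he2
    rw [h.1, h.2] at h1
    exact h1.1 ha
  · have h1 := hs e he he2
    rw [h.1, h.2] at h1
    exact h1.2 ha

theorem dconn_ind {F ω : Finset Edge} {f g : V} {P : V → Prop} (h0 : P f)
    (hs : ∀ e ∈ F, e ∉ ω → (P (fa e) ↔ P (fb e))) (hc : DConn F ω f g) : P g := by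
  refine dconn_rec (P := P) h0 (fun a b ha hab => ?_) hc
  obtain ⟨e, he, he2, h | h⟩ := hab
  · have h1 := hs e he he2
    rw [h.1, h.2] at h1
    exact h1.1 ha
  · have h1 := hs e he he2
    rw [h.1, h.2] at h1
    exact h1.2 ha

theorem DConn.refl (F ω : Finset Edge) (f : V) : DConn F ω f f := SimpleGraph.Reachable.refl _

theorem DConn.symm {F ω : Finset Edge} {f g : V} (h : DConn F ω f g) : DConn F ω g f :=
  SimpleGraph.Reachable.symm h

theorem DConn.trans {F ω : Finset Edge} {f g h : V} (h1 : DConn F ω f g) (h2 : DConn F ω g h) :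
    DConn F ω f h := SimpleGraph.Reachable.trans h1 h2

theorem DConn.mono {F F' ω ω' : Finset Edge} {f g : V} (hF : ∀ e ∈ F, e ∉ ω → e ∈ F' ∧ e ∉ ω')
    (h : DConn F ω f g) : DConn F' ω' f g := by
  refine dconn_rec (P := fun x => DConn F' ω' f x) (DConn.refl _ _ _) (fun a b ha hab => ?_) h
  obtain ⟨e, he, he2, h1⟩ := hab
  refine DConn.trans ha (SDc_dedge (Finset.mem_sdiff.2 (hF e he he2)) h1)

theorem conn_mono' {F F' ω ω' : Finset Edge} {u v : V} (hF : ∀ e ∈ F, e ∈ ω → e ∈ F' ∧ e ∈ ω')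
    (h : Conn F ω u v) : Conn F' ω' u v := by
  refine conn_rec (P := fun x => Conn F' ω' u x) (Conn.refl _ _ _) (fun a b ha hab => ?_) h
  obtain ⟨e, he, he2, h1⟩ := hab
  exact Conn.trans ha (SDc_edge (Finset.mem_inter.2 ⟨(hF e he he2).2, (hF e he he2).1⟩) h1)

/-- an open connection as a chain -/
theorem cpth {F ω : Finset Edge} {u v : V} (h : Conn F ω u v) : ∃ c : Edge → ZMod 2,
    (∀ e, c e ≠ 0 → e ∈ F ∧ e ∈ ω) ∧ ∀ w, bd c w = ind u w + ind v w := by
  obtain ⟨c, h1, h2⟩ := pth h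
  refine ⟨c, fun e he => ?_, h2⟩
  have h3 : e ∈ ω ∩ F := by
    by_contra h4
    exact he (h1 e h4)
  exact ⟨(Finset.mem_inter.1 h3).2, (Finset.mem_inter.1 h3).1⟩

/-- a dual connection as a chain of (closed) edges -/
theorem dpth {F ω : Finset Edge} {f g : V} (h : DConn F ω f g) : ∃ c : Edge → ZMod 2,
    (∀ e, c e ≠ 0 → e ∈ F ∧ e ∉ ω) ∧ ∀ w, dbd c w = ind f w + ind g w := by
  obtain ⟨c0, h1, h2⟩ := pth h
  refine ⟨fun e => c0 (dE e), fun e he => ?_, fun w => ?_⟩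
  · have h3 : dE e ∈ (F \ ω).image dE := by
      by_contra h4
      exact he (h1 _ h4)
    obtain ⟨e', he', h5⟩ := Finset.mem_image.1 h3
    have h6 : e' = e := dE_inj h5
    rw [h6, Finset.mem_sdiff] at he'
    exact he'
  · rw [← h2 w]
    have e1 : dE (w.1, w.2, true) = (w.1 - 1, w.2, false) := rfl
    have e2 : dE (w.1 + 1, w.2, true) = (w.1 + 1 - 1, w.2, false) := rfl
    have e3 : dE (w.1, w.2, false) = (w.1, w.2 - 1, true) := rfl
    have e4 : dE (w.1, w.2 + 1, false) = (w.1, w.2 + 1 - 1, true) := rfl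
    show c0 (dE (w.1, w.2, true)) + c0 (dE (w.1 + 1, w.2, true)) + c0 (dE (w.1, w.2, false)) +
      c0 (dE (w.1, w.2 + 1, false)) = c0 (w.1 - 1, w.2, false) + c0 (w.1, w.2, false) +
      c0 (w.1, w.2 - 1, true) + c0 (w.1, w.2, true)
    rw [e1, e2, e3, e4, add_sub_cancel_right, add_sub_cancel_right]

/-- a path in a set of edges (all open) -/
theorem reach_rec {F : Finset Edge} {u v : V} {P : V → Prop} (h0 : P u)
    (hs : ∀ a b, P a → (∃ e ∈ F, (ea e = a ∧ eb e = b) ∨ (ea e = b ∧ eb e = a)) → P b)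
    (hc : (gr F).Reachable u v) : P v := by
  exact SDc_rec (P := P) h0 hs hc

/-- a path of faces crossing the edges of `F` -/
theorem dreach_rec {F : Finset Edge} {f g : V} {P : V → Prop} (h0 : P f)
    (hs : ∀ a b, P a → (∃ e ∈ F, (fa e = a ∧ fb e = b) ∨ (fa e = b ∧ fb e = a)) → P b)
    (hc : (gr (F.image dE)).Reachable f g) : P g := by
  exact SDc_rec (P := P) h0 (fun a b ha hab => hs a b ha (SDc_dmem hab)) hc

theorem reach_step {F : Finset Edge} {e : Edge} (h1 : e ∈ F) : (gr F).Reachable (ea e) (eb e) := by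
  exact SDc_edge h1 (Or.inl ⟨rfl, rfl⟩)

theorem dreach_step {F : Finset Edge} {e : Edge} (h1 : e ∈ F) : (gr (F.image dE)).Reachable (fa e) (fb e) := by
  exact SDc_dedge h1 (Or.inl ⟨rfl, rfl⟩)

end FKS
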