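import Pool.Agent.Lib.MP_216314_pr.Sp.STi

/-!
# JOB SEx: the extension of a tidy foot, open side

The cell `[k, k+m]` contains the foot `x`; `GOr k y m`: the column `[k+2m, k+3m] × [y-5m, y+3m]`, the strip above and the left column `[k-2m, k-m] × [y, y+3m]`. `X` explored edges (in `D`), `Tidy X .. x y (4m)`.
* `ext_open`. Let `S = SOx X ZV k x y m`: edges of `GOr` not in `X` which are below the row `y` (`e.2.1 < y`) or have an endpoint in `KE ZV x y (4m)`. Let `Rch a = Conn S ω' (u, y-5m) a`. Suppose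
  no `a ∈ ZV` satisfies `Rch`. Then along the path in `GOr` from `(u, y-5m)` to `(w, y)` (`conn_rec`) the property `P a = Rch a ∧ (a.2 < y ∨ KE ZV x y (4m) a)` is preserved. Start: `a.2 = y - 5m < y`.
  Step through `e ∈ GOr`, `e ∈ ω'`, from `a` to `b`:
  (1) `e.2.1 < y`: then `e` is in the column `box (k+2m) (k+3m) (y-5m) (y+3m)` (the other two boxes have rows `≥ y`), `e ∉ X` because `X ⊆ D` and `Out` (`x - R ≤ k ≤ e.1 ≤ x + R`, `y - R ≤ e.2.1`),
  so `e ∈ S` and `Rch b`. If `b.2 < y` done; otherwise `b.2 = y` (`b` is an endpoint of `e`), `b = (x0, y)` with `k+2m ≤ x0 ≤ k+3m`, so `x < x0 ≤ x + 4m`; `b ∉ ZV` (as `Rch b`), so `KE b` (trivial path).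
  (2) `e.2.1 ≥ y`: then `a.2 ≥ y`, so `KE a`; `e ∉ X` by `t1`, so `e ∈ S`, `Rch b`, `a, b ∉ ZV`; `e ∈ FrE ZV x y (4m)` (`GOr` above the row `y` is in `Bx x y (4m)`: `k ≤ x ≤ k + m`), so `KE b` (`reach_step`).
  At the end `(w, y)`, `k - 2m ≤ w ≤ k - m < x`: not `< y`, and `KE (w, y)` contradicts `t0` (`x - 4m ≤ w`). So some `a ∈ ZV` is reached: with `ZV = VZ ω p T` it is `vtx (orb ω p j)`.
* `lo_of_hit`: the path in `S` from `(u, y-5m)` to `v1 = vtx (orb ω p j)` (row `≥ y`): `first_hit` (`P/PExit.lean`) with `f v = v.2`, `t = y - 1`: a vertex `c = (u', y-1)` such that the path from `(u, y-5m)` to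
  `c` uses edges of `S` with both endpoints in rows `≤ y-1`; these are edges of the column box `(k+2m) (k+3m) (y-5m) (y-1)` (as `e.2.1 ≤ y - 1 < y`); so `u' ∈ [k+2m, k+3m]` (`conn_mem_box`). The rest `c → v1` is in
  `S ⊆ D ∪ box (k+2m) (k+3m) (y-5m) y` (`S` above the row `y` is in `Bx x y R ⊆ D`; `e.2.1 < y` in the column box up to the row `y`). Then `v1` is connected to `v` in `D`.
-/

set_option autoImplicit false

noncomputable section

namespace FKS

open Finset FKI FKP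
open scoped Classical

/-- support of the extension, open side -/
def SOx (X : Finset Edge) (ZV : Set V) (k x y m : ℤ) : Finset Edge :=
  (GOr k y m).filter (fun e => e ∉ X ∧ (e.2.1 < y ∨ KE ZV x y (4 * m) (ea e) ∨ KE ZV x y (4 * m) (eb e)))

theorem SEx_cases {k y m : ℤ} (hm : 1 ≤ m) {e : Edge} (he : e ∈ GOr k y m) (hy : e.2.1 < y) :
    e ∈ box (k + 2 * m) (k + 3 * m) (y - 5 * m) (y + 3 * m) := by
  unfold GOr at he
  rw [Finset.mem_union, Finset.mem_union] at he
  rcases he with h | h | h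
  · exact h
  · exfalso
    rcases mem_box.1 h with h1 | h1
    · omega
    · omega
  · exfalso
    rcases mem_box.1 h with h1 | h1
    · omega
    · omega

theorem SEx_up {k x y m : ℤ} (hm : 1 ≤ m) (hk : k ≤ x) (hk' : x ≤ k + m) {e : Edge}
    (he : e ∈ GOr k y m) (hy : y ≤ e.2.1) : e ∈ Bx x y (4 * m) := by
  unfold GOr at he
  rw [Finset.mem_union, Finset.mem_union] at he
  unfold Bx
  rw [mem_box]
  rcases he with h | h | h
  · rcases mem_box.1 h with ⟨h0, h1, h2, h3, h4⟩ | ⟨h0, h1, h2, h3, h4⟩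
    · exact Or.inl ⟨h0, by omega, by omega, by omega, by omega⟩
    · exact Or.inr ⟨h0, by omega, by omega, by omega, by omega⟩
  · rcases mem_box.1 h with ⟨h0, h1, h2, h3, h4⟩ | ⟨h0, h1, h2, h3, h4⟩
    · exact Or.inl ⟨h0, by omega, by omega, by omega, by omega⟩
    · exact Or.inr ⟨h0, by omega, by omega, by omega, by omega⟩
  · rcases mem_box.1 h with ⟨h0, h1, h2, h3, h4⟩ | ⟨h0, h1, h2, h3, h4⟩
    · exact Or.inl ⟨h0, by omega, by omega, by omega, by omega⟩
    · exact Or.inr ⟨h0, by omega, by omega, by omega, by omega⟩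

theorem SEx_row (e : Edge) : ((ea e).2 = e.2.1 ∧ (eb e).2 = e.2.1 ∧ e.2.2 = false) ∨
    ((ea e).2 = e.2.1 ∧ (eb e).2 = e.2.1 + 1 ∧ e.2.2 = true) := by
  obtain ⟨a, b, t⟩ := e
  cases t
  · exact Or.inl ⟨rfl, rfl, rfl⟩
  · exact Or.inr ⟨rfl, rfl, rfl⟩

theorem ext_open {D X ω ω' : Finset Edge} {k x y R m : ℤ} {p : V} {T : ℕ} (hD : Out D x y R) (hX : X ⊆ D)
    (ht : Tidy X (VZ ω p T) (FZ ω p T) x y (4 * m)) (hm : 1 ≤ m) (hR : 5 * m ≤ R) (hk : k ≤ x)
    (hk' : x ≤ k + m) {u w : ℤ} (hu : k + 2 * m ≤ u ∧ u ≤ k + 3 * m) (hw : k - 2 * m ≤ w ∧ w ≤ k - m)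
    (hc : Conn (GOr k y m) ω' (u, y - 5 * m) (w, y)) :
    ∃ j ≤ T, Conn (SOx X (VZ ω p T) k x y m) ω' (u, y - 5 * m) (vtx (orb ω p j)) := by
  by_contra hno
  have hno' : ∀ a ∈ VZ ω p T, ¬ Conn (SOx X (VZ ω p T) k x y m) ω' (u, y - 5 * m) a := by
    rintro a ⟨j, hj, rfl⟩ h
    exact hno ⟨j, hj, h⟩
  have key : Conn (SOx X (VZ ω p T) k x y m) ω' (u, y - 5 * m) (w, y) ∧
      (y < y ∨ KE (VZ ω p T) x y (4 * m) (w, y)) := by
    refine conn_rec (P := fun a => Conn (SOx X (VZ ω p T) k x y m) ω' (u, y - 5 * m) a ∧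
      (a.2 < y ∨ KE (VZ ω p T) x y (4 * m) a)) ⟨Conn.refl _ _ _, Or.inl (by show y - 5 * m < y; omega)⟩ ?_ hc
    rintro a b ⟨ha1, ha2⟩ ⟨e, heF, heω, hab⟩
    have hrow := SEx_row e
    by_cases hey : e.2.1 < y
    · have hcol := SEx_cases hm heF hey
      have heX : e ∉ X := by
        intro h
        have h1 := hD e (hX h)
        rcases mem_box.1 hcol with ⟨h0, h2, h3, h4, h5⟩ | ⟨h0, h2, h3, h4, h5⟩
        · have := h1 (by omega) (by omega) (by omega)
          omega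
        · have := h1 (by omega) (by omega) (by omega)
          omega
      have heS : e ∈ SOx X (VZ ω p T) k x y m := Finset.mem_filter.2 ⟨heF, heX, Or.inl hey⟩
      have hRb : Conn (SOx X (VZ ω p T) k x y m) ω' (u, y - 5 * m) b :=
        ha1.trans (pexit_edge heS heω hab)
      refine ⟨hRb, ?_⟩
      by_cases hb : b.2 < y
      · exact Or.inl hb
      · right
        have hends := pexit_box hcol
        have hb3 : (k + 2 * m ≤ b.1 ∧ b.1 ≤ k + 3 * m) ∧ b.2 = y := by
          rcases hab with ⟨h1, h2⟩ | ⟨h1, h2⟩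
          · have h3 := hends.2
            rw [h2] at h3 hrow
            refine ⟨⟨h3.1, h3.2.1⟩, ?_⟩
            omega
          · have h3 := hends.1
            rw [h1] at h3 hrow
            refine ⟨⟨h3.1, h3.2.1⟩, ?_⟩
            omega
        have hb4 : ((b.1, y) : V) = b := Prod.ext rfl hb3.2.symm
        have hbZ : b ∉ VZ ω p T := fun h => hno' b h hRb
        refine ⟨b.1, by omega, by omega, ?_, ?_⟩
        · rw [hb4]
          exact hbZ
        · rw [hb4]
    · have hey' : y ≤ e.2.1 := not_lt.1 hey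
      have haK : KE (VZ ω p T) x y (4 * m) a := by
        refine ha2.resolve_left ?_
        rcases hab with ⟨h1, h2⟩ | ⟨h1, h2⟩
        · rw [h1] at hrow
          omega
        · rw [h2] at hrow
          omega
      have hKe : KE (VZ ω p T) x y (4 * m) (ea e) ∨ KE (VZ ω p T) x y (4 * m) (eb e) := by
        rcases hab with ⟨h1, h2⟩ | ⟨h1, h2⟩
        · left
          rw [h1]
          exact haK
        · right
          rw [h2]
          exact haK
      have heX : e ∉ X := fun h => hKe.elim (ht.t1 e h).1 (ht.t1 e h).2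
      have heS : e ∈ SOx X (VZ ω p T) k x y m := Finset.mem_filter.2 ⟨heF, heX, Or.inr hKe⟩
      have hRb : Conn (SOx X (VZ ω p T) k x y m) ω' (u, y - 5 * m) b :=
        ha1.trans (pexit_edge heS heω hab)
      have haZ : a ∉ VZ ω p T := fun h => hno' a h ha1
      have hbZ : b ∉ VZ ω p T := fun h => hno' b h hRb
      have heFr : e ∈ FrE (VZ ω p T) x y (4 * m) := by
        refine Finset.mem_filter.2 ⟨SEx_up hm hk hk' heF hey', ?_⟩
        rcases hab with ⟨h1, h2⟩ | ⟨h1, h2⟩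
        · rw [h1, h2]
          exact ⟨haZ, hbZ⟩
        · rw [h1, h2]
          exact ⟨hbZ, haZ⟩
      obtain ⟨x0, g1, g2, g3, g4⟩ := haK
      refine ⟨hRb, Or.inr ⟨x0, g1, g2, g3, g4.trans ?_⟩⟩
      have hst := reach_step heFr
      rcases hab with ⟨h1, h2⟩ | ⟨h1, h2⟩
      · rw [h1, h2] at hst
        exact hst
      · rw [h1, h2] at hst
        exact hst.symm
  rcases key.2 with h | h
  · exact absurd h (lt_irrefl y)
  · exact ht.t0 w (by omega) (by omega) h

theorem lo_of_hit {D X ω' : Finset Edge} {k x y R m : ℤ} (hD : LH D x y R)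
    (hm : 1 ≤ m) (hR : 5 * m ≤ R) (hk : k ≤ x) (hk' : x ≤ k + m) {u : ℤ} (hu : k + 2 * m ≤ u ∧ u ≤ k + 3 * m)
    {ZV : Set V} {v1 v : V} (hv1 : y ≤ v1.2)
    (hc : Conn (SOx X ZV k x y m) ω' (u, y - 5 * m) v1) (hv : Conn D ω' v1 v) : LO D k y m v ω' := by
  have hf : ∀ e ∈ SOx X ZV k x y m, (ea e).2 - (eb e).2 ≤ 1 ∧ (eb e).2 - (ea e).2 ≤ 1 := by
    intro e _
    have := SEx_row e
    constructor <;> omega
  obtain ⟨⟨c1, c2⟩, hc1, hc2, hc3⟩ := first_hit (F := SOx X ZV k x y m) (fun v => v.2) hf (t := y - 1)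
    (a := (u, y - 5 * m)) (b := v1) (by show y - 5 * m ≤ y - 1; omega) (by show y - 1 ≤ v1.2; omega) hc
  have hc1' : c2 = y - 1 := hc1
  subst hc1'
  have hA : Conn (box (k + 2 * m) (k + 3 * m) (y - 5 * m) (y - 1)) ω' (u, y - 5 * m) (c1, y - 1) := by
    refine Conn.mono ?_ (Finset.Subset.refl _) hc3
    intro e he
    rw [Finset.mem_filter] at he
    obtain ⟨he1, he2, he3⟩ := he
    have heG : e ∈ GOr k y m := (Finset.mem_filter.1 he1).1
    have hrow := SEx_row e
    have hcol := SEx_cases hm heG (by omega)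
    rw [mem_box]
    rcases mem_box.1 hcol with ⟨h0, h2, h3, h4, h5⟩ | ⟨h0, h2, h3, h4, h5⟩
    · exact Or.inl ⟨h0, h2, h3, h4, by omega⟩
    · refine Or.inr ⟨h0, h2, h3, h4, ?_⟩
      rcases hrow with hr | hr
      · exact absurd (h0.symm.trans hr.2.2) (by decide)
      · omega
  have hB := conn_mem_box hA (by
    refine ⟨hu.1, hu.2, le_rfl, ?_⟩
    show y - 5 * m ≤ y - 1
    omega)
  refine ⟨u, c1, hu.1, hu.2, hB.1, hB.2.1, hA, ?_⟩
  have hC : Conn (D ∪ box (k + 2 * m) (k + 3 * m) (y - 5 * m) y) ω' (c1, y - 1) v1 := by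
    refine Conn.mono ?_ (Finset.Subset.refl _) hc2
    intro e he
    have heG : e ∈ GOr k y m := (Finset.mem_filter.1 he).1
    rw [Finset.mem_union]
    by_cases hey : e.2.1 < y
    · right
      rw [mem_box]
      rcases mem_box.1 (SEx_cases hm heG hey) with ⟨h0, h2, h3, h4, h5⟩ | ⟨h0, h2, h3, h4, h5⟩
      · exact Or.inl ⟨h0, h2, h3, h4, by omega⟩
      · exact Or.inr ⟨h0, h2, h3, h4, by omega⟩
    · left
      refine hD.inn ?_
      have h1 := SEx_up hm hk hk' heG (not_lt.1 hey)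
      exact box_mono (by omega) (by omega) le_rfl (by omega) h1
  exact hC.trans (Conn.mono Finset.subset_union_left (Finset.Subset.refl _) hv)

end FKS
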