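import Pool.Agent.Lib.MP_216314_pr.Sp.STi

/-!
# JOB SExd: the extension of a tidy foot, dual side

The cell `[k, k+m]` contains the foot `x`; `GDr k y m`: the column `[k-2m, k-m] × [y-5m, y+3m]`, the strip above and the right column `[k+2m, k+3m] × [y, y+3m]`. `X` explored edges (in `D`), `Tidy X .. x y (4m)`.
* `ext_dual`. Let `S = SDx X ZF k x y m`: edges of `GDr` not in `X` which are below the row `y` (`e.2.1 < y`) or have a face in `KW ZF x y (4m)`. Let `Rch h = DConn S ω' (i, y-5m-1) h`. Suppose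
  no `h ∈ ZF` satisfies `Rch`. Then along the dual path in `GDr` from `(i, y-5m-1)` to `(j, y-1)` (`dconn_rec`) the property `P h = Rch h ∧ (h.2 ≤ y - 2 ∨ KW ZF x y (4m) h)` is preserved.
  Step through `e ∈ GDr`, `e ∉ ω'`, from `h` to `h'`:
  (1) `e.2.1 < y`: then `e` is in the column `box (k-2m) (k-m) (y-5m) (y+3m)`, `e ∉ X` because `X ⊆ D` and `Out`, so `e ∈ S` and `Rch h'`. The faces of `e` have rows `≤ y - 1`. If `h'.2 ≤ y - 2` done;
  otherwise `h'.2 = y - 1`, `h' = (i0, y-1)` with `k-2m-1 ≤ i0 ≤ k-m`, so `x - 4m ≤ i0 < x`; `h' ∉ ZF` (as `Rch h'`), so `KW h'` (trivial path).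
  (2) `e.2.1 ≥ y`: the faces of `e` have rows `≥ y - 1`, so `KW h`; `e ∉ X` by `d1`, so `e ∈ S`, `Rch h'`, `h, h' ∉ ZF`; `e ∈ FrF ZF x y (4m)` (`GDr` above the row `y` is in `Bx x y (4m)`), so `KW h'` (`dreach_step`).
  At the end `(j, y-1)`, `k + 2m ≤ j < k + 3m`: not `≤ y - 2`, and `KW (j, y-1)` contradicts `d0` (`x ≤ j < x + 4m`). So some `h ∈ ZF = FZ ω p T` is reached: it is `fce (orb ω p j')`.
* `ld_of_hit`: the dual path in `S` from `(i, y-5m-1)` to `f1 = fce (orb ω p j)` (row `≥ y - 1`). Consider the faces reached in `box (k-2m) (k-m) (y-5m) (y-1)`: `Q h = (h.2 ≤ y - 2 ∧ DConn (box (k-2m) (k-m) (y-5m) (y-1)) ω' (i, y-5m-1) h) ∨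
  (∃ i', k-2m ≤ i' ∧ i' < k-m ∧ DConn (box (k-2m) (k-m) (y-5m) (y-1)) ω' (i, y-5m-1) (i', y-1) ∧ DConn (S ∪ ..) ω' (i', y-1) h)` is preserved along the path (`dconn_rec`): from a face of row `≤ y-2` one reaches the row
  `y - 1` only through a horizontal edge `(i', y-1, false)` of the column, `k-2m ≤ i' < k-m`; edges met before have `e.2.1 ≤ y - 2` or this one, so they are in the column box. The start has row `y - 5m - 1 ≤ y - 2`; the end has row
  `≥ y - 1`, so the second alternative holds. `S ⊆ D ∪ box (k-2m) (k-m) (y-5m) y` (above the row `y` in `Bx x y R ⊆ D`). Then `f1` is dual connected to `f` in `D`.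
-/

set_option autoImplicit false

noncomputable section

namespace FKS

open Finset FKI FKP
open scoped Classical

/-- support of the extension, dual side -/
def SDx (X : Finset Edge) (ZF : Set V) (k x y m : ℤ) : Finset Edge :=
  (GDr k y m).filter (fun e => e ∉ X ∧ (e.2.1 < y ∨ KW ZF x y (4 * m) (fa e) ∨ KW ZF x y (4 * m) (fb e)))

private theorem SExd_rows (e : Edge) : (e.2.1 - 1 ≤ (fa e).2 ∧ (fa e).2 ≤ e.2.1 ∧ e.1 - 1 ≤ (fa e).1 ∧ (fa e).1 ≤ e.1) ∧
    (fb e).2 = e.2.1 ∧ (fb e).1 = e.1 := by
  obtain ⟨a, b, t⟩ := e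
  cases t
  · simp [fa, fb]
  · simp [fa, fb]

private theorem SExd_gd1 {k y m : ℤ} (hm : 1 ≤ m) {e : Edge} (he : e ∈ GDr k y m) (h : e.2.1 < y) :
    e ∈ box (k - 2 * m) (k - m) (y - 5 * m) (y + 3 * m) := by
  unfold GDr at he
  rw [mem_union, mem_union] at he
  rcases he with he | he | he
  · exact he
  · exfalso
    rw [mem_box] at he
    omega
  · exfalso
    rw [mem_box] at he
    omega

private theorem SExd_gd2 {k y m : ℤ} (hm : 1 ≤ m) {e : Edge} (he : e ∈ GDr k y m) (h : y ≤ e.2.1) :
    e ∈ box (k - 2 * m) (k + 3 * m) y (y + 3 * m) := by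
  unfold GDr at he
  rw [mem_union, mem_union] at he
  obtain ⟨a, b, t⟩ := e
  simp only at h
  rcases he with he | he | he
  · rw [mem_box] at he ⊢
    simp only at he ⊢
    rcases he with ⟨h1, h2, h3, h4, h5⟩ | ⟨h1, h2, h3, h4, h5⟩
    · exact Or.inl ⟨h1, by omega, by omega, by omega, by omega⟩
    · exact Or.inr ⟨h1, by omega, by omega, by omega, by omega⟩
  · exact box_mono (by omega) (by omega) (by omega) (by omega) he
  · exact box_mono (by omega) (by omega) (by omega) (by omega) he

theorem ext_dual {D X ω ω' : Finset Edge} {k x y R m : ℤ} {p : V} {T : ℕ} (hD : Out D x y R) (hX : X ⊆ D)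
    (ht : Tidy X (VZ ω p T) (FZ ω p T) x y (4 * m)) (hm : 1 ≤ m) (hR : 5 * m ≤ R) (hk : k ≤ x)
    (hk' : x ≤ k + m) {i j : ℤ} (hi : k - 2 * m ≤ i ∧ i < k - m) (hj : k + 2 * m ≤ j ∧ j < k + 3 * m)
    (hc : DConn (GDr k y m) ω' (i, y - 5 * m - 1) (j, y - 1)) :
    ∃ l ≤ T, DConn (SDx X (FZ ω p T) k x y m) ω' (i, y - 5 * m - 1) (fce (orb ω p l)) := by
  by_contra hcon
  push Not at hcon
  have hZ : ∀ h : V, DConn (SDx X (FZ ω p T) k x y m) ω' (i, y - 5 * m - 1) h → h ∉ FZ ω p T := by
    rintro h hh ⟨l, hl, rfl⟩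
    exact hcon l hl hh
  have key := dconn_rec (P := fun h : V => DConn (SDx X (FZ ω p T) k x y m) ω' (i, y - 5 * m - 1) h ∧
    (h.2 ≤ y - 2 ∨ KW (FZ ω p T) x y (4 * m) h)) (F := GDr k y m) (ω := ω')
    ⟨DConn.refl _ _ _, Or.inl (by show y - 5 * m - 1 ≤ y - 2; omega)⟩ ?_ hc
  · rcases key.2 with h | h
    · have h' : y - 1 ≤ y - 2 := h
      omega
    · exact ht.d0 j (by omega) (by omega) h
  · rintro a b ⟨ha, hPa⟩ ⟨e, he, heω, hends⟩
    have hr := SExd_rows e
    by_cases hy : e.2.1 < y
    · have hcol := SExd_gd1 hm he hy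
      rw [mem_box] at hcol
      have heX : e ∉ X := by
        intro hh
        have := hD e (hX hh) (by omega) (by omega) (by omega)
        omega
      have heS : e ∈ SDx X (FZ ω p T) k x y m := by
        unfold SDx
        rw [mem_filter]
        exact ⟨he, heX, Or.inl hy⟩
      have hab : DConn (SDx X (FZ ω p T) k x y m) ω' a b := by
        rcases hends with ⟨g1, g2⟩ | ⟨g1, g2⟩
        · rw [← g1, ← g2]
          exact dconn_step heS heω
        · rw [← g1, ← g2]
          exact (dconn_step heS heω).symm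
      have hb := ha.trans hab
      refine ⟨hb, ?_⟩
      have hb1 : b.2 ≤ y - 1 ∧ k - 2 * m - 1 ≤ b.1 ∧ b.1 ≤ k - m := by
        rcases hends with ⟨g1, g2⟩ | ⟨g1, g2⟩
        · rw [← g2]
          omega
        · rw [← g1]
          omega
      by_cases hb2 : b.2 ≤ y - 2
      · exact Or.inl hb2
      · right
        have hbe : b = (b.1, y - 1) := Prod.ext rfl (by show b.2 = y - 1; omega)
        refine ⟨b.1, by omega, by omega, ?_, ?_⟩
        · rw [← hbe]
          exact hZ b hb
        · rw [← hbe]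
    · push Not at hy
      have hst := SExd_gd2 hm he hy
      have hKa : KW (FZ ω p T) x y (4 * m) a := by
        rcases hPa with h | h
        · exfalso
          rcases hends with ⟨g1, g2⟩ | ⟨g1, g2⟩
          · rw [← g1] at h
            omega
          · rw [← g2] at h
            omega
        · exact h
      have heX : e ∉ X := by
        intro hh
        have := ht.d1 e hh
        rcases hends with ⟨g1, g2⟩ | ⟨g1, g2⟩
        · rw [g1] at this
          exact this.1 hKa
        · rw [g2] at this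
          exact this.2 hKa
      have heS : e ∈ SDx X (FZ ω p T) k x y m := by
        unfold SDx
        rw [mem_filter]
        refine ⟨he, heX, Or.inr ?_⟩
        rcases hends with ⟨g1, g2⟩ | ⟨g1, g2⟩
        · left
          rw [g1]
          exact hKa
        · right
          rw [g2]
          exact hKa
      have hab : DConn (SDx X (FZ ω p T) k x y m) ω' a b := by
        rcases hends with ⟨g1, g2⟩ | ⟨g1, g2⟩
        · rw [← g1, ← g2]
          exact dconn_step heS heω
        · rw [← g1, ← g2]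
          exact (dconn_step heS heω).symm
      have hb := ha.trans hab
      refine ⟨hb, Or.inr ?_⟩
      have hbx : e ∈ Bx x y (4 * m) := by
        unfold Bx
        exact box_mono (by omega) (by omega) (by omega) (by omega) hst
      have hfr : e ∈ FrF (FZ ω p T) x y (4 * m) := by
        unfold FrF
        rw [mem_filter]
        refine ⟨hbx, ?_⟩
        rcases hends with ⟨g1, g2⟩ | ⟨g1, g2⟩
        · rw [g1, g2]
          exact ⟨hZ a ha, hZ b hb⟩
        · rw [g1, g2]
          exact ⟨hZ b hb, hZ a ha⟩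
      obtain ⟨i0, q1, q2, q3, q4⟩ := hKa
      refine ⟨i0, q1, q2, q3, q4.trans ?_⟩
      rcases hends with ⟨g1, g2⟩ | ⟨g1, g2⟩
      · rw [← g1, ← g2]
        exact dreach_step hfr
      · rw [← g1, ← g2]
        exact (dreach_step hfr).symm

theorem ld_of_hit {D X ω' : Finset Edge} {k x y R m : ℤ} (hD : LH D x y R)
    (hm : 1 ≤ m) (hR : 5 * m ≤ R) (hk : k ≤ x) (hk' : x ≤ k + m) {i : ℤ} (hi : k - 2 * m ≤ i ∧ i < k - m)
    {ZF : Set V} {f1 f : V} (hf1 : y - 1 ≤ f1.2)
    (hc : DConn (SDx X ZF k x y m) ω' (i, y - 5 * m - 1) f1) (hf : DConn D ω' f1 f) :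
    LD D k y m f ω' := by
  have key := dconn_rec (P := fun h : V =>
    (h.2 ≤ y - 2 ∧ DConn (box (k - 2 * m) (k - m) (y - 5 * m) (y - 1)) ω' (i, y - 5 * m - 1) h) ∨
    (∃ i' : ℤ, k - 2 * m ≤ i' ∧ i' < k - m ∧
      DConn (box (k - 2 * m) (k - m) (y - 5 * m) (y - 1)) ω' (i, y - 5 * m - 1) (i', y - 1) ∧
      DConn (D ∪ box (k - 2 * m) (k - m) (y - 5 * m) y) ω' (i', y - 1) h)) (F := SDx X ZF k x y m) (ω := ω')
    (Or.inl ⟨by show y - 5 * m - 1 ≤ y - 2; omega, DConn.refl _ _ _⟩) ?_ hc
  · rcases key with ⟨h, -⟩ | ⟨i', h1, h2, h3, h4⟩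
    · exfalso
      omega
    · refine ⟨i, i', hi.1, hi.2, h1, h2, h3, h4.trans ?_⟩
      exact DConn.mono (fun e he heω => ⟨mem_union_left _ he, heω⟩) hf
  · rintro a b hPa ⟨e, he, heω, hends⟩
    have heG : e ∈ GDr k y m := (mem_filter.1 he).1
    rcases hPa with ⟨ha2, ha⟩ | ⟨i', h1, h2, h3, h4⟩
    · have hr := SExd_rows e
      have hy : e.2.1 < y := by
        rcases hends with ⟨g1, g2⟩ | ⟨g1, g2⟩
        · rw [← g1] at ha2
          omega
        · rw [← g2] at ha2
          omega
      have hcol := SExd_gd1 hm heG hy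
      obtain ⟨ex, ey, t⟩ := e
      cases t
      · -- horizontal edge
        have q1 : fa (ex, ey, false) = (ex, ey - 1) := by simp [fa]
        have q2 : fb (ex, ey, false) = (ex, ey) := by simp [fb]
        rw [mem_box] at hcol
        simp only [true_and, Bool.false_eq_true, false_and, or_false] at hcol
        simp only at hy
        have heB : ((ex, ey, false) : Edge) ∈ box (k - 2 * m) (k - m) (y - 5 * m) (y - 1) := by
          rw [mem_box]
          left
          exact ⟨rfl, hcol.1, hcol.2.1, hcol.2.2.1, by show ey ≤ y - 1; omega⟩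
        have hstep := dconn_step heB heω
        rw [q1, q2] at hends hstep
        rcases hends with ⟨g1, g2⟩ | ⟨g1, g2⟩
        · rw [← g1] at ha
          have hb := ha.trans hstep
          rw [← g2]
          by_cases hq : ey ≤ y - 2
          · exact Or.inl ⟨hq, hb⟩
          · right
            have hey : ey = y - 1 := by omega
            rw [hey] at hb ⊢
            exact ⟨ex, hcol.1, hcol.2.1, hb, DConn.refl _ _ _⟩
        · rw [← g2] at ha ha2
          have hb := ha.trans hstep.symm
          rw [← g1]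
          left
          refine ⟨?_, hb⟩
          have : ey ≤ y - 2 := ha2
          show ey - 1 ≤ y - 2
          omega
      · -- vertical edge
        have q1 : fa (ex, ey, true) = (ex - 1, ey) := by simp [fa]
        have q2 : fb (ex, ey, true) = (ex, ey) := by simp [fb]
        rw [mem_box] at hcol
        simp only [true_and, Bool.true_eq_false, false_and, false_or] at hcol
        have hey : ey ≤ y - 2 := by
          rw [q1, q2] at hends
          rcases hends with ⟨g1, g2⟩ | ⟨g1, g2⟩
          · rw [← g1] at ha2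
            exact ha2
          · rw [← g2] at ha2
            exact ha2
        have heB : ((ex, ey, true) : Edge) ∈ box (k - 2 * m) (k - m) (y - 5 * m) (y - 1) := by
          rw [mem_box]
          right
          exact ⟨rfl, hcol.1, hcol.2.1, hcol.2.2.1, by show ey < y - 1; omega⟩
        have hstep := dconn_step heB heω
        rw [q1, q2] at hends hstep
        left
        rcases hends with ⟨g1, g2⟩ | ⟨g1, g2⟩
        · rw [← g1] at ha
          rw [← g2]
          exact ⟨hey, ha.trans hstep⟩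
        · rw [← g2] at ha
          rw [← g1]
          exact ⟨hey, ha.trans hstep.symm⟩
    · right
      refine ⟨i', h1, h2, h3, h4.trans ?_⟩
      have heB : e ∈ D ∪ box (k - 2 * m) (k - m) (y - 5 * m) y := by
        rw [mem_union]
        by_cases hy : e.2.1 < y
        · right
          have hcol := SExd_gd1 hm heG hy
          obtain ⟨ex, ey, t⟩ := e
          rw [mem_box] at hcol ⊢
          simp only at hcol hy ⊢
          rcases hcol with ⟨h1, h2, h3, h4, h5⟩ | ⟨h1, h2, h3, h4, h5⟩
          · exact Or.inl ⟨h1, h2, h3, h4, by omega⟩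
          · exact Or.inr ⟨h1, h2, h3, h4, by omega⟩
        · left
          push Not at hy
          refine hD.inn ?_
          unfold Bx
          exact box_mono (by omega) (by omega) (by omega) (by omega) (SExd_gd2 hm heG hy)
      rcases hends with ⟨g1, g2⟩ | ⟨g1, g2⟩
      · rw [← g1, ← g2]
        exact dconn_step heB heω
      · rw [← g1, ← g2]
        exact (dconn_step heB heω).symm

theorem ext_disj {X : Finset Edge} {ZV ZF : Set V} {k x y m : ℤ} (hm : 1 ≤ m)
    (ht : Tidy X ZV ZF x y (4 * m)) :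
    Disjoint (filter (fun e => e ∉ X ∧ (e.2.1 < y ∨ KE ZV x y (4 * m) (ea e) ∨ KE ZV x y (4 * m) (eb e)))
      (GOr k y m)) (SDx X ZF k x y m) := by
  rw [Finset.disjoint_left]
  intro e h1 h2
  unfold SDx at h2
  rw [mem_filter] at h1 h2
  obtain ⟨g1, -, g2⟩ := h1
  obtain ⟨g3, -, g4⟩ := h2
  by_cases hy : e.2.1 < y
  · have hcol := SExd_gd1 hm g3 hy
    rw [mem_box] at hcol
    unfold GOr at g1
    rw [mem_union, mem_union, mem_box, mem_box, mem_box] at g1
    omega
  · exact ht.t4 e (g2.resolve_left hy) (g4.resolve_left hy)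

end FKS
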