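import Pool.Agent.Lib.MP_216314_pr.Sp.SEx
import Pool.Agent.Lib.MP_216314_pr.Sp.SExd
import Pool.Agent.Lib.MP_216314_pr.Sp.SGad
import Pool.Agent.Lib.MP_216314_pr.Sp.SGadd
import Pool.Agent.Lib.MP_216314_pr.Sp.SSym

/-!
# JOB SEz: the extension of a tidy foot (bottom side, and rotated)

* `ext0`. `S1 = SOx X (VZ ω p T) k x y m`, `S2 = SDx X (FZ ω p T) k x y m`; `G1 ω' = ∃ u, k + 2m ≤ u ∧ u ≤ k + 3m ∧ ∃ j ≤ T, Conn S1 ω' (u, y - 5m) (vtx (orb ω p j))`,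
  `G2 ω' = ∃ i, k - 2m ≤ i ∧ i < k - m ∧ ∃ j ≤ T, DConn S2 ω' (i, y - 5m - 1) (fce (orb ω p j))`. Disjointness: definition of `SOx`, `SDx`, and `ext_disj`. Dependence: `Conn F ω' = Conn F (ω' ∩ F)`, `DConn F ω' = DConn F (ω' ∩ F)`
  (definitions; `F \ (ω' ∩ F) = F \ ω'`). Probability: `GO k y m ω' → G1 ω'` (`ext_open`) and `go_prob`; `GD k y m ω' → G2 ω'` (`ext_dual`) and `gd_prob`.
  Landing: if `ω' ∩ X = ω ∩ X` then (as `XF ω p T ⊆ X`) `foot_agree`: `orb ω' p j = orb ω p j`, so `vtx (orb ω p j)` is connected to `(x, y) = vtx (orb ω' p T)` in `XF ω' p T = XF ω p T ⊆ X ⊆ D` (`orb_conn`), then to `v`: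
  `lo_of_hit` (`y ≤` row: `foot_inB`). The same for faces: the row of `fce (orb ω p j)` is at least `y - 1` (`ar_corner`, the row of the vertex is at least `y`): `ld_of_hit`.
* `ext_rot`: `ext0` for `rot σ ω`, `rot σ X`, `rot σ E` (`D = rot σ D`): sets `S1', S2'`, events `G1', G2'`. Take `S1 = S1'.map (rE σ).symm.toEmbedding`, `G1 ω' = G1' (rot σ ω')` etc.; `rot σ S1 = S1'`; `rot_inter`,
  `pr_rot`, `rot_subset` (disjointness of images under a bijection).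
-/

set_option autoImplicit false

noncomputable section

namespace FKS

open Finset FKI FKP
open scoped Classical

private theorem SEz_conn_inter (F ω : Finset Edge) (u v : V) : Conn F (ω ∩ F) u v ↔ Conn F ω u v := by
  unfold Conn
  rw [Finset.inter_assoc, Finset.inter_self]

private theorem SEz_dconn_inter (F ω : Finset Edge) (u v : V) : DConn F (ω ∩ F) u v ↔ DConn F ω u v := by
  unfold DConn
  have : F \ (ω ∩ F) = F \ ω := by
    ext e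
    simp only [Finset.mem_sdiff, Finset.mem_inter]
    tauto
  rw [this]

theorem ext0 {c q : ℝ} {N : ℤ} (hq0 : 0 ≤ q) (hq1 : q ≤ 1) (hc : 0 ≤ c) (hRB : RB c q N)
    {E D X ω : Finset Edge} {k x y R m : ℤ} {p : V} {T : ℕ} (hD : LH D x y R) (hX : X ⊆ D)
    (hf : Foot ω x y R p T) (hXF : XF ω p T ⊆ X) (ht : Tidy X (VZ ω p T) (FZ ω p T) x y (4 * m))
    (hm : 1 ≤ m) (hR : 5 * m ≤ R) (hk : k ≤ x) (hk' : x ≤ k + m) (hN : 8 * m ≤ N)
    (hE1 : GOr k y m ⊆ E) (hE2 : GDr k y m ⊆ E) :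
    ∃ (S1 S2 : Finset Edge) (G1 G2 : Finset Edge → Prop), S1 ⊆ GOr k y m ∧ S2 ⊆ GDr k y m ∧
      Disjoint S1 S2 ∧ Disjoint S1 X ∧ Disjoint S2 X ∧ (∀ ω', G1 ω' ↔ G1 (ω' ∩ S1)) ∧
      (∀ ω', G2 ω' ↔ G2 (ω' ∩ S2)) ∧ c ^ 3 ≤ IPC.Pr q E G1 ∧ c ^ 3 ≤ IPC.Pr q E G2 ∧
      ∀ ω', ω' ∩ X = ω ∩ X → (G1 ω' → ∀ v, Conn D ω' (x, y) v → LO D k y m v ω') ∧
        (G2 ω' → ∀ f, DConn D ω' (x - 1, y - 1) f → LD D k y m f ω') := by
  have hR1 : 1 ≤ R := by omega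
  refine ⟨SOx X (VZ ω p T) k x y m, SDx X (FZ ω p T) k x y m,
    fun ω' => ∃ u : ℤ, k + 2 * m ≤ u ∧ u ≤ k + 3 * m ∧ ∃ j ≤ T,
      Conn (SOx X (VZ ω p T) k x y m) ω' (u, y - 5 * m) (vtx (orb ω p j)),
    fun ω' => ∃ i : ℤ, k - 2 * m ≤ i ∧ i < k - m ∧ ∃ j ≤ T,
      DConn (SDx X (FZ ω p T) k x y m) ω' (i, y - 5 * m - 1) (fce (orb ω p j)),
    Finset.filter_subset _ _, Finset.filter_subset _ _, ext_disj hm ht, ?_, ?_, ?_, ?_, ?_, ?_, ?_⟩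
  · rw [Finset.disjoint_left]
    intro e he
    exact (Finset.mem_filter.mp he).2.1
  · rw [Finset.disjoint_left]
    intro e he
    exact (Finset.mem_filter.mp he).2.1
  · intro ω'
    simp only [SEz_conn_inter]
  · intro ω'
    simp only [SEz_dconn_inter]
  · refine le_trans (go_prob hq0 hq1 hc hRB hm hN hE1) (IPC.Pr_mono hq0 hq1 E ?_)
    intro ω' _ hω'
    obtain ⟨u, w, h1, h2, h3, h4, h5⟩ := hω'
    exact ⟨u, h1, h2, ext_open hD.out hX ht hm hR hk hk' ⟨h1, h2⟩ ⟨h3, h4⟩ h5⟩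
  · refine le_trans (gd_prob hq0 hq1 hc hRB hm hN hE2) (IPC.Pr_mono hq0 hq1 E ?_)
    intro ω' _ hω'
    obtain ⟨i, j, h1, h2, h3, h4, h5⟩ := hω'
    exact ⟨i, h1, h2, ext_dual hD.out hX ht hm hR hk hk' ⟨h1, h2⟩ ⟨h3, h4⟩ h5⟩
  · intro ω' hω'
    have hag : ∀ e ∈ XF ω p T, (e ∈ ω' ↔ e ∈ ω) := by
      intro e he
      have heX := hXF he
      have : e ∈ ω' ∩ X ↔ e ∈ ω ∩ X := by rw [hω']
      simpa only [Finset.mem_inter, heX, and_true] using this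
    obtain ⟨-, horb, hXF', -, -⟩ := foot_agree hf hag
    have hT : orb ω' p T = (2 * x, 2 * y) := by rw [horb T le_rfl]; exact hf.2.1
    constructor
    · rintro ⟨u, h1, h2, j, hj, hcj⟩ v hv
      refine lo_of_hit hD hm hR hk hk' ⟨h1, h2⟩ (foot_inB hR1 hf hj).2.2.1 hcj ?_
      have hc1 := orb_conn (ω := ω') (s := p) hj (le_refl T)
      rw [horb j hj, hT, hXF'] at hc1
      have hv2 : vtx (2 * x, 2 * y) = (x, y) := vtx_eq.mpr ⟨Or.inl rfl, Or.inl rfl⟩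
      rw [hv2] at hc1
      have hc2 : Conn D ω' (vtx (orb ω p j)) (x, y) :=
        conn_mono' (fun e he he' => ⟨hX (hXF he), he'⟩) hc1
      exact SimpleGraph.Reachable.trans hc2 hv
    · rintro ⟨i, h1, h2, j, hj, hcj⟩ f hv
      have hrow : y - 1 ≤ (fce (orb ω p j)).2 := by
        have ha := (ar_corner (orb ω p j)).2
        have hb := (foot_inB hR1 hf hj).2.2.1
        omega
      refine ld_of_hit hD hm hR hk hk' ⟨h1, h2⟩ hrow hcj ?_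
      have hc1 := orb_dconn (ω := ω') (s := p) hj (le_refl T)
      rw [horb j hj, hT, hXF'] at hc1
      have hv2 : fce (2 * x, 2 * y) = (x - 1, y - 1) :=
        fce_eq.mpr ⟨Or.inr (by ring), Or.inr (by ring)⟩
      rw [hv2] at hc1
      have hc2 : DConn D ω' (fce (orb ω p j)) (x - 1, y - 1) :=
        DConn.mono (fun e he he' => ⟨hX (hXF he), he'⟩) hc1
      exact hc2.trans hv

private theorem SEz_rot_symm (σ : ℕ) (S : Finset Edge) : rot σ (S.map (rE σ).symm.toEmbedding) = S := by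
  unfold rot
  ext e
  simp only [Finset.mem_map_equiv, Equiv.symm_symm, Equiv.apply_symm_apply]

private theorem SEz_disj {σ : ℕ} {S T : Finset Edge} (h : Disjoint (rot σ S) (rot σ T)) : Disjoint S T := by
  unfold rot at h
  exact (Finset.disjoint_map _).mp h

theorem ext_rot {c q : ℝ} {N : ℤ} (hq0 : 0 ≤ q) (hq1 : q ≤ 1) (hc : 0 ≤ c) (hRB : RB c q N)
    {E D X ω : Finset Edge} {k x y R m : ℤ} {p : V} {T σ : ℕ} (hrot : rot σ D = D) (hD : LH D x y R) (hX : X ⊆ D)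
    (hf : Foot (rot σ ω) x y R p T) (hXF : XF (rot σ ω) p T ⊆ rot σ X)
    (ht : Tidy (rot σ X) (VZ (rot σ ω) p T) (FZ (rot σ ω) p T) x y (4 * m))
    (hm : 1 ≤ m) (hR : 5 * m ≤ R) (hk : k ≤ x) (hk' : x ≤ k + m) (hN : 8 * m ≤ N)
    (hE1 : GOr k y m ⊆ rot σ E) (hE2 : GDr k y m ⊆ rot σ E) :
    ∃ (S1 S2 : Finset Edge) (G1 G2 : Finset Edge → Prop), rot σ S1 ⊆ GOr k y m ∧ rot σ S2 ⊆ GDr k y m ∧
      Disjoint S1 S2 ∧ Disjoint S1 X ∧ Disjoint S2 X ∧ (∀ ω', G1 ω' ↔ G1 (ω' ∩ S1)) ∧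
      (∀ ω', G2 ω' ↔ G2 (ω' ∩ S2)) ∧ c ^ 3 ≤ IPC.Pr q E G1 ∧ c ^ 3 ≤ IPC.Pr q E G2 ∧
      ∀ ω', ω' ∩ X = ω ∩ X → (G1 ω' → ∀ v, Conn D (rot σ ω') (x, y) v → LO D k y m v (rot σ ω')) ∧
        (G2 ω' → ∀ f, DConn D (rot σ ω') (x - 1, y - 1) f → LD D k y m f (rot σ ω')) := by
  have hX' : rot σ X ⊆ D := by
    have := rot_subset (k := σ).mpr hX
    rwa [hrot] at this
  obtain ⟨S1, S2, G1, G2, h1, h2, h3, h4, h5, h6, h7, h8, h9, h10⟩ :=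
    ext0 hq0 hq1 hc hRB hD hX' hf hXF ht hm hR hk hk' hN hE1 hE2
  have e1 : rot σ (S1.map (rE σ).symm.toEmbedding) = S1 := SEz_rot_symm σ S1
  have e2 : rot σ (S2.map (rE σ).symm.toEmbedding) = S2 := SEz_rot_symm σ S2
  refine ⟨S1.map (rE σ).symm.toEmbedding, S2.map (rE σ).symm.toEmbedding, fun ω' => G1 (rot σ ω'),
    fun ω' => G2 (rot σ ω'), ?_, ?_, ?_, ?_, ?_, ?_, ?_, ?_, ?_, ?_⟩
  · rw [e1]; exact h1
  · rw [e2]; exact h2
  · apply SEz_disj (σ := σ)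
    rw [e1, e2]; exact h3
  · apply SEz_disj (σ := σ)
    rw [e1]; exact h4
  · apply SEz_disj (σ := σ)
    rw [e2]; exact h5
  · intro ω'
    show G1 (rot σ ω') ↔ G1 (rot σ (ω' ∩ _))
    rw [rot_inter, e1]
    exact h6 _
  · intro ω'
    show G2 (rot σ ω') ↔ G2 (rot σ (ω' ∩ _))
    rw [rot_inter, e2]
    exact h7 _
  · rw [← pr_rot]; exact h8
  · rw [← pr_rot]; exact h9
  · intro ω' hω'
    have hw : rot σ ω' ∩ rot σ X = rot σ ω ∩ rot σ X := by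
      rw [← rot_inter, ← rot_inter, hω']
    exact h10 _ hw

end FKS
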