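import Pool.Agent.Lib.MP_216314_pr.Sp.SZc

/-!
# JOB SFt: the potential of a foot

`Foot ω x y R p T` (`ADef.lean`): strand piece `orb ω p k`, `k ≤ T`, inside the half square `Bx x y R = box (x-R) (x+R) y (y+R)`, ending at the corner `(2x, 2y)`.
* `foot_T`: `T ≠ 0`: otherwise `p = (2x, 2y)`, `edgeIn p = (x-1, y, false)` (`edgeIn_SW`) is in the half square as `1 ≤ R`.
* `foot_out`: `edgeOf (2x, 2y) = (x, y-1, true) ∉ Bx x y R` (`edgeOf_SW`, `mem_box`).
* `foot_z`: by `seg_closed` and `zed_exists` (with `O q = ∃ k ≤ T, orb ω p k = q`) there are potentials; add a constant to `zv` and to `zf` (the same) such that `zv (x, y) = 0`.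
  (1) By `zed_orbit`, `zv (vtx (orb k))` is constant for `k ≤ T`, equal to its value `0` at `k = T` (`vtx (2x, 2y) = (x, y)`); `zf (fce (orb k)) = 1` because `zv + zf = 1` at the
  corners of `O` (`vtx (orb k)` is in the rectangle: for `k < T` an endpoint of `edgeOf (orb k) ∈ Bx`, for `k = T` it is `(x, y)`).
  (2) The bottom corners: the SE corner `(2i+1, 2y)` is never in `O`: if it is `orb ω p k`, then `edgeIn = (i, y-1, true)`: for `k = 0` excluded by `Foot`, for `k ≥ 1` it is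
  `edgeOf (orb ω p (k-1)) ∈ Bx`, but `(i, y-1, true) ∉ Bx`. The SW corner `(2i, 2y)`, `i ≠ x`, is never in `O`: `edgeOf = (i, y-1, true) ∉ Bx`, so `k = T`, but `orb T = (2x, 2y)`.
  The SW corner `(2x, 2y)` is in `O`. So for `x-R ≤ i < x+R`: `zv (i, y) = zf (i, y-1)` (SE corner of `(i, y)`), and `zv (i+1, y) + zf (i, y-1) = [i + 1 = x]` (SW corner of `(i+1, y)`).
  Hence `zv (i+1, y) = zv (i, y)` for `i + 1 ≠ x` and `zv (x, y) = zv (x-1, y) + 1`: induction to the right and to the left from `x`.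
* `foot_unique`: both strands end at `(2x, 2y)`; if `T ≤ T'` then by injectivity of `(next ω)^[T]` `orb ω p' (T' - T) = p`; if `T < T'` then
  `edgeIn p = edgeOf (orb ω p' (T' - T - 1)) ∈ Bx`, contradiction.
* `foot_agree`: `orb_agree`.
-/

set_option autoImplicit false

noncomputable section

namespace FKS

open Finset FKI FKP
open scoped Classical

theorem SFt_ne (x y R i : ℤ) : (i, y - 1, true) ∉ Bx x y R := by
  unfold Bx
  rw [mem_box]
  simp only [Bool.true_eq_false, false_and, true_and, false_or]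
  omega

theorem foot_T {ω : Finset Edge} {x y R : ℤ} {p : V} {T : ℕ} (hR : 1 ≤ R) (h : Foot ω x y R p T) :
    T ≠ 0 := by
  intro h0
  obtain ⟨_, h2, h3, _⟩ := h
  rw [h0, orb_zero] at h2
  rw [h2, edgeIn_SW] at h3
  refine h3 ?_
  unfold Bx
  rw [mem_box]
  left
  simp only [true_and]
  omega

theorem foot_out (x y R : ℤ) : edgeOf (2 * x, 2 * y) ∉ Bx x y R := by
  rw [edgeOf_SW]
  exact SFt_ne x y R x

theorem SFt_out {ω : Finset Edge} {x y R : ℤ} {p : V} {T : ℕ} (h : Foot ω x y R p T) :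
    edgeOf (orb ω p T) ∉ Bx x y R := by
  rw [h.2.1]
  exact foot_out x y R

theorem SFt_inB {ω : Finset Edge} {x y R : ℤ} {p : V} {T : ℕ} (hR : 1 ≤ R) (h : Foot ω x y R p T) {k : ℕ}
    (hk : k ≤ T) : InB (x - R) (x + R) y (y + R) (vtx (orb ω p k)) := by
  rcases Nat.lt_or_ge k T with g | g
  · have h1 := inB_of_box (h.1 k g)
    rcases vtx_mem (orb ω p k) with h2 | h2
    · rw [h2]
      exact h1.1
    · rw [h2]
      exact h1.2
  · have h1 : k = T := le_antisymm hk g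
    have h2 : vtx (orb ω p k) = (x, y) := by
      rw [h1, h.2.1]
      exact vtx_eq.2 ⟨Or.inl rfl, Or.inl rfl⟩
    rw [h2]
    refine ⟨?_, ?_, ?_, ?_⟩
    · simp only
      omega
    · simp only
      omega
    · exact le_refl _
    · simp only
      omega

theorem SFt_SE {ω : Finset Edge} {x y R : ℤ} {p : V} {T : ℕ} (h : Foot ω x y R p T) (i : ℤ) :
    ¬ ∃ k ≤ T, orb ω p k = (2 * i + 1, 2 * y) := by
  rintro ⟨k, hk, he⟩
  have h1 : edgeIn (orb ω p k) = (i, y - 1, true) := by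
    rw [he, edgeIn_SE]
  cases k with
  | zero =>
    rw [orb_zero] at h1
    exact h.2.2.2 i h1
  | succ k =>
    rw [orb_succ, edgeIn_next] at h1
    have h2 := h.1 k (by omega)
    rw [h1] at h2
    exact SFt_ne x y R i h2

theorem SFt_SW {ω : Finset Edge} {x y R : ℤ} {p : V} {T : ℕ} (h : Foot ω x y R p T) (i : ℤ) :
    (∃ k ≤ T, orb ω p k = (2 * i, 2 * y)) ↔ i = x := by
  constructor
  · rintro ⟨k, hk, he⟩
    rcases Nat.lt_or_ge k T with g | g
    · have h2 := h.1 k g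
      rw [he, edgeOf_SW] at h2
      exact absurd h2 (SFt_ne x y R i)
    · have h1 : k = T := le_antisymm hk g
      rw [h1, h.2.1] at he
      have h3 : 2 * x = 2 * i := congrArg Prod.fst he
      omega
  · intro hi
    exact ⟨T, le_rfl, by rw [h.2.1, hi]⟩

/-- potentials of a foot -/
structure FZed (ω : Finset Edge) (x y R : ℤ) (p : V) (T : ℕ) (zv zf : V → ZMod 2) : Prop where
  zed : Zed (x - R) (x + R) y (y + R) (fun q => ∃ k ≤ T, orb ω p k = q) zv zf
  v0 : ∀ k ≤ T, zv (vtx (orb ω p k)) = 0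
  f1 : ∀ k ≤ T, zf (fce (orb ω p k)) = 1
  ve : ∀ i : ℤ, x ≤ i → i ≤ x + R → zv (i, y) = 0
  vw : ∀ i : ℤ, x - R ≤ i → i < x → zv (i, y) = 1
  fe : ∀ i : ℤ, x ≤ i → i < x + R → zf (i, y - 1) = 0
  fw : ∀ i : ℤ, x - R ≤ i → i < x → zf (i, y - 1) = 1

theorem SFt_z (a : ZMod 2) : a + a = 0 := by
  revert a
  decide

theorem SFt_z0 (a b : ZMod 2) (h : a + b = 0) : a = b := by
  revert a b
  decide

theorem foot_z {ω : Finset Edge} {x y R : ℤ} {p : V} {T : ℕ} (hR : 1 ≤ R) (h : Foot ω x y R p T) :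
    ∃ zv zf : V → ZMod 2, FZed ω x y R p T zv zf := by
  have hO : ∀ q, edgeOf q ∈ box (x - R) (x + R) y (y + R) →
      ((∃ k ≤ T, orb ω p k = q) ↔ (∃ k ≤ T, orb ω p k = next ω q)) := fun q hq =>
    seg_closed h.1 (SFt_out h) h.2.2.1 q hq
  obtain ⟨zv0, zf0, hz0⟩ := zed_exists ω (fun q => ∃ k ≤ T, orb ω p k = q) hO
  have hz : Zed (x - R) (x + R) y (y + R) (fun q => ∃ k ≤ T, orb ω p k = q)
      (fun v => zv0 v + zv0 (x, y)) (fun f => zf0 f + zv0 (x, y)) := by
    intro q hq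
    rw [← hz0 q hq]
    linear_combination SFt_z (zv0 (x, y))
  obtain ⟨zv, hzv⟩ : ∃ zv : V → ZMod 2, zv = fun v => zv0 v + zv0 (x, y) := ⟨_, rfl⟩
  obtain ⟨zf, hzf⟩ : ∃ zf : V → ZMod 2, zf = fun f => zf0 f + zv0 (x, y) := ⟨_, rfl⟩
  rw [← hzv, ← hzf] at hz
  have hxy : zv (x, y) = 0 := by
    rw [hzv]
    exact SFt_z _
  have horb := zed_orbit hO hz h.1
  have hvT : vtx (orb ω p T) = (x, y) := by
    rw [h.2.1]
    exact vtx_eq.2 ⟨Or.inl rfl, Or.inl rfl⟩
  have hv : ∀ k ≤ T, zv (vtx (orb ω p k)) = 0 := by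
    intro k hk
    have h1 := (horb T le_rfl).1
    rw [hvT, hxy] at h1
    rw [(horb k hk).1, ← h1]
  have hf : ∀ k ≤ T, zf (fce (orb ω p k)) = 1 := by
    intro k hk
    have h1 := hz (orb ω p k) (SFt_inB hR h hk)
    rw [hv k hk, zero_add, if_pos ⟨k, hk, rfl⟩] at h1
    exact h1
  have hSE : ∀ i : ℤ, x - R ≤ i → i < x + R → zv (i, y) = zf (i, y - 1) := by
    intro i h1 h2
    have e1 : vtx (2 * i + 1, 2 * y) = (i, y) := vtx_eq.2 ⟨Or.inr rfl, Or.inl rfl⟩
    have e2 : fce (2 * i + 1, 2 * y) = (i, y - 1) := fce_eq.2 ⟨Or.inl rfl, Or.inr (by simp only; ring)⟩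
    have h3 := hz (2 * i + 1, 2 * y) (by
      rw [e1]
      exact ⟨h1, h2.le, le_refl _, by simp only; omega⟩)
    rw [e1, e2, if_neg (SFt_SE h i)] at h3
    exact SFt_z0 _ _ h3
  have hSW : ∀ i : ℤ, x - R ≤ i → i < x + R → zv (i + 1, y) + zf (i, y - 1) = if i + 1 = x then 1 else 0 := by
    intro i h1 h2
    have e1 : vtx (2 * (i + 1), 2 * y) = (i + 1, y) := vtx_eq.2 ⟨Or.inl rfl, Or.inl rfl⟩
    have e2 : fce (2 * (i + 1), 2 * y) = (i, y - 1) :=
      fce_eq.2 ⟨Or.inr (by simp only; ring), Or.inr (by simp only; ring)⟩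
    have h3 := hz (2 * (i + 1), 2 * y) (by
      rw [e1]
      exact ⟨by simp only; omega, by simp only; omega, le_refl _, by simp only; omega⟩)
    rw [e1, e2] at h3
    rw [h3]
    by_cases g : i + 1 = x
    · rw [if_pos ((SFt_SW h (i + 1)).2 g), if_pos g]
    · rw [if_neg (fun hc => g ((SFt_SW h (i + 1)).1 hc)), if_neg g]
  have hve : ∀ n : ℕ, x + n ≤ x + R → zv (x + n, y) = 0 := by
    intro n
    induction n with
    | zero =>
      intro _
      rw [Nat.cast_zero, add_zero]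
      exact hxy
    | succ n ih =>
      intro hn
      push_cast at hn
      have h1 := ih (by omega)
      have h2 := hSE (x + n) (by omega) (by omega)
      have h3 := hSW (x + n) (by omega) (by omega)
      rw [← h2, h1, add_zero, if_neg (by omega)] at h3
      push_cast
      rw [← add_assoc]
      exact h3
  have hvw : ∀ n : ℕ, x - R ≤ x - 1 - n → zv (x - 1 - n, y) = 1 := by
    intro n
    induction n with
    | zero =>
      intro hn
      rw [Nat.cast_zero, sub_zero]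
      have h2 := hSE (x - 1) (by omega) (by omega)
      have h3 := hSW (x - 1) (by omega) (by omega)
      rw [sub_add_cancel, hxy, zero_add, if_pos rfl] at h3
      rw [h2, h3]
    | succ n ih =>
      intro hn
      push_cast at hn
      have h1 := ih (by omega)
      have e : x - 1 - ((n + 1 : ℕ) : ℤ) + 1 = x - 1 - n := by
        push_cast
        ring
      have h2 := hSE (x - 1 - ((n + 1 : ℕ) : ℤ)) (by push_cast; omega) (by push_cast; omega)
      have h3 := hSW (x - 1 - ((n + 1 : ℕ) : ℤ)) (by push_cast; omega) (by push_cast; omega)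
      rw [e, h1, if_neg (by omega)] at h3
      rw [h2]
      exact (SFt_z0 _ _ h3).symm
  have hve' : ∀ i : ℤ, x ≤ i → i ≤ x + R → zv (i, y) = 0 := by
    intro i h1 h2
    have h3 := hve (i - x).toNat (by omega)
    rw [show x + ((i - x).toNat : ℤ) = i by omega] at h3
    exact h3
  have hvw' : ∀ i : ℤ, x - R ≤ i → i < x → zv (i, y) = 1 := by
    intro i h1 h2
    have h3 := hvw (x - 1 - i).toNat (by omega)
    rw [show x - 1 - ((x - 1 - i).toNat : ℤ) = i by omega] at h3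
    exact h3
  refine ⟨zv, zf, ⟨hz, hv, hf, hve', hvw', ?_, ?_⟩⟩
  · intro i h1 h2
    rw [← hSE i (by omega) h2]
    exact hve' i h1 h2.le
  · intro i h1 h2
    rw [← hSE i h1 (by omega)]
    exact hvw' i h1 h2

theorem SFt_uni {ω : Finset Edge} {x y R : ℤ} {p p' : V} {T T' : ℕ} (h : Foot ω x y R p T)
    (h' : Foot ω x y R p' T') (hT : T ≤ T') : p = p' ∧ T = T' := by
  obtain ⟨k, rfl⟩ : ∃ k, T' = k + T := ⟨T' - T, by omega⟩
  have h1 : orb ω p T = orb ω (orb ω p' k) T := by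
    rw [← orb_add, h.2.1, h'.2.1]
  have h2 : p = orb ω p' k := (next_inj ω).iterate T h1
  cases k with
  | zero =>
    rw [orb_zero] at h2
    exact ⟨h2, by omega⟩
  | succ k =>
    exfalso
    have h3 : edgeIn p = edgeOf (orb ω p' k) := by
      rw [h2, orb_succ, edgeIn_next]
    have h4 := h'.1 k (by omega)
    rw [← h3] at h4
    exact h.2.2.1 h4

theorem foot_unique {ω : Finset Edge} {x y R : ℤ} {p p' : V} {T T' : ℕ} (h : Foot ω x y R p T)
    (h' : Foot ω x y R p' T') : p = p' ∧ T = T' := by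
  rcases Nat.le_total T T' with g | g
  · exact SFt_uni h h' g
  · have h1 := SFt_uni h' h g
    exact ⟨h1.1.symm, h1.2.symm⟩

theorem foot_agree {ω ω' : Finset Edge} {x y R : ℤ} {p : V} {T : ℕ} (h : Foot ω x y R p T)
    (ha : ∀ e ∈ XF ω p T, (e ∈ ω' ↔ e ∈ ω)) : Foot ω' x y R p T ∧ (∀ k ≤ T, orb ω' p k = orb ω p k) ∧
      XF ω' p T = XF ω p T ∧ VZ ω' p T = VZ ω p T ∧ FZ ω' p T = FZ ω p T := by
  have h1 : ∀ k ≤ T, orb ω' p k = orb ω p k :=
    orb_agree (fun j hj => ha _ (mem_XF.2 ⟨j, hj, rfl⟩))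
  refine ⟨⟨?_, ?_, h.2.2.1, h.2.2.2⟩, h1, ?_, ?_, ?_⟩
  · intro j hj
    rw [h1 j hj.le]
    exact h.1 j hj
  · rw [h1 T le_rfl]
    exact h.2.1
  · ext e
    rw [mem_XF, mem_XF]
    constructor
    · rintro ⟨k, hk, he⟩
      exact ⟨k, hk, by rw [← h1 k hk.le]; exact he⟩
    · rintro ⟨k, hk, he⟩
      exact ⟨k, hk, by rw [h1 k hk.le]; exact he⟩
  · ext u
    constructor
    · rintro ⟨k, hk, he⟩
      exact ⟨k, hk, by rw [← h1 k hk]; exact he⟩
    · rintro ⟨k, hk, he⟩
      exact ⟨k, hk, by rw [h1 k hk]; exact he⟩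
  · ext u
    constructor
    · rintro ⟨k, hk, he⟩
      exact ⟨k, hk, by rw [← h1 k hk]; exact he⟩
    · rintro ⟨k, hk, he⟩
      exact ⟨k, hk, by rw [h1 k hk]; exact he⟩

/-- the vertices of the foot are in the half square -/
theorem foot_inB {ω : Finset Edge} {x y R : ℤ} {p : V} {T : ℕ} (hR : 1 ≤ R) (h : Foot ω x y R p T) {k : ℕ}
    (hk : k ≤ T) : InB (x - R) (x + R) y (y + R) (vtx (orb ω p k)) :=
  SFt_inB hR h hk

theorem foot_XF {ω : Finset Edge} {x y R : ℤ} {p : V} {T : ℕ} (h : Foot ω x y R p T) :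
    XF ω p T ⊆ Bx x y R := by
  intro e he
  obtain ⟨k, hk, rfl⟩ := mem_XF.1 he
  exact h.1 k hk

end FKS
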