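import Pool.Agent.Lib.MP_216314_pr.Sp.SPard
import Pool.Agent.Lib.MP_216314_pr.Sp.SFt

/-!
# JOB STi: a clean foot is tidy

`CleanO`, `CleanD` give, by `cpth`, `dpth`, chains `c` (open, in `XF ∪ HA x y s`, boundary `(x, y) + (w, y)`) and `c'` (closed, boundary the faces `(x-1, y-1) + (w', y-1)`), which are `OCh c x y R w` and
`DCh c' x y R w'` (`foot_XF`; `HA x y s ⊆ Bx x y (3 s) ⊆ Bx x y R`).
Support: if `c e ≠ 0` then `e ∈ ω` and either `e ∈ XF`, `e = edgeOf (orb ω p k)`, `k < T`, open, so both endpoints are `vtx (orb k)`, `vtx (orb (k+1)) ∈ VZ` and a face is `fce (orb k) ∈ FZ`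
(`step_open`, `fce_mem`), or `e ∈ HA x y s`, so `e ∉ Bx x y s`. If `c' e ≠ 0` then `e ∉ ω` and either `e ∈ XF` and both faces are in `FZ` (`step_closed`), or `e ∉ Bx x y s'`. `(x-1, y-1) = fce (2x, 2y) ∈ FZ`.
* `t0`: `KE (w1, y)`, `w1 < x`: `par' (w1, y-1) = 1` by `par_KE` (`Ar (w1, y) (w1, y-1)`), but `par_bot` gives `0`.
* `t1`: `e ∈ Xs D S ω`: `e = edgeOf q`, `Seen D S ω q`; `fce q` is a face of `e` (`fce_mem`), so around both endpoints (`ar_of_edge`): if `KE (ea e)` or `KE (eb e)` then `par' (fce q) = 1` (`par_KE`), but `par_seen` gives `0`.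
* `d0`: `KW (i, y-1)`, `x ≤ i`: `parv (i, y) = 1` by `parv_KW`, but `parv_bot` gives `0` (`i ≤ x - 1` fails).
* `d1`: `e = edgeOf q ∈ D`, `Seen q`; `vtx q` is an endpoint of `e` (`vtx_mem`), around both faces; if `KW h` for a face `h` of `e`: if `y ≤ (vtx q).2` then `parv (vtx q) = 1` (`parv_KW`) but `parv_seen` gives
  `0`. If `(vtx q).2 < y` then, as `h` is a face of `e` in the rectangle `x-r-1 ≤ h.1 ≤ x+r`, `y-1 ≤ h.2` (invariant of `KW`: `dreach_rec`), and `e.2.1 < y` or ... `Out` excludes `e` (`y - R ≤ e.2.1`): contradiction.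
* `t4`: `u` endpoint of `e` with `KE u`, `h` face with `KW h`: `Ar u h`, `par' h = 1` (`par_KE`) and `= 0` (`par_KW`).
* `exit_sep`: `q = (2 x', 2 y)` seen with `x < x' ≤ x + s`: `fce q = (x'-1, y-1)`, `par' = 1` by `par_bot` (`x ≤ x'-1 < w`), `par_seen`: `0`.
-/

set_option autoImplicit false

noncomputable section

namespace FKS

open Finset FKI FKP
open scoped Classical

private theorem STi_HA {x y s R : ℤ} (h : 3 * s ≤ R) : HA x y s ⊆ Bx x y R := by
  intro e he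
  have h1 := (mem_sdiff.1 he).1
  exact box_mono (by omega) (by omega) le_rfl (by omega) h1

private theorem STi_HAn {x y s : ℤ} {e : Edge} (h : e ∈ HA x y s) : e ∉ Bx x y s :=
  (mem_sdiff.1 h).2

private theorem STi_open {ω : Finset Edge} {x y R s : ℤ} {p : V} {T : ℕ} (h : Foot ω x y R p T)
    (hO : CleanO ω p T x y s) (hs : 1 ≤ s) (h3 : 3 * s ≤ R) :
    ∃ (c : Edge → ZMod 2) (w : ℤ), OCh c x y R w ∧ x + s < w ∧ (∀ e, c e ≠ 0 → e ∈ ω) ∧
      (∀ e, c e ≠ 0 → (ea e ∈ VZ ω p T ∧ eb e ∈ VZ ω p T) ∨ e ∉ Bx x y s) ∧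
      (∀ e, c e ≠ 0 → (fa e ∈ FZ ω p T ∨ fb e ∈ FZ ω p T) ∨ e ∉ Bx x y s) := by
  obtain ⟨w, hw1, hw2, hc⟩ := hO
  obtain ⟨c, hc1, hc2⟩ := cpth hc
  refine ⟨c, w, ⟨?_, hc2, by omega, by omega⟩, hw1, fun e he => (hc1 e he).2, ?_, ?_⟩
  · intro e he
    rcases mem_union.1 (hc1 e he).1 with h1 | h1
    · exact foot_XF h h1
    · exact STi_HA h3 h1
  · intro e he
    rcases mem_union.1 (hc1 e he).1 with h1 | h1
    · obtain ⟨k, hk, hke⟩ := mem_XF.1 h1
      have ho : edgeOf (orb ω p k) ∈ ω := by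
        rw [hke]
        exact (hc1 e he).2
      have a1 : vtx (orb ω p k) ∈ VZ ω p T := ⟨k, hk.le, rfl⟩
      have a2 : vtx (next ω (orb ω p k)) ∈ VZ ω p T := ⟨k + 1, hk, by rw [orb_succ]⟩
      left
      rcases (step_open ho).2 with ⟨b1, b2⟩ | ⟨b1, b2⟩
      · rw [b1, hke] at a1
        rw [b2, hke] at a2
        exact ⟨a1, a2⟩
      · rw [b1, hke] at a1
        rw [b2, hke] at a2
        exact ⟨a2, a1⟩
    · exact Or.inr (STi_HAn h1)
  · intro e he
    rcases mem_union.1 (hc1 e he).1 with h1 | h1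
    · obtain ⟨k, hk, hke⟩ := mem_XF.1 h1
      have a1 : fce (orb ω p k) ∈ FZ ω p T := ⟨k, hk.le, rfl⟩
      left
      rcases fce_mem (orb ω p k) with b1 | b1
      · rw [b1, hke] at a1
        exact Or.inl a1
      · rw [b1, hke] at a1
        exact Or.inr a1
    · exact Or.inr (STi_HAn h1)

private theorem STi_dual {ω : Finset Edge} {x y R s : ℤ} {p : V} {T : ℕ} (h : Foot ω x y R p T)
    (hO : CleanD ω p T x y s) (hs : 1 ≤ s) (h3 : 3 * s ≤ R) :
    ∃ (c : Edge → ZMod 2) (w : ℤ), DCh c x y R w ∧ w < x - s ∧ (∀ e, c e ≠ 0 → e ∉ ω) ∧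
      (∀ e, c e ≠ 0 → (fa e ∈ FZ ω p T ∧ fb e ∈ FZ ω p T) ∨ e ∉ Bx x y s) := by
  obtain ⟨w, hw1, hw2, hc⟩ := hO
  obtain ⟨c, hc1, hc2⟩ := dpth hc
  refine ⟨c, w, ⟨?_, hc2, by omega, by omega⟩, hw2, fun e he => (hc1 e he).2, ?_⟩
  · intro e he
    rcases mem_union.1 (hc1 e he).1 with h1 | h1
    · exact foot_XF h h1
    · exact STi_HA h3 h1
  · intro e he
    rcases mem_union.1 (hc1 e he).1 with h1 | h1
    · obtain ⟨k, hk, hke⟩ := mem_XF.1 h1
      have ho : edgeOf (orb ω p k) ∉ ω := by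
        rw [hke]
        exact (hc1 e he).2
      have a1 : fce (orb ω p k) ∈ FZ ω p T := ⟨k, hk.le, rfl⟩
      have a2 : fce (next ω (orb ω p k)) ∈ FZ ω p T := ⟨k + 1, hk, by rw [orb_succ]⟩
      left
      rcases (step_closed ho).2 with ⟨b1, b2⟩ | ⟨b1, b2⟩
      · rw [b1, hke] at a1
        rw [b2, hke] at a2
        exact ⟨a1, a2⟩
      · rw [b1, hke] at a1
        rw [b2, hke] at a2
        exact ⟨a2, a1⟩
    · exact Or.inr (STi_HAn h1)

/-- the faces of `KW` are in the rectangle -/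
private theorem STi_KW {Z : Set V} {x y r : ℤ} {h : V} (hr : 0 ≤ r) (hu : KW Z x y r h) :
    x - r - 1 ≤ h.1 ∧ h.1 ≤ x + r ∧ y - 1 ≤ h.2 ∧ h.2 ≤ y + r := by
  obtain ⟨i0, i1, i2, i3, hreach⟩ := hu
  refine dreach_rec (P := fun g => x - r - 1 ≤ g.1 ∧ g.1 ≤ x + r ∧ y - 1 ≤ g.2 ∧ g.2 ≤ y + r)
    ?_ ?_ hreach
  · simp only
    omega
  · rintro g g' - ⟨e, he, hee⟩
    have he1 := (mem_filter.1 he).1
    have hg' : g' = fa e ∨ g' = fb e := by
      rcases hee with h1 | h1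
      · exact Or.inr h1.2.symm
      · exact Or.inl h1.1.symm
    obtain ⟨a, b, t⟩ := e
    rw [Bx, mem_box] at he1
    cases t
    · simp only [fa, fb, Bool.false_eq_true, if_false] at hg'
      simp at he1
      rcases hg' with rfl | rfl
      · simp only
        omega
      · simp only
        omega
    · simp only [fa, fb, if_true] at hg'
      simp at he1
      rcases hg' with rfl | rfl
      · simp only
        omega
      · simp only
        omega

/-- coordinates of the faces and the endpoints of an edge -/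
private theorem STi_co {e : Edge} {u h : V} (hu : u = ea e ∨ u = eb e) (hh : h = fa e ∨ h = fb e) :
    (e.1 = h.1 ∨ e.1 = h.1 + 1) ∧ h.2 ≤ e.2.1 ∧ e.2.1 ≤ u.2 := by
  obtain ⟨a, b, t⟩ := e
  cases t
  · simp only [fa, fb, ea, eb, Bool.false_eq_true, if_false] at hu hh
    rcases hu with rfl | rfl <;> rcases hh with rfl | rfl <;> refine ⟨?_, ?_, ?_⟩ <;> simp
  · simp only [fa, fb, ea, eb, if_true] at hu hh
    rcases hu with rfl | rfl <;> rcases hh with rfl | rfl <;> refine ⟨?_, ?_, ?_⟩ <;> simp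

theorem tidy_of_clean {D ω : Finset Edge} {S : Set V} {x y R r s s' : ℤ} {p : V} {T : ℕ} (hD : Out D x y R)
    (hS : SF S x y R) (h : Foot ω x y R p T) (hO : CleanO ω p T x y s) (hDu : CleanD ω p T x y s')
    (hr : 0 ≤ r) (h1 : r + 2 ≤ s) (h2 : r + 2 ≤ s') (h3 : 3 * s ≤ R) (h4 : 3 * s' ≤ R) :
    Tidy (Xs D S ω) (VZ ω p T) (FZ ω p T) x y r := by
  obtain ⟨c, w, hc, hw, hcω, hcV, hcF⟩ := STi_open h hO (by omega) h3
  obtain ⟨c', w', hc', hw', hcω', hcF'⟩ := STi_dual h hDu (by omega) h4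
  have hR : 1 ≤ R := by omega
  have hZ : (x - 1, y - 1) ∈ FZ ω p T := by
    refine ⟨T, le_rfl, ?_⟩
    rw [h.2.1, fce_eq]
    constructor
    · right
      simp only
      ring
    · right
      simp only
      ring
  have kE : ∀ {u f : V}, KE (VZ ω p T) x y r u → Ar u f → par' c y R f = 1 := fun hu hf =>
    par_KE hR hc hcV hr h1 hw hu hf
  have kW : ∀ {g : V}, KW (FZ ω p T) x y r g → par' c y R g = 0 := fun hu =>
    par_KW hR hc hcF hr h1 (by omega) hu
  have kV : ∀ {g v : V}, KW (FZ ω p T) x y r g → y ≤ v.2 → Ar v g → parv c' y R v = 1 :=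
    fun hu hv hf => parv_KW hR hc' hcF' hZ hr h2 hw' hu hv hf
  have n10 : (1 : ZMod 2) ≠ 0 := by decide
  refine ⟨?_, ?_, ?_, ?_, ?_⟩
  · intro v hv1 hv2 hk
    have a1 := kE hk (f := (v, y - 1)) ⟨Or.inl rfl, Or.inr rfl⟩
    rw [par_bot hR hc, if_neg (by omega)] at a1
    exact n10 a1.symm
  · intro e he
    obtain ⟨-, q, hq, rfl⟩ := mem_Xs.1 he
    have a0 := par_seen hR hc hcω hD hS hq
    constructor
    · intro hk
      rw [kE hk (ar_of_edge (Or.inl rfl) (fce_mem q))] at a0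
      exact n10 a0
    · intro hk
      rw [kE hk (ar_of_edge (Or.inr rfl) (fce_mem q))] at a0
      exact n10 a0
  · intro i hi1 hi2 hk
    have a1 := kV hk (v := (i, y)) le_rfl ⟨Or.inl rfl, Or.inr rfl⟩
    rw [parv_bot hR hc', if_neg (by omega)] at a1
    exact n10 a1.symm
  · intro e he
    obtain ⟨heD, q, hq, rfl⟩ := mem_Xs.1 he
    have a0 := parv_seen hR hc' hcω' hD hS hq
    have key : ∀ g : V, (g = fa (edgeOf q) ∨ g = fb (edgeOf q)) → ¬ KW (FZ ω p T) x y r g := by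
      intro g hg hk
      rcases le_or_gt y (vtx q).2 with hv | hv
      · rw [kV hk hv (ar_of_edge (vtx_mem q) hg)] at a0
        exact n10 a0
      · obtain ⟨b1, b2, b3, b4⟩ := STi_KW hr hk
        obtain ⟨b5, b6, b7⟩ := STi_co (vtx_mem q) hg
        have b8 := hD _ heD (by omega) (by omega) (by omega)
        omega
    exact ⟨key _ (Or.inl rfl), key _ (Or.inr rfl)⟩
  · rintro e he hk
    have key : ∀ u g : V, (u = ea e ∨ u = eb e) → (g = fa e ∨ g = fb e) →
        KE (VZ ω p T) x y r u → KW (FZ ω p T) x y r g → False := by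
      intro u g hu hg k1 k2
      have a1 := kE k1 (ar_of_edge hu hg)
      rw [kW k2] at a1
      exact n10 a1.symm
    rcases he with he | he <;> rcases hk with hk | hk
    · exact key _ _ (Or.inl rfl) (Or.inl rfl) he hk
    · exact key _ _ (Or.inl rfl) (Or.inr rfl) he hk
    · exact key _ _ (Or.inr rfl) (Or.inl rfl) he hk
    · exact key _ _ (Or.inr rfl) (Or.inr rfl) he hk

/-- no other exit on the right of a clean foot, up to distance `s` -/
theorem exit_sep {D ω : Finset Edge} {S : Set V} {x y R s : ℤ} {p : V} {T : ℕ} (hD : Out D x y R)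
    (hS : SF S x y R) (h : Foot ω x y R p T) (hO : CleanO ω p T x y s) (h1 : 1 ≤ s) (h3 : 3 * s ≤ R)
    {x' : ℤ} (hx : x < x') (hx' : x' ≤ x + s) : ¬ Seen D S ω (2 * x', 2 * y) := by
  intro hq
  obtain ⟨c, w, hc, hw, hcω, -, -⟩ := STi_open h hO h1 h3
  have hR : 1 ≤ R := by omega
  have a0 := par_seen hR hc hcω hD hS hq
  have e1 : fce (2 * x', 2 * y) = (x' - 1, y - 1) := by
    rw [fce_eq]
    constructor
    · right
      simp only
      ring
    · right
      simp only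
      ring
  rw [e1, par_bot hR hc, if_pos (by omega)] at a0
  exact absurd a0 (by decide)

end FKS
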