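import Pool.Agent.Lib.MP_216314_pr.Sp.SSym
import Pool.Agent.Lib.MP_216314_pr.Sp.STi

/-!
# JOB SFe: an exit is a foot; tidy exits

* `foot_of_exit` (bottom side). Let `T0` with `Run D ω s T0`, `orb ω s T0 = (2x, 2y)`. `T0 ≠ 0` because `s ≠ (2x, 2y)` (`SF`). Let `k0` be the least `k` such that `edgeOf (orb ω s j) ∈ Bx x y R` for all `k ≤ j < T0`. `k0 ≤ T0 - 1`:
  `edgeOf (orb ω s (T0-1)) = edgeIn (2x, 2y) = (x-1, y, false) ∈ Bx` (`edgeIn_next`, `edgeIn_SW`, `1 ≤ R`). `k0 ≥ 1`: `edgeOf s ∉ Bx` by `SF` (the vertex of `s` is outside of the rectangle: `vtx_mem`, `inB_of_box`). `p = orb ω s k0`,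
  `T = T0 - k0`. `edgeIn p = edgeOf (orb ω s (k0-1)) ∉ Bx` by minimality. If `edgeIn p = (i, y-1, true)` then `p = (2i+1, 2y)` or `p = (2i, 2y-1)` (`corner_cases`, `edgeIn_SE`, ...); as `edgeOf p ∈ Bx` the second is impossible
  (`edgeOf = (i-1, y-1, false)`), and the first gives `x-R ≤ i < x+R`, and `(i, y-1, true) = edgeOf (orb (k0-1)) ∈ D` contradicts `Out`. `XF ω p T ⊆ Xs D S ω`: `orb ω p j = orb ω s (k0 + j)` is `Seen`.
* `tidy_exit`: `a ∈ Ex` exit from `s ∈ St i`; `rC k a = (2x, 2y)`, `|x| ≤ h - R`. In the rotated picture `Exit D (rot k ω) (rC k s) (2x, 2y)` (`exit_rot`, `rot k D = D`), so there is a foot (`foot_of_exit`, `S = rC k '' ⋃ i, St i`).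
  As `Bad` fails, by uniqueness of the foot (`foot_unique`) there are `s1, s2 ∈ Sc` with `CleanO .. s1`, `CleanD .. s2`; `tidy_of_clean` with `r = 4m` (`30 m ≤ s`, `3 s ≤ R`), `xs_rot`: `Xs D (rC k '' S) (rot k ω) = rot k (Xs D S ω)`.
* `sep_exit`: two exits `a ≠ b` on the same side `k` with coordinates `x ≠ x'`: by symmetry `x < x'`; the foot of `x` is `CleanO` at some scale `s1 ≥ 30 m`, `exit_sep`: `x' > x + s1` (`(2x', 2y) = rC k b` is `Seen`: `seen_rot`).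
-/

set_option autoImplicit false

noncomputable section

namespace FKS

open Finset FKI FKP
open scoped Classical

theorem foot_of_exit {D ω : Finset Edge} {S : Set V} {x y R : ℤ} (hR : 1 ≤ R) (hD : Out D x y R)
    (hS : SF S x y R) {s : V} (hs : s ∈ S) (h : Exit D ω s (2 * x, 2 * y)) :
    ∃ p T, Foot ω x y R p T ∧ XF ω p T ⊆ Xs D S ω := by
  obtain ⟨T0, hrun, horb, -⟩ := h
  have hS1 := hS s hs
  have hT0 : T0 ≠ 0 := by
    rintro rfl
    rw [orb_zero] at horb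
    have h1 : s.1 = 2 * x := by rw [horb]
    have h2 : s.2 = 2 * y := by rw [horb]
    omega
  obtain ⟨T1, rfl⟩ : ∃ T1, T0 = T1 + 1 := ⟨T0 - 1, by omega⟩
  have hlast : edgeOf (orb ω s T1) ∈ Bx x y R := by
    have h1 : edgeOf (orb ω s T1) = (x - 1, y, false) := by
      rw [← edgeIn_next ω (orb ω s T1), ← orb_succ, horb, edgeIn_SW]
    rw [h1]
    unfold Bx
    rw [mem_box]
    left
    refine ⟨rfl, ?_, ?_, ?_, ?_⟩ <;> dsimp only <;> omega
  have hex : ∃ k, k ≤ T1 ∧ ∀ j, k ≤ j → j ≤ T1 → edgeOf (orb ω s j) ∈ Bx x y R := by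
    refine ⟨T1, le_refl _, fun j h1 h2 => ?_⟩
    have h3 : j = T1 := le_antisymm h2 h1
    rw [h3]
    exact hlast
  obtain ⟨hk1, hk2⟩ := Nat.find_spec hex
  have hmin : ∀ m < Nat.find hex, ¬ (m ≤ T1 ∧ ∀ j, m ≤ j → j ≤ T1 → edgeOf (orb ω s j) ∈ Bx x y R) :=
    fun m hm => Nat.find_min hex hm
  generalize hk0 : Nat.find hex = k0 at hk1 hk2 hmin
  have hpos : k0 ≠ 0 := by
    intro h0
    subst h0
    have h1 := hk2 0 (le_refl _) (Nat.zero_le _)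
    rw [orb_zero] at h1
    have h2 := inB_of_box h1
    have h3 : InB (x - R) (x + R) y (y + R) (vtx s) := by
      rcases vtx_mem s with h4 | h4
      · rw [h4]
        exact h2.1
      · rw [h4]
        exact h2.2
    obtain ⟨h4, h5, h6, h7⟩ := h3
    unfold vtx at h4 h5 h6 h7
    dsimp only at h4 h5 h6 h7
    omega
  obtain ⟨k1, rfl⟩ : ∃ k1, k0 = k1 + 1 := ⟨k0 - 1, by omega⟩
  have hprev : edgeOf (orb ω s k1) ∉ Bx x y R := by
    intro h1
    refine hmin k1 (Nat.lt_succ_self _) ⟨by omega, fun j h2 h3 => ?_⟩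
    rcases Nat.eq_or_lt_of_le h2 with h4 | h4
    · rw [← h4]
      exact h1
    · exact hk2 j h4 h3
  have hin : edgeIn (orb ω s (k1 + 1)) = edgeOf (orb ω s k1) := by
    rw [orb_succ, edgeIn_next]
  have hadd : ∀ j, orb ω (orb ω s (k1 + 1)) j = orb ω s (k1 + 1 + j) := fun j =>
    (orb_add ω s (k1 + 1) j).symm
  have hbelow : ∀ i : ℤ, edgeIn (orb ω s (k1 + 1)) ≠ (i, y - 1, true) := by
    intro i hi
    have h1 := hk2 (k1 + 1) (le_refl _) hk1
    have hDm : ((i, y - 1, true) : Edge) ∈ D := by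
      rw [← hi, hin]
      exact hrun k1 (by omega)
    rcases corner_cases (orb ω s (k1 + 1)) with ⟨a, b, hp⟩ | ⟨a, b, hp⟩ | ⟨a, b, hp⟩ | ⟨a, b, hp⟩
    · rw [hp, edgeIn_SE] at hi
      rw [hp, edgeOf_SE] at h1
      have h2 : a = i := congrArg (fun e : Edge => e.1) hi
      have h3 : b - 1 = y - 1 := congrArg (fun e : Edge => e.2.1) hi
      unfold Bx at h1
      rw [mem_box] at h1
      rcases h1 with ⟨-, h4, h5, h6, h7⟩ | ⟨h4, -⟩
      · dsimp only at h4 h5 h6 h7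
        have h8 := hD _ hDm (by dsimp only; omega) (by dsimp only; omega) (by dsimp only; omega)
        dsimp only at h8
        omega
      · cases h4
    · rw [hp, edgeIn_NE] at hi
      have h2 : false = true := congrArg (fun e : Edge => e.2.2) hi
      cases h2
    · rw [hp, edgeIn_NW] at hi
      rw [hp, edgeOf_NW] at h1
      have h3 : b = y - 1 := congrArg (fun e : Edge => e.2.1) hi
      unfold Bx at h1
      rw [mem_box] at h1
      rcases h1 with ⟨-, h4, h5, h6, h7⟩ | ⟨h4, -⟩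
      · dsimp only at h4 h5 h6 h7
        omega
      · cases h4
    · rw [hp, edgeIn_SW] at hi
      have h2 : false = true := congrArg (fun e : Edge => e.2.2) hi
      cases h2
  refine ⟨orb ω s (k1 + 1), T1 - k1, ⟨?_, ?_, ?_, hbelow⟩, ?_⟩
  · intro j hj
    rw [hadd]
    exact hk2 _ (by omega) (by omega)
  · rw [hadd, ← horb]
    have h1 : k1 + 1 + (T1 - k1) = T1 + 1 := by omega
    rw [h1]
  · rw [hin]
    exact hprev
  · intro e he
    obtain ⟨k, hk, hek⟩ := mem_XF.1 he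
    rw [hadd] at hek
    refine mem_Xs.2 ⟨?_, orb ω s (k1 + 1 + k), ⟨s, hs, k1 + 1 + k, ?_, rfl⟩, hek⟩
    · rw [← hek]
      exact hrun _ (by omega)
    · intro j hj
      exact hrun j (by omega)

/-- the foot of an exit on the side `k`, clean on both sides -/
private theorem SFe_foot {l : ℕ} {E D : Finset Edge} {Ex : Set V} {St : Fin l → Set V} {y h R m : ℤ}
    (hd : Dom E D Ex St y h R m) {Sc : Finset ℤ} {ω : Finset Edge}
    (hbad : ¬ Bad y h R Sc ω) {i : Fin l} {s a : V} (hs : s ∈ St i) (ha : Exit D ω s a)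
    {k : ℕ} (hk : k < 4) {x : ℤ} (hx : rC k a = (2 * x, 2 * y)) (hxR : |x| ≤ h - R) :
    SF (rC k '' (⋃ i, St i)) x y R ∧
    ∃ p T, Foot (rot k ω) x y R p T ∧
      XF (rot k ω) p T ⊆ Xs D (rC k '' (⋃ i, St i)) (rot k ω) ∧
      (∃ s1 ∈ Sc, CleanO (rot k ω) p T x y s1) ∧ ∃ s2 ∈ Sc, CleanD (rot k ω) p T x y s2 := by
  have hR : 1 ≤ R := by
    have h1 := hd.hm
    have h2 := hd.hR
    omega
  have hSF : SF (rC k '' (⋃ i, St i)) x y R := by
    rintro _ ⟨t, ht, rfl⟩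
    obtain ⟨j, hj⟩ := Set.mem_iUnion.1 ht
    exact hd.far j k hk x hxR _ ⟨t, hj, rfl⟩
  have hex : Exit D (rot k ω) (rC k s) (2 * x, 2 * y) := by
    have h1 := (exit_rot k D ω s a).2 ha
    rw [hd.rotD, hx] at h1
    exact h1
  have hmem : rC k s ∈ rC k '' (⋃ i, St i) := ⟨s, Set.mem_iUnion.2 ⟨i, hs⟩, rfl⟩
  obtain ⟨p, T, hfoot, hXF⟩ := foot_of_exit hR (hd.lh x hxR).out hSF hmem hex
  refine ⟨hSF, p, T, hfoot, hXF, ?_, ?_⟩
  · by_contra hcon
    refine hbad ⟨k, hk, x, hxR, Or.inl ⟨p, T, hfoot, fun s1 hs1 hc => hcon ⟨s1, hs1, hc⟩⟩⟩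
  · by_contra hcon
    refine hbad ⟨k, hk, x, hxR, Or.inr ⟨p, T, hfoot, fun s1 hs1 hc => hcon ⟨s1, hs1, hc⟩⟩⟩

theorem tidy_exit {l : ℕ} {E D : Finset Edge} {Ex : Set V} {St : Fin l → Set V} {y h R m : ℤ}
    (hd : Dom E D Ex St y h R m) {Sc : Finset ℤ} (hSc : ∀ s ∈ Sc, 30 * m ≤ s ∧ 3 * s ≤ R) {ω : Finset Edge}
    (hbad : ¬ Bad y h R Sc ω) {i : Fin l} {s a : V} (hs : s ∈ St i) (ha : Exit D ω s a)
    {k : ℕ} (hk : k < 4) {x : ℤ} (hx : rC k a = (2 * x, 2 * y)) (hxR : |x| ≤ h - R) :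
    ∃ p T, Foot (rot k ω) x y R p T ∧ XF (rot k ω) p T ⊆ rot k (Xs D (⋃ i, St i) ω) ∧
      Tidy (rot k (Xs D (⋃ i, St i) ω)) (VZ (rot k ω) p T) (FZ (rot k ω) p T) x y (4 * m) := by
  obtain ⟨hSF, p, T, hfoot, hXF, ⟨s1, hs1, hO⟩, ⟨s2, hs2, hDu⟩⟩ := SFe_foot hd hbad hs ha hk hx hxR
  have hxs : Xs D (rC k '' (⋃ i, St i)) (rot k ω) = rot k (Xs D (⋃ i, St i) ω) := by
    have h1 := xs_rot k D (⋃ i, St i) ω
    rw [hd.rotD] at h1
    exact h1
  have hm := hd.hm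
  have h1 := hSc s1 hs1
  have h2 := hSc s2 hs2
  have ht := tidy_of_clean (D := D) (r := 4 * m) (hd.lh x hxR).out hSF hfoot hO hDu (by omega) (by omega)
    (by omega) h1.2 h2.2
  rw [hxs] at ht hXF
  exact ⟨p, T, hfoot, hXF, ht⟩

private theorem SFe_sep {l : ℕ} {E D : Finset Edge} {Ex : Set V} {St : Fin l → Set V} {y h R m : ℤ}
    (hd : Dom E D Ex St y h R m) {Sc : Finset ℤ} (hSc : ∀ s ∈ Sc, 30 * m ≤ s ∧ 3 * s ≤ R) {ω : Finset Edge}
    (hbad : ¬ Bad y h R Sc ω) {i j : Fin l} {s s' a b : V} (hs : s ∈ St i) (hs' : s' ∈ St j)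
    (ha : Exit D ω s a) (hb : Exit D ω s' b) {k : ℕ} (hk : k < 4) {x x' : ℤ}
    (hx : rC k a = (2 * x, 2 * y)) (hx' : rC k b = (2 * x', 2 * y)) (hxR : |x| ≤ h - R)
    (hlt : x < x') : x + 30 * m ≤ x' := by
  obtain ⟨hSF, p, T, hfoot, -, ⟨s1, hs1, hO⟩, -⟩ := SFe_foot hd hbad hs ha hk hx hxR
  have hm := hd.hm
  have h1 := hSc s1 hs1
  by_contra hcon
  refine exit_sep (hd.lh x hxR).out hSF hfoot hO (by omega) h1.2 hlt (by omega) ?_
  obtain ⟨t, ht1, ht2, -⟩ := hb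
  have h2 : Seen D (⋃ i, St i) ω b := ⟨s', Set.mem_iUnion.2 ⟨j, hs'⟩, t, ht1, ht2⟩
  have h3 := (seen_rot k D (⋃ i, St i) ω b).2 h2
  rw [hd.rotD, hx'] at h3
  exact h3

theorem sep_exit {l : ℕ} {E D : Finset Edge} {Ex : Set V} {St : Fin l → Set V} {y h R m : ℤ}
    (hd : Dom E D Ex St y h R m) {Sc : Finset ℤ} (hSc : ∀ s ∈ Sc, 30 * m ≤ s ∧ 3 * s ≤ R) {ω : Finset Edge}
    (hbad : ¬ Bad y h R Sc ω) {i j : Fin l} {s s' a b : V} (hs : s ∈ St i) (hs' : s' ∈ St j)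
    (ha : Exit D ω s a) (hb : Exit D ω s' b) (hab : a ≠ b) {k : ℕ} (hk : k < 4) {x x' : ℤ}
    (hx : rC k a = (2 * x, 2 * y)) (hx' : rC k b = (2 * x', 2 * y)) (hxR : |x| ≤ h - R) (hxR' : |x'| ≤ h - R) :
    30 * m ≤ |x - x'| := by
  rcases lt_trichotomy x x' with hlt | heq | hlt
  · have h1 := SFe_sep hd hSc hbad hs hs' ha hb hk hx hx' hxR hlt
    rw [abs_of_neg (by omega)]
    omega
  · exact absurd ((rC k).injective (by rw [hx, hx', heq])) hab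
  · have h1 := SFe_sep hd hSc hbad hs' hs hb ha hk hx' hx hxR' hlt
    rw [abs_of_pos (by omega)]
    omega

end FKS
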