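import Pool.Agent.Lib.MP_216314_pr.Sp.SFt

/-!
# JOB SFr: fresh edges near a foot, first hit

`zv, zf` are the potentials of a foot (`FZed`). `E0`: edges of the half square with an endpoint `u ∉ VZ`, `zv u = 0`; `E1`: edges with a face `h ∉ FZ`, `zf h = 1`.
* `e0_fresh`: `e ∈ Bx`, `u` endpoint of `e`, `u ∉ VZ`, `zv u = 0`. If `e = edgeOf (orb ω p k)`, `k < T`, then `f = fce (orb ω p k)` is a face of `e` (`fce_mem`), `zf f = 1` (`f1`). The corner `q` with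
  `vtx q = u`, `fce q = f` (`ar_of_edge`, `corner_of`) is not in `O` (as `u ∉ VZ`), so `zv u = zf f = 1`, contradiction. (`u` is in the rectangle: `inB_of_box`.)
* `e1_fresh`: the same with `v = vtx (orb ω p k)` (endpoint of `e`, `zv v = 0`) and the corner of `(v, h)`.
* `e01_disj`: the corner of `(u, h)` is not in `O`: `zv u = zf h`, but `0 ≠ 1`.
* `hit_open`: `S a := Conn (F ∩ E0) ω' u0 a`. Suppose no `vtx (orb ω p k)` (`k ≤ T`) satisfies `S`. Then `P a := S a ∧ zv a = 0` is preserved along the path in `F ∩ ω'` (`conn_rec`): `a ∉ VZ` as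
  `S a`; if `e ∈ F ∩ ω'` joins `a` and `b`, then `e ∈ E0` (endpoint `a`), so `S b`, `b ∉ VZ`, and `zv a = zv b` by `zed_free_v` (`O q → vtx q ∈ VZ`). At the end `zv u1 = 0`, contradiction.
* `hit_dual`: the same for faces with `P h := DConn (F ∩ E1) ω' h0 h ∧ zf h = 1`, `dconn_rec`, `zed_free_f`.
-/

set_option autoImplicit false

noncomputable section

namespace FKS

open Finset FKI FKP
open scoped Classical

/-- edges of the half square with a free endpoint on the open side -/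
def E0 (ω : Finset Edge) (x y R : ℤ) (p : V) (T : ℕ) (zv : V → ZMod 2) : Finset Edge :=
  (Bx x y R).filter (fun e => (ea e ∉ VZ ω p T ∧ zv (ea e) = 0) ∨ (eb e ∉ VZ ω p T ∧ zv (eb e) = 0))

/-- edges of the half square with a free face on the closed side -/
def E1 (ω : Finset Edge) (x y R : ℤ) (p : V) (T : ℕ) (zf : V → ZMod 2) : Finset Edge :=
  (Bx x y R).filter (fun e => (fa e ∉ FZ ω p T ∧ zf (fa e) = 1) ∨ (fb e ∉ FZ ω p T ∧ zf (fb e) = 1))

theorem SFr_inB {x y R : ℤ} {e : Edge} (he : e ∈ Bx x y R) {u : V} (hu : u = ea e ∨ u = eb e) :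
    InB (x - R) (x + R) y (y + R) u := by
  have h1 := inB_of_box he
  rcases hu with hu | hu
  · rw [hu]
    exact h1.1
  · rw [hu]
    exact h1.2

theorem SFr_z0 (a b : ZMod 2) (h : a + b = 0) : a = b := by
  revert a b
  decide

/-- a corner which is not on the strand -/
theorem SFr_corner {ω : Finset Edge} {x y R : ℤ} {p : V} {T : ℕ} {zv zf : V → ZMod 2}
    (hz : FZed ω x y R p T zv zf) {e : Edge} (he : e ∈ Bx x y R) {u f : V} (hu : u = ea e ∨ u = eb e)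
    (hf : f = fa e ∨ f = fb e) (hn : u ∉ VZ ω p T ∨ f ∉ FZ ω p T) : zv u = zf f := by
  obtain ⟨q, hq1, hq2⟩ := corner_of (ar_of_edge hu hf)
  have h1 := hz.zed q (by rw [hq1]; exact SFr_inB he hu)
  rw [hq1, hq2, if_neg (by
    rintro ⟨k, hk, hkq⟩
    rcases hn with hn | hn
    · exact hn ⟨k, hk, by rw [hkq]; exact hq1⟩
    · exact hn ⟨k, hk, by rw [hkq]; exact hq2⟩)] at h1
  exact SFr_z0 _ _ h1

theorem SFr_01 : (0 : ZMod 2) ≠ 1 := by decide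

/-- membership in `E0` -/
theorem SFr_E0 {ω : Finset Edge} {x y R : ℤ} {p : V} {T : ℕ} {zv : V → ZMod 2} {e : Edge} :
    e ∈ E0 ω x y R p T zv ↔ e ∈ Bx x y R ∧ ∃ u, (u = ea e ∨ u = eb e) ∧ u ∉ VZ ω p T ∧ zv u = 0 := by
  unfold E0
  rw [Finset.mem_filter]
  refine and_congr Iff.rfl ?_
  constructor
  · rintro (h | h)
    · exact ⟨_, Or.inl rfl, h⟩
    · exact ⟨_, Or.inr rfl, h⟩
  · rintro ⟨u, rfl | rfl, h⟩
    · exact Or.inl h
    · exact Or.inr h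

/-- membership in `E1` -/
theorem SFr_E1 {ω : Finset Edge} {x y R : ℤ} {p : V} {T : ℕ} {zf : V → ZMod 2} {e : Edge} :
    e ∈ E1 ω x y R p T zf ↔ e ∈ Bx x y R ∧ ∃ u, (u = fa e ∨ u = fb e) ∧ u ∉ FZ ω p T ∧ zf u = 1 := by
  unfold E1
  rw [Finset.mem_filter]
  refine and_congr Iff.rfl ?_
  constructor
  · rintro (h | h)
    · exact ⟨_, Or.inl rfl, h⟩
    · exact ⟨_, Or.inr rfl, h⟩
  · rintro ⟨u, rfl | rfl, h⟩
    · exact Or.inl h
    · exact Or.inr h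

theorem e0_fresh {ω : Finset Edge} {x y R : ℤ} {p : V} {T : ℕ} {zv zf : V → ZMod 2} (hR : 1 ≤ R)
    (h : Foot ω x y R p T) (hz : FZed ω x y R p T zv zf) :
    Disjoint (E0 ω x y R p T zv) (XF ω p T) := by
  rw [Finset.disjoint_left]
  intro e he hX
  obtain ⟨he1, u, hu, hn, h0⟩ := SFr_E0.1 he
  obtain ⟨k, hk, rfl⟩ := mem_XF.1 hX
  have h1 := SFr_corner hz he1 hu (fce_mem (orb ω p k)) (Or.inl hn)
  rw [h0, hz.f1 k hk.le] at h1
  exact SFr_01 h1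

theorem e1_fresh {ω : Finset Edge} {x y R : ℤ} {p : V} {T : ℕ} {zv zf : V → ZMod 2} (hR : 1 ≤ R)
    (h : Foot ω x y R p T) (hz : FZed ω x y R p T zv zf) :
    Disjoint (E1 ω x y R p T zf) (XF ω p T) := by
  rw [Finset.disjoint_left]
  intro e he hX
  obtain ⟨he1, u, hu, hn, h0⟩ := SFr_E1.1 he
  obtain ⟨k, hk, rfl⟩ := mem_XF.1 hX
  have h1 := SFr_corner hz he1 (vtx_mem (orb ω p k)) hu (Or.inr hn)
  rw [h0, hz.v0 k hk.le] at h1
  exact SFr_01 h1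

theorem e01_disj {ω : Finset Edge} {x y R : ℤ} {p : V} {T : ℕ} {zv zf : V → ZMod 2} (hR : 1 ≤ R)
    (h : Foot ω x y R p T) (hz : FZed ω x y R p T zv zf) :
    Disjoint (E0 ω x y R p T zv) (E1 ω x y R p T zf) := by
  rw [Finset.disjoint_left]
  intro e he hX
  obtain ⟨he1, u, hu, hn, h0⟩ := SFr_E0.1 he
  obtain ⟨_, f, hf, _, h0'⟩ := SFr_E1.1 hX
  have h1 := SFr_corner hz he1 hu hf (Or.inl hn)
  rw [h0, h0'] at h1
  exact SFr_01 h1

theorem hit_open {ω ω' F : Finset Edge} {x y R : ℤ} {p : V} {T : ℕ} {zv zf : V → ZMod 2} (hR : 1 ≤ R)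
    (h : Foot ω x y R p T) (hz : FZed ω x y R p T zv zf) (hF : F ⊆ Bx x y R) {u0 u1 : V}
    (h0 : zv u0 = 0) (h1 : zv u1 = 1) (hc : Conn F ω' u0 u1) :
    ∃ k ≤ T, Conn (F ∩ E0 ω x y R p T zv) ω' u0 (vtx (orb ω p k)) := by
  by_contra hcon
  have hno : ∀ a, Conn (F ∩ E0 ω x y R p T zv) ω' u0 a → a ∉ VZ ω p T := by
    rintro a ha ⟨k, hk, rfl⟩
    exact hcon ⟨k, hk, ha⟩
  have h2 := conn_rec (P := fun a => Conn (F ∩ E0 ω x y R p T zv) ω' u0 a ∧ zv a = 0)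
    ⟨Conn.refl _ _ _, h0⟩ (by
    rintro a b ⟨ha1, ha2⟩ ⟨e, he1, he2, he3⟩
    have haZ := hno a ha1
    have hae : a = ea e ∨ a = eb e := by
      rcases he3 with ⟨g, _⟩ | ⟨_, g⟩
      · exact Or.inl g.symm
      · exact Or.inr g.symm
    have heE : e ∈ F ∩ E0 ω x y R p T zv :=
      Finset.mem_inter.2 ⟨he1, SFr_E0.2 ⟨hF he1, a, hae, haZ, ha2⟩⟩
    have hb1 : Conn (F ∩ E0 ω x y R p T zv) ω' u0 b := by
      have g := conn_step heE he2
      rcases he3 with ⟨g1, g2⟩ | ⟨g1, g2⟩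
      · rw [g1, g2] at g
        exact ha1.trans g
      · rw [g1, g2] at g
        exact ha1.trans g.symm
    have hbZ := hno b hb1
    refine ⟨hb1, ?_⟩
    have g := zed_free_v hz.zed (hF he1) (by
      rintro q ⟨k, hk, rfl⟩ hq
      rcases he3 with ⟨g1, g2⟩ | ⟨g1, g2⟩
      · exact haZ ⟨k, hk, by rw [hq, g1]⟩
      · exact hbZ ⟨k, hk, by rw [hq, g1]⟩) (by
      rintro q ⟨k, hk, rfl⟩ hq
      rcases he3 with ⟨g1, g2⟩ | ⟨g1, g2⟩
      · exact hbZ ⟨k, hk, by rw [hq, g2]⟩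
      · exact haZ ⟨k, hk, by rw [hq, g2]⟩)
    rcases he3 with ⟨g1, g2⟩ | ⟨g1, g2⟩
    · rw [g1, g2] at g
      rw [← g]
      exact ha2
    · rw [g1, g2] at g
      rw [g]
      exact ha2) hc
  rw [h1] at h2
  exact SFr_01 h2.2.symm

theorem hit_dual {ω ω' F : Finset Edge} {x y R : ℤ} {p : V} {T : ℕ} {zv zf : V → ZMod 2} (hR : 1 ≤ R)
    (h : Foot ω x y R p T) (hz : FZed ω x y R p T zv zf) (hF : F ⊆ Bx x y R) {h0 h1 : V}
    (h0' : zf h0 = 1) (h1' : zf h1 = 0) (hc : DConn F ω' h0 h1) :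
    ∃ k ≤ T, DConn (F ∩ E1 ω x y R p T zf) ω' h0 (fce (orb ω p k)) := by
  by_contra hcon
  have hno : ∀ a, DConn (F ∩ E1 ω x y R p T zf) ω' h0 a → a ∉ FZ ω p T := by
    rintro a ha ⟨k, hk, rfl⟩
    exact hcon ⟨k, hk, ha⟩
  have h2 := dconn_rec (P := fun a => DConn (F ∩ E1 ω x y R p T zf) ω' h0 a ∧ zf a = 1)
    ⟨DConn.refl _ _ _, h0'⟩ (by
    rintro a b ⟨ha1, ha2⟩ ⟨e, he1, he2, he3⟩
    have haZ := hno a ha1
    have hae : a = fa e ∨ a = fb e := by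
      rcases he3 with ⟨g, _⟩ | ⟨_, g⟩
      · exact Or.inl g.symm
      · exact Or.inr g.symm
    have heE : e ∈ F ∩ E1 ω x y R p T zf :=
      Finset.mem_inter.2 ⟨he1, SFr_E1.2 ⟨hF he1, a, hae, haZ, ha2⟩⟩
    have hb1 : DConn (F ∩ E1 ω x y R p T zf) ω' h0 b := by
      have g := dconn_step heE he2
      rcases he3 with ⟨g1, g2⟩ | ⟨g1, g2⟩
      · rw [g1, g2] at g
        exact ha1.trans g
      · rw [g1, g2] at g
        exact ha1.trans g.symm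
    have hbZ := hno b hb1
    refine ⟨hb1, ?_⟩
    have g := zed_free_f hz.zed (hF he1) (by
      rintro q ⟨k, hk, rfl⟩ hq
      rcases he3 with ⟨g1, g2⟩ | ⟨g1, g2⟩
      · exact haZ ⟨k, hk, by rw [hq, g1]⟩
      · exact hbZ ⟨k, hk, by rw [hq, g1]⟩) (by
      rintro q ⟨k, hk, rfl⟩ hq
      rcases he3 with ⟨g1, g2⟩ | ⟨g1, g2⟩
      · exact hbZ ⟨k, hk, by rw [hq, g2]⟩
      · exact haZ ⟨k, hk, by rw [hq, g2]⟩)
    rcases he3 with ⟨g1, g2⟩ | ⟨g1, g2⟩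
    · rw [g1, g2] at g
      rw [← g]
      exact ha2
    · rw [g1, g2] at g
      rw [g]
      exact ha2) hc
  rw [h1'] at h2
  exact SFr_01 h2.2

end FKS
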