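import Pool.Agent.Lib.MP_216314_pr.Sp.SOrb

/-!
# JOB SPar: parity of the faces relative to an open chain in a half square

`c` is a chain supported in the half square `Bx x y R` with boundary `(x, y) + (w, y)`, `x < w ≤ x + R`. `par' c y R f = ∑ j ∈ Ioc f.2 (y+R), c (f.1, j, false)` if `y - 1 ≤ f.2`, else `0`
(the number of chain edges above the face). All in `ZMod 2` (`a + a = 0`: `FKP.cross_z`).
* `par_col`: for `y - 1 ≤ b ≤ y + R`: `∑_{j ∈ Ioc b (y+R)} (c (a-1, j, false) + c (a, j, false)) = ∑_j (bd c (a, j) + c (a, j-1, true) + c (a, j, true)) = ∑_j bd c (a, j) + c (a, b, true) + c (a, y+R, true)`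
  (telescoping; induction downwards on `b` or `Int.leInduction` from `b = y + R`; see `cross_col` in `P/PCross.lean`), `c (a, y+R, true) = 0` (not in the half square) and
  `bd c (a, j) = [j = y] ([a = x] + [a = w])` (`ind`). For `b > y + R` both sums are empty and `c (a, b, true) = 0`.
* `par_edge`: `e = (a, b, false)`: `fa e = (a, b-1)`, `fb e = (a, b)`. `b ≥ y`: the two sums differ by `c (a, b, false) = 0`. `b = y - 1`: `par' (fa e) = 0`, and
  `par' (fb e) = ∑ c (a, j, false)`, which is `0` because `x-R ≤ a ≤ x+R` is impossible by `Out` (`e ∈ D` has `e.2.1 = y - 1 < y`, `y - R ≤ y - 1`) and otherwise `c` vanishes in the column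
  (`Bx`, `mem_box`). `b ≤ y - 2`: both `0`. `e = (a, b, true)`: `fa e = (a-1, b)`, `fb e = (a, b)`: `b ≥ y`: `par_col`, `c e = 0`. `b = y - 1`: by `Out` `a < x-R` or `a > x+R`, both columns
  are empty. `b ≤ y - 2`: both `0`.
* `par_bot`: `par_col` with `b = y - 1` (`c (a, y-1, true) = 0`): `col (a-1) + col a = [a = x] + [a = w]`, and `col a = 0` for `a < x - R`: induction on `a`.
* `par_ar`: the four faces around `u = (a, b)`, `b ≥ y`: crossing `(a, b, false)`, `(a-1, b, false)` (horizontal edges at `u`, `c = 0`: the sums differ by this term), `(a, b, true)` and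
  `(a, b-1, true)`: `par_col` for the rows `b` and `b - 1`; for `b = y` the term `[a = x] + [a = w]` is `bd c u = 0` (all four edges at `u` have `c = 0`).
* `par_far`: the column of `c` is empty or the sum is empty.
* `par_KE`: `reach_rec` with `P u = (u in the rectangle x-r..x+r, y..y+r) ∧ ∀ f, Ar u f → par' f = 1`. No edge of `c` is incident to a vertex `u ∉ Z` of this rectangle: such an edge
  is in `Bx x y s` (as `r + 1 ≤ s`, and it is in `Bx x y R`: row at least `y`), so both its endpoints are in `Z`. Start: `(x0, y)`, `x < x0 ≤ x + r < w`: `par' (x0, y-1) = 1` by `par_bot` and `par_ar`.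
  Step along `e ∈ FrE` (both endpoints not in `Z`): `fb e` is around both endpoints (`ar_of_edge`).
* `par_KW`: `dreach_rec` with `P h = par' h = 0`: start `par_bot` (`i0 < x`), step: crossing `e ∈ Bx x y r` with `fa e, fb e ∉ Z`: `c e = 0` (as `Bx x y r ⊆ Bx x y s`), `par_edge` with `D = Bx x y R`
  (`lh_self`).
* `par_seen`: induction on the time: start `par_far` (`SF`), open edge: same face (`step_open`); closed edge `e = edgeOf (orb ω s j) ∈ D`: `c e = 0`, `par_edge`, `step_closed`.
-/

set_option autoImplicit false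

noncomputable section

namespace FKS

open Finset FKI FKP
open scoped Classical

/-- an open chain from the foot to the bottom side on the right -/
structure OCh (c : Edge → ZMod 2) (x y R w : ℤ) : Prop where
  sup : ∀ e, c e ≠ 0 → e ∈ Bx x y R
  bdc : ∀ v, bd c v = ind (x, y) v + ind (w, y) v
  xw : x < w
  wR : w ≤ x + R

theorem lh_self (x y R : ℤ) : LH (Bx x y R) x y R := by
  refine ⟨Finset.Subset.refl _, ?_⟩
  intro e he _ _ _
  unfold Bx at he
  rw [mem_box] at he
  rcases he with h | h
  · exact h.2.2.2.1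
  · exact h.2.2.2.1

theorem SPar_z (a : ZMod 2) : a + a = 0 := by
  revert a
  decide

theorem SPar_z0 (a b : ZMod 2) (h : a + b = 0) : a = b := by
  revert a b
  decide

theorem SPar_c0 {c : Edge → ZMod 2} {x y R w : ℤ} (hc : OCh c x y R w) {e : Edge} (he : e ∉ Bx x y R) :
    c e = 0 := by
  by_contra h
  exact he (hc.sup e h)

/-- sum of a column above a face -/
def SPar_S (c : Edge → ZMod 2) (y R a b : ℤ) : ZMod 2 := ∑ j ∈ Ioc b (y + R), c (a, j, false)

theorem SPar_par {c : Edge → ZMod 2} {y R a b : ℤ} (h : y - 1 ≤ b) : par' c y R (a, b) = SPar_S c y R a b := by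
  unfold par'
  rw [if_pos (show y - 1 ≤ ((a, b) : V).2 from h)]
  rfl

theorem SPar_par0 {c : Edge → ZMod 2} {y R a b : ℤ} (h : b < y - 1) : par' c y R (a, b) = 0 := by
  unfold par'
  rw [if_neg (show ¬ y - 1 ≤ ((a, b) : V).2 from not_le.2 h)]

theorem SPar_succ {c : Edge → ZMod 2} {y R a b : ℤ} (h : b < y + R) :
    SPar_S c y R a b = c (a, b + 1, false) + SPar_S c y R a (b + 1) := by
  have h1 : Ioc b (y + R) = insert (b + 1) (Ioc (b + 1) (y + R)) := by
    ext j
    rw [Finset.mem_insert, Finset.mem_Ioc, Finset.mem_Ioc]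
    omega
  unfold SPar_S
  rw [h1, Finset.sum_insert (by rw [Finset.mem_Ioc]; omega)]

theorem SPar_top {c : Edge → ZMod 2} {y R a b : ℤ} (h : y + R ≤ b) : SPar_S c y R a b = 0 := by
  unfold SPar_S
  rw [Finset.Ioc_eq_empty (by omega), Finset.sum_empty]

theorem SPar_out {c : Edge → ZMod 2} {x y R w a : ℤ} (hc : OCh c x y R w) (h : a < x - R ∨ x + R ≤ a) (b : ℤ) :
    SPar_S c y R a b = 0 := by
  unfold SPar_S
  refine Finset.sum_eq_zero fun j _ => SPar_c0 hc ?_
  unfold Bx
  rw [mem_box]
  simp only [Bool.false_eq_true, false_and, or_false, true_and]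
  omega

theorem SPar_bd {c : Edge → ZMod 2} {x y R w : ℤ} (hc : OCh c x y R w) (a b : ℤ) :
    c (a - 1, b, false) + c (a, b, false) + c (a, b - 1, true) + c (a, b, true) =
      if b = y then (if a = x then 1 else 0) + (if a = w then 1 else 0) else 0 := by
  have h1 := hc.bdc (a, b)
  unfold bd ind at h1
  simp only [Prod.mk.injEq] at h1
  rw [h1]
  by_cases hb : b = y
  · simp only [hb, and_true, if_true]
  · simp only [hb, and_false, if_false, add_zero]

theorem SPar_colN {c : Edge → ZMod 2} {x y R w : ℤ} (hR : 1 ≤ R) (hc : OCh c x y R w) (a : ℤ) (n : ℕ) :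
    (n : ℤ) ≤ R + 1 → SPar_S c y R (a - 1) (y + R - n) + SPar_S c y R a (y + R - n) = c (a, y + R - n, true) +
      if y + R - n < y then (if a = x then 1 else 0) + (if a = w then 1 else 0) else 0 := by
  induction n with
  | zero =>
    intro _
    rw [Nat.cast_zero, sub_zero, SPar_top le_rfl, SPar_top le_rfl, if_neg (by omega), SPar_c0 hc (by
      unfold Bx
      rw [mem_box]
      simp only [Bool.true_eq_false, false_and, true_and, false_or]
      omega)]
  | succ n ih =>
    intro hn
    push_cast at hn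
    have h1 := ih (by omega)
    have e : y + R - ((n + 1 : ℕ) : ℤ) + 1 = y + R - n := by
      push_cast
      ring
    have e2 : y + R - ((n + 1 : ℕ) : ℤ) = y + R - n - 1 := by
      push_cast
      ring
    rw [SPar_succ (by push_cast; omega), SPar_succ (a := a) (by push_cast; omega), e, e2]
    have h2 := SPar_bd hc a (y + R - n)
    rw [if_neg (by omega), add_zero] at h1
    have h3 : (if y + R - (n : ℤ) - 1 < y then ((if a = x then 1 else 0) + (if a = w then 1 else 0) : ZMod 2) else 0) =
        if y + R - (n : ℤ) = y then ((if a = x then 1 else 0) + (if a = w then 1 else 0) : ZMod 2) else 0 := by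
      by_cases g : y + R - (n : ℤ) = y
      · rw [if_pos g, if_pos (by omega)]
      · rw [if_neg g, if_neg (by omega)]
    rw [h3, ← h2]
    linear_combination h1 - SPar_z (c (a, y + R - (n : ℤ) - 1, true))

/-- the column identity -/
theorem SPar_col {c : Edge → ZMod 2} {x y R w : ℤ} (hR : 1 ≤ R) (hc : OCh c x y R w) (a : ℤ) {b : ℤ} (hb : y - 1 ≤ b) :
    SPar_S c y R (a - 1) b + SPar_S c y R a b = c (a, b, true) +
      if b < y then (if a = x then 1 else 0) + (if a = w then 1 else 0) else 0 := by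
  rcases le_or_gt b (y + R) with h | h
  · have h1 := SPar_colN hR hc a (y + R - b).toNat (by omega)
    rw [show y + R - ((y + R - b).toNat : ℤ) = b by omega] at h1
    exact h1
  · rw [SPar_top h.le, SPar_top h.le, if_neg (by omega), SPar_c0 hc (by
      unfold Bx
      rw [mem_box]
      simp only [Bool.true_eq_false, false_and, true_and, false_or]
      omega)]

theorem SPar_hor {c : Edge → ZMod 2} {y R a b : ℤ} (h0 : c (a, b, false) = 0) :
    SPar_S c y R a (b - 1) = SPar_S c y R a b := by
  rcases le_or_gt b (y + R) with h | h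
  · rw [SPar_succ (by omega), sub_add_cancel, h0, zero_add]
  · rw [SPar_top (by omega), SPar_top (by omega)]

theorem SPar_ver {c : Edge → ZMod 2} {x y R w : ℤ} (hR : 1 ≤ R) (hc : OCh c x y R w) {a b : ℤ} (hb : y ≤ b)
    (h0 : c (a, b, true) = 0) : SPar_S c y R (a - 1) b = SPar_S c y R a b := by
  have h1 := SPar_col hR hc a (b := b) (by omega)
  rw [h0, if_neg (by omega), zero_add] at h1
  exact SPar_z0 _ _ h1

theorem par_edge {c : Edge → ZMod 2} {x y R w : ℤ} (hR : 1 ≤ R) (hc : OCh c x y R w) {D : Finset Edge}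
    (hD : Out D x y R) {e : Edge} (he : e ∈ D) (h0 : c e = 0) : par' c y R (fa e) = par' c y R (fb e) := by
  obtain ⟨a, b, t⟩ := e
  have hO := hD _ he
  simp only at hO
  cases t
  · have e1 : fa (a, b, false) = (a, b - 1) := rfl
    have e2 : fb (a, b, false) = (a, b) := rfl
    rw [e1, e2]
    rcases le_or_gt y b with h | h
    · rw [SPar_par (by omega), SPar_par (by omega)]
      exact SPar_hor h0
    · rw [SPar_par0 (by omega)]
      by_cases hb : b = y - 1
      · rw [SPar_par (by omega)]
        refine (SPar_out hc ?_ b).symm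
        by_contra hcon
        have := hO (by omega) (by omega) (by omega)
        omega
      · rw [SPar_par0 (by omega)]
  · have e1 : fa (a, b, true) = (a - 1, b) := rfl
    have e2 : fb (a, b, true) = (a, b) := rfl
    rw [e1, e2]
    rcases le_or_gt y b with h | h
    · rw [SPar_par (by omega), SPar_par (by omega)]
      exact SPar_ver hR hc h h0
    · by_cases hb : b = y - 1
      · rw [SPar_par (by omega), SPar_par (by omega)]
        have h3 : a < x - R ∨ x + R < a := by
          by_contra hcon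
          have := hO (by omega) (by omega) (by omega)
          omega
        rw [SPar_out hc (by omega), SPar_out hc (by omega)]
      · rw [SPar_par0 (by omega), SPar_par0 (by omega)]

theorem SPar_botN {c : Edge → ZMod 2} {x y R w : ℤ} (hR : 1 ≤ R) (hc : OCh c x y R w) (n : ℕ) :
    SPar_S c y R (x - R - 1 + n) (y - 1) = if x ≤ x - R - 1 + n ∧ x - R - 1 + n < w then 1 else 0 := by
  induction n with
  | zero =>
    rw [Nat.cast_zero, add_zero, SPar_out hc (by omega), if_neg (by omega)]
  | succ n ih =>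
    have h1 := SPar_col hR hc (x - R - 1 + ((n + 1 : ℕ) : ℤ)) (b := y - 1) le_rfl
    have e : x - R - 1 + ((n + 1 : ℕ) : ℤ) - 1 = x - R - 1 + n := by
      push_cast
      ring
    have h2 : c (x - R - 1 + ((n + 1 : ℕ) : ℤ), y - 1, true) = 0 := SPar_c0 hc (by
      unfold Bx
      rw [mem_box]
      simp only [Bool.true_eq_false, false_and, true_and, false_or]
      omega)
    rw [e, h2, zero_add, if_pos (by omega), ih] at h1
    have hw := hc.xw
    have h3 : SPar_S c y R (x - R - 1 + ((n + 1 : ℕ) : ℤ)) (y - 1) =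
        (if x ≤ x - R - 1 + (n : ℤ) ∧ x - R - 1 + (n : ℤ) < w then (1 : ZMod 2) else 0) +
        ((if x - R - 1 + ((n + 1 : ℕ) : ℤ) = x then (1 : ZMod 2) else 0) +
          (if x - R - 1 + ((n + 1 : ℕ) : ℤ) = w then (1 : ZMod 2) else 0)) := by
      rw [← h1]
      have h4 := SPar_z (if x ≤ x - R - 1 + (n : ℤ) ∧ x - R - 1 + (n : ℤ) < w then (1 : ZMod 2) else 0)
      linear_combination -h4
    rw [h3]
    have hn : ((n + 1 : ℕ) : ℤ) = n + 1 := by push_cast; ring
    rw [hn]
    by_cases g1 : x ≤ x - R - 1 + (n : ℤ)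
    · by_cases g2 : x - R - 1 + (n : ℤ) < w
      · rw [if_pos ⟨g1, g2⟩, if_neg (by omega)]
        by_cases g3 : x - R - 1 + ((n : ℤ) + 1) = w
        · rw [if_pos g3, if_neg (by omega)]
          decide
        · rw [if_neg g3, if_pos (by omega)]
          decide
      · rw [if_neg (by omega), if_neg (by omega), if_neg (by omega), if_neg (by omega)]
        decide
    · rw [if_neg (by omega)]
      by_cases g2 : x - R - 1 + ((n : ℤ) + 1) = x
      · rw [if_pos g2, if_neg (by omega), if_pos (by omega)]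
        decide
      · rw [if_neg g2, if_neg (by omega), if_neg (by omega)]
        decide

theorem par_bot {c : Edge → ZMod 2} {x y R w : ℤ} (hR : 1 ≤ R) (hc : OCh c x y R w) (i : ℤ) :
    par' c y R (i, y - 1) = if x ≤ i ∧ i < w then 1 else 0 := by
  rw [SPar_par le_rfl]
  rcases lt_or_ge i (x - R - 1) with h | h
  · rw [SPar_out hc (by omega), if_neg (by omega)]
  · have h1 := SPar_botN hR hc (i - (x - R - 1)).toNat
    rw [show x - R - 1 + ((i - (x - R - 1)).toNat : ℤ) = i by omega] at h1
    exact h1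

theorem SPar_ar {c : Edge → ZMod 2} {x y R w : ℤ} (hR : 1 ≤ R) (hc : OCh c x y R w) {u f : V}
    (hu : y ≤ u.2) (h0 : ∀ e, (u = ea e ∨ u = eb e) → c e = 0) (hf : Ar u f) :
    par' c y R f = SPar_S c y R u.1 u.2 := by
  obtain ⟨a, b⟩ := u
  obtain ⟨f1, f2⟩ := f
  obtain ⟨h1, h2⟩ := hf
  simp only at h1 h2 hu ⊢
  have k1 : c (a, b, false) = 0 := h0 _ (Or.inl rfl)
  have k2 : c (a - 1, b, false) = 0 := h0 _ (Or.inr (by
    show (a, b) = (a - 1 + 1, b)
    rw [sub_add_cancel]))
  have k3 : c (a, b, true) = 0 := h0 _ (Or.inl rfl)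
  have k5 := SPar_ver hR hc hu k3
  rcases h1 with rfl | rfl
  · rcases h2 with rfl | rfl
    · exact SPar_par (by omega)
    · rw [SPar_par (by omega)]
      exact SPar_hor k1
  · rcases h2 with rfl | rfl
    · rw [SPar_par (by omega)]
      exact k5
    · rw [SPar_par (by omega), SPar_hor k2]
      exact k5

theorem par_ar {c : Edge → ZMod 2} {x y R w : ℤ} (hR : 1 ≤ R) (hc : OCh c x y R w) {u f g : V}
    (hu : y ≤ u.2) (h0 : ∀ e, (u = ea e ∨ u = eb e) → c e = 0) (hf : Ar u f) (hg : Ar u g) :
    par' c y R f = par' c y R g := by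
  rw [SPar_ar hR hc hu h0 hf, SPar_ar hR hc hu h0 hg]

theorem par_far {c : Edge → ZMod 2} {x y R w : ℤ} (hc : OCh c x y R w) {f : V}
    (h : f.1 < x - R ∨ x + R ≤ f.1 ∨ y + R ≤ f.2 ∨ f.2 < y - 1) : par' c y R f = 0 := by
  obtain ⟨a, b⟩ := f
  simp only at h
  rcases lt_or_ge b (y - 1) with g | g
  · exact SPar_par0 g
  · rw [SPar_par g]
    rcases h with h | h | h | h
    · exact SPar_out hc (Or.inl h) b
    · exact SPar_out hc (Or.inr h) b
    · exact SPar_top h
    · omega

theorem SPar_mono {x y r s : ℤ} (h : r ≤ s) : Bx x y r ⊆ Bx x y s := by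
  unfold Bx
  exact box_mono (by omega) (by omega) le_rfl (by omega)

theorem SPar_inc {c : Edge → ZMod 2} {x y R w r s : ℤ} {Z : Set V} (hc : OCh c x y R w)
    (hs : ∀ e, c e ≠ 0 → (ea e ∈ Z ∧ eb e ∈ Z) ∨ e ∉ Bx x y s) (hrs : r + 2 ≤ s) {u : V}
    (hu : (x - r ≤ u.1 ∧ u.1 ≤ x + r) ∧ y ≤ u.2 ∧ u.2 ≤ y + r) (hZ : u ∉ Z) {e : Edge} (he : u = ea e ∨ u = eb e) :
    c e = 0 := by
  by_contra hne
  rcases hs e hne with ⟨h1, h2⟩ | h1
  · rcases he with he | he
    · rw [he] at hZ
      exact hZ h1
    · rw [he] at hZ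
      exact hZ h2
  · refine h1 ?_
    have h2 := hc.sup e hne
    unfold Bx at h2 ⊢
    obtain ⟨a, b, t⟩ := e
    rw [mem_box] at h2 ⊢
    cases t
    · left
      simp only [Bool.false_eq_true, false_and, or_false, true_and] at h2 ⊢
      rcases he with he | he
      · rw [he] at hu
        simp only [ea] at hu
        omega
      · rw [he] at hu
        simp only [eb, Bool.false_eq_true, if_false] at hu
        omega
    · right
      simp only [Bool.true_eq_false, false_and, false_or, true_and] at h2 ⊢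
      rcases he with he | he
      · rw [he] at hu
        simp only [ea] at hu
        omega
      · rw [he] at hu
        simp only [eb, if_true] at hu
        omega

/-- the faces around the free region on the right are inside -/
theorem par_KE {c : Edge → ZMod 2} {x y R w r s : ℤ} {Z : Set V} (hR : 1 ≤ R) (hc : OCh c x y R w)
    (hs : ∀ e, c e ≠ 0 → (ea e ∈ Z ∧ eb e ∈ Z) ∨ e ∉ Bx x y s) (hr : 0 ≤ r) (hrs : r + 2 ≤ s) (hw : x + s < w) {u f : V}
    (hu : KE Z x y r u) (hf : Ar u f) : par' c y R f = 1 := by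
  obtain ⟨x0, h1, h2, h3, h4⟩ := hu
  have h5 := reach_rec (P := fun u => ((x - r ≤ u.1 ∧ u.1 ≤ x + r) ∧ y ≤ u.2 ∧ u.2 ≤ y + r) ∧ u ∉ Z ∧
      ∀ f, Ar u f → par' c y R f = 1) ⟨by simp only; omega, h3, by
        intro f hf
        have g1 := par_bot hR hc x0
        rw [if_pos ⟨h1.le, by omega⟩] at g1
        rw [← g1]
        refine par_ar hR hc (u := (x0, y)) le_rfl (fun e he => ?_) hf ⟨Or.inl rfl, Or.inr rfl⟩
        exact SPar_inc hc hs hrs (u := (x0, y)) (by simp only; omega) h3 he⟩ (by
    rintro a b ⟨_, _, ha⟩ ⟨e, he, hab⟩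
    unfold FrE at he
    rw [Finset.mem_filter] at he
    obtain ⟨he1, he2, he3⟩ := he
    have hbx := pexit_box (x1 := x - r) (x2 := x + r) (y1 := y) (y2 := y + r) he1
    have hb : (b = ea e ∨ b = eb e) ∧ (a = ea e ∨ a = eb e) := by
      rcases hab with ⟨g1, g2⟩ | ⟨g1, g2⟩
      · exact ⟨Or.inr g2.symm, Or.inl g1.symm⟩
      · exact ⟨Or.inl g1.symm, Or.inr g2.symm⟩
    have hbr : (x - r ≤ b.1 ∧ b.1 ≤ x + r) ∧ y ≤ b.2 ∧ b.2 ≤ y + r := by
      rcases hb.1 with g | g
      · rw [g]
        exact ⟨⟨hbx.1.1, hbx.1.2.1⟩, hbx.1.2.2.1, hbx.1.2.2.2⟩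
      · rw [g]
        exact ⟨⟨hbx.2.1, hbx.2.2.1⟩, hbx.2.2.2.1, hbx.2.2.2.2⟩
    have hbZ : b ∉ Z := by
      rcases hb.1 with g | g
      · rw [g]
        exact he2
      · rw [g]
        exact he3
    refine ⟨hbr, hbZ, ?_⟩
    intro f hf
    rw [← ha (fb e) (ar_of_edge hb.2 (Or.inr rfl))]
    exact par_ar hR hc hbr.2.1 (fun e' he' => SPar_inc hc hs hrs hbr hbZ he') hf (ar_of_edge hb.1 (Or.inr rfl))) h4
  exact h5.2.2 f hf

/-- the free region on the left is outside -/
theorem par_KW {c : Edge → ZMod 2} {x y R w r s : ℤ} {Z : Set V} (hR : 1 ≤ R) (hc : OCh c x y R w)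
    (hs : ∀ e, c e ≠ 0 → (fa e ∈ Z ∨ fb e ∈ Z) ∨ e ∉ Bx x y s) (hr : 0 ≤ r) (hrs : r + 2 ≤ s) (hsR : s ≤ R) {h : V}
    (hu : KW Z x y r h) : par' c y R h = 0 := by
  obtain ⟨i0, h1, h2, h3, h4⟩ := hu
  refine dreach_rec (P := fun h => par' c y R h = 0) ?_ ?_ h4
  · show par' c y R (i0, y - 1) = 0
    rw [par_bot hR hc, if_neg (by omega)]
  · rintro a b ha ⟨e, he, hab⟩
    unfold FrF at he
    rw [Finset.mem_filter] at he
    obtain ⟨he1, he2, he3⟩ := he
    have hce : c e = 0 := by
      by_contra hne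
      rcases hs e hne with (g | g) | g
      · exact he2 g
      · exact he3 g
      · exact g (SPar_mono (by omega) he1)
    have g := par_edge hR hc (lh_self x y R).out (SPar_mono (by omega) he1) hce
    show par' c y R b = 0
    rcases hab with ⟨g1, g2⟩ | ⟨g1, g2⟩
    · rw [g1, g2] at g
      rw [← g]
      exact ha
    · rw [g1, g2] at g
      rw [g]
      exact ha

/-- the faces of the strands which start far away are outside -/
theorem par_seen {c : Edge → ZMod 2} {x y R w : ℤ} (hR : 1 ≤ R) (hc : OCh c x y R w) {D ω : Finset Edge}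
    (hcω : ∀ e, c e ≠ 0 → e ∈ ω) (hD : Out D x y R) {S : Set V} (hS : SF S x y R) {p : V}
    (hp : Seen D S ω p) : par' c y R (fce p) = 0 := by
  obtain ⟨s, hs, k, hk, rfl⟩ := hp
  induction k with
  | zero =>
    rw [orb_zero]
    refine par_far hc ?_
    have h1 := hS s hs
    unfold fce
    simp only
    omega
  | succ k ih =>
    have h1 := ih (fun j hj => hk j (by omega))
    rw [orb_succ]
    by_cases h : edgeOf (orb ω s k) ∈ ω
    · rw [(step_open h).1]
      exact h1
    · have hce : c (edgeOf (orb ω s k)) = 0 := by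
        by_contra hne
        exact h (hcω _ hne)
      have g := par_edge hR hc hD (hk k (by omega)) hce
      rcases (step_closed h).2 with ⟨g1, g2⟩ | ⟨g1, g2⟩
      · rw [g2, ← g, ← g1]
        exact h1
      · rw [g2, g, ← g1]
        exact h1

end FKS
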