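import Pool.Agent.Lib.MP_216314_pr.Sp.SPar

/-!
# JOB SPard: parity of the vertices relative to a dual chain in a half square (dual version of SPar)

`c` is a dual chain (function on the edges, `dbd c` its boundary at the faces) supported in `Bx x y R`, with boundary the faces `(x-1, y-1)` and `(w, y-1)`, `x - R ≤ w < x - 1`.
`parv c y R v = ∑ j ∈ Icc v.2 (y+R), c (v.1, j, true)` if `y ≤ v.2`, else `0`.
* `parv_col`: for `y ≤ b ≤ y + R`: `∑_{j ∈ Icc b (y+R)} (c (a, j, true) + c (a+1, j, true)) = ∑_j (dbd c (a, j) + c (a, j, false) + c (a, j+1, false)) = c (a, b, false)`, because `dbd c (a, j) = 0` for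
  `j ≥ y` (the boundary is in the row `y - 1`) and `c (a, y+R+1, false) = 0` (not in the half square). For `b > y + R`: empty sums, `c (a, b, false) = 0`.
* `parv_edge`: `e = (a, b, true)`: `ea e = (a, b)`, `eb e = (a, b+1)`: `b ≥ y`: the sums differ by `c (a, b, true) = 0`. `b = y - 1`: `parv (ea e) = 0`, `parv (eb e) = ∑_{j ≥ y} c (a, j, true) = 0` as `a < x-R` or
  `a > x+R` by `Out`. `b ≤ y - 2`: both `0`. `e = (a, b, false)`: `b ≥ y`: `parv_col`; `b < y`: both `0`.
* `parv_bot`: `parv (i, y) + parv (i+1, y) = c (i, y, false)` (`parv_col`) and `dbd c (i, y-1) = c (i, y, false)` (the other three edges are not in the half square) `= [i = x-1] + [i = w]`; `parv (i, y) = 0` for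
  `i < x - R`. Induction on `i`.
* `parv_ar`: `h` a face without edge of `c` (`c e = 0` if `h = fa e` or `h = fb e`), `u, v` two vertices around `h` (`Ar u h`, `Ar v h`) in rows `≥ y`: they are joined by at most two of the four
  edges of `h` (row `≥ y`), for which the equality holds by the computations of `parv_edge` (no `Out` is needed in rows `≥ y`).
* `parv_KW`: `dreach_rec`, `P h = (h in the rectangle: x-r-1 ≤ h.1 ≤ x+r, y-1 ≤ h.2 ≤ y+r) ∧ ∀ v, Ar v h → y ≤ v.2 → parv v = 1`. An edge of `c` with a face `h ∉ Z` of this rectangle is in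
  `Bx x y s` (`r + 2 ≤ s`), so it has both faces in `Z`, contradiction; hence `parv_ar` applies to `h`. Start: `(i0, y-1)`, `x-r ≤ i0 < x`, not in `Z`; `(x-1, y-1) ∈ Z` by hypothesis, so `i0 < x-1`, and
  `parv (i0, y) = 1` by `parv_bot` (`w < x - s ≤ i0 ≤ x - 1`). Step through `e ∈ FrF`: the endpoint `ea e` (row `≥ y`) is around both faces.
* `parv_seen`: as `par_seen`; closed edge: same vertex; open edge `e ∈ D`: `c e = 0`, `parv_edge`.
-/

set_option autoImplicit false

noncomputable section

namespace FKS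

open Finset FKI FKP
open scoped Classical

/-- a dual chain from the foot to the bottom side on the left -/
structure DCh (c : Edge → ZMod 2) (x y R w : ℤ) : Prop where
  sup : ∀ e, c e ≠ 0 → e ∈ Bx x y R
  bdc : ∀ h, dbd c h = ind (x - 1, y - 1) h + ind (w, y - 1) h
  xw : w < x - 1
  wR : x - R ≤ w

private theorem SPard_zf {c : Edge → ZMod 2} {x y R w : ℤ} (hc : DCh c x y R w) {a b : ℤ}
    (h : a < x - R ∨ x + R ≤ a ∨ b < y ∨ y + R < b) : c (a, b, false) = 0 := by
  by_contra hne
  have h1 := hc.sup _ hne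
  rw [Bx, mem_box] at h1
  rcases h1 with ⟨-, h2, h3, h4, h5⟩ | ⟨h1, -⟩
  · simp only at h2 h3 h4 h5
    omega
  · simp at h1

private theorem SPard_zt {c : Edge → ZMod 2} {x y R w : ℤ} (hc : DCh c x y R w) {a b : ℤ}
    (h : a < x - R ∨ x + R < a ∨ b < y ∨ y + R ≤ b) : c (a, b, true) = 0 := by
  by_contra hne
  have h1 := hc.sup _ hne
  rw [Bx, mem_box] at h1
  rcases h1 with ⟨h1, -⟩ | ⟨-, h2, h3, h4, h5⟩
  · simp at h1
  · simp only at h2 h3 h4 h5
    omega

/-- sum of a column -/
private def SPard_S (c : Edge → ZMod 2) (y R a b : ℤ) : ZMod 2 := ∑ j ∈ Icc b (y + R), c (a, j, true)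

private theorem SPard_par {c : Edge → ZMod 2} {y R a b : ℤ} (h : y ≤ b) :
    parv c y R (a, b) = SPard_S c y R a b := by
  unfold parv SPard_S
  rw [if_pos h]

private theorem SPard_low {c : Edge → ZMod 2} {y R a b : ℤ} (h : b < y) :
    parv c y R (a, b) = 0 := by
  unfold parv
  rw [if_neg (not_le.2 h)]

private theorem SPard_zero {c : Edge → ZMod 2} {y R a b : ℤ}
    (h : ∀ j, b ≤ j → j ≤ y + R → c (a, j, true) = 0) : SPard_S c y R a b = 0 := by
  unfold SPard_S
  refine Finset.sum_eq_zero fun j hj => ?_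
  rw [mem_Icc] at hj
  exact h j hj.1 hj.2

private theorem SPard_succ {c : Edge → ZMod 2} {x y R w : ℤ} (hc : DCh c x y R w) (a b : ℤ) :
    SPard_S c y R a b = c (a, b, true) + SPard_S c y R a (b + 1) := by
  rcases le_or_gt b (y + R) with h | h
  · unfold SPard_S
    have e : Icc b (y + R) = insert b (Icc (b + 1) (y + R)) := by
      ext j
      simp only [mem_insert, mem_Icc]
      omega
    rw [e, Finset.sum_insert]
    simp
  · rw [SPard_zt hc (a := a) (b := b) (by omega), SPard_zero (b := b) (by omega),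
      SPard_zero (b := b + 1) (by omega), add_zero]

private theorem SPard_add (a : ZMod 2) : a + a = 0 := by
  revert a
  decide

private theorem SPard_eq {a b : ZMod 2} (h : a + b = 0) : a = b := by
  revert a b
  decide

private theorem SPard_col {c : Edge → ZMod 2} {x y R w : ℤ} (hc : DCh c x y R w) (a : ℤ) (n : ℕ) :
    ∀ b : ℤ, y ≤ b → y + R + 1 - b ≤ n →
      SPard_S c y R a b + SPard_S c y R (a + 1) b = c (a, b, false) := by
  induction n with
  | zero =>
    intro b hb hn
    rw [SPard_zf hc (a := a) (b := b) (by omega), SPard_zero (a := a) (b := b) (by omega),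
      SPard_zero (a := a + 1) (b := b) (by omega), add_zero]
  | succ n ih =>
    intro b hb hn
    have h1 := ih (b + 1) (by omega) (by omega)
    have h2 := hc.bdc (a, b)
    unfold dbd at h2
    simp only at h2
    have h3 : ind (x - 1, y - 1) (a, b) = 0 := by
      unfold ind
      rw [if_neg]
      intro h
      have := congrArg Prod.snd h
      simp only at this
      omega
    have h4 : ind (w, y - 1) (a, b) = 0 := by
      unfold ind
      rw [if_neg]
      intro h
      have := congrArg Prod.snd h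
      simp only at this
      omega
    rw [h3, h4, add_zero] at h2
    rw [SPard_succ hc a b, SPard_succ hc (a + 1) b]
    linear_combination h1 + h2 - SPard_add (c (a, b, false))

/-- the edges of a face -/
private theorem SPard_edges {c : Edge → ZMod 2} {h : V} (h0 : ∀ e, (h = fa e ∨ h = fb e) → c e = 0) :
    c (h.1, h.2, true) = 0 ∧ c (h.1 + 1, h.2, true) = 0 ∧ c (h.1, h.2, false) = 0 ∧
      c (h.1, h.2 + 1, false) = 0 := by
  refine ⟨h0 _ (Or.inr ?_), h0 _ (Or.inl ?_), h0 _ (Or.inr ?_), h0 _ (Or.inl ?_)⟩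
  · simp [fb]
  · simp [fa]
  · simp [fb]
  · simp [fa]

theorem parv_edge {c : Edge → ZMod 2} {x y R w : ℤ} (hR : 1 ≤ R) (hc : DCh c x y R w) {D : Finset Edge}
    (hD : Out D x y R) {e : Edge} (he : e ∈ D) (h0 : c e = 0) : parv c y R (ea e) = parv c y R (eb e) := by
  obtain ⟨a, b, t⟩ := e
  have hout := hD _ he
  simp only at hout
  cases t
  · have e1 : ea (a, b, false) = (a, b) := rfl
    have e2 : eb (a, b, false) = (a + 1, b) := rfl
    rw [e1, e2]
    rcases lt_or_ge b y with hb | hb
    · rw [SPard_low hb, SPard_low hb]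
    · rw [SPard_par hb, SPard_par hb]
      have h1 := SPard_col hc a (y + R + 1 - b).toNat b hb (Int.self_le_toNat _)
      rw [h0] at h1
      exact SPard_eq h1
  · have e1 : ea (a, b, true) = (a, b) := rfl
    have e2 : eb (a, b, true) = (a, b + 1) := rfl
    rw [e1, e2]
    rcases lt_or_ge b y with hb | hb
    · rw [SPard_low hb]
      rcases lt_or_ge (b + 1) y with hb1 | hb1
      · rw [SPard_low hb1]
      · rw [SPard_par hb1, SPard_zero]
        intro j hj hj2
        refine SPard_zt hc ?_
        by_contra hcon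
        push Not at hcon
        have h2 := hout (by omega) (by omega) (by omega)
        omega
    · rw [SPard_par hb, SPard_par (by omega), SPard_succ hc a b, h0, zero_add]

theorem parv_bot {c : Edge → ZMod 2} {x y R w : ℤ} (hR : 1 ≤ R) (hc : DCh c x y R w) (i : ℤ) :
    parv c y R (i, y) = if w < i ∧ i ≤ x - 1 then 1 else 0 := by
  rw [SPard_par le_rfl]
  have key : ∀ i : ℤ, SPard_S c y R i y + SPard_S c y R (i + 1) y =
      (if i = x - 1 then 1 else 0) + (if i = w then 1 else 0) := by
    intro i
    rw [SPard_col hc i (y + R + 1 - y).toNat y le_rfl (Int.self_le_toNat _)]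
    have h2 := hc.bdc (i, y - 1)
    unfold dbd at h2
    simp only at h2
    rw [SPard_zt hc (a := i) (b := y - 1) (by omega), SPard_zt hc (a := i + 1) (b := y - 1) (by omega),
      SPard_zf hc (a := i) (b := y - 1) (by omega), zero_add, zero_add, zero_add, sub_add_cancel] at h2
    rw [h2]
    unfold ind
    congr 1
    · refine if_congr ?_ rfl rfl
      rw [Prod.mk.injEq]
      exact ⟨fun h => h.1, fun h => ⟨h, rfl⟩⟩
    · refine if_congr ?_ rfl rfl
      rw [Prod.mk.injEq]
      exact ⟨fun h => h.1, fun h => ⟨h, rfl⟩⟩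
  have hxw := hc.xw
  have hwR := hc.wR
  have hlow : ∀ i : ℤ, i < x - R → SPard_S c y R i y = 0 := fun i hi =>
    SPard_zero fun j _ _ => SPard_zt hc (Or.inl hi)
  have step : ∀ n : ℕ, SPard_S c y R (x - R - 1 + n) y =
      if w < x - R - 1 + n ∧ x - R - 1 + n ≤ x - 1 then 1 else 0 := by
    intro n
    induction n with
    | zero =>
      rw [hlow _ (by push_cast; omega), if_neg (by push_cast; omega)]
    | succ n ih =>
      have h1 := key (x - R - 1 + n)
      rw [ih] at h1
      have e : x - R - 1 + ((n + 1 : ℕ) : ℤ) = x - R - 1 + n + 1 := by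
        push_cast
        ring
      rw [e]
      generalize x - R - 1 + (n : ℤ) = i at *
      generalize SPard_S c y R (i + 1) y = X at *
      have h5 : X = (if w < i ∧ i ≤ x - 1 then 1 else 0) + ((if i = x - 1 then 1 else 0) +
          (if i = w then 1 else 0)) := by
        rw [← h1]
        linear_combination -SPard_add (if w < i ∧ i ≤ x - 1 then (1 : ZMod 2) else 0)
      rw [h5]
      split_ifs <;> first | (exfalso; omega) | decide
  rcases lt_or_ge i (x - R) with hi | hi
  · rw [hlow i hi, if_neg (by omega)]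
  · have h1 := step (i - (x - R - 1)).toNat
    have e : x - R - 1 + (((i - (x - R - 1)).toNat : ℕ) : ℤ) = i := by omega
    rw [e] at h1
    exact h1

theorem parv_ar {c : Edge → ZMod 2} {x y R w : ℤ} (hR : 1 ≤ R) (hc : DCh c x y R w) {u v h : V}
    (hu : y ≤ u.2) (hv : y ≤ v.2) (h0 : ∀ e, (h = fa e ∨ h = fb e) → c e = 0) (hf : Ar u h) (hg : Ar v h) :
    parv c y R u = parv c y R v := by
  obtain ⟨z1, z2, z3, z4⟩ := SPard_edges h0
  have key : ∀ u : V, y ≤ u.2 → Ar u h → parv c y R u = SPard_S c y R h.1 (h.2 + 1) := by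
    rintro ⟨a, b⟩ hb ⟨k1, k2⟩
    simp only at hb k1 k2
    rw [SPard_par hb]
    have s1 : SPard_S c y R a b = SPard_S c y R a (h.2 + 1) := by
      rcases k2 with k2 | k2
      · rw [SPard_succ hc a b, ← k2]
        have e : c (a, h.2, true) = 0 := by
          rcases k1 with k1 | k1
          · rw [← k1]
            exact z1
          · have e1 : a = h.1 + 1 := by omega
            rw [e1]
            exact z2
        rw [e, zero_add]
      · have e1 : b = h.2 + 1 := by omega
        rw [e1]
    rw [s1]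
    rcases k1 with k1 | k1
    · rw [k1]
    · have e1 : a = h.1 + 1 := by omega
      have h3 := SPard_col hc h.1 (y + R + 1 - (h.2 + 1)).toNat (h.2 + 1) (by omega)
        (Int.self_le_toNat _)
      rw [z4] at h3
      rw [e1]
      exact (SPard_eq h3).symm
  rw [key u hu hf, key v hv hg]

theorem parv_far {c : Edge → ZMod 2} {x y R w : ℤ} (hc : DCh c x y R w) {v : V}
    (h : v.1 < x - R ∨ x + R < v.1 ∨ y + R ≤ v.2 ∨ v.2 < y) : parv c y R v = 0 := by
  obtain ⟨a, b⟩ := v
  simp only at h
  rcases lt_or_ge b y with hb | hb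
  · exact SPard_low hb
  · rw [SPard_par hb]
    refine SPard_zero fun j hj _ => SPard_zt hc ?_
    omega

/-- the vertices around the free faces on the left are inside -/
theorem parv_KW {c : Edge → ZMod 2} {x y R w r s : ℤ} {Z : Set V} (hR : 1 ≤ R) (hc : DCh c x y R w)
    (hs : ∀ e, c e ≠ 0 → (fa e ∈ Z ∧ fb e ∈ Z) ∨ e ∉ Bx x y s) (hZ : (x - 1, y - 1) ∈ Z) (hr : 0 ≤ r)
    (hrs : r + 2 ≤ s) (hw : w < x - s) {h v : V} (hu : KW Z x y r h) (hv : y ≤ v.2) (hf : Ar v h) :
    parv c y R v = 1 := by
  obtain ⟨i0, i1, i2, i3, hreach⟩ := hu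
  have hzero : ∀ g : V, (x - r - 1 ≤ g.1 ∧ g.1 ≤ x + r ∧ y - 1 ≤ g.2 ∧ g.2 ≤ y + r) → g ∉ Z →
      ∀ e, (g = fa e ∨ g = fb e) → c e = 0 := by
    rintro ⟨g1, g2⟩ hg hgZ ⟨a, b, t⟩ he
    by_contra hne
    have h1 := hc.sup _ hne
    rcases hs _ hne with ⟨h2, h3⟩ | h2
    · rcases he with he | he
      · rw [← he] at h2
        exact hgZ h2
      · rw [← he] at h3
        exact hgZ h3
    · apply h2
      rw [Bx, mem_box] at h1 ⊢
      cases t
      · simp only [fa, fb, Prod.mk.injEq, Bool.false_eq_true, if_false] at he h1 hg ⊢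
        simp at h1 ⊢
        omega
      · simp only [fa, fb, Prod.mk.injEq, if_true] at he h1 hg ⊢
        simp at h1 ⊢
        omega
  have hP : (x - r - 1 ≤ h.1 ∧ h.1 ≤ x + r ∧ y - 1 ≤ h.2 ∧ h.2 ≤ y + r) ∧ h ∉ Z ∧
      ∀ v, Ar v h → y ≤ v.2 → parv c y R v = 1 := by
    refine dreach_rec (P := fun g => (x - r - 1 ≤ g.1 ∧ g.1 ≤ x + r ∧ y - 1 ≤ g.2 ∧ g.2 ≤ y + r) ∧
      g ∉ Z ∧ ∀ v, Ar v g → y ≤ v.2 → parv c y R v = 1) ?_ ?_ hreach
    · refine ⟨⟨?_, ?_, ?_, ?_⟩, i3, ?_⟩
      · simp only
        omega
      · simp only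
        omega
      · simp only
        omega
      · simp only
        omega
      · rintro ⟨a, b⟩ ⟨k1, k2⟩ hb
        simp only at k1 k2 hb
        have e1 : b = y := by omega
        have e2 : i0 ≠ x - 1 := by
          rintro rfl
          exact i3 hZ
        rw [e1, parv_bot hR hc, if_pos]
        omega
    · rintro g g' ⟨p1, p2, p3⟩ ⟨e, he, hee⟩
      have he1 := (mem_filter.1 he).1
      have he2 := (mem_filter.1 he).2
      have hg' : g' = fa e ∨ g' = fb e := by
        rcases hee with h1 | h1
        · exact Or.inr h1.2.symm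
        · exact Or.inl h1.1.symm
      have hg : g = fa e ∨ g = fb e := by
        rcases hee with h1 | h1
        · exact Or.inl h1.1.symm
        · exact Or.inr h1.2.symm
      have hrect : x - r - 1 ≤ g'.1 ∧ g'.1 ≤ x + r ∧ y - 1 ≤ g'.2 ∧ g'.2 ≤ y + r := by
        obtain ⟨a, b, t⟩ := e
        rw [Bx, mem_box] at he1
        cases t
        · simp only [fa, fb, Bool.false_eq_true, if_false] at hg'
          simp at he1
          rcases hg' with rfl | rfl
          · simp only
            omega
          · simp only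
            omega
        · simp only [fa, fb, if_true] at hg'
          simp at he1
          rcases hg' with rfl | rfl
          · simp only
            omega
          · simp only
            omega
      have hgZ : g' ∉ Z := by
        rcases hg' with h1 | h1
        · rw [h1]
          exact he2.1
        · rw [h1]
          exact he2.2
      refine ⟨hrect, hgZ, fun v hv1 hv2 => ?_⟩
      have hrow : y ≤ (ea e).2 := by
        obtain ⟨a, b, t⟩ := e
        rw [Bx, mem_box] at he1
        simp only [ea]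
        rcases he1 with h1 | h1
        · exact h1.2.2.2.1
        · exact h1.2.2.2.1
      rw [parv_ar hR hc hv2 hrow (hzero g' hrect hgZ) hv1 (ar_of_edge (Or.inl rfl) hg')]
      exact p3 _ (ar_of_edge (Or.inl rfl) hg) hrow
  exact hP.2.2 v hf hv

/-- the vertices of the strands which start far away are outside -/
theorem parv_seen {c : Edge → ZMod 2} {x y R w : ℤ} (hR : 1 ≤ R) (hc : DCh c x y R w) {D ω : Finset Edge}
    (hcω : ∀ e, c e ≠ 0 → e ∉ ω) (hD : Out D x y R) {S : Set V} (hS : SF S x y R) {p : V}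
    (hp : Seen D S ω p) : parv c y R (vtx p) = 0 := by
  obtain ⟨s, hs, k, hrun, rfl⟩ := hp
  induction k with
  | zero =>
    rw [orb_zero]
    refine parv_far hc ?_
    have h1 := hS s hs
    simp only [vtx]
    omega
  | succ k ih =>
    have ih1 := ih (fun j hj => hrun j (by omega))
    have hed := hrun k (by omega)
    rw [orb_succ]
    by_cases ho : edgeOf (orb ω s k) ∈ ω
    · have h0 : c (edgeOf (orb ω s k)) = 0 := by
        by_contra hne
        exact hcω _ hne ho
      have h2 := parv_edge hR hc hD hed h0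
      rcases (step_open ho).2 with ⟨h3, h4⟩ | ⟨h3, h4⟩
      · rw [h4, ← h2, ← h3]
        exact ih1
      · rw [h4, h2, ← h3]
        exact ih1
    · rw [(step_closed ho).1]
      exact ih1

end FKS
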