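import Pool.Agent.Lib.MP_216314_pr.Sp.SBas

/-!
# JOB SZn: the two-colour potential

`g : V → ZMod 2` is a function on the corners. If its sum over the four corners of every edge of the box is `0`, then there are functions `zv` (vertices) and `zf` (faces) with
`zv (vtx p) + zf (fce p) = g p` for all corners of the vertices of the box.
PROOF. The corners of the vertex `(x, y)`: SW `(2x, 2y)`, SE `(2x+1, 2y)`, NW `(2x, 2y+1)`, NE `(2x+1, 2y+1)`, with faces `(x-1, y-1)`, `(x, y-1)`, `(x-1, y)`, `(x, y)`.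
The hypothesis for the edge `(x, y, false)` is `g (2x+1, 2y) + g (2x+1, 2y+1) + g (2x+2, 2y) + g (2x+2, 2y+1) = 0` and for `(x, y, true)`:
`g (2x, 2y+1) + g (2x+1, 2y+1) + g (2x, 2y+2) + g (2x+1, 2y+2) = 0`.
Let `h (x, y) = g (2x+1, 2y+1) + g (2x+2, 2y+1)` (the step from `(x, y)` to `(x+1, y)` through the face `(x, y)` above), `v (x, y) = g (2x+1, 2y+1) + g (2x+1, 2y+2)` (the
step from `(x, y)` to `(x, y+1)` through the face `(x, y)` on the right). Then in characteristic 2 (`linear_combination`, `CharTwo`, or `decide` on `ZMod 2` variables)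
`h (x, y) + h (x, y+1) = v (x, y) + v (x+1, y)` for `(x, y, true)`, `(x+1, y, true)`, `(x, y+1, false)` edges of the box:
`h (x, y+1) = g (2x+1, 2y+2) + g (2x+2, 2y+2)` by the hypothesis for `(x, y+1, false)` and `v (x+1, y) = g (2x+2, 2y+1) + g (2x+2, 2y+2)` by the hypothesis for `(x+1, y, true)`.
`zv (x, y) = ∑ i ∈ Ico X1 x, h (i, Y1) + ∑ j ∈ Ico Y1 y, v (x, j)`. Then `zv (x, y+1) = zv (x, y) + v (x, y)` (clear) and `zv (x+1, y) = zv (x, y) + h (x, y)` (induction on `y`).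
FACES. For a face `f` put `zf f = zv (vtx p) + g p` for some corner `p` with `fce p = f` and `vtx p` in the box (choice; `0` if there is none). It is enough to show:
if `fce p = fce p'` and `vtx p`, `vtx p'` are in the box, then `zv (vtx p) + g p = zv (vtx p') + g p'`. The corners of the face `(i, j)` are `(2i+1, 2j+1)`, `(2i+2, 2j+1)`,
`(2i+1, 2j+2)`, `(2i+2, 2j+2)` with vertices `(i, j)`, `(i+1, j)`, `(i, j+1)`, `(i+1, j+1)`. Adjacent pairs: definition of `h`, `v` or the hypothesis for the edges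
`(i, j+1, false)`, `(i+1, j, true)`; the two diagonal pairs through an intermediate vertex, which is in the box because the box is a rectangle.
-/

set_option autoImplicit false

noncomputable section

namespace FKS

open Finset FKI FKP
open scoped Classical

/-- the vertex is in the rectangle -/
def InB (X1 X2 Y1 Y2 : ℤ) (u : V) : Prop := X1 ≤ u.1 ∧ u.1 ≤ X2 ∧ Y1 ≤ u.2 ∧ u.2 ≤ Y2

private theorem SZn_two (a : ZMod 2) : a + a = 0 := by
  revert a
  decide

private theorem SZn_Ico {a j : ℤ} (h : a ≤ j) : Ico a (j + 1) = insert j (Ico a j) := by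
  ext k
  simp only [mem_Ico, mem_insert]
  omega

/-- the function of the vertices -/
private def SZn_zv (g : V → ZMod 2) (X1 Y1 : ℤ) (u : V) : ZMod 2 :=
  ∑ i ∈ Ico X1 u.1, (g (2 * i + 1, 2 * Y1 + 1) + g (2 * i + 2, 2 * Y1 + 1)) +
    ∑ j ∈ Ico Y1 u.2, (g (2 * u.1 + 1, 2 * j + 1) + g (2 * u.1 + 1, 2 * j + 2))

private theorem SZn_up (g : V → ZMod 2) (X1 : ℤ) {Y1 : ℤ} (x : ℤ) {y : ℤ} (h : Y1 ≤ y) :
    SZn_zv g X1 Y1 (x, y + 1) = SZn_zv g X1 Y1 (x, y) + (g (2 * x + 1, 2 * y + 1) + g (2 * x + 1, 2 * y + 2)) := by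
  unfold SZn_zv
  simp only
  rw [SZn_Ico h, Finset.sum_insert (by simp)]
  ring

private theorem SZn_right {X1 X2 Y1 Y2 : ℤ} (g : V → ZMod 2)
    (hh : ∀ x y : ℤ, X1 ≤ x → x < X2 → Y1 ≤ y → y ≤ Y2 →
      g (2 * x + 1, 2 * y) + g (2 * x + 1, 2 * y + 1) + g (2 * x + 2, 2 * y) + g (2 * x + 2, 2 * y + 1) = 0)
    (hv : ∀ x y : ℤ, X1 ≤ x → x ≤ X2 → Y1 ≤ y → y < Y2 →
      g (2 * x, 2 * y + 1) + g (2 * x + 1, 2 * y + 1) + g (2 * x, 2 * y + 2) + g (2 * x + 1, 2 * y + 2) = 0)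
    {x : ℤ} (h1 : X1 ≤ x) (h2 : x < X2) : ∀ (k : ℕ), Y1 + k ≤ Y2 →
      SZn_zv g X1 Y1 (x + 1, Y1 + k) = SZn_zv g X1 Y1 (x, Y1 + k) +
        (g (2 * x + 1, 2 * (Y1 + k) + 1) + g (2 * x + 2, 2 * (Y1 + k) + 1)) := by
  intro k
  induction k with
  | zero =>
    intro _
    rw [Nat.cast_zero, add_zero]
    unfold SZn_zv
    simp only
    rw [SZn_Ico h1, Finset.sum_insert (by simp), Finset.Ico_self]
    simp only [Finset.sum_empty, add_zero]
    ring
  | succ k ih =>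
    intro hk
    push_cast at hk ⊢
    have ih' := ih (by omega)
    have e : Y1 + ((k : ℤ) + 1) = (Y1 + k) + 1 := by ring
    rw [e]
    generalize hy : Y1 + (k : ℤ) = y at *
    have hy1 : Y1 ≤ y := by omega
    rw [SZn_up g X1 (x + 1) hy1, SZn_up g X1 x hy1, ih']
    have a1 := hh x (y + 1) h1 h2 (by omega) (by omega)
    have a2 := hv (x + 1) y (by omega) (by omega) hy1 (by omega)
    have t1 : 2 * (x + 1) + 1 = 2 * x + 3 := by ring
    have t2 : 2 * (x + 1) = 2 * x + 2 := by ring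
    have t3 : 2 * (y + 1) = 2 * y + 2 := by ring
    rw [t1, t2] at a2
    rw [t3] at a1
    rw [t1, t3]
    linear_combination a1 + a2 - SZn_two (g (2 * x + 1, 2 * y + 2 + 1)) - SZn_two (g (2 * x + 2, 2 * y + 2 + 1)) -
      SZn_two (g (2 * x + 2, 2 * y + 2)) - SZn_two (g (2 * x + 1, 2 * y + 2))

theorem zn {X1 X2 Y1 Y2 : ℤ} (g : V → ZMod 2)
    (hh : ∀ x y : ℤ, X1 ≤ x → x < X2 → Y1 ≤ y → y ≤ Y2 →
      g (2 * x + 1, 2 * y) + g (2 * x + 1, 2 * y + 1) + g (2 * x + 2, 2 * y) + g (2 * x + 2, 2 * y + 1) = 0)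
    (hv : ∀ x y : ℤ, X1 ≤ x → x ≤ X2 → Y1 ≤ y → y < Y2 →
      g (2 * x, 2 * y + 1) + g (2 * x + 1, 2 * y + 1) + g (2 * x, 2 * y + 2) + g (2 * x + 1, 2 * y + 2) = 0) :
    ∃ zv zf : V → ZMod 2, ∀ p, InB X1 X2 Y1 Y2 (vtx p) → zv (vtx p) + zf (fce p) = g p := by
  set zv := SZn_zv g X1 Y1 with hzv
  have hup : ∀ x y : ℤ, Y1 ≤ y → zv (x, y + 1) = zv (x, y) + (g (2 * x + 1, 2 * y + 1) + g (2 * x + 1, 2 * y + 2)) :=
    fun x y h => SZn_up g X1 x h
  have hrt : ∀ x y : ℤ, X1 ≤ x → x < X2 → Y1 ≤ y → y ≤ Y2 →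
      zv (x + 1, y) = zv (x, y) + (g (2 * x + 1, 2 * y + 1) + g (2 * x + 2, 2 * y + 1)) := by
    intro x y h1 h2 h3 h4
    have h := SZn_right g hh hv h1 h2 (y - Y1).toNat (by omega)
    have e : Y1 + ((y - Y1).toNat : ℤ) = y := by omega
    rw [e] at h
    exact h
  have e1 : ∀ i j : ℤ, X1 ≤ i → i < X2 → Y1 ≤ j → j ≤ Y2 →
      zv (i, j) + g (2 * i + 1, 2 * j + 1) = zv (i + 1, j) + g (2 * i + 2, 2 * j + 1) := by
    intro i j h1 h2 h3 h4
    rw [hrt i j h1 h2 h3 h4]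
    linear_combination - SZn_two (g (2 * i + 2, 2 * j + 1))
  have e3 : ∀ i j : ℤ, X1 ≤ i → i ≤ X2 → Y1 ≤ j → j < Y2 →
      zv (i, j) + g (2 * i + 1, 2 * j + 1) = zv (i, j + 1) + g (2 * i + 1, 2 * j + 2) := by
    intro i j h1 h2 h3 h4
    rw [hup i j h3]
    linear_combination - SZn_two (g (2 * i + 1, 2 * j + 2))
  have e2 : ∀ i j : ℤ, X1 ≤ i → i < X2 → Y1 ≤ j + 1 → j + 1 ≤ Y2 →
      zv (i, j + 1) + g (2 * i + 1, 2 * j + 2) = zv (i + 1, j + 1) + g (2 * i + 2, 2 * j + 2) := by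
    intro i j h1 h2 h3 h4
    rw [hrt i (j + 1) h1 h2 h3 h4]
    have a1 := hh i (j + 1) h1 h2 h3 h4
    have t3 : 2 * (j + 1) = 2 * j + 2 := by ring
    rw [t3] at a1 ⊢
    linear_combination - a1 + SZn_two (g (2 * i + 1, 2 * j + 2))
  have e4 : ∀ i j : ℤ, X1 ≤ i + 1 → i + 1 ≤ X2 → Y1 ≤ j → j < Y2 →
      zv (i + 1, j) + g (2 * i + 2, 2 * j + 1) = zv (i + 1, j + 1) + g (2 * i + 2, 2 * j + 2) := by
    intro i j h1 h2 h3 h4
    rw [hup (i + 1) j h3]
    have a2 := hv (i + 1) j h1 h2 h3 h4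
    have t1 : 2 * (i + 1) + 1 = 2 * i + 3 := by ring
    have t2 : 2 * (i + 1) = 2 * i + 2 := by ring
    rw [t1, t2] at a2
    rw [t1]
    linear_combination - a2 + SZn_two (g (2 * i + 2, 2 * j + 1))
  have hkey : ∀ p p' : V, fce p = fce p' → InB X1 X2 Y1 Y2 (vtx p) → InB X1 X2 Y1 Y2 (vtx p') →
      zv (vtx p) + g p = zv (vtx p') + g p' := by
    have v00 : ∀ i j : ℤ, vtx (2 * i + 1, 2 * j + 1) = (i, j) := fun i j => vtx_eq.2 ⟨Or.inr rfl, Or.inr rfl⟩
    have v10 : ∀ i j : ℤ, vtx (2 * i + 2, 2 * j + 1) = (i + 1, j) :=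
      fun i j => vtx_eq.2 ⟨Or.inl (by show 2 * i + 2 = 2 * (i + 1); ring), Or.inr rfl⟩
    have v01 : ∀ i j : ℤ, vtx (2 * i + 1, 2 * j + 2) = (i, j + 1) :=
      fun i j => vtx_eq.2 ⟨Or.inr rfl, Or.inl (by show 2 * j + 2 = 2 * (j + 1); ring)⟩
    have v11 : ∀ i j : ℤ, vtx (2 * i + 2, 2 * j + 2) = (i + 1, j + 1) :=
      fun i j => vtx_eq.2 ⟨Or.inl (by show 2 * i + 2 = 2 * (i + 1); ring), Or.inl (by show 2 * j + 2 = 2 * (j + 1); ring)⟩
    intro p p' hf hp hp'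
    rcases hq : fce p' with ⟨i, j⟩
    rw [hq] at hf
    rw [fce_eq] at hf hq
    obtain ⟨x, y⟩ := p
    obtain ⟨x', y'⟩ := p'
    simp only at hf hq
    obtain ⟨rfl | rfl, rfl | rfl⟩ := hf
    · obtain ⟨rfl | rfl, rfl | rfl⟩ := hq
      · rfl
      · rw [v00] at hp ⊢
        rw [v01] at hp' ⊢
        obtain ⟨q1, q2, q3, q4⟩ := hp
        obtain ⟨r1, r2, r3, r4⟩ := hp'
        simp only at q1 q2 q3 q4 r1 r2 r3 r4
        exact (e3 _ _ (by omega) (by omega) (by omega) (by omega))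
      · rw [v00] at hp ⊢
        rw [v10] at hp' ⊢
        obtain ⟨q1, q2, q3, q4⟩ := hp
        obtain ⟨r1, r2, r3, r4⟩ := hp'
        simp only at q1 q2 q3 q4 r1 r2 r3 r4
        exact (e1 _ _ (by omega) (by omega) (by omega) (by omega))
      · rw [v00] at hp ⊢
        rw [v11] at hp' ⊢
        obtain ⟨q1, q2, q3, q4⟩ := hp
        obtain ⟨r1, r2, r3, r4⟩ := hp'
        simp only at q1 q2 q3 q4 r1 r2 r3 r4
        exact (e1 _ _ (by omega) (by omega) (by omega) (by omega)).trans (e4 _ _ (by omega) (by omega) (by omega) (by omega))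
    · obtain ⟨rfl | rfl, rfl | rfl⟩ := hq
      · rw [v01] at hp ⊢
        rw [v00] at hp' ⊢
        obtain ⟨q1, q2, q3, q4⟩ := hp
        obtain ⟨r1, r2, r3, r4⟩ := hp'
        simp only at q1 q2 q3 q4 r1 r2 r3 r4
        exact (e3 _ _ (by omega) (by omega) (by omega) (by omega)).symm
      · rfl
      · rw [v01] at hp ⊢
        rw [v10] at hp' ⊢
        obtain ⟨q1, q2, q3, q4⟩ := hp
        obtain ⟨r1, r2, r3, r4⟩ := hp'
        simp only at q1 q2 q3 q4 r1 r2 r3 r4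
        exact (e3 _ _ (by omega) (by omega) (by omega) (by omega)).symm.trans (e1 _ _ (by omega) (by omega) (by omega) (by omega))
      · rw [v01] at hp ⊢
        rw [v11] at hp' ⊢
        obtain ⟨q1, q2, q3, q4⟩ := hp
        obtain ⟨r1, r2, r3, r4⟩ := hp'
        simp only at q1 q2 q3 q4 r1 r2 r3 r4
        exact (e2 _ _ (by omega) (by omega) (by omega) (by omega))
    · obtain ⟨rfl | rfl, rfl | rfl⟩ := hq
      · rw [v10] at hp ⊢
        rw [v00] at hp' ⊢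
        obtain ⟨q1, q2, q3, q4⟩ := hp
        obtain ⟨r1, r2, r3, r4⟩ := hp'
        simp only at q1 q2 q3 q4 r1 r2 r3 r4
        exact (e1 _ _ (by omega) (by omega) (by omega) (by omega)).symm
      · rw [v10] at hp ⊢
        rw [v01] at hp' ⊢
        obtain ⟨q1, q2, q3, q4⟩ := hp
        obtain ⟨r1, r2, r3, r4⟩ := hp'
        simp only at q1 q2 q3 q4 r1 r2 r3 r4
        exact (e1 _ _ (by omega) (by omega) (by omega) (by omega)).symm.trans (e3 _ _ (by omega) (by omega) (by omega) (by omega))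
      · rfl
      · rw [v10] at hp ⊢
        rw [v11] at hp' ⊢
        obtain ⟨q1, q2, q3, q4⟩ := hp
        obtain ⟨r1, r2, r3, r4⟩ := hp'
        simp only at q1 q2 q3 q4 r1 r2 r3 r4
        exact (e4 _ _ (by omega) (by omega) (by omega) (by omega))
    · obtain ⟨rfl | rfl, rfl | rfl⟩ := hq
      · rw [v11] at hp ⊢
        rw [v00] at hp' ⊢
        obtain ⟨q1, q2, q3, q4⟩ := hp
        obtain ⟨r1, r2, r3, r4⟩ := hp'
        simp only at q1 q2 q3 q4 r1 r2 r3 r4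
        exact ((e1 _ _ (by omega) (by omega) (by omega) (by omega)).trans (e4 _ _ (by omega) (by omega) (by omega) (by omega))).symm
      · rw [v11] at hp ⊢
        rw [v01] at hp' ⊢
        obtain ⟨q1, q2, q3, q4⟩ := hp
        obtain ⟨r1, r2, r3, r4⟩ := hp'
        simp only at q1 q2 q3 q4 r1 r2 r3 r4
        exact (e2 _ _ (by omega) (by omega) (by omega) (by omega)).symm
      · rw [v11] at hp ⊢
        rw [v10] at hp' ⊢
        obtain ⟨q1, q2, q3, q4⟩ := hp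
        obtain ⟨r1, r2, r3, r4⟩ := hp'
        simp only at q1 q2 q3 q4 r1 r2 r3 r4
        exact (e4 _ _ (by omega) (by omega) (by omega) (by omega)).symm
      · rfl
  refine ⟨zv, fun f => if h : ∃ p, fce p = f ∧ InB X1 X2 Y1 Y2 (vtx p) then zv (vtx h.choose) + g h.choose else 0, ?_⟩
  intro p hp
  have hex : ∃ q, fce q = fce p ∧ InB X1 X2 Y1 Y2 (vtx q) := ⟨p, rfl, hp⟩
  have hdif : (if h : ∃ q, fce q = fce p ∧ InB X1 X2 Y1 Y2 (vtx q) then zv (vtx h.choose) + g h.choose else 0) =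
      zv (vtx hex.choose) + g hex.choose := dif_pos hex
  show zv (vtx p) + (if h : ∃ q, fce q = fce p ∧ InB X1 X2 Y1 Y2 (vtx q) then zv (vtx h.choose) + g h.choose else 0) = g p
  rw [hdif, hkey hex.choose p hex.choose_spec.1 hex.choose_spec.2 hp]
  linear_combination SZn_two (zv (vtx p))

end FKS
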